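import Mathlib
import Pool.Agent.Helper17.CFamily
import Pool.Agent.Helper17.CFInt
import Pool.Agent.Helper17.Flow
import Pool.Agent.Helper17.FlowODE

set_option maxSynthPendingDepth 3

open scoped ContDiff Topology NNReal
open Set Function Filter MeasureTheory

namespace Pool.Agent.H50.Susp

open Pool.Agent.Helper17

section

variable {E : Type} [NormedAddCommGroup E] [NormedSpace ℝ E]

lemma ode_unique {v : E → E} {K : ℝ≥0} (hv : LipschitzWith K v) {r r' : ℝ → E} {a b : ℝ}
    (h : ∀ s ∈ Icc a b, HasDerivAt r (v (r s)) s)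
    (h' : ∀ s ∈ Icc a b, HasDerivAt r' (v (r' s)) s) (h0 : r a = r' a) :
    EqOn r r' (Icc a b) := by
  refine ODE_solution_unique (v := fun _ => v) (fun _ => hv)
    (fun s hs => (h s hs).continuousAt.continuousWithinAt)
    (fun s hs => (h s (Ico_subset_Icc_self hs)).hasDerivWithinAt)
    (fun s hs => (h' s hs).continuousAt.continuousWithinAt)
    (fun s hs => (h' s (Ico_subset_Icc_self hs)).hasDerivWithinAt) h0

lemma ode_unique_univ {v : E → E} {K : ℝ≥0} (hv : LipschitzWith K v) {r r' : ℝ → E} {a : ℝ}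
    (h : ∀ s, HasDerivAt r (v (r s)) s)
    (h' : ∀ s, HasDerivAt r' (v (r' s)) s) (h0 : r a = r' a) : r = r' :=
  ODE_solution_unique_univ (v := fun _ => v) (s := fun _ => univ)
    (fun _ => hv.lipschitzOnWith) (fun s => ⟨h s, trivial⟩) (fun s => ⟨h' s, trivial⟩) h0

/-- `y` is the value at time one of the solution of `r' = c X(r)`, `r(0) = x`. -/
def IsVal (v : E → E) (c : ℝ) (x y : E) : Prop :=
  ∃ r : ℝ → E, r 0 = x ∧ (∀ s ∈ Icc (0 : ℝ) 1, HasDerivAt r (c • v (r s)) s) ∧ r 1 = y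

lemma IsVal.unique {v : E → E} {K : ℝ≥0} (hv : LipschitzWith K v) {c : ℝ} {x y y' : E}
    (h : IsVal v c x y) (h' : IsVal v c x y') : y = y' := by
  obtain ⟨r, r0, hr, r1⟩ := h
  obtain ⟨r', r0', hr', r1'⟩ := h'
  have hL : LipschitzWith (‖c‖₊ * K) (fun y => c • v y) := by
    have := (lipschitzWith_smul (α := ℝ) (β := E) c).comp hv
    exact this
  have := ode_unique hL hr hr' (r0.trans r0'.symm) (right_mem_Icc.2 zero_le_one)
  rw [← r1, ← r1', this]

end

variable {T : Type} [TopologicalSpace T] [CompactSpace T]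
  {E : Type} [NormedAddCommGroup E] [NormedSpace ℝ E] [FiniteDimensional ℝ E]

/-- Flows at all times in `[-M, M]`. -/
lemma exists_flow_bounded (X : T → E → E) (hX : CF X) {ℓ : ℝ}
    (hℓ : ∀ t x, ‖fderiv ℝ (X t) x‖ ≤ ℓ) (M : ℝ) :
    ∃ θ : T × Icc (-M) M → E → E, CF θ ∧ ∀ q x,
      ∃ (r : ℝ → E) (A : ℝ → E →L[ℝ] E), r 0 = x ∧ A 0 = ContinuousLinearMap.id ℝ E ∧
        (∀ s ∈ Icc (0 : ℝ) 1, HasDerivAt r ((q.2 : ℝ) • X q.1 (r s)) s) ∧
        (∀ s ∈ Icc (0 : ℝ) 1, HasDerivAt A ((q.2 : ℝ) • (fderiv ℝ (X q.1) (r s)).comp (A s)) s) ∧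
        r 1 = θ q x ∧ A 1 = fderiv ℝ (θ q) x := by
  set Y : (T × Icc (-M) M) × Icc (0 : ℝ) 1 → E → E := fun p x => (p.1.2 : ℝ) • X p.1.1 x with hY
  have hYCF : CF Y := by
    apply CF.smul
    · exact CF.param (continuous_subtype_val.comp (continuous_snd.comp continuous_fst))
    · exact hX.base (continuous_fst.comp continuous_fst)
  have hYd : ∀ p x, fderiv ℝ (Y p) x = (p.1.2 : ℝ) • fderiv ℝ (X p.1.1) x := by
    intro p x
    exact ((hX.differentiable p.1.1 x).hasFDerivAt.const_smul (p.1.2 : ℝ)).fderiv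
  have hYb : ∀ p x, ‖fderiv ℝ (Y p) x‖ ≤ |M| * |ℓ| := by
    intro p x
    rw [hYd, norm_smul]
    have h1 : ‖(p.1.2 : ℝ)‖ ≤ |M| := by
      rw [Real.norm_eq_abs, abs_le]
      have := p.1.2.2
      constructor
      · have := neg_abs_le M; have h2 := p.1.2.2.1
        have h3 := le_abs_self M
        linarith
      · exact p.1.2.2.2.trans (le_abs_self M)
    have h2 : ‖fderiv ℝ (X p.1.1) x‖ ≤ |ℓ| := (hℓ _ _).trans (le_abs_self _)
    exact mul_le_mul h1 h2 (norm_nonneg _) (abs_nonneg _)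
  obtain ⟨ρ, hρ, hint, -⟩ := exists_flow Y hYCF hYb
  have h1m : (1 : ℝ) ∈ Icc (0 : ℝ) 1 := right_mem_Icc.2 zero_le_one
  refine ⟨fun q x => ρ (q, ⟨1, h1m⟩) x, hρ.base (continuous_id.prodMk continuous_const), ?_⟩
  intro q x
  obtain ⟨r, A, hr, hA, hr', hA', r0, A0⟩ := flow_ode hYCF hρ hint q x
  refine ⟨r, A, r0, A0, ?_, ?_, hr ⟨1, h1m⟩, hA ⟨1, h1m⟩⟩
  · intro s hs
    exact hr' ⟨s, hs⟩
  · intro s hs
    have := hA' ⟨s, hs⟩
    rw [hYd] at this
    simpa using this

/-- The global flow of a smooth family of autonomous vector fields with bounded derivative. -/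
theorem exists_global_flow (X : T → E → E) (hX : CF X) {ℓ : ℝ}
    (hℓ : ∀ t x, ‖fderiv ℝ (X t) x‖ ≤ ℓ) :
    ∃ θ : T → ℝ → E → E,
      (∀ t x, θ t 0 x = x) ∧
      (∀ t x τ, HasDerivAt (fun τ => θ t τ x) (X t (θ t τ x)) τ) ∧
      (∀ t a b x, θ t (a + b) x = θ t a (θ t b x)) ∧
      (∀ M : ℝ, CF (fun (q : T × Icc (-M) M) x => θ q.1 q.2 x)) ∧
      (∀ t c x, ∃ (r : ℝ → E) (A : ℝ → E →L[ℝ] E), r 0 = x ∧ A 0 = ContinuousLinearMap.id ℝ E ∧
        (∀ s ∈ Icc (0 : ℝ) 1, HasDerivAt r (c • X t (r s)) s) ∧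
        (∀ s ∈ Icc (0 : ℝ) 1, HasDerivAt A (c • (fderiv ℝ (X t) (r s)).comp (A s)) s) ∧
        r 1 = θ t c x ∧ A 1 = fderiv ℝ (θ t c) x) := by
  have hL : ∀ t, LipschitzWith (Real.toNNReal |ℓ|) (X t) := by
    intro t
    apply LipschitzWith.of_dist_le_mul
    intro x y
    rw [dist_eq_norm, dist_eq_norm, Real.coe_toNNReal _ (abs_nonneg _)]
    exact convex_univ.norm_image_sub_le_of_norm_fderiv_le (𝕜 := ℝ)
      (fun z _ => hX.differentiable t z)
      (fun z _ => (hℓ t z).trans (le_abs_self ℓ)) (mem_univ y) (mem_univ x)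
  choose θM hθM hval using fun M : ℝ => exists_flow_bounded X hX hℓ M
  have hmem : ∀ c : ℝ, c ∈ Icc (-|c|) |c| := fun c => ⟨neg_abs_le c, le_abs_self c⟩
  set θ : T → ℝ → E → E := fun t c x => θM |c| (t, ⟨c, hmem c⟩) x with hθ
  have hiv : ∀ t c x, IsVal (X t) c x (θ t c x) := by
    intro t c x
    obtain ⟨r, A, r0, -, hr, -, r1, -⟩ := hval |c| (t, ⟨c, hmem c⟩) x
    exact ⟨r, r0, hr, r1⟩
  have huniq : ∀ M (q : T × Icc (-M) M) x, θM M q x = θ q.1 q.2 x := by
    intro M q x
    obtain ⟨r, A, r0, -, hr, -, r1, -⟩ := hval M q x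
    exact IsVal.unique (hL q.1) ⟨r, r0, hr, r1⟩ (hiv q.1 q.2 x)
  -- scaling
  have hscale : ∀ t x c (r : ℝ → E), r 0 = x →
      (∀ s ∈ Icc (0 : ℝ) 1, HasDerivAt r (c • X t (r s)) s) →
      ∀ s ∈ Icc (0 : ℝ) 1, r s = θ t (c * s) x := by
    intro t x c r r0 hr s hs
    refine IsVal.unique (hL t) (c := c * s) (x := x) ⟨fun u => r (s * u), by simpa using r0, ?_,
      by simp⟩ (hiv t (c * s) x)
    intro u hu
    have hsu : s * u ∈ Icc (0 : ℝ) 1 :=
      ⟨mul_nonneg hs.1 hu.1, mul_le_one₀ hs.2 hu.1 hu.2⟩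
    have h1 := (hr (s * u) hsu).scomp u ((hasDerivAt_id u).const_mul s)
    refine h1.congr_deriv ?_
    simp only [mul_one, smul_smul]
    ring_nf
  have hzero : ∀ t x, θ t 0 x = x := by
    intro t x
    refine (IsVal.unique (hL t) (c := 0) (x := x) ⟨fun _ => x, rfl, ?_, rfl⟩ (hiv t 0 x)).symm
    intro s _
    simpa using hasDerivAt_const s x
  have hder : ∀ t x τ, HasDerivAt (fun τ => θ t τ x) (X t (θ t τ x)) τ := by
    intro t x τ
    -- one sided statements
    have key : ∀ c : ℝ, c ≠ 0 → ∀ s ∈ Icc (0 : ℝ) 1, ∀ S : Set ℝ,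
        (∀ᶠ y in 𝓝[S] (c * s), y / c ∈ Icc (0 : ℝ) 1) → c * s ∈ S →
        HasDerivWithinAt (fun τ => θ t τ x) (X t (θ t (c * s) x)) S (c * s) := by
      intro c hc s hs S hev hmS
      obtain ⟨r, r0, hr, -⟩ := hiv t c x
      have hrs := hscale t x c r r0 hr
      have h0 : (c * s) / c = s := by field_simp
      have h1 : HasDerivAt (fun y => r (y / c)) (X t (r s)) (c * s) := by
        have h2 := (hr s hs)
        rw [← h0] at h2
        have h3 := h2.scomp (c * s) ((hasDerivAt_id (c * s)).div_const c)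
        refine h3.congr_deriv ?_
        rw [h0, smul_smul]
        simp [hc]
      rw [hrs s hs] at h1
      refine h1.hasDerivWithinAt.congr_of_eventuallyEq ?_ ?_
      · filter_upwards [hev] with y hy
        rw [hrs _ hy]
        congr 1
        field_simp
      · simp only [h0]
        rw [hrs s hs]
    rcases lt_trichotomy τ 0 with h | h | h
    · have h1 := key (2 * τ) (by linarith [h] : 2 * τ ≠ 0) (1 / 2) ⟨by norm_num, by norm_num⟩ univ
        (by
          rw [nhdsWithin_univ]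
          have e : 2 * τ * (1 / 2) = τ := by ring
          rw [e]
          have hc : ContinuousAt (fun y : ℝ => y / (2 * τ)) τ :=
            (continuous_id.div_const _).continuousAt
          have h2 : (fun y : ℝ => y / (2 * τ)) τ = 1 / 2 := by
            simp only
            have : τ ≠ 0 := h.ne
            field_simp
          have h3 : Icc (0 : ℝ) 1 ∈ 𝓝 ((fun y : ℝ => y / (2 * τ)) τ) := by
            rw [h2]; exact Icc_mem_nhds (by norm_num) (by norm_num)
          exact hc.eventually_mem h3) trivial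
      have e : 2 * τ * (1 / 2) = τ := by ring
      rw [e, hasDerivWithinAt_univ] at h1
      exact h1
    · subst h
      have hr := key 1 one_ne_zero 0 ⟨le_refl _, zero_le_one⟩ (Ici 0) (by
        simp only [mul_zero, div_one]
        exact Icc_mem_nhdsGE (by norm_num)) (by simp)
      have hl := key (-1) (by norm_num) 0 ⟨le_refl _, zero_le_one⟩ (Iic 0) (by
        simp only [mul_zero]
        have : Icc (-1 : ℝ) 0 ∈ 𝓝[≤] (0 : ℝ) := Icc_mem_nhdsLE (by norm_num)
        filter_upwards [this] with y hy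
        constructor
        · have := hy.2; simp only [div_neg, div_one]; linarith
        · have := hy.1; simp only [div_neg, div_one]; linarith) (by simp)
      simp only [mul_zero] at hr hl
      have := hl.union hr
      rw [Iic_union_Ici, hasDerivWithinAt_univ] at this
      exact this
    · have h1 := key (2 * τ) (by linarith [h] : 2 * τ ≠ 0) (1 / 2) ⟨by norm_num, by norm_num⟩ univ
        (by
          rw [nhdsWithin_univ]
          have e : 2 * τ * (1 / 2) = τ := by ring
          rw [e]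
          have hc : ContinuousAt (fun y : ℝ => y / (2 * τ)) τ :=
            (continuous_id.div_const _).continuousAt
          have h2 : (fun y : ℝ => y / (2 * τ)) τ = 1 / 2 := by
            simp only
            have : τ ≠ 0 := h.ne'
            field_simp
          have h3 : Icc (0 : ℝ) 1 ∈ 𝓝 ((fun y : ℝ => y / (2 * τ)) τ) := by
            rw [h2]; exact Icc_mem_nhds (by norm_num) (by norm_num)
          exact hc.eventually_mem h3) trivial
      have e : 2 * τ * (1 / 2) = τ := by ring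
      rw [e, hasDerivWithinAt_univ] at h1
      exact h1
  refine ⟨θ, hzero, hder, ?_, ?_, ?_⟩
  · intro t a b x
    have h1 : (fun τ => θ t (τ + b) x) = fun τ => θ t τ (θ t b x) := by
      refine ode_unique_univ (hL t) (a := 0) ?_ (fun s => hder t _ s) ?_
      · intro s
        have := (hder t x (s + b)).scomp s ((hasDerivAt_id s).add_const b)
        simpa [Function.comp_def] using this
      · simp only [zero_add, hzero]
    exact congrFun h1 a
  · intro M
    have : (fun (q : T × Icc (-M) M) x => θ q.1 q.2 x) = θM M := by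
      funext q x
      exact (huniq M q x).symm
    rw [this]
    exact hθM M
  · intro t c x
    obtain ⟨r, A, r0, A0, hr, hA, r1, A1⟩ := hval |c| (t, ⟨c, hmem c⟩) x
    exact ⟨r, A, r0, A0, hr, hA, r1, A1⟩

end Pool.Agent.H50.Susp
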