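import Mathlib
import Pool.Agent.Helper17.SympBase
import Pool.Agent.Helper17.CFamily
import Pool.Agent.Helper17.Potential
import Pool.Agent.Helper17.UnitSmoothing
import Pool.Agent.Helper17.SympFamily
import Pool.Agent.H50.Susp.GFlow

set_option maxSynthPendingDepth 3

open scoped ContDiff Topology NNReal
open Set Function Filter MeasureTheory

namespace Pool.Agent.H50.Susp

open Pool.Agent.Helper17

section local_CF

variable {T : Type} [TopologicalSpace T] {E : Type} [NormedAddCommGroup E] [NormedSpace ℝ E]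

lemma CFk.of_local {k : ℕ} : ∀ {E' : Type} [NormedAddCommGroup E'] [NormedSpace ℝ E']
    {F : T → E → E'},
    (∀ x : E, ∃ (U : Set E) (G : T → E → E'), IsOpen U ∧ x ∈ U ∧ CFk T E k E' G ∧
      ∀ t, EqOn (F t) (G t) U) → CFk T E k E' F := by
  have hcont : ∀ {E' : Type} [NormedAddCommGroup E'] [NormedSpace ℝ E'] {k : ℕ}
    {F : T → E → E'},
    (∀ x : E, ∃ (U : Set E) (G : T → E → E'), IsOpen U ∧ x ∈ U ∧ CFk T E k E' G ∧
      ∀ t, EqOn (F t) (G t) U) → Continuous (fun p : T × E => F p.1 p.2) := by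
    intro E' _ _ k F h
    rw [continuous_iff_continuousAt]
    rintro ⟨t, x⟩
    obtain ⟨U, G, hU, hx, hG, hFG⟩ := h x
    have h1 : ContinuousAt (fun p : T × E => G p.1 p.2) (t, x) := (CFk.continuous hG).continuousAt
    refine h1.congr ?_
    have : (univ : Set T) ×ˢ U ∈ 𝓝 (t, x) := (isOpen_univ.prod hU).mem_nhds ⟨trivial, hx⟩
    filter_upwards [this] with p hp
    exact (hFG p.1 hp.2).symm
  induction k with
  | zero =>
    intro E' _ _ F h
    exact hcont h
  | succ k ih =>
    intro E' _ _ F h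
    refine ⟨hcont h, ?_, ?_⟩
    · intro t x
      obtain ⟨U, G, hU, hx, hG, hFG⟩ := h x
      have h1 : DifferentiableAt ℝ (G t) x := hG.2.1 t x
      exact h1.congr_of_eventuallyEq ((hFG t).eventuallyEq_of_mem (hU.mem_nhds hx))
    · apply ih
      intro x
      obtain ⟨U, G, hU, hx, hG, hFG⟩ := h x
      refine ⟨U, fun t x => fderiv ℝ (G t) x, hU, hx, hG.2.2, ?_⟩
      intro t y hy
      exact Filter.EventuallyEq.fderiv_eq ((hFG t).eventuallyEq_of_mem (hU.mem_nhds hy))

lemma CF.of_local {E' : Type} [NormedAddCommGroup E'] [NormedSpace ℝ E'] {F : T → E → E'}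
    (h : ∀ x : E, ∃ (U : Set E) (G : T → E → E'), IsOpen U ∧ x ∈ U ∧ CF G ∧
      ∀ t, EqOn (F t) (G t) U) : CF F := by
  intro k
  apply CFk.of_local
  intro x
  obtain ⟨U, G, hU, hx, hG, hFG⟩ := h x
  exact ⟨U, G, hU, hx, hG k, hFG⟩

end local_CF

section bounds

variable {T : Type} [TopologicalSpace T] [CompactSpace T] {E : Type} [NormedAddCommGroup E]
  [NormedSpace ℝ E] [FiniteDimensional ℝ E]

lemma exists_bound_of_support {F : Type*} [NormedAddCommGroup F] {G : T → E → F} {R : ℝ}
    (hG : Continuous (fun p : T × E => G p.1 p.2)) (h0 : ∀ t x, R < ‖x‖ → G t x = 0) :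
    ∃ C : ℝ, 0 ≤ C ∧ ∀ t x, ‖G t x‖ ≤ C := by
  have : ProperSpace E := FiniteDimensional.proper_real E
  have hK : IsCompact ((univ : Set T) ×ˢ Metric.closedBall (0 : E) R) :=
    isCompact_univ.prod (isCompact_closedBall 0 R)
  obtain ⟨C, hC⟩ := hK.exists_bound_of_continuousOn hG.continuousOn
  refine ⟨max C 0, le_max_right _ _, fun t x => ?_⟩
  by_cases hx : R < ‖x‖
  · rw [h0 t x hx, norm_zero]; exact le_max_right _ _
  · exact (hC (t, x) ⟨trivial, by simpa using hx⟩).trans (le_max_left _ _)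

lemma exists_pos_lower {G : T → E → ℝ} {R : ℝ}
    (hG : Continuous (fun p : T × E => G p.1 p.2)) (hpos : ∀ t x, 0 < G t x)
    (h1 : ∀ t x, R < ‖x‖ → G t x = 1) :
    ∃ δ : ℝ, 0 < δ ∧ ∀ t x, δ ≤ G t x := by
  have : ProperSpace E := FiniteDimensional.proper_real E
  have hK : IsCompact ((univ : Set T) ×ˢ Metric.closedBall (0 : E) R) :=
    isCompact_univ.prod (isCompact_closedBall 0 R)
  rcases ((univ : Set T) ×ˢ Metric.closedBall (0 : E) R).eq_empty_or_nonempty with he | hne
  · refine ⟨1, one_pos, fun t x => ?_⟩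
    by_cases hx : R < ‖x‖
    · exact (h1 t x hx).ge
    · exfalso
      have : (t, x) ∈ (univ : Set T) ×ˢ Metric.closedBall (0 : E) R := ⟨trivial, by simpa using hx⟩
      rw [he] at this
      exact this
  · obtain ⟨q, hq, hmin⟩ := hK.exists_isMinOn hne hG.continuousOn
    refine ⟨min (G q.1 q.2) 1, lt_min (hpos _ _) one_pos, fun t x => ?_⟩
    by_cases hx : R < ‖x‖
    · rw [h1 t x hx]; exact min_le_right _ _
    · exact (min_le_left _ _).trans (hmin (a := (t, x)) ⟨trivial, by simpa using hx⟩)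

end bounds

section coords

variable {N : ℕ}

/-- The unit vector in the direction of `x_i`. -/
noncomputable def eX (i : Fin N) : Phase N := EuclideanSpace.single (Sum.inl i) 1

/-- The unit vector in the direction of `y_i`. -/
noncomputable def eY (i : Fin N) : Phase N := EuclideanSpace.single (Sum.inr i) 1

/-- The Hamiltonian vector field of `f`; for `f = x_i` it is `∂/∂y_i`. -/
noncomputable def hamV (f : Phase N → ℝ) (p : Phase N) : Phase N := -(sharp N (fderiv ℝ f p))

lemma eY_inr (i : Fin N) : (eY i : Phase N) (Sum.inr i) = 1 := by simp [eY]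

lemma eY_inl (i j : Fin N) : (eY i : Phase N) (Sum.inl j) = 0 := by simp [eY]

lemma norm_eY (i : Fin N) : ‖(eY i : Phase N)‖ = 1 := by simp [eY]

lemma abs_coord_le (p : Phase N) (k : Fin N ⊕ Fin N) : |p k| ≤ ‖p‖ := by
  have := PiLp.norm_apply_le p k
  simpa using this

/-- The component of `p` orthogonal to the direction of `y_i`. -/
noncomputable def side (i : Fin N) (p : Phase N) : Phase N := p - p (Sum.inr i) • eY i

lemma side_add_smul (i : Fin N) (p : Phase N) (a : ℝ) : side i (p + a • eY i) = side i p := by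
  simp only [side, PiLp.add_apply, PiLp.smul_apply, eY_inr, smul_eq_mul, mul_one, add_smul]
  abel

lemma norm_side_le (i : Fin N) (p : Phase N) : ‖side i p‖ ≤ ‖p‖ := by
  have h1 : inner ℝ (side i p) (eY i) = 0 := by
    simp [side, eY, inner_sub_left, inner_smul_left, EuclideanSpace.inner_single_right]
  have h2 : p = side i p + p (Sum.inr i) • eY i := by simp [side]
  have h3 : ‖p‖ ^ 2 = ‖side i p‖ ^ 2 + ‖p (Sum.inr i) • (eY i : Phase N)‖ ^ 2 := by
    conv_lhs => rw [h2]
    rw [norm_add_sq_real, inner_smul_right, h1]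
    ring
  have h4 : ‖side i p‖ ^ 2 ≤ ‖p‖ ^ 2 := by rw [h3]; nlinarith [sq_nonneg ‖p (Sum.inr i) • (eY i : Phase N)‖]
  exact le_of_sq_le_sq h4 (norm_nonneg _)

end coords

section straight

variable {N : ℕ} {T : Type} [TopologicalSpace T]

/-- Families of pairs of functions with positive Poisson bracket, equal to `x_i`, `y_i` outside
the ball of radius `R`. -/
structure PosPair (i : Fin N) (R : ℝ) (f g : T → Phase N → ℝ) : Prop where
  cf : CF f
  cg : CF g
  fstd : ∀ t p, R < ‖p‖ → f t p = p (Sum.inl i)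
  gstd : ∀ t p, R < ‖p‖ → g t p = p (Sum.inr i)
  pos : ∀ t p, 0 < fderiv ℝ (g t) p (hamV (f t) p)

/-- Straightening of a family of functions. -/
structure StraightFam (i : Fin N) (ρ : ℝ) (f : T → Phase N → ℝ) (Φ Ψ : T → Phase N → Phase N) :
    Prop where
  cf : CF Φ
  cf' : CF Ψ
  inv_left : ∀ t p, Ψ t (Φ t p) = p
  inv_right : ∀ t p, Φ t (Ψ t p) = p
  symp : ∀ t p u v, omegaStd (fderiv ℝ (Φ t) p u) (fderiv ℝ (Φ t) p v) = omegaStd u v
  left : ∀ t p, p (Sum.inr i) < -ρ → Φ t p = p
  side : ∀ t p, ρ < ‖side i p‖ → Φ t p = p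
  shift : ∀ t p (a : ℝ), ρ < p (Sum.inr i) → 0 ≤ a → Φ t (p + a • eY i) = Φ t p + a • eY i
  energy : ∀ t p, (Φ t p) (Sum.inl i) = f t p
  eq_of : ∀ t (φ : SympCt N), (∀ p, f t p = (φ : Equiv.Perm (Phase N)) p (Sum.inl i)) →
    ∀ p, Φ t p = (φ : Equiv.Perm (Phase N)) p

lemma isOpen_outside (R : ℝ) : IsOpen {p : Phase N | R < ‖p‖} :=
  isOpen_lt continuous_const continuous_norm

/-- The coordinate functional. -/
noncomputable def coordL (k : Fin N ⊕ Fin N) : Phase N →L[ℝ] ℝ := EuclideanSpace.proj k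

lemma coordL_apply (k : Fin N ⊕ Fin N) (p : Phase N) : coordL k p = p k := rfl

lemma sharp_coordL (i : Fin N) : sharp N (coordL (Sum.inl i)) = -eY i := by
  rw [← sub_eq_zero]
  apply eq_zero_of_omegaStd
  intro v
  rw [omegaStd_sub_left, omegaStd_sharp]
  simp [coordL_apply, omegaStd, eY]

lemma fderiv_of_std {f : Phase N → ℝ} {R : ℝ} {k : Fin N ⊕ Fin N}
    (h : ∀ p, R < ‖p‖ → f p = p k) {p : Phase N} (hp : R < ‖p‖) :
    fderiv ℝ f p = coordL k := by
  have h1 : f =ᶠ[𝓝 p] coordL k := by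
    filter_upwards [(isOpen_outside R).mem_nhds hp] with q hq
    exact h q hq
  rw [h1.fderiv_eq, ContinuousLinearMap.fderiv]

lemma hamV_of_std {f : Phase N → ℝ} {R : ℝ} {i : Fin N}
    (h : ∀ p, R < ‖p‖ → f p = p (Sum.inl i)) {p : Phase N} (hp : R < ‖p‖) :
    hamV f p = eY i := by
  rw [hamV, fderiv_of_std h hp, sharp_coordL, neg_neg]

lemma CF_hamV {f : T → Phase N → ℝ} (hf : CF f) : CF (fun t p => hamV (f t) p) :=
  hf.fderiv.clm (-(sharp N))

lemma omegaStd_hamV (f : Phase N → ℝ) (p v : Phase N) :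
    omegaStd (hamV f p) v = -(fderiv ℝ f p v) := by
  have h1 : hamV f p = (-1 : ℝ) • sharp N (fderiv ℝ f p) := by simp [hamV]
  rw [h1, omegaStd_smul_left, omegaStd_sharp]
  ring

lemma fderiv_hamV_self (f : Phase N → ℝ) (p : Phase N) : fderiv ℝ f p (hamV f p) = 0 := by
  have h1 := omegaStd_hamV f p (hamV f p)
  rw [omegaStd_self] at h1
  linarith

lemma fderiv_hamV_symm {f : Phase N → ℝ} (hf : ContDiff ℝ ∞ f) (x a b : Phase N) :
    omegaStd (fderiv ℝ (fun p => hamV f p) x a) b +
      omegaStd a (fderiv ℝ (fun p => hamV f p) x b) = 0 := by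
  have hf1 : ContDiff ℝ ∞ (fderiv ℝ f) := hf.fderiv_right (by simp)
  have h1 : ∀ a, fderiv ℝ (fun p => hamV f p) x a =
      (-1 : ℝ) • sharp N (fderiv ℝ (fderiv ℝ f) x a) := by
    intro a
    have h2 : HasFDerivAt (fun p => hamV f p) ((-(sharp N)).comp (fderiv ℝ (fderiv ℝ f) x)) x :=
      (-(sharp N)).hasFDerivAt.comp x (hf1.differentiable (by simp) x).hasFDerivAt
    rw [h2.fderiv]
    simp
  have hsymm : fderiv ℝ (fderiv ℝ f) x a b = fderiv ℝ (fderiv ℝ f) x b a :=
    (hf.contDiffAt (x := x)).isSymmSndFDerivAt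
      (by rw [minSmoothness_of_isRCLikeNormedField]; exact WithTop.coe_le_coe.2 le_top) a b
  rw [h1, h1, omegaStd_smul_left, omegaStd_smul_right, omegaStd_swap a, omegaStd_sharp,
    omegaStd_sharp, hsymm]
  ring

lemma hamV_symp {i : Fin N} {f : Phase N → ℝ} (φ : SympCt N)
    (h : ∀ p, f p = (φ : Equiv.Perm (Phase N)) p (Sum.inl i)) (z : Phase N) :
    hamV f z = fderiv ℝ (φ : Equiv.Perm (Phase N)).symm ((φ : Equiv.Perm (Phase N)) z) (eY i) := by
  rw [← sub_eq_zero]
  apply eq_zero_of_omegaStd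
  intro v
  rw [omegaStd_sub_left, omegaStd_hamV]
  have hf : f = fun p => coordL (Sum.inl i) ((φ : Equiv.Perm (Phase N)) p) := funext h
  have h1 : fderiv ℝ f z = (coordL (Sum.inl i)).comp (fderiv ℝ (φ : Equiv.Perm (Phase N)) z) := by
    rw [hf]
    exact ((coordL (Sum.inl i)).hasFDerivAt.comp z (SympCt.differentiable φ z).hasFDerivAt).fderiv
  have h2 : omegaStd (fderiv ℝ (φ : Equiv.Perm (Phase N)).symm
      ((φ : Equiv.Perm (Phase N)) z) (eY i)) v =
      omegaStd (eY i) (fderiv ℝ (φ : Equiv.Perm (Phase N)) z v) := by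
    rw [← φ.2.2.2.1 z]
    congr 1
    have h3 : (fderiv ℝ (φ : Equiv.Perm (Phase N)) z).comp
        (fderiv ℝ (φ : Equiv.Perm (Phase N)).symm ((φ : Equiv.Perm (Phase N)) z)) =
        ContinuousLinearMap.id ℝ _ := by
      have h4 : HasFDerivAt (fun p => (φ : Equiv.Perm (Phase N))
          ((φ : Equiv.Perm (Phase N)).symm p)) _ ((φ : Equiv.Perm (Phase N)) z) :=
        HasFDerivAt.comp _ (SympCt.differentiable φ _).hasFDerivAt
          (((SympCt.contDiff_symm φ).differentiable (by simp) _).hasFDerivAt)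
      simp only [Equiv.apply_symm_apply, Equiv.symm_apply_apply] at h4
      exact h4.unique (hasFDerivAt_id _)
    exact congrArg (fun L : Phase N →L[ℝ] Phase N => L (eY i)) h3
  rw [h2, h1]
  simp [coordL_apply, omegaStd, eY]

theorem exists_straightFam [CompactSpace T] {i : Fin N} {R : ℝ} (hR : 0 ≤ R)
    {f g : T → Phase N → ℝ} (h : PosPair i R f g) :
    ∃ Φ Ψ : T → Phase N → Phase N, StraightFam i R f Φ Ψ := by
  set X : T → Phase N → Phase N := fun t p => hamV (f t) p with hXdef
  have hX : CF X := CF_hamV h.cf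
  have hX1 : ∀ t p, R < ‖p‖ → X t p = eY i := fun t p hp => hamV_of_std (h.fstd t) hp
  have hXd : ∀ t p, R < ‖p‖ → fderiv ℝ (X t) p = 0 := by
    intro t p hp
    have h1 : X t =ᶠ[𝓝 p] fun _ => eY i := by
      filter_upwards [(isOpen_outside R).mem_nhds hp] with q hq
      exact hX1 t q hq
    rw [h1.fderiv_eq]
    exact fderiv_const_apply _
  obtain ⟨ℓ, hℓ0, hℓ⟩ := exists_bound_of_support hX.fderiv.continuous hXd
  obtain ⟨θ, hθ0, hθd, hθg, hθCF, hval⟩ := exists_global_flow X hX hℓ
  have hL : ∀ t, LipschitzWith (Real.toNNReal ℓ) (X t) := by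
    intro t
    apply LipschitzWith.of_dist_le_mul
    intro x y
    rw [dist_eq_norm, dist_eq_norm, Real.coe_toNNReal _ hℓ0]
    exact convex_univ.norm_image_sub_le_of_norm_fderiv_le (𝕜 := ℝ)
      (fun z _ => hX.differentiable t z) (fun z _ => hℓ t z) (mem_univ y) (mem_univ x)
  -- straight motion
  have straight : ∀ t p (c : ℝ), (∀ u ∈ Icc (0 : ℝ) 1, R < ‖p + (u * c) • eY i‖) →
      θ t c p = p + c • eY i := by
    intro t p c hc
    obtain ⟨r, A, r0, -, hr, -, r1, -⟩ := hval t c p
    have hLc : LipschitzWith (‖c‖₊ * Real.toNNReal ℓ) (fun y => c • X t y) :=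
      (lipschitzWith_smul (α := ℝ) (β := Phase N) c).comp (hL t)
    have h1 := ode_unique hLc hr (r' := fun u => p + (u * c) • eY i) (by
      intro s hs
      have h2 : HasDerivAt (fun u : ℝ => p + (u * c) • (eY i : Phase N)) ((1 * c) • eY i) s :=
        (((hasDerivAt_id s).mul_const c).smul_const (eY i)).const_add p
      refine h2.congr_deriv ?_
      rw [hX1 t _ (hc s hs), one_mul]) (by simp [r0])
    have h2 := h1 (right_mem_Icc.2 zero_le_one)
    rw [← r1, h2]
    simp only [one_mul]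
  -- the pair `g` increases along the flow
  obtain ⟨δ, hδ, hδle⟩ := exists_pos_lower (G := fun t p => fderiv ℝ (g t) p (X t p)) (R := R)
    (h.cg.fderiv.clm_apply hX).continuous h.pos (by
      intro t p hp
      rw [hX1 t p hp, fderiv_of_std (h.gstd t) hp, coordL_apply, eY_inr])
  obtain ⟨C, hC0, hC⟩ := exists_bound_of_support (G := fun t (p : Phase N) =>
    g t p - p (Sum.inr i)) (R := R) (h.cg.continuous.sub
      ((coordL (Sum.inr i)).continuous.comp continuous_snd)) (by
      intro t p hp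
      change g t p - p (Sum.inr i) = 0
      rw [h.gstd t p hp, sub_self])
  have hprog : ∀ t p (c : ℝ), 0 ≤ c → g t (θ t (-c) p) ≤ g t p - δ * c := by
    intro t p c hc
    have hd : ∀ s, HasDerivAt (fun s => g t (θ t s p) - δ * s)
        (fderiv ℝ (g t) (θ t s p) (X t (θ t s p)) - δ * 1) s := fun s =>
      ((h.cg.differentiable t _).hasFDerivAt.comp_hasDerivAt s (hθd t p s)).sub
        ((hasDerivAt_id s).const_mul δ)
    have hmono : Monotone (fun s => g t (θ t s p) - δ * s) := by
      apply monotone_of_deriv_nonneg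
      · intro s; exact (hd s).differentiableAt
      · intro s
        rw [(hd s).deriv]
        have := hδle t (θ t s p)
        linarith
    have h1 := hmono (show -c ≤ 0 by linarith)
    simp only [hθ0, mul_zero, sub_zero] at h1
    linarith
  have henergy : ∀ t (c : ℝ) p, f t (θ t c p) = f t p := by
    intro t c p
    have hd : ∀ s, HasDerivAt (fun s => f t (θ t s p))
        (fderiv ℝ (f t) (θ t s p) (X t (θ t s p))) s := fun s =>
      (h.cf.differentiable t _).hasFDerivAt.comp_hasDerivAt s (hθd t p s)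
    have h1 := is_const_of_deriv_eq_zero (f := fun s => f t (θ t s p))
      (fun s => (hd s).differentiableAt) (fun s => by
        rw [(hd s).deriv]; exact fderiv_hamV_self (f t) _) c 0
    simpa only [hθ0] using h1
  have hsymp : ∀ t (c : ℝ) p u v, omegaStd (fderiv ℝ (θ t c) p u) (fderiv ℝ (θ t c) p v) =
      omegaStd u v := by
    intro t c p u v
    obtain ⟨r, A, r0, A0, hr, hA, r1, A1⟩ := hval t c p
    have hder : ∀ s ∈ Icc (0 : ℝ) 1, HasDerivAt (fun s => omegaStd (A s u) (A s v)) 0 s := by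
      intro s hs
      set D := fderiv ℝ (X t) (r s) with hD
      have hau : HasDerivAt (fun s => A s u) ((c • D.comp (A s)) u) s := by
        have := (hA s hs).clm_apply (hasDerivAt_const s u)
        simpa using this
      have hav : HasDerivAt (fun s => A s v) ((c • D.comp (A s)) v) s := by
        have := (hA s hs).clm_apply (hasDerivAt_const s v)
        simpa using this
      have h1 : HasDerivAt (fun s => omegaStd (A s u) (A s v))
          (omegaStd ((c • D.comp (A s)) u) (A s v) + omegaStd (A s u) ((c • D.comp (A s)) v)) s := by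
        exact ((omegaB N).hasFDerivAt.comp_hasDerivAt s hau).clm_apply hav
      refine h1.congr_deriv ?_
      have h2 := fderiv_hamV_symm (h.cf.contDiff t) (r s) (A s u) (A s v)
      have h3 : (c • D.comp (A s)) u = c • (D (A s u)) := rfl
      have h4 : (c • D.comp (A s)) v = c • (D (A s v)) := rfl
      rw [h3, h4, omegaStd_smul_left, omegaStd_smul_right, ← mul_add]
      have h5 : omegaStd (D (A s u)) (A s v) + omegaStd (A s u) (D (A s v)) = 0 := h2
      rw [h5, mul_zero]
    have hconst := (convex_Icc (0 : ℝ) 1).norm_image_sub_le_of_norm_hasDerivWithin_le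
      (f := fun s => omegaStd (A s u) (A s v)) (f' := fun _ => 0) (C := 0)
      (fun t ht => (hder t ht).hasDerivWithinAt)
      (fun t _ => by simp) (left_mem_Icc.2 zero_le_one) (right_mem_Icc.2 zero_le_one)
    rw [zero_mul, norm_le_zero_iff, sub_eq_zero] at hconst
    rw [← A1, hconst, A0]
    simp
  -- the time needed
  set τ₀ : ℝ → ℝ := fun a => (a + R + 2 * C + 1) / δ with hτ₀
  have hτ₀mono : Monotone τ₀ := by
    intro a b hab
    simp only [hτ₀]
    gcongr
  have hτ₀nn : ∀ a, 0 ≤ a → 0 ≤ τ₀ a := fun a ha => by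
    simp only [hτ₀]; positivity
  have hleft : ∀ t (q : Phase N) (c : ℝ), 0 ≤ c → q (Sum.inr i) < -R →
      θ t (-c) q = q - c • eY i := by
    intro t q c hc hq
    rw [straight t q (-c), neg_smul, sub_eq_add_neg]
    intro u hu
    have h1 := abs_coord_le (q + (u * -c) • eY i) (Sum.inr i)
    simp only [PiLp.add_apply, PiLp.smul_apply, eY_inr, smul_eq_mul, mul_one] at h1
    have h2 : q (Sum.inr i) + u * -c < -R := by nlinarith [hu.1]
    have h3 := neg_abs_le (q (Sum.inr i) + u * -c)
    linarith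
  have harr : ∀ t (q : Phase N) (c : ℝ), τ₀ |q (Sum.inr i)| ≤ c →
      (θ t (-c) q) (Sum.inr i) < -R := by
    intro t q c hc
    have hc0 : 0 ≤ c := (hτ₀nn _ (abs_nonneg _)).trans hc
    have h1 := hprog t q c hc0
    have h2 := hC t (θ t (-c) q)
    have h3 := hC t q
    rw [Real.norm_eq_abs, abs_le] at h2 h3
    have h4 : |q (Sum.inr i)| + R + 2 * C + 1 ≤ δ * c := by
      have := mul_le_mul_of_nonneg_left hc hδ.le
      simp only [hτ₀] at this
      rwa [mul_div_cancel₀ _ hδ.ne'] at this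
    have h5 := le_abs_self (q (Sum.inr i))
    linarith [h2.1, h3.2]
  set Φ : T → Phase N → Phase N := fun t p =>
    θ t (-(τ₀ |p (Sum.inr i)|)) p + (τ₀ |p (Sum.inr i)|) • eY i with hΦdef
  have hΦ : ∀ t p (c : ℝ), τ₀ |p (Sum.inr i)| ≤ c → Φ t p = θ t (-c) p + c • eY i := by
    intro t p c hc
    set c₀ := τ₀ |p (Sum.inr i)| with hc₀
    have h1 : θ t (-c) p = θ t (-(c - c₀)) (θ t (-c₀) p) := by
      rw [← hθg]; congr 1; ring
    rw [h1, hleft t _ (c - c₀) (by linarith) (harr t p c₀ le_rfl)]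
    simp only [hΦdef, ← hc₀]
    rw [sub_smul]
    abel
  set Ψ : T → Phase N → Phase N := fun t q =>
    θ t (|q (Sum.inr i)| + R + 1) (q - (|q (Sum.inr i)| + R + 1) • eY i) with hΨdef
  have hΨ : ∀ t q (c : ℝ), |q (Sum.inr i)| + R + 1 ≤ c → Ψ t q = θ t c (q - c • eY i) := by
    intro t q c hc
    set c₀ := |q (Sum.inr i)| + R + 1 with hc₀
    have h0 : (q - c₀ • eY i : Phase N) (Sum.inr i) < -R := by
      simp only [PiLp.sub_apply, PiLp.smul_apply, eY_inr, smul_eq_mul, mul_one]
      have := le_abs_self (q (Sum.inr i))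
      linarith
    have h1 := hleft t _ (c - c₀) (by linarith) h0
    have h2 : q - c • eY i = θ t (-(c - c₀)) (q - c₀ • eY i) := by
      rw [h1, sub_smul]; abel
    rw [h2, ← hθg]
    simp only [hΨdef, ← hc₀]
    congr 1
    ring
  have hopen : ∀ a : ℝ, IsOpen {p : Phase N | |p (Sum.inr i)| < a} := fun a =>
    isOpen_lt ((coordL (Sum.inr i)).continuous.abs) continuous_const
  have hfix : ∀ c : ℝ, CF (fun t p => θ t c p) := by
    intro c
    have hm : c ∈ Icc (-|c|) |c| := ⟨neg_abs_le c, le_abs_self c⟩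
    exact (hθCF |c|).base (h := fun t : T => (t, (⟨c, hm⟩ : Icc (-|c|) |c|)))
      (continuous_id.prodMk continuous_const)
  refine ⟨Φ, Ψ, ?_⟩
  constructor
  · -- smooth family
    apply CF.of_local
    intro x
    set a := |x (Sum.inr i)| + 1 with ha
    refine ⟨{p | |p (Sum.inr i)| < a}, fun t p => θ t (-(τ₀ a)) p + (τ₀ a) • eY i, hopen a,
      by simp [ha], (hfix _).add (CF.const contDiff_const), ?_⟩
    intro t p hp
    exact hΦ t p _ (hτ₀mono (le_of_lt hp))
  · apply CF.of_local
    intro x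
    set a := |x (Sum.inr i)| + 1 with ha
    refine ⟨{p | |p (Sum.inr i)| < a}, fun t p => θ t (a + R + 1) (p - (a + R + 1) • eY i),
      hopen a, by simp [ha], (hfix _).comp (CF.const (contDiff_id.sub contDiff_const)), ?_⟩
    intro t p hp
    have hp' : |p (Sum.inr i)| < a := hp
    exact hΨ t p _ (by linarith)
  · intro t p
    set c := max (τ₀ |p (Sum.inr i)|) (|(Φ t p) (Sum.inr i)| + R + 1) with hc
    rw [hΨ t (Φ t p) c (le_max_right _ _), hΦ t p c (le_max_left _ _), add_sub_cancel_right,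
      ← hθg, add_neg_cancel, hθ0]
  · intro t q
    set c := max (τ₀ |(Ψ t q) (Sum.inr i)|) (|q (Sum.inr i)| + R + 1) with hc
    rw [hΦ t (Ψ t q) c (le_max_left _ _), hΨ t q c (le_max_right _ _), ← hθg, neg_add_cancel, hθ0,
      sub_add_cancel]
  · intro t p u v
    set a := |p (Sum.inr i)| + 1 with ha
    have h1 : Φ t =ᶠ[𝓝 p] fun p => θ t (-(τ₀ a)) p + (τ₀ a) • eY i := by
      filter_upwards [(hopen a).mem_nhds (show |p (Sum.inr i)| < a by simp [ha])] with q hq
      exact hΦ t q _ (hτ₀mono (le_of_lt hq))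
    have h2 : fderiv ℝ (Φ t) p = fderiv ℝ (θ t (-(τ₀ a))) p := by
      rw [h1.fderiv_eq, fderiv_add_const]
    rw [h2, hsymp]
  · intro t p hp
    have h1 := hτ₀nn |p (Sum.inr i)| (abs_nonneg _)
    simp only [hΦdef]
    rw [hleft t p _ h1 hp]
    abel
  · intro t p hp
    simp only [hΦdef]
    rw [straight t p]
    · rw [neg_smul]; abel
    · intro u hu
      refine lt_of_lt_of_le ?_ (norm_side_le i _)
      rw [side_add_smul]
      exact hp
  · intro t p a hp ha
    have h1 : θ t a p = p + a • eY i := by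
      apply straight
      intro u hu
      have h2 := abs_coord_le (p + (u * a) • eY i) (Sum.inr i)
      simp only [PiLp.add_apply, PiLp.smul_apply, eY_inr, smul_eq_mul, mul_one] at h2
      have h3 := le_abs_self (p (Sum.inr i) + u * a)
      have h4 : 0 ≤ u * a := mul_nonneg hu.1 ha
      linarith
    set c := max (τ₀ (abs (p (Sum.inr i)))) (τ₀ (abs ((p + a • eY i : Phase N) (Sum.inr i))))
      with hc
    have hc1 : τ₀ (abs (p (Sum.inr i))) ≤ c := le_max_left _ _
    have hc2 : τ₀ (abs ((p + a • eY i : Phase N) (Sum.inr i))) ≤ c := le_max_right _ _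
    rw [hΦ t (p + a • eY i) (c + a) (by linarith), hΦ t p c hc1, ← h1, ← hθg, add_smul]
    have h5 : -(c + a) + a = -c := by ring
    rw [h5]
    abel
  · intro t p
    set c := τ₀ |p (Sum.inr i)| with hc
    have h1 := harr t p c le_rfl
    have h2 : f t (θ t (-c) p) = (θ t (-c) p) (Sum.inl i) := by
      apply h.fstd
      have h3 := abs_coord_le (θ t (-c) p) (Sum.inr i)
      have h4 := neg_abs_le ((θ t (-c) p) (Sum.inr i))
      linarith
    rw [hΦ t p c le_rfl, PiLp.add_apply, PiLp.smul_apply, eY_inl, smul_zero, add_zero, ← h2,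
      henergy]
  · intro t φ hφ p
    have h1 : ∀ c : ℝ, θ t c p = (φ : Equiv.Perm (Phase N)).symm
        ((φ : Equiv.Perm (Phase N)) p + c • eY i) := by
      intro c
      have h2 := ode_unique_univ (hL t) (r := fun s => θ t s p) (r' := fun s : ℝ =>
        (φ : Equiv.Perm (Phase N)).symm ((φ : Equiv.Perm (Phase N)) p + s • eY i)) (a := 0)
        (fun s => hθd t p s) (by
          intro s
          have h3 : HasDerivAt (fun s : ℝ => (φ : Equiv.Perm (Phase N)) p + s • (eY i : Phase N))
              ((1 : ℝ) • eY i) s := ((hasDerivAt_id s).smul_const (eY i)).const_add _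
          have h4 := ((SympCt.contDiff_symm φ).differentiable (by simp)
            ((φ : Equiv.Perm (Phase N)) p + s • eY i)).hasFDerivAt.comp_hasDerivAt s h3
          refine h4.congr_deriv ?_
          change _ = hamV (f t) _
          rw [hamV_symp φ hφ, Equiv.apply_symm_apply, one_smul]) (by simp [hθ0])
      exact congrFun h2 c
    obtain ⟨-, -, -, K, hK, hφK⟩ := φ.2
    obtain ⟨B, hB⟩ := hK.isBounded.subset_closedBall (0 : Phase N)
    set c := max (τ₀ |p (Sum.inr i)|) (|((φ : Equiv.Perm (Phase N)) p) (Sum.inr i)| + |B| + 1)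
      with hc
    rw [hΦ t p c (le_max_left _ _), h1]
    have h5 : (φ : Equiv.Perm (Phase N)).symm ((φ : Equiv.Perm (Phase N)) p + (-c) • eY i) =
        (φ : Equiv.Perm (Phase N)) p + (-c) • eY i := by
      rw [Equiv.symm_apply_eq]
      symm
      apply hφK
      intro hmem
      have h6 := hB hmem
      rw [mem_closedBall_zero_iff] at h6
      have h7 := abs_coord_le ((φ : Equiv.Perm (Phase N)) p + (-c) • eY i) (Sum.inr i)
      simp only [PiLp.add_apply, PiLp.smul_apply, eY_inr, smul_eq_mul, mul_one] at h7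
      have h8 := neg_abs_le (((φ : Equiv.Perm (Phase N)) p) (Sum.inr i) + -c)
      have h9 := le_abs_self (((φ : Equiv.Perm (Phase N)) p) (Sum.inr i))
      have h10 : |((φ : Equiv.Perm (Phase N)) p) (Sum.inr i)| + |B| + 1 ≤ c := le_max_right _ _
      have h11 := le_abs_self B
      linarith
    rw [h5, neg_smul]
    abel

end straight

end Pool.Agent.H50.Susp
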