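import Mathlib
import Pool.Agent.H50.Susp.Straighten

set_option maxSynthPendingDepth 3

open scoped ContDiff Topology NNReal
open Set Function Filter MeasureTheory

namespace Pool.Agent.H50.Susp

open Pool.Agent.Helper17

variable {N : ℕ}

/-- The telescoping product with shifts: the `k`-th factor `A_{k+1} ∘ B_k` is translated by
`b_k` in the direction of `y_i`. -/
noncomputable def tele (i : Fin N) (A B : ℕ → Phase N → Phase N) (b : ℕ → ℝ) :
    ℕ → Phase N → Phase N
  | 0 => id
  | k + 1 => fun p => A (k + 1) (B k (tele i A B b k p - b k • eY i)) + b k • eY i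

lemma tele_succ (i : Fin N) (A B : ℕ → Phase N → Phase N) (b : ℕ → ℝ) (k : ℕ) (p : Phase N) :
    tele i A B b (k + 1) p =
      A (k + 1) (B k (tele i A B b k p - b k • eY i)) + b k • eY i := rfl

/-- A sequence of maps which are the identity on the left and at the sides and equivariant under
translations on the right. -/
structure EndSeq (i : Fin N) (R : ℝ) (A B : ℕ → Phase N → Phase N) : Prop where
  inv_left : ∀ k p, B k (A k p) = p
  inv_right : ∀ k p, A k (B k p) = p
  left : ∀ k p, p (Sum.inr i) < -R → A k p = p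
  side : ∀ k p, R < ‖side i p‖ → A k p = p
  shift : ∀ k p (a : ℝ), R < p (Sum.inr i) → 0 ≤ a → A k (p + a • eY i) = A k p + a • eY i
  zero : ∀ p, A 0 p = p

variable {i : Fin N} {R : ℝ} {A B : ℕ → Phase N → Phase N}

lemma y_sub_smul (p : Phase N) (a : ℝ) :
    (p - a • eY i : Phase N) (Sum.inr i) = p (Sum.inr i) - a := by
  simp only [PiLp.sub_apply, PiLp.smul_apply, eY_inr, smul_eq_mul, mul_one]

lemma y_add_smul (p : Phase N) (a : ℝ) :
    (p + a • eY i : Phase N) (Sum.inr i) = p (Sum.inr i) + a := by
  simp only [PiLp.add_apply, PiLp.smul_apply, eY_inr, smul_eq_mul, mul_one]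

lemma side_sub_smul (p : Phase N) (a : ℝ) : side i (p - a • eY i) = side i p := by
  have := side_add_smul i p (-a)
  rwa [neg_smul, ← sub_eq_add_neg] at this

lemma EndSeq.left' (h : EndSeq i R A B) (k : ℕ) (p : Phase N) (hp : p (Sum.inr i) < -R) :
    B k p = p := by
  conv_lhs => rw [← h.left k p hp]
  exact h.inv_left k p

lemma EndSeq.side' (h : EndSeq i R A B) (k : ℕ) (p : Phase N) (hp : R < ‖Susp.side i p‖) :
    B k p = p := by
  conv_lhs => rw [← h.side k p hp]
  exact h.inv_left k p

/-- The product in the right zone. -/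
lemma EndSeq.tele_right (h : EndSeq i R A B) {b : ℕ → ℝ} (hb : ∀ k, 0 ≤ b k) 
    (k : ℕ) (p : Phase N) (hp : ∀ j < k, R + b j < p (Sum.inr i)) :
    tele i A B b k p = A k p := by
  induction k with
  | zero => simp [tele, h.zero]
  | succ k ih =>
    have h1 : tele i A B b k p = A k p := ih fun j hj => hp j (hj.trans (Nat.lt_succ_self k))
    have h2 : R + b k < p (Sum.inr i) := hp k (Nat.lt_succ_self k)
    have h3 : R < (p - b k • eY i : Phase N) (Sum.inr i) := by rw [y_sub_smul]; linarith
    have h4 : p = (p - b k • eY i) + b k • eY i := by abel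
    have h5 : A k p = A k (p - b k • eY i) + b k • eY i := by
      conv_lhs => rw [h4]
      exact h.shift k _ _ h3 (hb k)
    have h6 : A (k + 1) p = A (k + 1) (p - b k • eY i) + b k • eY i := by
      conv_lhs => rw [h4]
      exact h.shift (k + 1) _ _ h3 (hb k)
    rw [tele_succ, h1, h5, add_sub_cancel_right, h.inv_left, ← h6]

lemma EndSeq.tele_left (h : EndSeq i R A B) {b : ℕ → ℝ} (hb : ∀ k, 0 ≤ b k) (k : ℕ)
    (p : Phase N) (hp : p (Sum.inr i) < -R) : tele i A B b k p = p := by
  induction k with
  | zero => rfl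
  | succ k ih =>
    have h1 : (p - b k • eY i : Phase N) (Sum.inr i) < -R := by
      rw [y_sub_smul]; have := hb k; linarith
    rw [tele_succ, ih, h.left' k _ h1, h.left (k + 1) _ h1]
    abel

lemma EndSeq.tele_side (h : EndSeq i R A B) {b : ℕ → ℝ} (k : ℕ)
    (p : Phase N) (hp : R < ‖Susp.side i p‖) : tele i A B b k p = p := by
  induction k with
  | zero => rfl
  | succ k ih =>
    have h1 : R < ‖Susp.side i (p - b k • eY i)‖ := by rwa [side_sub_smul]
    rw [tele_succ, ih, h.side' k _ h1, h.side (k + 1) _ h1]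
    abel

lemma EndSeq.tele_zero (h : EndSeq i R A B) (k : ℕ) (p : Phase N) :
    tele i A B (fun _ => 0) k p = A k p := by
  induction k with
  | zero => simp [tele, h.zero]
  | succ k ih =>
    rw [tele_succ, ih]
    simp [h.inv_left]

/-- Factors whose shift is far to the right do nothing. -/
lemma EndSeq.tele_frozen (h : EndSeq i R A B) {b : ℕ → ℝ} {j : ℕ} (p : Phase N)
    (hq : ∀ k, j ≤ k → (tele i A B b j p) (Sum.inr i) - b k < -R) (k : ℕ) (hk : j ≤ k) :
    tele i A B b k p = tele i A B b j p := by
  induction k, hk using Nat.le_induction with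
  | base => rfl
  | succ k hk ih =>
    have h1 : (tele i A B b j p - b k • eY i : Phase N) (Sum.inr i) < -R := by
      rw [y_sub_smul]; exact hq k hk
    rw [tele_succ, ih, h.left' k _ h1, h.left (k + 1) _ h1]
    abel

end Pool.Agent.H50.Susp
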