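import Mathlib
import Pool.Agent.H50.Susp.Shift

set_option maxSynthPendingDepth 3

open scoped ContDiff Topology NNReal
open Set Function Filter MeasureTheory

namespace Pool.Agent.H50.Susp

open Pool.Agent.Helper17

variable {N : ℕ} {i : Fin N} {R : ℝ} {A B : ℕ → Phase N → Phase N}

/-- Near every point only one factor of the separated product is active. -/
lemma EndSeq.exists_zone (h : EndSeq i R A B) {C a : ℝ}
    (hA : ∀ k p, |(A k p) (Sum.inr i) - p (Sum.inr i)| ≤ C)
    (hB : ∀ k p, |(B k p) (Sum.inr i) - p (Sum.inr i)| ≤ C)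
    (hR : 0 ≤ R) (hC : 0 ≤ C) (ha : 2 * R + 6 * C < a) {M : ℕ} (hM : 0 < M) (p : Phase N) :
    ∃ j < M, ∀ᶠ q in 𝓝 p,
      tele i A B (fun k => k * a) M q =
        A (j + 1) (B j (A j q - ((j : ℝ) * a) • eY i)) + ((j : ℝ) * a) • eY i ∧
      (j = 0 ∨ R < q (Sum.inr i)) := by
  have ha0 : 0 < a := by linarith
  set y := p (Sum.inr i) with hy
  obtain ⟨j, hjM, hj1, hj2⟩ : ∃ j < M, (j ≠ 0 → ((j : ℝ) - 1) * a + R < y) ∧
      (j + 1 < M → y < ((j : ℝ) + 1) * a - R - 3 * C) := by
    set m := ⌊y / a + 1 / 2⌋₊ with hm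
    by_cases hmM : m < M
    · refine ⟨m, hmM, ?_, ?_⟩
      · intro hm0
        have h1 : (m : ℝ) ≤ y / a + 1 / 2 := by
          apply Nat.floor_le
          by_contra hneg
          push Not at hneg
          exact hm0 (Nat.floor_of_nonpos hneg.le)
        have h2 : ((m : ℝ) - 1 / 2) * a ≤ y := by
          have h3 : (m : ℝ) - 1 / 2 ≤ y / a := by linarith
          rwa [le_div_iff₀ ha0] at h3
        nlinarith
      · intro _
        have h1 : y / a + 1 / 2 < (m : ℝ) + 1 := Nat.lt_floor_add_one _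
        have h2 : y < ((m : ℝ) + 1 / 2) * a := by
          have h3 : y / a < (m : ℝ) + 1 / 2 := by linarith
          rwa [div_lt_iff₀ ha0] at h3
        nlinarith
    · push Not at hmM
      refine ⟨M - 1, by omega, ?_, fun hlt => absurd hlt (by omega)⟩
      intro _
      have hm0 : m ≠ 0 := by omega
      have h1 : (m : ℝ) ≤ y / a + 1 / 2 := by
        apply Nat.floor_le
        by_contra hneg
        push Not at hneg
        exact hm0 (Nat.floor_of_nonpos hneg.le)
      have h2 : (M : ℝ) ≤ m := by exact_mod_cast hmM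
      have h3 : ((M : ℝ) - 1 / 2) * a ≤ y := by
        have h4 : (M : ℝ) - 1 / 2 ≤ y / a := by linarith
        rwa [le_div_iff₀ ha0] at h4
      have h5 : ((M - 1 : ℕ) : ℝ) = (M : ℝ) - 1 := by
        rw [Nat.cast_sub (by omega : 1 ≤ M), Nat.cast_one]
      rw [h5]
      nlinarith
  refine ⟨j, hjM, ?_⟩
  have hcont : Continuous (fun q : Phase N => q (Sum.inr i)) := (coordL (Sum.inr i)).continuous
  have e1 : ∀ᶠ q in 𝓝 p, (j ≠ 0 → ((j : ℝ) - 1) * a + R < q (Sum.inr i)) := by
    by_cases hj0 : j = 0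
    · exact Eventually.of_forall fun q hne => absurd hj0 hne
    · filter_upwards [hcont.continuousAt.eventually (lt_mem_nhds (hj1 hj0))] with q hq _
      exact hq
  have e2 : ∀ᶠ q in 𝓝 p, (j + 1 < M → q (Sum.inr i) < ((j : ℝ) + 1) * a - R - 3 * C) := by
    by_cases hj0 : j + 1 < M
    · filter_upwards [hcont.continuousAt.eventually (gt_mem_nhds (hj2 hj0))] with q hq _
      exact hq
    · exact Eventually.of_forall fun q hne => absurd hne hj0
  filter_upwards [e1, e2] with q hq1 hq2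
  have hb : ∀ k : ℕ, 0 ≤ (fun k : ℕ => (k : ℝ) * a) k := fun k =>
    mul_nonneg (Nat.cast_nonneg k) ha0.le
  have t1 : tele i A B (fun k => k * a) j q = A j q := by
    apply h.tele_right hb
    intro j' hj'
    have hj0 : j ≠ 0 := by omega
    have h1 := hq1 hj0
    have h2 : (j' : ℝ) ≤ (j : ℝ) - 1 := by
      have : j' + 1 ≤ j := hj'
      have h3 : ((j' + 1 : ℕ) : ℝ) ≤ j := by exact_mod_cast this
      push_cast at h3
      linarith
    have h4 : (j' : ℝ) * a ≤ ((j : ℝ) - 1) * a := mul_le_mul_of_nonneg_right h2 ha0.le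
    simp only
    linarith
  have t2 : tele i A B (fun k => k * a) (j + 1) q =
      A (j + 1) (B j (A j q - ((j : ℝ) * a) • eY i)) + ((j : ℝ) * a) • eY i := by
    rw [tele_succ, t1]
  refine ⟨?_, ?_⟩
  · rcases (Nat.succ_le_of_lt hjM).eq_or_lt with heq | hlt
    · rw [← heq, ← t2]
    · rw [← t2]
      apply h.tele_frozen q _ M hlt.le
      intro k hk
      have h1 := hq2 hlt
      rw [t2, y_add_smul]
      have b1 := hA (j + 1) (B j (A j q - ((j : ℝ) * a) • eY i))
      have b2 := hB j (A j q - ((j : ℝ) * a) • eY i)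
      have b3 := hA j q
      rw [y_sub_smul] at b2
      rw [abs_le] at b1 b2 b3
      have h3 : ((j : ℝ) + 1) * a ≤ k * a := by
        apply mul_le_mul_of_nonneg_right _ ha0.le
        exact_mod_cast hk
      simp only
      linarith [b1.2, b2.2, b3.2]
  · by_cases hj0 : j = 0
    · exact Or.inl hj0
    · right
      have h1 := hq1 hj0
      have h2 : (1 : ℝ) ≤ j := by exact_mod_cast Nat.one_le_iff_ne_zero.2 hj0
      have h3 : 0 ≤ ((j : ℝ) - 1) * a := mul_nonneg (by linarith) ha0.le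
      linarith

/-- The separated product is increasing in the direction of `x_i`. -/
lemma EndSeq.deriv_pos (h : EndSeq i R A B) {C a ε C₂ : ℝ}
    (hA : ∀ k p, |(A k p) (Sum.inr i) - p (Sum.inr i)| ≤ C)
    (hB : ∀ k p, |(B k p) (Sum.inr i) - p (Sum.inr i)| ≤ C)
    (hR : 0 ≤ R) (hC : 0 ≤ C) (ha : 2 * R + 6 * C < a) {M : ℕ} (hM : 0 < M)
    (hAd : ∀ k, Differentiable ℝ (A k)) (hBd : ∀ k, Differentiable ℝ (B k))
    (hε : ∀ j < M, ∀ z, ‖fderiv ℝ (fun z => A (j + 1) (B j z)) z -
      ContinuousLinearMap.id ℝ (Phase N)‖ ≤ ε)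
    (hC₂ : ∀ j q, ‖fderiv ℝ (A j) q‖ ≤ C₂) (hεC : ε * C₂ < 1)
    (hen : ∀ k q, R < q (Sum.inr i) → (A k q) (Sum.inl i) = q (Sum.inl i)) (p : Phase N) :
    0 < fderiv ℝ (fun q => (tele i A B (fun k => k * a) M q) (Sum.inl i)) p (eX i) := by
  obtain ⟨j, hjM, hev⟩ := h.exists_zone hA hB hR hC ha hM p
  set G : Phase N → Phase N := fun z => A (j + 1) (B j z) with hG
  have hGd : Differentiable ℝ G := (hAd (j + 1)).comp (hBd j)
  set c := (j : ℝ) * a with hc
  have h1 : (fun q => (tele i A B (fun k => k * a) M q) (Sum.inl i)) =ᶠ[𝓝 p]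
      fun q => coordL (Sum.inl i) q + coordL (Sum.inl i) (G (A j q - c • eY i) -
        (A j q - c • eY i)) := by
    filter_upwards [hev] with q hq
    have h2 : (A j q) (Sum.inl i) = q (Sum.inl i) := by
      rcases hq.2 with h0 | h0
      · rw [h0, h.zero]
      · exact hen j q h0
    rw [hq.1]
    simp only [coordL_apply, PiLp.add_apply, PiLp.sub_apply, PiLp.smul_apply, eY_inl, smul_zero,
      add_zero, sub_zero, h2, hG]
    ring
  rw [h1.fderiv_eq]
  have h2 : HasFDerivAt (fun q => A j q - c • eY i) (fderiv ℝ (A j) p) p :=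
    ((hAd j p).hasFDerivAt).sub_const _
  have h3 : HasFDerivAt (fun z => G z - z) (fderiv ℝ G (A j p - c • eY i) -
      ContinuousLinearMap.id ℝ (Phase N)) (A j p - c • eY i) :=
    (hGd _).hasFDerivAt.sub (hasFDerivAt_id _)
  have h34 : HasFDerivAt (fun q => G (A j q - c • eY i) - (A j q - c • eY i))
      ((fderiv ℝ G (A j p - c • eY i) - ContinuousLinearMap.id ℝ (Phase N)).comp
        (fderiv ℝ (A j) p)) p :=
    HasFDerivAt.comp (g := fun z => G z - z) (f := fun q => A j q - c • eY i) p h3 h2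
  have h4 : HasFDerivAt (fun q => coordL (Sum.inl i) q + coordL (Sum.inl i)
      (G (A j q - c • eY i) - (A j q - c • eY i)))
      (coordL (Sum.inl i) + (coordL (Sum.inl i)).comp ((fderiv ℝ G (A j p - c • eY i) -
        ContinuousLinearMap.id ℝ (Phase N)).comp (fderiv ℝ (A j) p))) p :=
    (coordL (Sum.inl i)).hasFDerivAt.add
      ((coordL (Sum.inl i)).hasFDerivAt.comp p h34)
  rw [h4.fderiv]
  have h5 : coordL (Sum.inl i) (eX i : Phase N) = 1 := by simp [coordL_apply, eX]
  set L := fderiv ℝ G (A j p - c • eY i) - ContinuousLinearMap.id ℝ (Phase N) with hL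
  have h6 : |coordL (Sum.inl i) (L (fderiv ℝ (A j) p (eX i)))| < 1 := by
    have hε0 : 0 ≤ ε := (norm_nonneg _).trans (hε j hjM (A j p - c • eY i))
    calc |coordL (Sum.inl i) (L (fderiv ℝ (A j) p (eX i)))|
        ≤ ‖L (fderiv ℝ (A j) p (eX i))‖ := by
          rw [coordL_apply]; exact abs_coord_le _ _
      _ ≤ ‖L‖ * ‖fderiv ℝ (A j) p (eX i)‖ := L.le_opNorm _
      _ ≤ ε * C₂ := by
          apply mul_le_mul (hε j hjM _) _ (norm_nonneg _) hε0
          calc ‖fderiv ℝ (A j) p (eX i)‖ ≤ ‖fderiv ℝ (A j) p‖ * ‖(eX i : Phase N)‖ :=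
                ContinuousLinearMap.le_opNorm _ _
            _ ≤ C₂ := by
                have : ‖(eX i : Phase N)‖ = 1 := by simp [eX]
                rw [this, mul_one]
                exact hC₂ j p
      _ < 1 := hεC
  have h7 : (coordL (Sum.inl i) + (coordL (Sum.inl i)).comp (L.comp (fderiv ℝ (A j) p))) (eX i) =
      1 + coordL (Sum.inl i) (L (fderiv ℝ (A j) p (eX i))) := by
    rw [← h5]; rfl
  rw [h7]
  rw [abs_lt] at h6
  linarith [h6.1]

end Pool.Agent.H50.Susp
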