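import Mathlib
import Pool.Agent.H50.Susp.Zone

set_option maxSynthPendingDepth 3

open scoped ContDiff Topology NNReal unitInterval
open Set Function Filter MeasureTheory

namespace Pool.Agent.H50.Susp

open Pool.Agent.Helper17

variable {N : ℕ} {i : Fin N}

section endinv

variable {T : Type} {F : Type} [NormedAddCommGroup F]

/-- Families of functions which vanish on the left and at the sides and are invariant under
translations on the right. -/
structure EndInv (i : Fin N) (R : ℝ) (G : T → Phase N → F) : Prop where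
  left : ∀ t p, p (Sum.inr i) < -R → G t p = 0
  side : ∀ t p, R < ‖side i p‖ → G t p = 0
  shift : ∀ t p (a : ℝ), R < p (Sum.inr i) → 0 ≤ a → G t (p + a • eY i) = G t p

lemma side_eq_self_sub (p : Phase N) : p = side i p + p (Sum.inr i) • eY i := by
  simp [side]

/-- The compact set controlling an end-invariant family. -/
def coreSet (i : Fin N) (R : ℝ) : Set (Phase N) := {p | ‖side i p‖ ≤ R ∧ |p (Sum.inr i)| ≤ R + 1}

lemma continuous_side : Continuous (side i : Phase N → Phase N) := by
  unfold side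
  exact continuous_id.sub ((coordL (Sum.inr i)).continuous.smul continuous_const)

lemma isCompact_coreSet (R : ℝ) : IsCompact (coreSet i R : Set (Phase N)) := by
  apply Metric.isCompact_of_isClosed_isBounded
  · exact (isClosed_le continuous_side.norm continuous_const).inter
      (isClosed_le (coordL (Sum.inr i)).continuous.abs continuous_const)
  · refine (Metric.isBounded_closedBall (x := (0 : Phase N)) (r := R + (R + 1))).subset ?_
    rintro p ⟨h1, h2⟩
    rw [mem_closedBall_zero_iff]
    calc ‖p‖ = ‖side i p + p (Sum.inr i) • (eY i : Phase N)‖ := by rw [← side_eq_self_sub]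
      _ ≤ ‖side i p‖ + ‖p (Sum.inr i) • (eY i : Phase N)‖ := norm_add_le _ _
      _ ≤ R + (R + 1) := by
          rw [norm_smul, norm_eY, mul_one, Real.norm_eq_abs]
          exact add_le_add h1 h2

lemma EndInv.exists_core {R : ℝ} (hR : 0 ≤ R) {G : T → Phase N → F} (h : EndInv i R G)
    (p : Phase N) : (∀ t, G t p = 0) ∨ ∃ q ∈ (coreSet i R : Set (Phase N)), ∀ t, G t p = G t q := by
  by_cases h1 : R < ‖Susp.side i p‖
  · exact Or.inl fun t => h.side t p h1
  by_cases h2 : p (Sum.inr i) < -R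
  · exact Or.inl fun t => h.left t p h2
  push Not at h1 h2
  right
  by_cases h3 : p (Sum.inr i) ≤ R + 1
  · exact ⟨p, ⟨h1, by rw [abs_le]; constructor <;> linarith⟩, fun t => rfl⟩
  · push Not at h3
    set a := p (Sum.inr i) - (R + 1) with ha
    refine ⟨p - a • eY i, ⟨by rwa [side_sub_smul], ?_⟩, fun t => ?_⟩
    · rw [y_sub_smul, ha, sub_sub_cancel, abs_of_nonneg (by linarith)]
    · have h4 := h.shift t (p - a • eY i) a (by rw [y_sub_smul]; linarith) (by linarith)
      rw [sub_add_cancel] at h4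
      exact h4

lemma EndInv.bound [TopologicalSpace T] [CompactSpace T] {R : ℝ} (hR : 0 ≤ R)
    {G : T → Phase N → F} (h : EndInv i R G) (hG : Continuous (fun p : T × Phase N => G p.1 p.2)) :
    ∃ C : ℝ, 0 ≤ C ∧ ∀ t p, ‖G t p‖ ≤ C := by
  obtain ⟨C, hC⟩ := ((isCompact_univ (X := T)).prod
    (isCompact_coreSet (i := i) R)).exists_bound_of_continuousOn hG.continuousOn
  refine ⟨max C 0, le_max_right _ _, fun t p => ?_⟩
  rcases h.exists_core hR p with h0 | ⟨q, hq, h1⟩
  · rw [h0, norm_zero]; exact le_max_right _ _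
  · rw [h1]
    exact (hC (t, q) ⟨trivial, hq⟩).trans (le_max_left _ _)

lemma EndInv.mono {R R' : ℝ} (hRR : R ≤ R') {G : T → Phase N → F} (h : EndInv i R G) :
    EndInv i R' G where
  left t p hp := h.left t p (by linarith)
  side t p hp := h.side t p (by linarith)
  shift t p a hp ha := h.shift t p a (by linarith) ha

lemma isOpen_left (R : ℝ) : IsOpen {p : Phase N | p (Sum.inr i) < -R} :=
  isOpen_lt (coordL (Sum.inr i)).continuous continuous_const

lemma isOpen_side (R : ℝ) : IsOpen {p : Phase N | R < ‖side i p‖} :=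
  isOpen_lt continuous_const continuous_side.norm

lemma isOpen_right (R : ℝ) : IsOpen {p : Phase N | R < p (Sum.inr i)} :=
  isOpen_lt continuous_const (coordL (Sum.inr i)).continuous

lemma EndInv.fderiv [NormedSpace ℝ F] {R : ℝ} {G : T → Phase N → F} (h : EndInv i R G) :
    EndInv i R (fun t p => fderiv ℝ (G t) p) where
  left t p hp := by
    have h1 : G t =ᶠ[𝓝 p] fun _ => 0 := by
      filter_upwards [(isOpen_left R).mem_nhds hp] with q hq
      exact h.left t q hq
    rw [h1.fderiv_eq]; exact fderiv_const_apply _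
  side t p hp := by
    have h1 : G t =ᶠ[𝓝 p] fun _ => 0 := by
      filter_upwards [(isOpen_side R).mem_nhds hp] with q hq
      exact h.side t q hq
    rw [h1.fderiv_eq]; exact fderiv_const_apply _
  shift t p a hp ha := by
    have h1 : (fun q => G t (q + a • eY i)) =ᶠ[𝓝 p] G t := by
      filter_upwards [(isOpen_right R).mem_nhds hp] with q hq
      exact h.shift t q a hq ha
    rw [← h1.fderiv_eq, fderiv_comp_add_right]

end endinv

section fam

variable {T : Type} [TopologicalSpace T] {R : ℝ} {f : T → Phase N → ℝ}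
  {Φ Ψ : T → Phase N → Phase N}

lemma StraightFam.left' (h : StraightFam i R f Φ Ψ) (t : T) (p : Phase N)
    (hp : p (Sum.inr i) < -R) : Ψ t p = p := by
  conv_lhs => rw [← h.left t p hp]
  exact h.inv_left t p

lemma StraightFam.side' (h : StraightFam i R f Φ Ψ) (t : T) (p : Phase N)
    (hp : R < ‖Susp.side i p‖) : Ψ t p = p := by
  conv_lhs => rw [← h.side t p hp]
  exact h.inv_left t p

lemma StraightFam.endInv (h : StraightFam i R f Φ Ψ) : EndInv i R (fun t p => Φ t p - p) where
  left t p hp := by simp only [h.left t p hp, sub_self]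
  side t p hp := by simp only [h.side t p hp, sub_self]
  shift t p a hp ha := by
    simp only [h.shift t p a hp ha]
    abel

lemma StraightFam.exists_disp [CompactSpace T] (hR : 0 ≤ R) (h : StraightFam i R f Φ Ψ) :
    ∃ C : ℝ, 0 ≤ C ∧ (∀ t p, ‖Φ t p - p‖ ≤ C) ∧ (∀ t p, ‖Ψ t p - p‖ ≤ C) := by
  obtain ⟨C, hC0, hC⟩ := h.endInv.bound hR (h.cf.sub (CF.const contDiff_id)).continuous
  refine ⟨C, hC0, hC, fun t p => ?_⟩
  have h1 := hC t (Ψ t p)
  rw [h.inv_right] at h1
  rwa [norm_sub_rev]

lemma y_disp_le {p q : Phase N} {C : ℝ} (h : ‖p - q‖ ≤ C) :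
    |p (Sum.inr i) - q (Sum.inr i)| ≤ C := by
  have := abs_coord_le (p - q) (Sum.inr i)
  rw [PiLp.sub_apply] at this
  exact this.trans h

lemma StraightFam.endInv' (h : StraightFam i R f Φ Ψ) {C : ℝ}
    (hC0 : 0 ≤ C) (hC' : ∀ t p, ‖Ψ t p - p‖ ≤ C) :
    EndInv i (R + C) (fun t p => Ψ t p - p) where
  left t p hp := by
    have := h.left' t p (by linarith)
    simp only [this, sub_self]
  side t p hp := by
    have := h.side' t p (by linarith)
    simp only [this, sub_self]
  shift t p a hp ha := by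
    have h1 := y_disp_le (i := i) (hC' t p)
    rw [abs_le] at h1
    have h2 : R < (Ψ t p) (Sum.inr i) := by linarith [h1.1]
    have h3 := h.shift t (Ψ t p) a h2 ha
    rw [h.inv_right] at h3
    have h4 : Ψ t (p + a • eY i) = Ψ t p + a • eY i := by
      rw [← h3, h.inv_left]
    simp only [h4]
    abel

/-- The composition of two members of the family. -/
lemma StraightFam.endInv_comp {S : Type} {f : T × S → Phase N → ℝ}
    {Φ Ψ : T × S → Phase N → Phase N} [TopologicalSpace S]
    (h : StraightFam i R f Φ Ψ) {C : ℝ}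
    (hC0 : 0 ≤ C) (hC' : ∀ t p, ‖Ψ t p - p‖ ≤ C) :
    EndInv i (R + C) (fun (q : (S × S) × T) p => Φ (q.2, q.1.1) (Ψ (q.2, q.1.2) p) - p) where
  left q p hp := by
    have h1 := h.left' (q.2, q.1.2) p (by linarith)
    have h2 := h.left (q.2, q.1.1) p (by linarith)
    simp only [h1, h2, sub_self]
  side q p hp := by
    have h1 := h.side' (q.2, q.1.2) p (by linarith)
    have h2 := h.side (q.2, q.1.1) p (by linarith)
    simp only [h1, h2, sub_self]
  shift q p a hp ha := by
    have h1 := (h.endInv' hC0 hC').shift (q.2, q.1.2) p a hp ha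
    have h2 : Ψ (q.2, q.1.2) (p + a • eY i) = Ψ (q.2, q.1.2) p + a • eY i := by
      have h3 : Ψ (q.2, q.1.2) (p + a • eY i) = (Ψ (q.2, q.1.2) p - p) + (p + a • eY i) := by
        rw [← h1]; abel
      rw [h3]; abel
    have h3 := y_disp_le (i := i) (hC' (q.2, q.1.2) p)
    rw [abs_le] at h3
    have h4 := h.shift (q.2, q.1.1) (Ψ (q.2, q.1.2) p) a (by linarith [h3.1]) ha
    simp only [h2, h4]
    abel

end fam

section subdiv

variable {T : Type} [TopologicalSpace T] [CompactSpace T] {R : ℝ} {f : T × I → Phase N → ℝ}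
  {Φ Ψ : T × I → Phase N → Phase N}

/-- The subdivision points. -/
noncomputable def sPt (M k : ℕ) : I := projIcc (0 : ℝ) 1 zero_le_one ((k : ℝ) / M)

lemma sPt_zero (M : ℕ) : sPt M 0 = 0 := by
  unfold sPt
  rw [Nat.cast_zero, zero_div]
  exact projIcc_left (h := (zero_le_one : (0 : ℝ) ≤ 1))

lemma sPt_self {M : ℕ} (hM : 0 < M) : sPt M M = 1 := by
  unfold sPt
  rw [div_self (by exact_mod_cast hM.ne')]
  exact projIcc_right (h := (zero_le_one : (0 : ℝ) ≤ 1))

lemma dist_sPt_succ {M : ℕ} (hM : 0 < M) (k : ℕ) : dist (sPt M (k + 1)) (sPt M k) ≤ 1 / M := by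
  rw [Subtype.dist_eq, Real.dist_eq]
  refine (abs_projIcc_sub_projIcc zero_le_one).trans ?_
  have hM' : (0 : ℝ) < M := by exact_mod_cast hM
  rw [← sub_div, Nat.cast_add, Nat.cast_one, add_sub_cancel_left, abs_of_nonneg (by positivity)]

theorem StraightFam.exists_subdiv (hR : 0 ≤ R) (h : StraightFam i R f Φ Ψ) {ε : ℝ}
    (hε : 0 < ε) :
    ∃ M : ℕ, 0 < M ∧ ∀ t (k : ℕ) z,
      ‖fderiv ℝ (fun z => Φ (t, sPt M (k + 1)) (Ψ (t, sPt M k) z)) z -
        ContinuousLinearMap.id ℝ (Phase N)‖ ≤ ε := by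
  obtain ⟨C, hC0, hC, hC'⟩ := h.exists_disp hR
  have he := (h.endInv_comp hC0 hC').fderiv
  have hcf : CF (fun (q : (I × I) × T) p => Φ (q.2, q.1.1) (Ψ (q.2, q.1.2) p) - p) := by
    have h1 : CF (fun (q : (I × I) × T) p => Φ (q.2, q.1.1) p) :=
      h.cf.base (h := fun q : (I × I) × T => (q.2, q.1.1))
        (continuous_snd.prodMk (continuous_fst.comp continuous_fst))
    have h2 : CF (fun (q : (I × I) × T) p => Ψ (q.2, q.1.2) p) :=
      h.cf'.base (h := fun q : (I × I) × T => (q.2, q.1.2))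
        (continuous_snd.prodMk (continuous_snd.comp continuous_fst))
    exact (h1.comp h2).sub (CF.const contDiff_id)
  have hcont := hcf.fderiv.continuous
  set V := Phase N →L[ℝ] Phase N with hV
  set K : Set (Phase N) := coreSet i (R + C) with hK
  have : CompactSpace K := isCompact_iff_compactSpace.1 (isCompact_coreSet _)
  set D : ((I × I) × T) → Phase N → V := fun q p => fderiv ℝ (fun p =>
    Φ (q.2, q.1.1) (Ψ (q.2, q.1.2) p) - p) p with hD
  set F0 : C((I × I) × (T × K), V) := ⟨fun r => D (r.1, r.2.1) r.2.2, by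
    exact hcont.comp ((continuous_fst.prodMk (continuous_fst.comp continuous_snd)).prodMk
      (continuous_subtype_val.comp (continuous_snd.comp continuous_snd)))⟩ with hF0
  have hunif := CompactSpace.uniformContinuous_of_continuous F0.curry.continuous
  rw [Metric.uniformContinuous_iff] at hunif
  obtain ⟨δ, hδ, hunif⟩ := hunif ε hε
  obtain ⟨M, hM⟩ := exists_nat_gt (1 / δ)
  have hM0 : (0 : ℝ) < M := (by positivity : (0 : ℝ) < 1 / δ).trans hM
  have hM1 : 0 < M := by exact_mod_cast hM0
  refine ⟨M, hM1, fun t k z => ?_⟩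
  have hdiffd : fderiv ℝ (fun z => Φ (t, sPt M (k + 1)) (Ψ (t, sPt M k) z)) z -
        ContinuousLinearMap.id ℝ (Phase N) = D ((sPt M (k + 1), sPt M k), t) z := by
    simp only [hD]
    have h1 : DifferentiableAt ℝ (fun z => Φ (t, sPt M (k + 1)) (Ψ (t, sPt M k) z)) z :=
      (h.cf.differentiable (t, sPt M (k + 1)) _).comp z (h.cf'.differentiable (t, sPt M k) z)
    have h2 := (h1.hasFDerivAt.sub (hasFDerivAt_id z)).fderiv
    exact h2.symm
  rw [hdiffd]
  rcases he.exists_core (by linarith) z with h0 | ⟨q, hq, h1⟩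
  · have h2 : D ((sPt M (k + 1), sPt M k), t) z = 0 := h0 ((sPt M (k + 1), sPt M k), t)
    rw [h2, norm_zero]
    exact hε.le
  · have h2 : D ((sPt M (k + 1), sPt M k), t) z = D ((sPt M (k + 1), sPt M k), t) q :=
      h1 ((sPt M (k + 1), sPt M k), t)
    rw [h2]
    have h3 : dist ((sPt M (k + 1), sPt M k) : I × I) (sPt M k, sPt M k) < δ := by
      rw [Prod.dist_eq, dist_self, max_lt_iff]
      refine ⟨?_, hδ⟩
      refine (dist_sPt_succ hM1 k).trans_lt ?_
      rw [div_lt_iff₀ hM0]
      rwa [div_lt_iff₀ hδ, mul_comm] at hM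
    have h4 := hunif h3
    have h5 := (ContinuousMap.dist_apply_le_dist (f := F0.curry (sPt M (k + 1), sPt M k))
      (g := F0.curry (sPt M k, sPt M k)) (t, ⟨q, hq⟩)).trans h4.le
    simp only [ContinuousMap.curry_apply] at h5
    have h6 : F0 ((sPt M k, sPt M k), (t, ⟨q, hq⟩)) = 0 := by
      change D ((sPt M k, sPt M k), t) q = 0
      simp only [hD]
      have h7 : (fun p => Φ (t, sPt M k) (Ψ (t, sPt M k) p) - p) = fun _ => 0 := by
        funext p
        rw [h.inv_right, sub_self]
      rw [h7]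
      exact fderiv_const_apply _
    rw [h6, dist_zero_right] at h5
    exact h5

theorem StraightFam.exists_deriv_bound (hR : 0 ≤ R) (h : StraightFam i R f Φ Ψ) :
    ∃ C : ℝ, 0 ≤ C ∧ ∀ t p, ‖fderiv ℝ (Φ t) p‖ ≤ C := by
  obtain ⟨C, hC0, hC⟩ := h.endInv.fderiv.bound hR
    (h.cf.sub (CF.const contDiff_id)).fderiv.continuous
  refine ⟨C + 1, by linarith, fun t p => ?_⟩
  have h1 := hC t p
  have h2 : fderiv ℝ (fun p => Φ t p - p) p = fderiv ℝ (Φ t) p -
      ContinuousLinearMap.id ℝ (Phase N) :=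
    ((h.cf.differentiable t p).hasFDerivAt.sub (hasFDerivAt_id p)).fderiv
  rw [h2] at h1
  calc ‖fderiv ℝ (Φ t) p‖ = ‖(fderiv ℝ (Φ t) p - ContinuousLinearMap.id ℝ (Phase N)) +
        ContinuousLinearMap.id ℝ (Phase N)‖ := by rw [sub_add_cancel]
    _ ≤ ‖fderiv ℝ (Φ t) p - ContinuousLinearMap.id ℝ (Phase N)‖ +
        ‖ContinuousLinearMap.id ℝ (Phase N)‖ := norm_add_le _ _
    _ ≤ C + 1 := add_le_add h1 ContinuousLinearMap.norm_id_le

end subdiv

end Pool.Agent.H50.Susp
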