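import Mathlib
import Pool.Agent.Helper17.SympFamily
import Pool.Agent.H50.Susp.Bounds

set_option maxSynthPendingDepth 3

open scoped ContDiff Topology NNReal unitInterval
open Set Function Filter MeasureTheory

namespace Pool.Agent.H50.Susp

open Pool.Agent.Helper17

variable {N : ℕ} {i : Fin N} {T : Type} [TopologicalSpace T] {R : ℝ}

lemma StraightFam.eq_id {f : T → Phase N → ℝ} {Φ Ψ : T → Phase N → Phase N}
    (h : StraightFam i R f Φ Ψ) (t : T) (ht : ∀ p, f t p = p (Sum.inl i)) (p : Phase N) :
    Φ t p = p :=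
  h.eq_of t 1 (fun p => by rw [ht]; rfl) p

lemma StraightFam.eq_id' {f : T → Phase N → ℝ} {Φ Ψ : T → Phase N → Phase N}
    (h : StraightFam i R f Φ Ψ) (t : T) (ht : ∀ p, f t p = p (Sum.inl i)) (p : Phase N) :
    Ψ t p = p := by
  conv_lhs => rw [← h.eq_id t ht p]
  exact h.inv_left t p

lemma StraightFam.symp' {f : T → Phase N → ℝ} {Φ Ψ : T → Phase N → Phase N}
    (h : StraightFam i R f Φ Ψ) (t : T) (p u v : Phase N) :
    omegaStd (fderiv ℝ (Ψ t) p u) (fderiv ℝ (Ψ t) p v) = omegaStd u v := by
  have h1 : (fderiv ℝ (Φ t) (Ψ t p)).comp (fderiv ℝ (Ψ t) p) = ContinuousLinearMap.id ℝ _ := by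
    have h2 : HasFDerivAt (fun p => Φ t (Ψ t p)) _ p :=
      HasFDerivAt.comp _ (h.cf.differentiable t _).hasFDerivAt
        (h.cf'.differentiable t _).hasFDerivAt
    simp only [h.inv_right] at h2
    exact h2.unique (hasFDerivAt_id _)
  have h2 : ∀ w, fderiv ℝ (Φ t) (Ψ t p) (fderiv ℝ (Ψ t) p w) = w := fun w =>
    congrArg (fun L : Phase N →L[ℝ] Phase N => L w) h1
  rw [← h.symp t (Ψ t p), h2, h2]

/-- The sequence obtained from a subdivision. -/
lemma StraightFam.endSeq {f : T × I → Phase N → ℝ} {Φ Ψ : T × I → Phase N → Phase N}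
    (h : StraightFam i R f Φ Ψ) (h0 : ∀ t p, f (t, 0) p = p (Sum.inl i)) (t : T) (M : ℕ) :
    EndSeq i R (fun k => Φ (t, sPt M k)) (fun k => Ψ (t, sPt M k)) where
  inv_left k p := h.inv_left _ p
  inv_right k p := h.inv_right _ p
  left k p hp := h.left _ p hp
  side k p hp := h.side _ p hp
  shift k p a hp ha := h.shift _ p a hp ha
  zero p := by
    rw [sPt_zero]
    exact h.eq_id (t, 0) (h0 t) p

lemma tele_CF {S : Type} [TopologicalSpace S] {A B : ℕ → S → Phase N → Phase N}
    (hA : ∀ k, CF (A k)) (hB : ∀ k, CF (B k)) {b : ℕ → S → ℝ} (hb : ∀ k, Continuous (b k))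
    (M : ℕ) : CF (fun s p => tele i (fun k => A k s) (fun k => B k s) (fun k => b k s) M p) := by
  induction M with
  | zero => exact CF.const contDiff_id
  | succ M ih =>
    have hs : CF (fun (s : S) (_ : Phase N) => b M s • (eY i : Phase N)) :=
      CF.param ((hb M).smul continuous_const)
    have h1 : CF (fun s p => tele i (fun k => A k s) (fun k => B k s) (fun k => b k s) M p -
        b M s • eY i) := ih.sub hs
    exact ((hA (M + 1)).comp ((hB M).comp h1)).add hs

lemma tele_symp {A B : ℕ → Phase N → Phase N}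
    (hA : ∀ k, Differentiable ℝ (A k)) (hB : ∀ k, Differentiable ℝ (B k))
    (hAs : ∀ k p u v, omegaStd (fderiv ℝ (A k) p u) (fderiv ℝ (A k) p v) = omegaStd u v)
    (hBs : ∀ k p u v, omegaStd (fderiv ℝ (B k) p u) (fderiv ℝ (B k) p v) = omegaStd u v)
    (b : ℕ → ℝ) (M : ℕ) : Differentiable ℝ (tele i A B b M) ∧ ∀ p u v,
      omegaStd (fderiv ℝ (tele i A B b M) p u) (fderiv ℝ (tele i A B b M) p v) =
        omegaStd u v := by
  induction M with
  | zero =>
    refine ⟨differentiable_id, fun p u v => ?_⟩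
    change omegaStd (fderiv ℝ id p u) (fderiv ℝ id p v) = _
    rw [fderiv_id]; rfl
  | succ M ih =>
    obtain ⟨hd, hs⟩ := ih
    have h1 : ∀ p, HasFDerivAt (tele i A B b (M + 1))
        ((fderiv ℝ (A (M + 1)) (B M (tele i A B b M p - b M • eY i))).comp
          ((fderiv ℝ (B M) (tele i A B b M p - b M • eY i)).comp
            (fderiv ℝ (tele i A B b M) p))) p := by
      intro p
      have h2 : HasFDerivAt (fun p => tele i A B b M p - b M • eY i)
          (fderiv ℝ (tele i A B b M) p) p := (hd p).hasFDerivAt.sub_const _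
      have h3 : HasFDerivAt (fun p => B M (tele i A B b M p - b M • eY i))
          ((fderiv ℝ (B M) (tele i A B b M p - b M • eY i)).comp
            (fderiv ℝ (tele i A B b M) p)) p :=
        HasFDerivAt.comp (g := B M) (f := fun p => tele i A B b M p - b M • eY i) p
          (hB M _).hasFDerivAt h2
      have h4 : HasFDerivAt (fun p => A (M + 1) (B M (tele i A B b M p - b M • eY i))) _ p :=
        HasFDerivAt.comp (g := A (M + 1)) (f := fun p => B M (tele i A B b M p - b M • eY i)) p
          (hA (M + 1) _).hasFDerivAt h3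
      exact h4.add_const _
    refine ⟨fun p => (h1 p).differentiableAt, fun p u v => ?_⟩
    rw [(h1 p).fderiv]
    simp only [ContinuousLinearMap.comp_apply]
    rw [hAs, hBs, hs]

theorem StraightFam.exists_homotopy [CompactSpace T] (hR : 0 ≤ R)
    {f : T × I → Phase N → ℝ} {Φ Ψ : T × I → Phase N → Phase N} (h : StraightFam i R f Φ Ψ)
    (hstd : ∀ t p, R < ‖p‖ → f t p = p (Sum.inl i))
    (φ : T → SympCt N) {ρ : ℝ}
    (hρ : ∀ t (p : Phase N), ρ < ‖p‖ → (φ t : Equiv.Perm (Phase N)) p = p)
    (h0 : ∀ t p, f (t, 0) p = p (Sum.inl i))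
    (h1 : ∀ t p, f (t, 1) p = ((φ t : Equiv.Perm (Phase N)) p) (Sum.inl i))
    (T0 : Set T) (hT0 : ∀ t ∈ T0, ∀ s p, f (t, s) p = p (Sum.inl i)) :
    ∃ H : I × T → SympCt N, Continuous H ∧ (∀ t, H (0, t) = φ t) ∧
      (∀ t p, 0 < fderiv ℝ (fun q => ((H (1, t) : Equiv.Perm (Phase N)) q) (Sum.inl i)) p
        (eX i)) ∧ (∀ t ∈ T0, ∀ s, H (s, t) = 1) := by
  obtain ⟨C, hC0, hC, hC'⟩ := h.exists_disp hR
  obtain ⟨C₂, hC₂0, hC₂⟩ := h.exists_deriv_bound hR
  obtain ⟨M, hM, hsub⟩ := h.exists_subdiv hR (ε := 1 / (C₂ + 1)) (by positivity)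
  set a := 2 * R + 6 * C + 1 with ha
  have ha0 : 0 < a := by positivity
  set A : ℕ → I × T → Phase N → Phase N := fun k s => Φ (s.2, sPt M k) with hA
  set B : ℕ → I × T → Phase N → Phase N := fun k s => Ψ (s.2, sPt M k) with hB
  set b : ℕ → I × T → ℝ := fun k s => (s.1 : ℝ) * (k * a) with hb
  set G : I × T → Phase N → Phase N := fun s p =>
    tele i (fun k => A k s) (fun k => B k s) (fun k => b k s) M p with hG
  have hseq : ∀ s : I × T, EndSeq i R (fun k => A k s) (fun k => B k s) := fun s =>
    h.endSeq h0 s.2 M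
  have hACF : ∀ k, CF (A k) := fun k =>
    h.cf.base (h := fun s : I × T => (s.2, sPt M k)) (continuous_snd.prodMk continuous_const)
  have hBCF : ∀ k, CF (B k) := fun k =>
    h.cf'.base (h := fun s : I × T => (s.2, sPt M k)) (continuous_snd.prodMk continuous_const)
  have hb0 : ∀ s k, 0 ≤ b k s := fun s k =>
    mul_nonneg s.1.2.1 (mul_nonneg (Nat.cast_nonneg k) ha0.le)
  have hGCF : CF G := tele_CF hACF hBCF (fun k => by
    exact (continuous_subtype_val.comp continuous_fst).mul continuous_const) M
  have hGs : ∀ s p u v, omegaStd (fderiv ℝ (G s) p u) (fderiv ℝ (G s) p v) = omegaStd u v :=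
    fun s => (tele_symp (fun k => (hACF k).differentiable s) (fun k => (hBCF k).differentiable s)
      (fun k => h.symp _) (fun k => h.symp' _) (fun k => b k s) M).2
  have hAM : ∀ s : I × T, ∀ p, A M s p = (φ s.2 : Equiv.Perm (Phase N)) p := by
    intro s p
    simp only [hA, sPt_self hM]
    exact h.eq_of (s.2, 1) (φ s.2) (h1 s.2) p
  set K₀ : ℝ := R + (R + |ρ| + M * a) with hK₀
  have hGK : ∀ s p, K₀ < ‖p‖ → G s p = p := by
    intro s p hp
    by_cases hs : R < ‖Susp.side i p‖
    · exact (hseq s).tele_side M p hs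
    by_cases hl : p (Sum.inr i) < -R
    · exact (hseq s).tele_left (hb0 s) M p hl
    push Not at hs hl
    have h2 : R + |ρ| + M * a < p (Sum.inr i) := by
      by_contra hcon
      push Not at hcon
      have h3 : ‖p‖ ≤ R + (R + |ρ| + M * a) := by
        calc ‖p‖ = ‖Susp.side i p + p (Sum.inr i) • (eY i : Phase N)‖ := by
              rw [← side_eq_self_sub]
          _ ≤ ‖Susp.side i p‖ + ‖p (Sum.inr i) • (eY i : Phase N)‖ := norm_add_le _ _
          _ ≤ R + (R + |ρ| + M * a) := by
              rw [norm_smul, norm_eY, mul_one, Real.norm_eq_abs]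
              apply add_le_add hs
              rw [abs_le]
              constructor
              · have : 0 ≤ |ρ| + M * a := by positivity
                linarith
              · exact hcon
      linarith
    have h3 : ∀ j < M, R + b j s < p (Sum.inr i) := by
      intro j hj
      have h4 : b j s ≤ M * a := by
        simp only [hb]
        calc (s.1 : ℝ) * (j * a) ≤ 1 * (j * a) :=
              mul_le_mul_of_nonneg_right s.1.2.2 (by positivity)
          _ ≤ M * a := by
              rw [one_mul]
              exact mul_le_mul_of_nonneg_right (by exact_mod_cast hj.le) ha0.le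
      linarith [abs_nonneg ρ]
    have h5 : G s p = A M s p := (hseq s).tele_right (hb0 s) M p h3
    rw [h5, hAM]
    apply hρ
    have h6 := abs_coord_le p (Sum.inr i)
    have h7 := le_abs_self (p (Sum.inr i))
    have h8 := le_abs_self ρ
    have h9 : 0 ≤ (M : ℝ) * a := by positivity
    linarith
  set H : I × T → SympCt N := fun s => mkSymp (G s) (hGCF.contDiff s)
    ⟨Metric.closedBall 0 K₀, isCompact_closedBall 0 K₀, fun x hx => hGK s x (by simpa using hx)⟩
    (hGs s) with hH
  have hHa : ∀ s p, (H s : Equiv.Perm (Phase N)) p = G s p := fun s p => rfl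
  refine ⟨H, ?_, ?_, ?_, ?_⟩
  · exact continuous_of_CF hGCF ⟨Metric.closedBall 0 K₀, isCompact_closedBall 0 K₀⟩
      (fun s x hx => hGK s x (by
        have hx' : x ∉ Metric.closedBall (0 : Phase N) K₀ := hx
        simpa using hx')) hHa
  · intro t
    apply SympCt.ext'
    intro x
    rw [hHa]
    have h2 : G (0, t) x = A M (0, t) x := by
      have h3 := (hseq (0, t)).tele_zero M x
      simp only [hG]
      have h4 : (fun k => b k (0, t)) = fun _ => 0 := by
        funext k
        simp [hb]
      rw [h4]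
      exact h3
    rw [h2, hAM]
  · intro t p
    have h2 := (hseq (1, t)).deriv_pos (C := C) (a := a) (ε := 1 / (C₂ + 1)) (C₂ := C₂)
      (fun k p => y_disp_le (hC _ p)) (fun k p => y_disp_le (hC' _ p)) hR hC0 (by linarith) hM
      (fun k => (hACF k).differentiable _) (fun k => (hBCF k).differentiable _)
      (fun j _ z => hsub t j z) (fun j q => hC₂ _ q) (by
        rw [div_mul_eq_mul_div, one_mul, div_lt_one (by positivity)]
        linarith)
      (fun k q hq => by
        have h3 : (A k (1, t) q) (Sum.inl i) = f (t, sPt M k) q := h.energy _ q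
        rw [h3]
        apply hstd
        exact hq.trans_le ((le_abs_self _).trans (abs_coord_le q (Sum.inr i)))) p
    have h4 : (fun k : ℕ => b k (1, t)) = fun k : ℕ => (k : ℝ) * a := by
      funext k
      simp [hb]
    have h5 : (fun q => ((H (1, t) : Equiv.Perm (Phase N)) q) (Sum.inl i)) =
        fun q => (tele i (fun k => A k (1, t)) (fun k => B k (1, t)) (fun k : ℕ => (k : ℝ) * a) M q)
          (Sum.inl i) := by
      funext q
      rw [hHa]
      simp only [hG, h4]
    rw [h5]
    exact h2
  · intro t ht s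
    apply SympCt.ext'
    intro x
    rw [hHa]
    have hA1 : ∀ k p, A k (s, t) p = p := fun k p => h.eq_id _ (hT0 t ht _) p
    have hB1 : ∀ k p, B k (s, t) p = p := fun k p => h.eq_id' _ (hT0 t ht _) p
    have h2 : ∀ m p, tele i (fun k => A k (s, t)) (fun k => B k (s, t)) (fun k => b k (s, t)) m p =
        p := by
      intro m p
      induction m with
      | zero => rfl
      | succ m ih =>
        rw [tele_succ, ih, hA1, hB1]
        abel
    exact h2 M x

end Pool.Agent.H50.Susp
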