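import Mathlib
import Pool.Agent.H50.Susp.ShiftMain

set_option maxSynthPendingDepth 3

open scoped ContDiff Topology NNReal unitInterval
open Set Function Filter MeasureTheory

namespace Pool.Agent.H50.Susp

open Pool.Agent.Helper17

variable {N : ℕ} {i : Fin N}

/-- The Poisson bracket `∑ (∂f/∂x_j ∂g/∂y_j - ∂f/∂y_j ∂g/∂x_j)`. -/
noncomputable def bracket (f g : Phase N → ℝ) (p : Phase N) : ℝ :=
  ∑ j : Fin N, (fderiv ℝ f p (eX j) * fderiv ℝ g p (eY j) -
    fderiv ℝ f p (eY j) * fderiv ℝ g p (eX j))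

lemma hamV_inr (f : Phase N → ℝ) (p : Phase N) (j : Fin N) :
    (hamV f p) (Sum.inr j) = fderiv ℝ f p (eX j) := by
  have h1 := omegaStd_hamV f p (eX j)
  simp [omegaStd, eX] at h1
  simpa [eX] using h1

lemma hamV_inl (f : Phase N → ℝ) (p : Phase N) (j : Fin N) :
    (hamV f p) (Sum.inl j) = -fderiv ℝ f p (eY j) := by
  have h1 := omegaStd_hamV f p (eY j)
  simp [omegaStd, eY] at h1
  simpa [eY] using h1

lemma eq_sum_basis (p : Phase N) : p = ∑ j : Fin N, (p (Sum.inl j) • eX j + p (Sum.inr j) • eY j) := by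
  ext k
  rcases k with k | k
  · simp [eX, eY, Finset.sum_apply, Pi.single_apply]
  · simp [eX, eY, Finset.sum_apply, Pi.single_apply]

lemma fderiv_hamV_eq_bracket (f g : Phase N → ℝ) (p : Phase N) :
    fderiv ℝ g p (hamV f p) = bracket f g p := by
  conv_lhs => rw [eq_sum_basis (hamV f p)]
  rw [map_sum]
  unfold bracket
  apply Finset.sum_congr rfl
  intro j _
  rw [map_add, map_smul, map_smul, hamV_inl, hamV_inr, smul_eq_mul, smul_eq_mul]
  ring

/-- A family of compactly supported symplectomorphisms whose first coordinate function can be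
deformed to the standard one through functions admitting a conjugate is homotopic to a family
of symplectomorphisms increasing in the direction of `x_i`. -/
theorem exists_homotopicRel_pos (i : Fin N) {T : Type} [TopologicalSpace T] [CompactSpace T]
    (T0 : Set T) (f : C(T, SympCt N)) (F G : T × I → Phase N → ℝ) {R : ℝ} (hR : 0 ≤ R)
    (hFG : PosPair i R F G) (hF0 : ∀ t p, F (t, 0) p = p (Sum.inl i))
    (hF1 : ∀ t p, F (t, 1) p = ((f t : Equiv.Perm (Phase N)) p) (Sum.inl i))
    (hT0 : ∀ t ∈ T0, ∀ s p, F (t, s) p = p (Sum.inl i)) :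
    ∃ g : C(T, SympCt N),
      (∀ t p, 0 < fderiv ℝ (fun q => ((g t : Equiv.Perm (Phase N)) q) (Sum.inl i)) p (eX i)) ∧
      (∀ t ∈ T0, g t = 1) ∧ f.HomotopicRel g T0 := by
  obtain ⟨Φ, Ψ, h⟩ := exists_straightFam hR hFG
  obtain ⟨-, K, hK⟩ := CF_of_continuous f.continuous
  obtain ⟨ρ, hρ⟩ := K.isCompact.isBounded.subset_closedBall (0 : Phase N)
  obtain ⟨H, hHc, hH0, hH1, hHT⟩ := h.exists_homotopy hR hFG.fstd (fun t => f t) (ρ := ρ)
    (fun t p hp => hK t p fun hmem => by
      have := hρ hmem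
      rw [mem_closedBall_zero_iff] at this
      linarith) hF0 hF1 T0 hT0
  refine ⟨⟨fun t => H (1, t), hHc.comp (continuous_const.prodMk continuous_id)⟩, hH1,
    fun t ht => hHT t ht 1, ⟨?_⟩⟩
  exact
    { toFun := H
      continuous_toFun := hHc
      map_zero_left := hH0
      map_one_left := fun t => rfl
      prop' := fun s t ht => by
        change H (s, t) = f t
        rw [hHT t ht s, ← hH0 t, hHT t ht 0] }

end Pool.Agent.H50.Susp
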