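import Mathlib
import Pool.Agent.Helper17.CFamily

set_option maxSynthPendingDepth 3

open scoped ContDiff Topology NNReal unitInterval Manifold
open Set Function Filter MeasureTheory

namespace Pool.Agent.H50.Susp

open Pool.Agent.Helper17

variable {D : Type} [NormedAddCommGroup D] [NormedSpace ℝ D] [FiniteDimensional ℝ D]

/-- Smooth partitions of unity with small supports on balls. -/
lemma exists_partition (A : ℝ) {ε : ℝ} (hε : 0 < ε) :
    ∃ (ι : Type) (_ : Fintype ι) (c : ι → D) (θ : ι → D → ℝ),
      (∀ j, ContDiff ℝ ∞ (θ j)) ∧ (∀ j b, 0 ≤ θ j b) ∧ (∀ j b, θ j b ≠ 0 → dist b (c j) < ε) ∧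
      (∀ b, ∑ j, θ j b ≤ 1) ∧ ∀ b, ‖b‖ ≤ A → ∑ j, θ j b = 1 := by
  have : ProperSpace D := FiniteDimensional.proper_real D
  obtain ⟨J, hJS, hJf, hJ⟩ := (isCompact_closedBall (0 : D) A).finite_cover_balls hε
  have : Finite J := hJf
  cases nonempty_fintype J
  obtain ⟨f, hf⟩ := SmoothPartitionOfUnity.exists_isSubordinate (𝓘(ℝ, D))
    (Metric.isClosed_closedBall (x := (0 : D)) (ε := A)) (fun c : J => Metric.ball (c : D) ε)
    (fun c => Metric.isOpen_ball) (by
      intro b hb
      have := hJ hb
      rw [mem_iUnion₂] at this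
      obtain ⟨c, hc, hbc⟩ := this
      exact mem_iUnion.2 ⟨⟨c, hc⟩, hbc⟩)
  refine ⟨J, inferInstance, fun c => c, fun c b => f c b, ?_, ?_, ?_, ?_, ?_⟩
  · intro c
    exact (f c).contMDiff.contDiff
  · intro c b
    exact f.nonneg c b
  · intro c b hb
    exact hf c (subset_tsupport _ hb)
  · intro b
    have := f.sum_le_one b
    rwa [finsum_eq_sum_of_fintype] at this
  · intro b hb
    have := f.sum_eq_one (x := b) (by simpa using hb)
    rwa [finsum_eq_sum_of_fintype] at this

variable {T : Type} [TopologicalSpace T] [CompactSpace T]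
  {E : Type} [NormedAddCommGroup E] [NormedSpace ℝ E] [FiniteDimensional ℝ E]
  {F : Type} [NormedAddCommGroup F] [NormedSpace ℝ F]

lemma CF.sum {T : Type} [TopologicalSpace T] {E F : Type} [NormedAddCommGroup E]
    [NormedSpace ℝ E] [NormedAddCommGroup F] [NormedSpace ℝ F] {ι : Type} (J : Finset ι)
    {G : ι → T → E → F} (hG : ∀ j, CF (G j)) : CF (fun t x => ∑ j ∈ J, G j t x) := by
  classical
  induction J using Finset.induction_on with
  | empty => simpa using CF.const (T := T) (contDiff_const (c := (0 : F)))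
  | insert a s ha ih =>
    simp only [Finset.sum_insert ha]
    exact (hG a).add ih

lemma uniform_modulus {u : T × D → E → F} (hu : Continuous (fun q : (T × D) × E => u q.1 q.2))
    {A ρ : ℝ} (hb : ∀ t b w, A < ‖b‖ → u (t, b) w = 0) (hw : ∀ t b w, ρ < ‖w‖ → u (t, b) w = 0)
    {δ : ℝ} (hδ : 0 < δ) : ∃ ε : ℝ, 0 < ε ∧ ∀ t (b b' : D) w, dist b b' < ε →
      ‖u (t, b) w - u (t, b') w‖ ≤ δ := by
  have : ProperSpace D := FiniteDimensional.proper_real D
  have : ProperSpace E := FiniteDimensional.proper_real E
  set K : Set E := Metric.closedBall (0 : E) ρ with hK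
  set S : Set D := Metric.closedBall (0 : D) (A + 1) with hS
  have : CompactSpace K := isCompact_iff_compactSpace.1 (isCompact_closedBall _ _)
  have : CompactSpace S := isCompact_iff_compactSpace.1 (isCompact_closedBall _ _)
  set F0 : C(S × (T × K), F) := ⟨fun r => u (r.2.1, (r.1 : D)) r.2.2, by
    exact hu.comp (((continuous_fst.comp continuous_snd).prodMk
      (continuous_subtype_val.comp continuous_fst)).prodMk
      (continuous_subtype_val.comp (continuous_snd.comp continuous_snd)))⟩ with hF0
  have hunif := CompactSpace.uniformContinuous_of_continuous F0.curry.continuous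
  rw [Metric.uniformContinuous_iff] at hunif
  obtain ⟨ε, hε, hunif⟩ := hunif δ hδ
  refine ⟨min ε 1, lt_min hε one_pos, ?_⟩
  intro t b b' w hbb
  rw [lt_min_iff] at hbb
  by_cases hwK : w ∈ K
  · by_cases h1 : b ∈ S ∧ b' ∈ S
    · have h3 : dist (⟨b, h1.1⟩ : S) ⟨b', h1.2⟩ < ε := hbb.1
      have h4 := hunif h3
      have h5 := (ContinuousMap.dist_apply_le_dist (f := F0.curry ⟨b, h1.1⟩)
        (g := F0.curry ⟨b', h1.2⟩) (t, ⟨w, hwK⟩)).trans h4.le
      simp only [ContinuousMap.curry_apply] at h5
      rw [dist_eq_norm] at h5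
      exact h5
    · have h2 : A < ‖b‖ ∧ A < ‖b'‖ := by
        have hd := hbb.2
        rw [dist_eq_norm] at hd
        have n1 : ‖b‖ ≤ ‖b'‖ + ‖b - b'‖ := by
          have := norm_add_le b' (b - b')
          rwa [add_sub_cancel] at this
        have n2 : ‖b'‖ ≤ ‖b‖ + ‖b - b'‖ := by
          have := norm_add_le b (b' - b)
          rw [add_sub_cancel, norm_sub_rev b' b] at this
          exact this
        by_contra hcon
        apply h1
        simp only [hS, mem_closedBall_zero_iff]
        by_contra hcon2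
        apply hcon
        rw [not_and_or] at hcon2
        rcases hcon2 with h | h
        · push Not at h
          constructor <;> linarith
        · push Not at h
          constructor <;> linarith
      rw [hb t b w h2.1, hb t b' w h2.2, sub_self, norm_zero]
      exact hδ.le
  · have h1 : ρ < ‖w‖ := by
      simpa [hK] using hwK
    rw [hw t b w h1, hw t b' w h1, sub_self, norm_zero]
    exact hδ.le

/-- Smoothing of a family in the parameter `b`. -/
theorem exists_moll {u : T × D → E → F} (hu : CF u) {A ρ : ℝ}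
    (hb : ∀ t b w, A < ‖b‖ → u (t, b) w = 0) (hw : ∀ t b w, ρ < ‖w‖ → u (t, b) w = 0)
    {δ : ℝ} (hδ : 0 < δ) :
    ∃ m : T → D × E → F, CF m ∧ (∀ t b w, A + 1 < ‖b‖ → m t (b, w) = 0) ∧
      (∀ t b w, ρ < ‖w‖ → m t (b, w) = 0) ∧
      (∀ t b w, ‖fderiv ℝ (fun w => m t (b, w)) w - fderiv ℝ (u (t, b)) w‖ ≤ δ) ∧
      (∀ t b w, (∀ b', dist b b' < 1 → u (t, b') w = 0) → m t (b, w) = 0) := by
  obtain ⟨ε, hε, hmod⟩ := uniform_modulus (u := fun q w => fderiv ℝ (u q) w) hu.fderiv.continuous
    (A := A) (ρ := ρ) (by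
      intro t b w hbA
      have h1 : u (t, b) = fun _ => 0 := by
        funext w
        exact hb t b w hbA
      rw [h1]
      exact fderiv_const_apply _) (by
      intro t b w hwρ
      have h1 : u (t, b) =ᶠ[𝓝 w] fun _ => 0 := by
        filter_upwards [(isOpen_lt continuous_const continuous_norm).mem_nhds hwρ] with z hz
        exact hw t b z hz
      rw [h1.fderiv_eq]
      exact fderiv_const_apply _) hδ
  obtain ⟨ι, _, c, θ, hθs, hθ0, hθd, hθ1, hθA⟩ :=
    exists_partition (D := D) (A + 1) (lt_min hε one_pos)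
  have hm : ∀ t b w, HasFDerivAt (fun w => ∑ j, θ j b • u (t, c j) w)
      (∑ j, θ j b • fderiv ℝ (u (t, c j)) w) w := by
    intro t b w
    exact HasFDerivAt.fun_sum fun j _ => ((hu.differentiable (t, c j) w).hasFDerivAt).const_smul _
  refine ⟨fun t q => ∑ j, θ j q.1 • u (t, c j) q.2, ?_, ?_, ?_, ?_, ?_⟩
  · apply CF.sum
    intro j
    have h1 : CF (fun (_ : T) (q : D × E) => θ j q.1) := CF.const ((hθs j).comp contDiff_fst)
    have h2 : CF (fun (t : T) (w : E) => u (t, c j) w) :=
      hu.base (h := fun t : T => (t, c j)) (continuous_id.prodMk continuous_const)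
    have h3 : CF (fun (t : T) (q : D × E) => u (t, c j) q.2) :=
      h2.comp (CF.const contDiff_snd)
    exact h1.smul h3
  · intro t b w hbA
    apply Finset.sum_eq_zero
    intro j _
    by_cases hj : θ j b = 0
    · rw [hj, zero_smul]
    · have h1 := hθd j b hj
      rw [lt_min_iff, dist_eq_norm] at h1
      have h2 : ‖b‖ ≤ ‖c j‖ + ‖b - c j‖ := by
        have := norm_add_le (c j) (b - c j)
        rwa [add_sub_cancel] at this
      rw [hb t (c j) w (by linarith [h1.2]), smul_zero]
  · intro t b w hwρ
    apply Finset.sum_eq_zero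
    intro j _
    rw [hw t (c j) w hwρ, smul_zero]
  · intro t b w
    change ‖fderiv ℝ (fun w => ∑ j, θ j b • u (t, c j) w) w - _‖ ≤ δ
    rw [(hm t b w).fderiv]
    by_cases hbA : ‖b‖ ≤ A + 1
    · have h1 : ∑ j, θ j b • fderiv ℝ (u (t, c j)) w - fderiv ℝ (u (t, b)) w =
          ∑ j, θ j b • (fderiv ℝ (u (t, c j)) w - fderiv ℝ (u (t, b)) w) := by
        simp only [smul_sub, Finset.sum_sub_distrib]
        rw [← Finset.sum_smul, hθA b hbA, one_smul]
      rw [h1]
      calc ‖∑ j, θ j b • (fderiv ℝ (u (t, c j)) w - fderiv ℝ (u (t, b)) w)‖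
          ≤ ∑ j, ‖θ j b • (fderiv ℝ (u (t, c j)) w - fderiv ℝ (u (t, b)) w)‖ := norm_sum_le _ _
        _ ≤ ∑ j, θ j b * δ := by
            apply Finset.sum_le_sum
            intro j _
            rw [norm_smul, Real.norm_of_nonneg (hθ0 j b)]
            by_cases hj : θ j b = 0
            · rw [hj, zero_mul, zero_mul]
            · apply mul_le_mul_of_nonneg_left _ (hθ0 j b)
              apply hmod
              have h1 := hθd j b hj
              rw [lt_min_iff] at h1
              rw [dist_comm]
              exact h1.1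
        _ = δ := by rw [← Finset.sum_mul, hθA b hbA, one_mul]
    · push Not at hbA
      have h1 : ∑ j, θ j b • fderiv ℝ (u (t, c j)) w = 0 := by
        apply Finset.sum_eq_zero
        intro j _
        by_cases hj : θ j b = 0
        · rw [hj, zero_smul]
        · have h1 := hθd j b hj
          rw [lt_min_iff, dist_eq_norm] at h1
          have h2 : ‖b‖ ≤ ‖c j‖ + ‖b - c j‖ := by
            have := norm_add_le (c j) (b - c j)
            rwa [add_sub_cancel] at this
          have h3 : u (t, c j) = fun _ => 0 := by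
            funext w
            exact hb t (c j) w (by linarith [h1.2])
          rw [h3, fderiv_const_apply, smul_zero]
      have h2 : fderiv ℝ (u (t, b)) w = 0 := by
        have h3 : u (t, b) = fun _ => 0 := by
          funext w
          exact hb t b w (by linarith)
        rw [h3]
        exact fderiv_const_apply _
      rw [h1, h2, sub_self, norm_zero]
      exact hδ.le
  · intro t b w hloc
    apply Finset.sum_eq_zero
    intro j _
    by_cases hj : θ j b = 0
    · rw [hj, zero_smul]
    · have h1 := hθd j b hj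
      rw [lt_min_iff] at h1
      rw [hloc (c j) h1.2, smul_zero]

end Pool.Agent.H50.Susp
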