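import Mathlib
import Pool.Agent.H50.Susp.PairToPos

set_option maxSynthPendingDepth 3

open scoped ContDiff Topology NNReal unitInterval
open Set Function Filter MeasureTheory

namespace Pool.Agent.H50.Susp

open Pool.Agent.Helper17

variable {n : ℕ}

/-- The last `n` pairs of coordinates. -/
noncomputable def wLin (n : ℕ) : Phase (n + 1) →ₗ[ℝ] Phase n where
  toFun p := WithLp.toLp 2 (fun k => p (Sum.map Fin.succ Fin.succ k))
  map_add' p q := by ext k; simp
  map_smul' c p := by ext k; simp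

/-- The projection to the last `n` pairs of coordinates. -/
noncomputable def wL (n : ℕ) : Phase (n + 1) →L[ℝ] Phase n :=
  LinearMap.toContinuousLinearMap (wLin n)

lemma wL_inl (p : Phase (n + 1)) (j : Fin n) : (wL n p) (Sum.inl j) = p (Sum.inl j.succ) := rfl

lemma wL_inr (p : Phase (n + 1)) (j : Fin n) : (wL n p) (Sum.inr j) = p (Sum.inr j.succ) := rfl

/-- The inclusion of the last `n` pairs of coordinates. -/
noncomputable def embLin (n : ℕ) : Phase n →ₗ[ℝ] Phase (n + 1) where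
  toFun w := WithLp.toLp 2 (Sum.elim (Fin.cons 0 fun j => w (Sum.inl j))
    (Fin.cons 0 fun j => w (Sum.inr j)))
  map_add' p q := by
    ext k
    rcases k with k | k <;> refine Fin.cases ?_ (fun j => ?_) k <;> simp
  map_smul' c p := by
    ext k
    rcases k with k | k <;> refine Fin.cases ?_ (fun j => ?_) k <;> simp

/-- The inclusion of the last `n` pairs of coordinates. -/
noncomputable def emb (n : ℕ) : Phase n →L[ℝ] Phase (n + 1) :=
  LinearMap.toContinuousLinearMap (embLin n)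

@[simp] lemma emb_inl_zero (w : Phase n) : (emb n w) (Sum.inl 0) = 0 := rfl

@[simp] lemma emb_inr_zero (w : Phase n) : (emb n w) (Sum.inr 0) = 0 := rfl

@[simp] lemma emb_inl_succ (w : Phase n) (j : Fin n) :
    (emb n w) (Sum.inl j.succ) = w (Sum.inl j) := rfl

@[simp] lemma emb_inr_succ (w : Phase n) (j : Fin n) :
    (emb n w) (Sum.inr j.succ) = w (Sum.inr j) := rfl

/-- The point with coordinates `x`, `y`, `w`. -/
noncomputable def mkP (x y : ℝ) (w : Phase n) : Phase (n + 1) :=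
  x • eX 0 + y • eY 0 + emb n w

lemma eX_inl_zero : (eX 0 : Phase (n + 1)) (Sum.inl 0) = 1 := by simp [eX]

lemma eX_inr (i : Fin (n + 1)) (j : Fin (n + 1)) : (eX i : Phase (n + 1)) (Sum.inr j) = 0 := by
  simp [eX]

@[simp] lemma mkP_x (x y : ℝ) (w : Phase n) : (mkP x y w) (Sum.inl 0) = x := by
  simp [mkP, eX, eY]

@[simp] lemma mkP_y (x y : ℝ) (w : Phase n) : (mkP x y w) (Sum.inr 0) = y := by
  simp [mkP, eX, eY]

@[simp] lemma wL_mkP (x y : ℝ) (w : Phase n) : wL n (mkP x y w) = w := by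
  ext k
  rcases k with k | k
  · rw [wL_inl]; simp [mkP, eX, eY]
  · rw [wL_inr]; simp [mkP, eX, eY]

lemma ext_xyw {p q : Phase (n + 1)} (hx : p (Sum.inl 0) = q (Sum.inl 0))
    (hy : p (Sum.inr 0) = q (Sum.inr 0)) (hw : wL n p = wL n q) : p = q := by
  ext k
  rcases k with k | k
  · refine Fin.cases hx (fun j => ?_) k
    have := congrArg (fun v : Phase n => v (Sum.inl j)) hw
    simpa only [wL_inl] using this
  · refine Fin.cases hy (fun j => ?_) k
    have := congrArg (fun v : Phase n => v (Sum.inr j)) hw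
    simpa only [wL_inr] using this

lemma mkP_eta (p : Phase (n + 1)) : mkP (p (Sum.inl 0)) (p (Sum.inr 0)) (wL n p) = p :=
  ext_xyw (by simp) (by simp) (by simp)

lemma omegaStd_succ (u v : Phase (n + 1)) :
    omegaStd u v = u (Sum.inl 0) * v (Sum.inr 0) - u (Sum.inr 0) * v (Sum.inl 0) +
      omegaStd (wL n u) (wL n v) := by
  simp only [omegaStd, Fin.sum_univ_succ, wL_inl, wL_inr]

lemma norm_sq_succ (p : Phase (n + 1)) :
    ‖p‖ ^ 2 = (p (Sum.inl 0)) ^ 2 + (p (Sum.inr 0)) ^ 2 + ‖wL n p‖ ^ 2 := by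
  simp only [EuclideanSpace.norm_sq_eq, Fintype.sum_sum_type, Fin.sum_univ_succ, wL_inl, wL_inr,
    Real.norm_eq_abs, sq_abs]
  ring

lemma norm_wL_le (p : Phase (n + 1)) : ‖wL n p‖ ≤ ‖p‖ := by
  have := norm_sq_succ p
  exact le_of_sq_le_sq (by nlinarith [sq_nonneg (p (Sum.inl 0)), sq_nonneg (p (Sum.inr 0))])
    (norm_nonneg _)

lemma norm_le_xyw (p : Phase (n + 1)) :
    ‖p‖ ≤ |p (Sum.inl 0)| + |p (Sum.inr 0)| + ‖wL n p‖ := by
  have h := norm_sq_succ p
  apply le_of_sq_le_sq _ (by positivity)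
  rw [h]
  have h1 := abs_nonneg (p (Sum.inl 0))
  have h2 := abs_nonneg (p (Sum.inr 0))
  have h3 := norm_nonneg (wL n p)
  have e1 := sq_abs (p (Sum.inl 0))
  have e2 := sq_abs (p (Sum.inr 0))
  nlinarith [mul_nonneg h1 h2, mul_nonneg h1 h3, mul_nonneg h2 h3]

lemma wL_eX : wL n (eX 0) = 0 := by
  ext k
  rcases k with k | k
  · rw [wL_inl]; simp [eX]
  · rw [wL_inr]; simp [eX]

lemma wL_eY : wL n (eY 0) = 0 := by
  ext k
  rcases k with k | k
  · rw [wL_inl]; simp [eY]
  · rw [wL_inr]; simp [eY]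

lemma wL_emb (w : Phase n) : wL n (emb n w) = w := by
  ext k
  rcases k with k | k
  · rw [wL_inl]; simp
  · rw [wL_inr]; simp

lemma side_x (p : Phase (n + 1)) : (side 0 p) (Sum.inl 0) = p (Sum.inl 0) := by
  simp [side, eY]

lemma side_y (p : Phase (n + 1)) : (side 0 p) (Sum.inr 0) = 0 := by
  simp [side, eY]

lemma wL_side (p : Phase (n + 1)) : wL n (side 0 p) = wL n p := by
  rw [side, map_sub, map_smul, wL_eY, smul_zero, sub_zero]

lemma norm_side_sq (p : Phase (n + 1)) :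
    ‖side 0 p‖ ^ 2 = (p (Sum.inl 0)) ^ 2 + ‖wL n p‖ ^ 2 := by
  rw [norm_sq_succ, side_x, side_y, wL_side]
  ring

lemma abs_x_le_side (p : Phase (n + 1)) : |p (Sum.inl 0)| ≤ ‖side 0 p‖ := by
  have := abs_coord_le (side 0 p) (Sum.inl 0)
  rwa [side_x] at this

lemma norm_wL_le_side (p : Phase (n + 1)) : ‖wL n p‖ ≤ ‖side 0 p‖ := by
  have := norm_wL_le (side 0 p)
  rwa [wL_side] at this

lemma contDiff_mkP {E : Type*} [NormedAddCommGroup E] [NormedSpace ℝ E] {x y : E → ℝ}
    {w : E → Phase n} {m : WithTop ℕ∞} (hx : ContDiff ℝ m x) (hy : ContDiff ℝ m y)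
    (hw : ContDiff ℝ m w) : ContDiff ℝ m (fun e => mkP (x e) (y e) (w e)) :=
  ((hx.smul contDiff_const).add (hy.smul contDiff_const)).add ((emb n).contDiff.comp hw)

lemma CF.mkP {T : Type} [TopologicalSpace T] {E : Type} [NormedAddCommGroup E] [NormedSpace ℝ E]
    {x y : T → E → ℝ} {w : T → E → Phase n} (hx : CF x) (hy : CF y) (hw : CF w) :
    CF (fun t e => mkP (x t e) (y t e) (w t e)) :=
  ((hx.smul (CF.const contDiff_const)).add (hy.smul (CF.const contDiff_const))).add
    (hw.clm (emb n))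

end Pool.Agent.H50.Susp
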