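import Mathlib
import Pool.Agent.Helper17.MoserFamily
import Pool.Agent.H50.Susp.PairToPos

set_option maxSynthPendingDepth 3

open scoped ContDiff Topology NNReal unitInterval
open Set Function Filter MeasureTheory

namespace Pool.Agent.H50.Susp

open Pool.Agent.Helper17

variable {N : ℕ} {i : Fin N}

section hom

variable {T : Type} [TopologicalSpace T]

/-- Homotopies, constant on `T0`, between families of pairs of functions with positive Poisson
bracket. -/
def PairHomotopic (i : Fin N) (T0 : Set T) (f g f' g' : T → Phase N → ℝ) : Prop :=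
  ∃ (R : ℝ) (F G : T × I → Phase N → ℝ), 0 ≤ R ∧ PosPair i R F G ∧
    (∀ t p, F (t, 0) p = f t p ∧ G (t, 0) p = g t p) ∧
    (∀ t p, F (t, 1) p = f' t p ∧ G (t, 1) p = g' t p) ∧
    (∀ t ∈ T0, ∀ s p, F (t, s) p = f t p ∧ G (t, s) p = g t p)

lemma PosPair.mono {R R' : ℝ} (hRR : R ≤ R') {f g : T → Phase N → ℝ} (h : PosPair i R f g) :
    PosPair i R' f g where
  cf := h.cf
  cg := h.cg
  fstd t p hp := h.fstd t p (by linarith)
  gstd t p hp := h.gstd t p (by linarith)
  pos := h.pos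

lemma PosPair.base {S : Type} [TopologicalSpace S] {R : ℝ} {f g : T → Phase N → ℝ}
    (h : PosPair i R f g) {c : S → T} (hc : Continuous c) :
    PosPair i R (fun s => f (c s)) (fun s => g (c s)) where
  cf := h.cf.base hc
  cg := h.cg.base hc
  fstd _ p hp := h.fstd _ p hp
  gstd _ p hp := h.gstd _ p hp
  pos _ p := h.pos _ p

lemma PairHomotopic.symm {T0 : Set T} {f g f' g' : T → Phase N → ℝ}
    (h : PairHomotopic i T0 f g f' g') : PairHomotopic i T0 f' g' f g := by
  obtain ⟨R, F, G, hR, hFG, h0, h1, hT⟩ := h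
  have hc : Continuous (fun q : T × I => (q.1, σ q.2)) :=
    continuous_fst.prodMk (unitInterval.continuous_symm.comp continuous_snd)
  refine ⟨R, fun q => F (q.1, σ q.2), fun q => G (q.1, σ q.2), hR, hFG.base hc, ?_, ?_, ?_⟩
  · intro t p
    simp only [unitInterval.symm_zero]
    exact h1 t p
  · intro t p
    simp only [unitInterval.symm_one]
    exact h0 t p
  · intro t ht s p
    have a1 := hT t ht (σ s) p
    have a2 := hT t ht 1 p
    have a3 := h1 t p
    exact ⟨a1.1.trans (a2.1.symm.trans a3.1), a1.2.trans (a2.2.symm.trans a3.2)⟩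

/-- Reparametrisations of the first and of the second half of the interval. -/
noncomputable def hf1 (t : I) : I := projIcc 0 1 zero_le_one (2 * (t : ℝ))

noncomputable def hf2 (t : I) : I := projIcc 0 1 zero_le_one (2 * (t : ℝ) - 1)

lemma continuous_hf1 : Continuous hf1 :=
  continuous_projIcc.comp (continuous_const.mul continuous_subtype_val)

lemma continuous_hf2 : Continuous hf2 :=
  continuous_projIcc.comp ((continuous_const.mul continuous_subtype_val).sub continuous_const)

lemma hf_cases (t : I) : hf2 t = 0 ∨ hf1 t = 1 := by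
  rcases le_total (t : ℝ) (1 / 2) with h | h
  · left
    exact projIcc_of_le_left (h := (zero_le_one : (0 : ℝ) ≤ 1)) (by linarith)
  · right
    exact projIcc_of_right_le (h := (zero_le_one : (0 : ℝ) ≤ 1)) (by linarith)

lemma hf1_zero : hf1 0 = 0 :=
  projIcc_of_le_left (h := (zero_le_one : (0 : ℝ) ≤ 1)) (by simp)

lemma hf2_zero : hf2 0 = 0 :=
  projIcc_of_le_left (h := (zero_le_one : (0 : ℝ) ≤ 1)) (by simp)

lemma hf1_one : hf1 1 = 1 :=
  projIcc_of_right_le (h := (zero_le_one : (0 : ℝ) ≤ 1)) (by simp)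

lemma hf2_one : hf2 1 = 1 :=
  projIcc_of_right_le (h := (zero_le_one : (0 : ℝ) ≤ 1)) (by norm_num)

lemma CF.glue {E E' : Type} [NormedAddCommGroup E] [NormedSpace ℝ E] [NormedAddCommGroup E']
    [NormedSpace ℝ E'] {F F' : T × I → E → E'} (hF : CF F) (hF' : CF F') :
    CF (fun (q : T × I) x => F (q.1, hf1 q.2) x + F' (q.1, hf2 q.2) x - F' (q.1, 0) x) := by
  have c1 : Continuous (fun q : T × I => (q.1, hf1 q.2)) :=
    continuous_fst.prodMk (continuous_hf1.comp continuous_snd)
  have c2 : Continuous (fun q : T × I => (q.1, hf2 q.2)) :=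
    continuous_fst.prodMk (continuous_hf2.comp continuous_snd)
  have c3 : Continuous (fun q : T × I => (q.1, (0 : I))) :=
    continuous_fst.prodMk continuous_const
  exact ((hF.base c1).add (hF'.base c2)).sub (hF'.base c3)

lemma PairHomotopic.trans {T0 : Set T} {f g f' g' f'' g'' : T → Phase N → ℝ}
    (h : PairHomotopic i T0 f g f' g') (h' : PairHomotopic i T0 f' g' f'' g'') :
    PairHomotopic i T0 f g f'' g'' := by
  obtain ⟨R, F, G, hR, hFG, h0, h1, hT⟩ := h
  obtain ⟨R', F', G', hR', hFG', h0', h1', hT'⟩ := h'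
  -- the value of the glued families
  have key : ∀ (A A' : T × I → Phase N → ℝ), (∀ t p, A (t, 1) p = A' (t, 0) p) →
      ∀ t s, ((fun p => A (t, hf1 s) p + A' (t, hf2 s) p - A' (t, 0) p) = A (t, hf1 s) ∧
        hf2 s = 0) ∨
      (fun p => A (t, hf1 s) p + A' (t, hf2 s) p - A' (t, 0) p) = A' (t, hf2 s) ∧ hf1 s = 1 := by
    intro A A' hA t s
    rcases hf_cases s with hs | hs
    · left
      refine ⟨?_, hs⟩
      funext p
      rw [hs]; ring
    · right
      refine ⟨?_, hs⟩
      funext p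
      rw [hs, hA]; ring
  have eF : ∀ t p, F (t, 1) p = F' (t, 0) p := fun t p => (h1 t p).1.trans (h0' t p).1.symm
  have eG : ∀ t p, G (t, 1) p = G' (t, 0) p := fun t p => (h1 t p).2.trans (h0' t p).2.symm
  refine ⟨max R R', fun q p => F (q.1, hf1 q.2) p + F' (q.1, hf2 q.2) p - F' (q.1, 0) p,
    fun q p => G (q.1, hf1 q.2) p + G' (q.1, hf2 q.2) p - G' (q.1, 0) p,
    hR.trans (le_max_left _ _), ⟨CF.glue hFG.cf hFG'.cf, CF.glue hFG.cg hFG'.cg, ?_, ?_, ?_⟩,
    ?_, ?_, ?_⟩
  · intro q p hp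
    rw [max_lt_iff] at hp
    simp only [hFG.fstd _ p hp.1, hFG'.fstd _ p hp.2]
    ring
  · intro q p hp
    rw [max_lt_iff] at hp
    simp only [hFG.gstd _ p hp.1, hFG'.gstd _ p hp.2]
    ring
  · intro q p
    rcases hf_cases q.2 with hs | hs
    · have e1 : (fun p => F (q.1, hf1 q.2) p + F' (q.1, hf2 q.2) p - F' (q.1, 0) p) =
          F (q.1, hf1 q.2) := by funext p; rw [hs]; ring
      have e2 : (fun p => G (q.1, hf1 q.2) p + G' (q.1, hf2 q.2) p - G' (q.1, 0) p) =
          G (q.1, hf1 q.2) := by funext p; rw [hs]; ring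
      rw [e1, e2]
      exact hFG.pos _ p
    · have e1 : (fun p => F (q.1, hf1 q.2) p + F' (q.1, hf2 q.2) p - F' (q.1, 0) p) =
          F' (q.1, hf2 q.2) := by funext p; rw [hs, eF]; ring
      have e2 : (fun p => G (q.1, hf1 q.2) p + G' (q.1, hf2 q.2) p - G' (q.1, 0) p) =
          G' (q.1, hf2 q.2) := by funext p; rw [hs, eG]; ring
      rw [e1, e2]
      exact hFG'.pos _ p
  · intro t p
    simp only [hf1_zero, hf2_zero, add_sub_cancel_right]
    exact h0 t p
  · intro t p
    simp only [hf1_one, hf2_one, eF, eG, add_sub_cancel_left]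
    exact h1' t p
  · intro t ht s p
    have b1 := hT t ht (hf1 s) p
    have b2 := hT' t ht (hf2 s) p
    have b3 := hT' t ht 0 p
    simp only [b1.1, b1.2, b2.1, b2.2, b3.1, b3.2, add_sub_cancel_right]
    exact ⟨trivial, trivial⟩

lemma PairHomotopic.refl {T0 : Set T} {R : ℝ} (hR : 0 ≤ R) {f g : T → Phase N → ℝ}
    (h : PosPair i R f g) : PairHomotopic i T0 f g f g :=
  ⟨R, fun q => f q.1, fun q => g q.1, hR, h.base continuous_fst, fun _ _ => ⟨rfl, rfl⟩,
    fun _ _ => ⟨rfl, rfl⟩, fun _ _ _ _ => ⟨rfl, rfl⟩⟩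

/-- Pairs with the same first function are joined by a segment. -/
lemma pairHomotopic_of_left {T0 : Set T} {R : ℝ} (hR : 0 ≤ R) {f g g' : T → Phase N → ℝ}
    (h : PosPair i R f g) (h' : PosPair i R f g') (hT : ∀ t ∈ T0, ∀ p, g t p = g' t p) :
    PairHomotopic i T0 f g f g' := by
  have hs : CF (fun (q : T × I) (_ : Phase N) => (q.2 : ℝ)) :=
    CF.param (continuous_subtype_val.comp continuous_snd)
  have hG : CF (fun (q : T × I) p => g q.1 p + (q.2 : ℝ) * (g' q.1 p - g q.1 p)) :=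
    (h.cg.base continuous_fst).add
      (hs.smul ((h'.cg.base continuous_fst).sub (h.cg.base continuous_fst)))
  refine ⟨R, fun q => f q.1, fun q p => g q.1 p + (q.2 : ℝ) * (g' q.1 p - g q.1 p), hR,
    ⟨h.cf.base continuous_fst, hG, fun q p hp => h.fstd _ p hp, ?_, ?_⟩, ?_, ?_, ?_⟩
  · intro q p hp
    simp only [h.gstd _ p hp, h'.gstd _ p hp]
    ring
  · intro q p
    have d1 := (h.cg.differentiable q.1 p).hasFDerivAt
    have d2 := (h'.cg.differentiable q.1 p).hasFDerivAt
    have d3 : HasFDerivAt (fun p => g q.1 p + (q.2 : ℝ) * (g' q.1 p - g q.1 p))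
        (fderiv ℝ (g q.1) p + (q.2 : ℝ) • (fderiv ℝ (g' q.1) p - fderiv ℝ (g q.1) p)) p :=
      d1.add ((d2.sub d1).const_mul _)
    rw [d3.fderiv]
    have p1 := h.pos q.1 p
    have p2 := h'.pos q.1 p
    simp only [add_apply, smul_apply, sub_apply, smul_eq_mul]
    have q0 := q.2.2.1
    have q1 := q.2.2.2
    set c : ℝ := (q.2 : ℝ)
    set u := fderiv ℝ (g q.1) p (hamV (f q.1) p)
    set v := fderiv ℝ (g' q.1) p (hamV (f q.1) p)
    have e : u + c * (v - u) = (1 - c) * u + c * v := by ring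
    rw [e]
    rcases q0.eq_or_lt with hc | hc
    · rw [← hc]; simpa using p1
    · have := mul_pos hc p2
      have := mul_nonneg (sub_nonneg.2 q1) p1.le
      linarith
  · intro t p
    exact ⟨rfl, by simp⟩
  · intro t p
    exact ⟨rfl, by simp⟩
  · intro t ht s p
    exact ⟨rfl, by simp only [hT t ht p, sub_self, mul_zero, add_zero]⟩

end hom

/-- The coordinates `x_i` and `y_i` have positive Poisson bracket for all the forms
`(1 - s) ω + s ω` pulled back, `0 ≤ s ≤ 1`, when pulled back by `A`. -/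
def PosAdm (i : Fin N) (A : Phase N →L[ℝ] Phase N) : Prop :=
  ∀ s ∈ Icc (0 : ℝ) 1, ∀ X : Phase N,
    (∀ w, (1 - s) * omegaStd X w + s * omegaStd (A X) (A w) = -(A w) (Sum.inl i)) →
      0 < (A X) (Sum.inr i)

/-- Moser's method for pairs. -/
theorem moser_pair {T : Type} [TopologicalSpace T] [CompactSpace T] {T0 : Set T}
    {Ψ : T → Phase N → Phase N} (hΨ : CF Ψ) {R : ℝ} (hR : 0 ≤ R)
    (hΨK : ∀ t x, R < ‖x‖ → Ψ t x = x)
    (hadm : ∀ t x, Admissible (fderiv ℝ (Ψ t) x)) (hpos : ∀ t x, PosAdm i (fderiv ℝ (Ψ t) x))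
    (hT0 : ∀ t ∈ T0, ∀ x, Ψ t x = x) :
    ∃ φ : C(T, SympCt N), (∀ t ∈ T0, φ t = 1) ∧
      PairHomotopic i T0 (fun t p => (Ψ t p) (Sum.inl i)) (fun t p => (Ψ t p) (Sum.inr i))
        (fun t p => ((φ t : Equiv.Perm (Phase N)) p) (Sum.inl i))
        (fun t p => ((φ t : Equiv.Perm (Phase N)) p) (Sum.inr i)) := by
  have hKout : ∀ t, ∀ x ∉ Metric.closedBall (0 : Phase N) R, Ψ t x = x := fun t x hx =>
    hΨK t x (by simpa using hx)
  obtain ⟨ρ, hρ, hcons, hρK, hρ0, hρid⟩ :=
    moser_family hΨ (isCompact_closedBall (0 : Phase N) R) hKout hadm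
  have hHCF : CF (fun (q : T × I) x => Ψ q.1 (ρ q x)) := (hΨ.base continuous_fst).comp hρ
  have hHK : ∀ (q : T × I) x, R < ‖x‖ → Ψ q.1 (ρ q x) = x := by
    intro q x hx
    rw [hρK x (by simpa using hx), hΨK q.1 x hx]
  have hs1 : ∀ (t : T) (x u v : Phase N),
      omegaStd (fderiv ℝ (fun x => Ψ t (ρ (t, 1) x)) x u)
        (fderiv ℝ (fun x => Ψ t (ρ (t, 1) x)) x v) = omegaStd u v := by
    intro t x u v
    rw [fderiv_comp_family hΨ hρ t 1 x]
    have := hcons t 1 x u v
    simp only [Icc.coe_one, sub_self, zero_mul, one_mul, zero_add] at this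
    exact this
  set φ : T → SympCt N := fun t => mkSymp (fun x => Ψ t (ρ (t, 1) x)) (hHCF.contDiff (t, 1))
    ⟨Metric.closedBall 0 R, isCompact_closedBall 0 R, fun x hx => hHK (t, 1) x (by simpa using hx)⟩
    (hs1 t) with hφ
  have hφc : Continuous φ := continuous_of_CF (hHCF.base (h := fun t : T => (t, (1 : I)))
    (continuous_id.prodMk continuous_const)) ⟨Metric.closedBall 0 R, isCompact_closedBall 0 R⟩
    (fun t x hx => hHK (t, 1) x (by
      have hx' : x ∉ Metric.closedBall (0 : Phase N) R := hx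
      simpa using hx')) (fun t x => rfl)
  have hid : ∀ t ∈ T0, ∀ s x, Ψ t (ρ (t, s) x) = x := by
    intro t ht s x
    rw [hρid t (hT0 t ht) s x, hT0 t ht]
  refine ⟨⟨φ, hφc⟩, ?_, R, fun q p => (Ψ q.1 (ρ q p)) (Sum.inl i),
    fun q p => (Ψ q.1 (ρ q p)) (Sum.inr i), hR, ⟨?_, ?_, ?_, ?_, ?_⟩, ?_, ?_, ?_⟩
  · intro t ht
    apply SympCt.ext'
    intro x
    exact hid t ht 1 x
  · exact hHCF.clm (coordL (Sum.inl i))
  · exact hHCF.clm (coordL (Sum.inr i))
  · intro q p hp
    simp only [hHK q p hp]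
  · intro q p hp
    simp only [hHK q p hp]
  · rintro ⟨t, s⟩ p
    set B := fderiv ℝ (ρ (t, s)) p with hB
    set A := fderiv ℝ (Ψ t) (ρ (t, s) p) with hA
    have hF : ∀ k, fderiv ℝ (fun p => (Ψ t (ρ (t, s) p)) k) p = (coordL k).comp (A.comp B) := by
      intro k
      have h1 : HasFDerivAt (fun x => Ψ t (ρ (t, s) x)) (A.comp B) p :=
        HasFDerivAt.comp p (hΨ.differentiable t _).hasFDerivAt (hρ.differentiable (t, s) p).hasFDerivAt
      exact ((coordL k).hasFDerivAt.comp p h1).fderiv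
    have hBinj : Injective B := by
      rw [injective_iff_map_eq_zero]
      intro v hv
      apply eq_zero_of_omegaStd
      intro w
      rw [← hcons t s p v w, ← hB, hv]
      simp [omegaStd_zero_left]
    have hBsurj : Surjective B := (LinearMap.injective_iff_surjective (f := (B : Phase N →ₗ[ℝ] Phase N))).1 hBinj
    set V := hamV (fun p => (Ψ t (ρ (t, s) p)) (Sum.inl i)) p with hV
    have h1 := hpos t (ρ (t, s) p) s s.2 (B V) (by
      intro w'
      obtain ⟨w, rfl⟩ := hBsurj w'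
      rw [← hA]
      have h2 := hcons t s p V w
      rw [← hA, ← hB] at h2
      rw [h2, hV, omegaStd_hamV, hF]
      rfl)
    change 0 < fderiv ℝ (fun p => (Ψ t (ρ (t, s) p)) (Sum.inr i)) p V
    rw [hF]
    exact h1
  · intro t p
    have h1 : ρ (t, 0) p = p := hρ0 t p
    simp only [h1]
    exact ⟨trivial, trivial⟩
  · intro t p
    exact ⟨rfl, rfl⟩
  · intro t ht s p
    simp only [hid t ht s p, hT0 t ht p]
    exact ⟨trivial, trivial⟩

end Pool.Agent.H50.Susp
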