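import Mathlib
import Pool.Agent.Helper17.AdmComp
import Pool.Agent.H50.Susp.Coord
import Pool.Agent.H50.Susp.MoserPair

set_option maxSynthPendingDepth 3

open scoped ContDiff Topology NNReal unitInterval
open Set Function Filter MeasureTheory

namespace Pool.Agent.H50.Susp

open Pool.Agent.Helper17

lemma omegaStd_eY {N : ℕ} (i : Fin N) (w : Phase N) : omegaStd (eY i) w = -w (Sum.inl i) := by
  have h1 := omegaStd_sharp (-(coordL (Sum.inl i)) : Phase N →L[ℝ] ℝ) w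
  rw [map_neg, sharp_coordL, neg_neg] at h1
  rw [h1]
  rfl

lemma symp_surjective {N : ℕ} {A : Phase N →L[ℝ] Phase N}
    (hA : ∀ u v, omegaStd (A u) (A v) = omegaStd u v) : Surjective A := by
  have hinj : Injective A := by
    rw [injective_iff_map_eq_zero]
    intro v hv
    apply eq_zero_of_omegaStd
    intro w
    rw [← hA v w, hv, omegaStd_zero_left]
  exact (LinearMap.injective_iff_surjective (f := (A : Phase N →ₗ[ℝ] Phase N))).1 hinj

lemma symp_admissible {N : ℕ} {A : Phase N →L[ℝ] Phase N}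
    (hA : ∀ u v, omegaStd (A u) (A v) = omegaStd u v) : Admissible A := by
  intro s _ v hv
  apply eq_zero_of_omegaStd
  intro w
  have := hv w
  rw [hA] at this
  linarith

lemma symp_posAdm {N : ℕ} (i : Fin N) {A : Phase N →L[ℝ] Phase N}
    (hA : ∀ u v, omegaStd (A u) (A v) = omegaStd u v) : PosAdm i A := by
  intro s _ X hX
  have h1 : A X = eY i := by
    rw [← sub_eq_zero]
    apply eq_zero_of_omegaStd
    intro w'
    obtain ⟨w, rfl⟩ := symp_surjective hA w'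
    have := hX w
    rw [hA] at this
    rw [omegaStd_sub_left, hA, omegaStd_eY]
    linarith
  rw [h1, eY_inr]
  exact one_pos

lemma near_posAdm {N : ℕ} {i : Fin N} {θ : ℝ} (hθ : θ ≤ 1 / 4)
    {A : Phase N →L[ℝ] Phase N} (hA : NearL θ A)
    (hx : ∀ w, (A w) (Sum.inl i) = w (Sum.inl i))
    (hy : ∀ X, |(A X) (Sum.inr i) - X (Sum.inr i)| ≤ θ * ‖X‖) : PosAdm i A := by
  intro s hs X hX
  have h1 : ‖X - eY i‖ ≤ θ * ‖X‖ := by
    have h2 : ‖X - eY i‖ ^ 2 ≤ θ * ‖X‖ * ‖X - eY i‖ := by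
      rw [← omegaStd_Jl]
      set w := Jl N (X - eY i) with hw
      have h3 := hX w
      rw [hx] at h3
      have h4 := hA X w
      have h5 : ‖w‖ = ‖X - eY i‖ := by rw [hw, norm_Jl]
      rw [h5] at h4
      rw [omegaStd_sub_left, omegaStd_eY]
      have h6 : omegaStd X w - -w (Sum.inl i) = -(s * (omegaStd (A X) (A w) - omegaStd X w)) := by
        linarith
      rw [h6]
      calc -(s * (omegaStd (A X) (A w) - omegaStd X w))
          ≤ |s * (omegaStd (A X) (A w) - omegaStd X w)| := neg_le_abs _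
        _ = s * |omegaStd (A X) (A w) - omegaStd X w| := by
            rw [abs_mul, abs_of_nonneg hs.1]
        _ ≤ 1 * |omegaStd (A X) (A w) - omegaStd X w| :=
            mul_le_mul_of_nonneg_right hs.2 (abs_nonneg _)
        _ ≤ θ * ‖X‖ * ‖X - eY i‖ := by rw [one_mul]; exact h4
    rcases (norm_nonneg (X - eY i)).eq_or_lt with h0 | h0
    · rw [← h0]
      have h3 := hy X
      exact (abs_nonneg _).trans h3
    · rw [sq] at h2
      exact le_of_mul_le_mul_right h2 h0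
  have h2 : ‖X‖ ≤ 1 + ‖X - eY i‖ := by
    have := norm_add_le (eY i : Phase N) (X - eY i)
    rw [add_sub_cancel, norm_eY] at this
    exact this
  have h3 : ‖X‖ ≤ 4 / 3 := by
    have := norm_nonneg X
    nlinarith
  have h4 : θ * ‖X‖ ≤ 1 / 3 := by
    have := norm_nonneg X
    nlinarith
  have h5 := hy X
  have h6 : |X (Sum.inr i) - 1| ≤ ‖X - eY i‖ := by
    have := abs_coord_le (X - eY i) (Sum.inr i)
    rwa [PiLp.sub_apply, eY_inr] at this
  rw [abs_le] at h5 h6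
  linarith [h5.1, h6.1]

variable {n : ℕ}

lemma abs_omegaStd_sub_le {N : ℕ} (a b a' b' : Phase N) :
    |omegaStd a' b' - omegaStd a b| ≤ ‖a' - a‖ * ‖b'‖ + ‖a‖ * ‖b' - b‖ := by
  have h1 : omegaStd a' b' - omegaStd a b = omegaStd (a' - a) b' + omegaStd a (b' - b) := by
    rw [omegaStd_sub_left, omegaStd_sub_right]; ring
  rw [h1]
  exact (abs_add_le _ _).trans (add_le_add (abs_omegaStd_le _ _) (abs_omegaStd_le _ _))

/-- Linear maps close to a suspended symplectic map. -/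
lemma near_susp {κ C : ℝ} (hκ0 : 0 ≤ κ) (hκ1 : κ ≤ 1) (hC0 : 0 ≤ C) (hκC : κ * (2 * C + 3) ≤ 1 / 4)
    {A : Phase (n + 1) →L[ℝ] Phase (n + 1)} {S : Phase n →L[ℝ] Phase n}
    (hS : ∀ u v, omegaStd (S u) (S v) = omegaStd u v) (hSC : ‖S‖ ≤ C)
    (hx : ∀ w, (A w) (Sum.inl 0) = w (Sum.inl 0))
    (hy : ∀ X, |(A X) (Sum.inr 0) - X (Sum.inr 0)| ≤ κ * ‖X‖)
    (hw : ∀ X, ‖wL n (A X) - S (wL n X)‖ ≤ κ * ‖X‖) : Admissible A ∧ PosAdm 0 A := by
  have hnear : NearL (κ * (2 * C + 3)) A := by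
    intro v w
    have e : omegaStd (A v) (A w) - omegaStd v w =
        (v (Sum.inl 0) * ((A w) (Sum.inr 0) - w (Sum.inr 0)) -
          ((A v) (Sum.inr 0) - v (Sum.inr 0)) * w (Sum.inl 0)) +
        (omegaStd (wL n (A v)) (wL n (A w)) - omegaStd (S (wL n v)) (S (wL n w))) := by
      rw [omegaStd_succ (A v), omegaStd_succ v, hx, hx, hS]
      ring
    rw [e]
    have b1 : |v (Sum.inl 0) * ((A w) (Sum.inr 0) - w (Sum.inr 0))| ≤ ‖v‖ * (κ * ‖w‖) := by
      rw [abs_mul]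
      exact mul_le_mul (abs_coord_le _ _) (hy w) (abs_nonneg _) (norm_nonneg _)
    have b2 : |((A v) (Sum.inr 0) - v (Sum.inr 0)) * w (Sum.inl 0)| ≤ (κ * ‖v‖) * ‖w‖ := by
      rw [abs_mul]
      exact mul_le_mul (hy v) (abs_coord_le _ _) (abs_nonneg _) (by positivity)
    have c1 : ‖S (wL n v)‖ ≤ C * ‖v‖ :=
      (S.le_opNorm _).trans (mul_le_mul hSC (norm_wL_le v) (norm_nonneg _) hC0)
    have c2 : ‖S (wL n w)‖ ≤ C * ‖w‖ :=
      (S.le_opNorm _).trans (mul_le_mul hSC (norm_wL_le w) (norm_nonneg _) hC0)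
    have c3 : ‖wL n (A w)‖ ≤ (C + κ) * ‖w‖ := by
      calc ‖wL n (A w)‖ = ‖(wL n (A w) - S (wL n w)) + S (wL n w)‖ := by rw [sub_add_cancel]
        _ ≤ κ * ‖w‖ + C * ‖w‖ := (norm_add_le _ _).trans (add_le_add (hw w) c2)
        _ = (C + κ) * ‖w‖ := by ring
    have b3 := abs_omegaStd_sub_le (S (wL n v)) (S (wL n w)) (wL n (A v)) (wL n (A w))
    have b4 : ‖wL n (A v) - S (wL n v)‖ * ‖wL n (A w)‖ + ‖S (wL n v)‖ *
        ‖wL n (A w) - S (wL n w)‖ ≤ (κ * ‖v‖) * ((C + κ) * ‖w‖) + (C * ‖v‖) * (κ * ‖w‖) := by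
      apply add_le_add
      · exact mul_le_mul (hw v) c3 (norm_nonneg _) (by positivity)
      · exact mul_le_mul c1 (hw w) (norm_nonneg _) (by positivity)
    have b5 := (abs_add_le (v (Sum.inl 0) * ((A w) (Sum.inr 0) - w (Sum.inr 0)) -
          ((A v) (Sum.inr 0) - v (Sum.inr 0)) * w (Sum.inl 0))
        (omegaStd (wL n (A v)) (wL n (A w)) - omegaStd (S (wL n v)) (S (wL n w))))
    have b6 := abs_sub (v (Sum.inl 0) * ((A w) (Sum.inr 0) - w (Sum.inr 0)))
      (((A v) (Sum.inr 0) - v (Sum.inr 0)) * w (Sum.inl 0))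
    have b7 : 0 ≤ κ * (1 - κ) * (‖v‖ * ‖w‖) := by
      have := sub_nonneg.2 hκ1
      positivity
    nlinarith
  refine ⟨hnear.admissible (by linarith), near_posAdm hκC hnear hx fun X => (hy X).trans ?_⟩
  apply mul_le_mul_of_nonneg_right _ (norm_nonneg _)
  nlinarith

end Pool.Agent.H50.Susp
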