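import Mathlib
import Pool.Agent.H50.Susp.Coord
import Pool.Agent.H50.Susp.MoserPair

set_option maxSynthPendingDepth 3

open scoped ContDiff Topology NNReal unitInterval
open Set Function Filter MeasureTheory

namespace Pool.Agent.H50.Susp

open Pool.Agent.Helper17

variable {n : ℕ} {T : Type} [TopologicalSpace T] {R : ℝ} {f : T → Phase (n + 1) → ℝ}
  {Φ Ψ : T → Phase (n + 1) → Phase (n + 1)}

/-- The `w`-component of the right end. -/
noncomputable def endW (Φ : T → Phase (n + 1) → Phase (n + 1)) (R : ℝ) (t : T)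
    (q : ℝ × Phase n) : Phase n := wL n (Φ t (mkP q.1 (R + 1) q.2))

/-- The `y`-displacement of the right end. -/
noncomputable def endH (Φ : T → Phase (n + 1) → Phase (n + 1)) (R : ℝ) (t : T)
    (q : ℝ × Phase n) : ℝ := (Φ t (mkP q.1 (R + 1) q.2)) (Sum.inr 0) - (R + 1)

lemma mkP_add_eY (x y a : ℝ) (w : Phase n) : mkP x y w + a • eY 0 = mkP x (y + a) w := by
  simp only [mkP, add_smul]
  abel

lemma StraightFam.right_eq (h : StraightFam 0 R f Φ Ψ)
    (hstd : ∀ t p, R < ‖p‖ → f t p = p (Sum.inl 0)) (t : T) {x y : ℝ} (w : Phase n)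
    (hy : R < y) :
    Φ t (mkP x y w) = mkP x (y + endH Φ R t (x, w)) (endW Φ R t (x, w)) := by
  have h1 : Φ t (mkP x y w) = Φ t (mkP x (R + 1) w) + (y - (R + 1)) • eY 0 := by
    rcases le_total (R + 1) y with hy1 | hy1
    · have h2 := h.shift t (mkP x (R + 1) w) (y - (R + 1)) (by simp) (by linarith)
      rwa [mkP_add_eY, add_sub_cancel] at h2
    · have h2 := h.shift t (mkP x y w) (R + 1 - y) (by simpa using hy) (by linarith)
      rw [mkP_add_eY, add_sub_cancel] at h2
      rw [h2, add_assoc, ← add_smul]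
      simp
  have hx : (Φ t (mkP x y w)) (Sum.inl 0) = x := by
    rw [h.energy, hstd]
    · simp
    · have := abs_coord_le (mkP x y w : Phase (n + 1)) (Sum.inr 0)
      rw [mkP_y] at this
      have := le_abs_self y
      linarith
  apply ext_xyw
  · rw [hx, mkP_x]
  · rw [h1, mkP_y, y_add_smul, endH]
    ring
  · rw [h1, wL_mkP, map_add, map_smul, wL_eY, smul_zero, add_zero, endW]

lemma CF_endW (h : StraightFam 0 R f Φ Ψ) : CF (endW Φ R) := by
  have h1 : CF (fun (_ : T) (q : ℝ × Phase n) => (mkP q.1 (R + 1) q.2 : Phase (n + 1))) :=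
    CF.const (contDiff_mkP contDiff_fst contDiff_const contDiff_snd)
  exact (h.cf.comp h1).clm (wL n)

lemma CF_endH (h : StraightFam 0 R f Φ Ψ) : CF (endH Φ R) := by
  have h1 : CF (fun (_ : T) (q : ℝ × Phase n) => (mkP q.1 (R + 1) q.2 : Phase (n + 1))) :=
    CF.const (contDiff_mkP contDiff_fst contDiff_const contDiff_snd)
  exact ((h.cf.comp h1).clm (coordL (Sum.inr 0))).sub (CF.const contDiff_const)

lemma norm_side_mkP_x (x y : ℝ) (w : Phase n) : |x| ≤ ‖side 0 (mkP x y w)‖ := by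
  have := abs_x_le_side (mkP x y w)
  rwa [mkP_x] at this

lemma norm_side_mkP_w (x y : ℝ) (w : Phase n) : ‖w‖ ≤ ‖side 0 (mkP x y w)‖ := by
  have := norm_wL_le_side (mkP x y w)
  rwa [wL_mkP] at this

lemma StraightFam.end_eq (h : StraightFam 0 R f Φ Ψ) (t : T) {x : ℝ} {w : Phase n}
    (hxw : R < |x| ∨ R < ‖w‖) : endW Φ R t (x, w) = w ∧ endH Φ R t (x, w) = 0 := by
  have h1 : Φ t (mkP x (R + 1) w) = mkP x (R + 1) w := by
    apply h.side
    rcases hxw with h2 | h2
    · exact h2.trans_le (norm_side_mkP_x x (R + 1) w)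
    · exact h2.trans_le (norm_side_mkP_w x (R + 1) w)
  constructor
  · simp only [endW, h1, wL_mkP]
  · simp only [endH, h1, mkP_y, sub_self]

lemma hasFDerivAt_mkP_w (x y : ℝ) (w : Phase n) :
    HasFDerivAt (fun w : Phase n => (mkP x y w : Phase (n + 1))) (emb n) w := by
  unfold mkP
  exact (emb n).hasFDerivAt.const_add _

lemma omegaStd_emb (u v : Phase n) : omegaStd (emb n u) (emb n v) = omegaStd u v := by
  rw [omegaStd_succ, wL_emb, wL_emb]
  simp

lemma StraightFam.endW_symp (h : StraightFam 0 R f Φ Ψ)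
    (hstd : ∀ t p, R < ‖p‖ → f t p = p (Sum.inl 0)) (t : T) (x : ℝ) (w u v : Phase n) :
    omegaStd (fderiv ℝ (fun w => endW Φ R t (x, w)) w u)
      (fderiv ℝ (fun w => endW Φ R t (x, w)) w v) = omegaStd u v := by
  set B := fderiv ℝ (Φ t) (mkP x (R + 1) w) with hB
  have h0 : HasFDerivAt (fun w : Phase n => Φ t (mkP x (R + 1) w)) (B.comp (emb n)) w :=
    HasFDerivAt.comp w (h.cf.differentiable t _).hasFDerivAt (hasFDerivAt_mkP_w x (R + 1) w)
  have h1 : fderiv ℝ (fun w => endW Φ R t (x, w)) w = (wL n).comp (B.comp (emb n)) :=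
    ((wL n).hasFDerivAt.comp w h0).fderiv
  have h2 : ∀ u, (B (emb n u)) (Sum.inl 0) = 0 := by
    intro u
    have h3 : (fun w : Phase n => (Φ t (mkP x (R + 1) w)) (Sum.inl 0)) = fun _ => x := by
      funext w
      rw [h.energy, hstd]
      · simp
      · have := abs_coord_le (mkP x (R + 1) w : Phase (n + 1)) (Sum.inr 0)
        rw [mkP_y] at this
        have := le_abs_self (R + 1)
        linarith
    have h4 : HasFDerivAt (fun w : Phase n => (Φ t (mkP x (R + 1) w)) (Sum.inl 0))
        ((coordL (Sum.inl 0)).comp (B.comp (emb n))) w :=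
      (coordL (Sum.inl 0)).hasFDerivAt.comp w h0
    rw [h3] at h4
    have h5 := h4.unique (hasFDerivAt_const x w)
    exact congrArg (fun L : Phase n →L[ℝ] ℝ => L u) h5
  have h6 := h.symp t (mkP x (R + 1) w) (emb n u) (emb n v)
  rw [← hB, omegaStd_emb, omegaStd_succ, h2, h2] at h6
  rw [h1]
  simp only [ContinuousLinearMap.comp_apply]
  rw [← h6]
  ring

/-- The right end as a family of symplectomorphisms. -/
noncomputable def endSymp (h : StraightFam 0 R f Φ Ψ)
    (hstd : ∀ t p, R < ‖p‖ → f t p = p (Sum.inl 0)) (t : T) (x : ℝ) : SympCt n :=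
  mkSymp (fun w => endW Φ R t (x, w))
    (((CF_endW h).contDiff t).comp (contDiff_const.prodMk contDiff_id))
    ⟨Metric.closedBall 0 R, isCompact_closedBall 0 R, fun w hw => by
      exact (h.end_eq t (Or.inr (by simpa using hw))).1⟩
    (fun w u v => h.endW_symp hstd t x w u v)

lemma endSymp_apply (h : StraightFam 0 R f Φ Ψ)
    (hstd : ∀ t p, R < ‖p‖ → f t p = p (Sum.inl 0)) (t : T) (x : ℝ) (w : Phase n) :
    (endSymp h hstd t x : Equiv.Perm (Phase n)) w = endW Φ R t (x, w) := rfl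

lemma CF_partial {E₁ E₂ F : Type} [NormedAddCommGroup E₁] [NormedSpace ℝ E₁]
    [NormedAddCommGroup E₂] [NormedSpace ℝ E₂] [NormedAddCommGroup F] [NormedSpace ℝ F]
    {G : T → E₁ × E₂ → F} (hG : CF G) : CF (fun (q : T × E₁) (w : E₂) => G q.1 (q.2, w)) := by
  have h1 : CF (fun (q : T × E₁) (w : E₂) => ((q.2, w) : E₁ × E₂)) :=
    (CF.param continuous_snd).prodMk (CF.const contDiff_id)
  exact (hG.base continuous_fst).comp h1

lemma continuous_endSymp (h : StraightFam 0 R f Φ Ψ)
    (hstd : ∀ t p, R < ‖p‖ → f t p = p (Sum.inl 0)) :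
    Continuous (fun q : T × ℝ => endSymp h hstd q.1 q.2) := by
  apply continuous_of_CF (CF_partial (CF_endW h))
    ⟨Metric.closedBall 0 R, isCompact_closedBall 0 R⟩
  · intro q w hw
    have hw' : w ∉ Metric.closedBall (0 : Phase n) R := hw
    exact (h.end_eq q.1 (Or.inr (by simpa using hw'))).1
  · intro q w
    rfl

end Pool.Agent.H50.Susp
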