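import Mathlib
import Pool.Agent.H50.Susp.RightEnd
import Pool.Agent.H50.Susp.Estim

set_option maxSynthPendingDepth 3

open scoped ContDiff Topology NNReal unitInterval
open Set Function Filter MeasureTheory

namespace Pool.Agent.H50.Susp

open Pool.Agent.Helper17

variable {n : ℕ} {T : Type} [TopologicalSpace T]

/-- The linear symplectic map `(x, y, w) ↦ (x / l, l y, w)`. -/
noncomputable def sclL (n : ℕ) (l : ℝ) : Phase (n + 1) →L[ℝ] Phase (n + 1) :=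
  l⁻¹ • (coordL (Sum.inl 0)).smulRight (eX 0) + l • (coordL (Sum.inr 0)).smulRight (eY 0) +
    (emb n).comp (wL n)

lemma sclL_apply (l : ℝ) (p : Phase (n + 1)) :
    sclL n l p = mkP (l⁻¹ * p (Sum.inl 0)) (l * p (Sum.inr 0)) (wL n p) := by
  simp only [sclL, mkP, add_apply, smul_apply, ContinuousLinearMap.smulRight_apply,
    ContinuousLinearMap.comp_apply, coordL_apply, smul_smul]

lemma sclL_inv {l : ℝ} (hl : l ≠ 0) (p : Phase (n + 1)) : sclL n l⁻¹ (sclL n l p) = p := by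
  rw [sclL_apply, sclL_apply]
  apply ext_xyw
  · simp [hl]
  · simp [hl]
  · simp

lemma sclL_inv' {l : ℝ} (hl : l ≠ 0) (p : Phase (n + 1)) : sclL n l (sclL n l⁻¹ p) = p := by
  have := sclL_inv (n := n) (inv_ne_zero hl) p
  rwa [inv_inv] at this

lemma sclL_one (p : Phase (n + 1)) : sclL n 1 p = p := by
  rw [sclL_apply, inv_one, one_mul, one_mul, mkP_eta]

lemma omegaStd_sclL {l : ℝ} (hl : l ≠ 0) (u v : Phase (n + 1)) :
    omegaStd (sclL n l u) (sclL n l v) = omegaStd u v := by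
  rw [omegaStd_succ, omegaStd_succ u, sclL_apply, sclL_apply]
  simp only [mkP_x, mkP_y, wL_mkP]
  field_simp

lemma norm_le_sclL {l : ℝ} (hl : 1 ≤ l) (p : Phase (n + 1)) : ‖p‖ ≤ l * ‖sclL n l p‖ := by
  have hl0 : 0 < l := by linarith
  apply le_of_sq_le_sq _ (by positivity)
  rw [mul_pow, norm_sq_succ (sclL n l p), norm_sq_succ p, sclL_apply]
  simp only [mkP_x, mkP_y, wL_mkP, mul_pow, inv_pow]
  have h1 : l ^ 2 * ((l ^ 2)⁻¹ * p (Sum.inl 0) ^ 2 + l ^ 2 * p (Sum.inr 0) ^ 2 + ‖wL n p‖ ^ 2) =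
      p (Sum.inl 0) ^ 2 + l ^ 2 * (l ^ 2 * p (Sum.inr 0) ^ 2) + l ^ 2 * ‖wL n p‖ ^ 2 := by
    field_simp
  rw [h1]
  have h2 : 1 ≤ l ^ 2 := one_le_pow₀ hl
  have h3 : p (Sum.inr 0) ^ 2 ≤ l ^ 2 * (l ^ 2 * p (Sum.inr 0) ^ 2) := by
    have a1 : 1 * p (Sum.inr 0) ^ 2 ≤ l ^ 2 * p (Sum.inr 0) ^ 2 :=
      mul_le_mul_of_nonneg_right h2 (sq_nonneg _)
    have a2 : 1 * (l ^ 2 * p (Sum.inr 0) ^ 2) ≤ l ^ 2 * (l ^ 2 * p (Sum.inr 0) ^ 2) :=
      mul_le_mul_of_nonneg_right h2 (by positivity)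
    linarith
  have h4 : ‖wL n p‖ ^ 2 ≤ l ^ 2 * ‖wL n p‖ ^ 2 := by
    have a1 : 1 * ‖wL n p‖ ^ 2 ≤ l ^ 2 * ‖wL n p‖ ^ 2 :=
      mul_le_mul_of_nonneg_right h2 (sq_nonneg _)
    linarith
  linarith

/-- The scaled pairs. -/
theorem pairHomotopic_scale {T0 : Set T} {R : ℝ} (hR : 0 ≤ R) {f g : T → Phase (n + 1) → ℝ}
    (h : PosPair 0 R f g) (hT0 : ∀ t ∈ T0, ∀ p, f t p = p (Sum.inl 0) ∧ g t p = p (Sum.inr 0))
    {Λ : ℝ} (hΛ : 1 ≤ Λ) :
    PairHomotopic 0 T0 f g (fun t p => Λ * f t (sclL n Λ p)) (fun t p => Λ⁻¹ * g t (sclL n Λ p)) := by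
  set l : T × I → ℝ := fun q => 1 + (q.2 : ℝ) * (Λ - 1) with hl
  have hl1 : ∀ q, 1 ≤ l q := fun q => by
    have := mul_nonneg q.2.2.1 (sub_nonneg.2 hΛ)
    simp only [hl]; linarith
  have hl0 : ∀ q, l q ≠ 0 := fun q => by have := hl1 q; linarith
  have hlΛ : ∀ q, l q ≤ Λ := fun q => by
    have := mul_le_mul_of_nonneg_right q.2.2.2 (sub_nonneg.2 hΛ)
    simp only [hl]; linarith
  have hlc : Continuous l := by
    exact continuous_const.add ((continuous_subtype_val.comp continuous_snd).mul continuous_const)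
  have hlCF : CF (fun (q : T × I) (_ : Phase (n + 1)) => l q) := CF.param hlc
  have hliCF : CF (fun (q : T × I) (_ : Phase (n + 1)) => (l q)⁻¹) := CF.param (hlc.inv₀ hl0)
  have hsc : CF (fun (q : T × I) (p : Phase (n + 1)) => sclL n (l q) p) := by
    simp only [sclL_apply]
    exact CF.mkP (hliCF.smul (CF.const (coordL (Sum.inl 0)).contDiff))
      (hlCF.smul (CF.const (coordL (Sum.inr 0)).contDiff)) (CF.const (wL n).contDiff)
  have hf : CF (fun (q : T × I) p => l q * f q.1 (sclL n (l q) p)) :=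
    hlCF.smul ((h.cf.base continuous_fst).comp hsc)
  have hg : CF (fun (q : T × I) p => (l q)⁻¹ * g q.1 (sclL n (l q) p)) :=
    hliCF.smul ((h.cg.base continuous_fst).comp hsc)
  have hbig : ∀ (q : T × I) (p : Phase (n + 1)), Λ * R < ‖p‖ → R < ‖sclL n (l q) p‖ := by
    intro q p hp
    have h1 := norm_le_sclL (hl1 q) p
    have h2 : l q * ‖sclL n (l q) p‖ ≤ Λ * ‖sclL n (l q) p‖ :=
      mul_le_mul_of_nonneg_right (hlΛ q) (norm_nonneg _)
    have h3 : Λ * R < Λ * ‖sclL n (l q) p‖ := by linarith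
    exact lt_of_mul_lt_mul_left h3 (by linarith)
  refine ⟨Λ * R, fun q p => l q * f q.1 (sclL n (l q) p),
    fun q p => (l q)⁻¹ * g q.1 (sclL n (l q) p), by positivity, ⟨hf, hg, ?_, ?_, ?_⟩, ?_, ?_, ?_⟩
  · intro q p hp
    rw [h.fstd _ _ (hbig q p hp), sclL_apply, mkP_x, ← mul_assoc, mul_inv_cancel₀ (hl0 q), one_mul]
  · intro q p hp
    rw [h.gstd _ _ (hbig q p hp), sclL_apply, mkP_y, ← mul_assoc, inv_mul_cancel₀ (hl0 q), one_mul]
  · intro q p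
    set L := sclL n (l q) with hL
    have d1 : HasFDerivAt (fun p => l q * f q.1 (L p)) (l q • (fderiv ℝ (f q.1) (L p)).comp L) p :=
      ((h.cf.differentiable q.1 (L p)).hasFDerivAt.comp p L.hasFDerivAt).const_mul _
    have d2 : HasFDerivAt (fun p => (l q)⁻¹ * g q.1 (L p))
        ((l q)⁻¹ • (fderiv ℝ (g q.1) (L p)).comp L) p :=
      ((h.cg.differentiable q.1 (L p)).hasFDerivAt.comp p L.hasFDerivAt).const_mul _
    have h1 : L (hamV (fun p => l q * f q.1 (L p)) p) = l q • hamV (f q.1) (L p) := by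
      rw [← sub_eq_zero]
      apply eq_zero_of_omegaStd
      intro w'
      obtain ⟨w, rfl⟩ := symp_surjective (A := L) (fun u v => omegaStd_sclL (hl0 q) u v) w'
      rw [omegaStd_sub_left, omegaStd_sclL (hl0 q), omegaStd_smul_left, omegaStd_hamV,
        omegaStd_hamV, d1.fderiv]
      simp only [smul_apply, ContinuousLinearMap.comp_apply, smul_eq_mul]
      ring
    rw [d2.fderiv]
    simp only [smul_apply, ContinuousLinearMap.comp_apply, smul_eq_mul]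
    rw [h1, map_smul, smul_eq_mul, ← mul_assoc, inv_mul_cancel₀ (hl0 q), one_mul]
    exact h.pos _ _
  · intro t p
    simp [hl, sclL_one]
  · intro t p
    simp [hl]
  · intro t ht s p
    have e := hT0 t ht
    simp only [(e _).1, (e _).2, sclL_apply, mkP_x, mkP_y]
    constructor
    · rw [← mul_assoc, mul_inv_cancel₀ (hl0 _), one_mul]
    · rw [← mul_assoc, inv_mul_cancel₀ (hl0 _), one_mul]

/-- The conjugate of the straightening by the scaling. -/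
noncomputable def sclPhi (Φ : T → Phase (n + 1) → Phase (n + 1)) (Λ : ℝ) (t : T)
    (p : Phase (n + 1)) : Phase (n + 1) := sclL n Λ⁻¹ (Φ t (sclL n Λ p))

variable {R : ℝ} {f : T → Phase (n + 1) → ℝ} {Φ Ψ : T → Phase (n + 1) → Phase (n + 1)}

lemma CF_sclPhi (h : StraightFam 0 R f Φ Ψ) (Λ : ℝ) : CF (sclPhi Φ Λ) :=
  (h.cf.comp (CF.const (sclL n Λ).contDiff)).clm (sclL n Λ⁻¹)

lemma sclPhi_x (h : StraightFam 0 R f Φ Ψ) {Λ : ℝ} (t : T) (p : Phase (n + 1)) :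
    (sclPhi Φ Λ t p) (Sum.inl 0) = Λ * f t (sclL n Λ p) := by
  rw [sclPhi, sclL_apply, mkP_x, h.energy, inv_inv]

lemma sclPhi_symp (h : StraightFam 0 R f Φ Ψ) {Λ : ℝ} (hΛ : Λ ≠ 0) (t : T)
    (p u v : Phase (n + 1)) :
    omegaStd (fderiv ℝ (sclPhi Φ Λ t) p u) (fderiv ℝ (sclPhi Φ Λ t) p v) = omegaStd u v := by
  have h1 : HasFDerivAt (sclPhi Φ Λ t)
      ((sclL n Λ⁻¹).comp ((fderiv ℝ (Φ t) (sclL n Λ p)).comp (sclL n Λ))) p :=
    (sclL n Λ⁻¹).hasFDerivAt.comp p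
      ((h.cf.differentiable t _).hasFDerivAt.comp p (sclL n Λ).hasFDerivAt)
  rw [h1.fderiv]
  simp only [ContinuousLinearMap.comp_apply]
  rw [omegaStd_sclL (inv_ne_zero hΛ), h.symp, omegaStd_sclL hΛ]

lemma sclPhi_right (h : StraightFam 0 R f Φ Ψ) (hR : 0 ≤ R)
    (hstd : ∀ t p, R < ‖p‖ → f t p = p (Sum.inl 0)) {Λ : ℝ} (hΛ : 1 ≤ Λ) (t : T)
    {p : Phase (n + 1)} (hp : R < p (Sum.inr 0)) :
    sclPhi Φ Λ t p = mkP (p (Sum.inl 0))
      (p (Sum.inr 0) + Λ⁻¹ * endH Φ R t (Λ⁻¹ * p (Sum.inl 0), wL n p))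
      (endW Φ R t (Λ⁻¹ * p (Sum.inl 0), wL n p)) := by
  have hΛ0 : Λ ≠ 0 := by linarith
  have h1 : R < Λ * p (Sum.inr 0) := by
    have h2 : 1 * p (Sum.inr 0) ≤ Λ * p (Sum.inr 0) :=
      mul_le_mul_of_nonneg_right hΛ (by linarith)
    linarith
  rw [sclPhi, sclL_apply Λ, h.right_eq hstd t _ h1, sclL_apply]
  simp only [mkP_x, mkP_y, wL_mkP, inv_inv]
  congr 1
  · rw [← mul_assoc, mul_inv_cancel₀ hΛ0, one_mul]
  · rw [mul_add, ← mul_assoc, inv_mul_cancel₀ hΛ0, one_mul]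

lemma sclPhi_left (h : StraightFam 0 R f Φ Ψ) {Λ : ℝ} (hΛ : 1 ≤ Λ) (t : T)
    {p : Phase (n + 1)} (hR : 0 ≤ R) (hp : p (Sum.inr 0) < -R) : sclPhi Φ Λ t p = p := by
  have hΛ0 : Λ ≠ 0 := by linarith
  rw [sclPhi, h.left, sclL_inv hΛ0]
  rw [sclL_apply, mkP_y]
  nlinarith

lemma sclPhi_side (h : StraightFam 0 R f Φ Ψ) {Λ : ℝ} (hΛ : 1 ≤ Λ) (t : T)
    {p : Phase (n + 1)} (hR : 0 ≤ R)
    (hp : Λ * R < |p (Sum.inl 0)| ∨ R < ‖wL n p‖) : sclPhi Φ Λ t p = p := by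
  have hΛ0 : Λ ≠ 0 := by linarith
  rw [sclPhi, h.side, sclL_inv hΛ0]
  rw [sclL_apply]
  rcases hp with hp | hp
  · refine lt_of_lt_of_le ?_ (norm_side_mkP_x _ _ _)
    rw [abs_mul, abs_inv, abs_of_pos (by linarith : (0 : ℝ) < Λ)]
    rw [lt_inv_mul_iff₀ (by linarith)]
    exact hp
  · exact hp.trans_le (norm_side_mkP_w _ _ _)

lemma PairHomotopic.left_posPair {N : ℕ} {i : Fin N} {T0 : Set T} {f g f' g' : T → Phase N → ℝ}
    (h : PairHomotopic i T0 f g f' g') : ∃ R, 0 ≤ R ∧ PosPair i R f g := by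
  obtain ⟨R, F, G, hR, hFG, h0, -, -⟩ := h
  refine ⟨R, hR, ?_⟩
  have h1 := hFG.base (c := fun t : T => (t, (0 : I))) (continuous_id.prodMk continuous_const)
  have e1 : (fun t => F (t, 0)) = f := by funext t p; exact (h0 t p).1
  have e2 : (fun t => G (t, 0)) = g := by funext t p; exact (h0 t p).2
  have h2 : PosPair i R (fun t => F (t, 0)) (fun t => G (t, 0)) := h1
  rwa [e1, e2] at h2

end Pool.Agent.H50.Susp
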