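import Mathlib
import Pool.Agent.H50.Susp.RightEnd
import Pool.Agent.H50.Susp.Estim

set_option maxSynthPendingDepth 3

open scoped ContDiff Topology NNReal unitInterval
open Set Function Filter MeasureTheory

namespace Pool.Agent.H50.Susp

open Pool.Agent.Helper17

variable {n : ℕ} {T : Type} [TopologicalSpace T] {R : ℝ} {f : T → Phase (n + 1) → ℝ}
  {Φ Ψ : T → Phase (n + 1) → Phase (n + 1)}

/-- The levels `x = ρ (2 τ - 1)`. -/
noncomputable def lev (ρ : ℝ) (τ : I) : ℝ := ρ * (2 * (τ : ℝ) - 1)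

/-- The family `e` is the scattering of the Hamiltonian flows of the functions `f t`: an orbit
entering through `y ≤ -ρ` at the level `x = ρ (2 τ - 1)` and leaving through `y ≥ ρ` with
`w`-component `w` has entered with `w`-component `e (t, τ) w`. -/
def IsScat (f : T → Phase (n + 1) → ℝ) (e : T × I → SympCt n) : Prop :=
  ∃ ρ : ℝ, 0 < ρ ∧ (∀ t p, ρ ≤ ‖p‖ → f t p = p (Sum.inl 0)) ∧
    ∀ t (c : ℝ → Phase (n + 1)), (∀ s, HasDerivAt c (hamV (f t) (c s)) s) →
      ∀ (a b : ℝ) (τ : I), (c a) (Sum.inr 0) ≤ -ρ → ρ ≤ (c b) (Sum.inr 0) →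
        (c a) (Sum.inl 0) = lev ρ τ →
          wL n (c a) = (e (t, τ) : Equiv.Perm (Phase n)) (wL n (c b))

lemma StraightFam.map_hamV (h : StraightFam 0 R f Φ Ψ) (t : T) (p : Phase (n + 1)) :
    fderiv ℝ (Φ t) p (hamV (f t) p) = eY 0 := by
  have hsurj := symp_surjective (h.symp t p)
  have h1 : fderiv ℝ (f t) p = (coordL (Sum.inl 0)).comp (fderiv ℝ (Φ t) p) := by
    have h2 : f t = fun p => coordL (Sum.inl 0) (Φ t p) := funext fun p => (h.energy t p).symm
    rw [h2]
    exact ((coordL (Sum.inl 0)).hasFDerivAt.comp p (h.cf.differentiable t p).hasFDerivAt).fderiv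
  rw [← sub_eq_zero]
  apply eq_zero_of_omegaStd
  intro w'
  obtain ⟨w, rfl⟩ := hsurj w'
  rw [omegaStd_sub_left, h.symp, omegaStd_hamV, omegaStd_eY, h1]
  simp [coordL_apply]

/-- The straightening maps orbits to lines. -/
lemma StraightFam.orbit (h : StraightFam 0 R f Φ Ψ) {t : T} {c : ℝ → Phase (n + 1)}
    (hc : ∀ s, HasDerivAt c (hamV (f t) (c s)) s) (a b : ℝ) :
    Φ t (c b) = Φ t (c a) + (b - a) • eY 0 := by
  have hd : ∀ s, HasDerivAt (fun s => Φ t (c s) - s • (eY 0 : Phase (n + 1))) 0 s := by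
    intro s
    have h1 : HasDerivAt (fun s => Φ t (c s)) (fderiv ℝ (Φ t) (c s) (hamV (f t) (c s))) s :=
      (h.cf.differentiable t _).hasFDerivAt.comp_hasDerivAt s (hc s)
    rw [h.map_hamV] at h1
    have h2 : HasDerivAt (fun s : ℝ => s • (eY 0 : Phase (n + 1))) ((1 : ℝ) • eY 0) s :=
      (hasDerivAt_id s).smul_const _
    have h3 := h1.sub h2
    rwa [one_smul, sub_self] at h3
  have h1 : Φ t (c b) - b • (eY 0 : Phase (n + 1)) = Φ t (c a) - a • (eY 0 : Phase (n + 1)) :=
    is_const_of_deriv_eq_zero (f := fun s => Φ t (c s) - s • (eY 0 : Phase (n + 1)))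
      (fun s => (hd s).differentiableAt) (fun s => (hd s).deriv) b a
  rw [sub_smul]
  have h2 : Φ t (c b) = (Φ t (c b) - b • (eY 0 : Phase (n + 1))) + b • eY 0 := by abel
  rw [h2, h1]
  abel

/-- Lines are mapped to orbits by the inverse. -/
lemma StraightFam.orbit_line (h : StraightFam 0 R f Φ Ψ) (t : T) (q : Phase (n + 1)) (s : ℝ) :
    HasDerivAt (fun s : ℝ => Ψ t (q + s • eY 0)) (hamV (f t) (Ψ t (q + s • eY 0))) s := by
  set z := Ψ t (q + s • eY 0) with hz
  have h1 : HasDerivAt (fun s : ℝ => q + s • (eY 0 : Phase (n + 1))) ((1 : ℝ) • eY 0) s :=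
    ((hasDerivAt_id s).smul_const (eY 0)).const_add q
  have h2 : HasDerivAt (fun s : ℝ => Ψ t (q + s • eY 0))
      (fderiv ℝ (Ψ t) (q + s • eY 0) ((1 : ℝ) • eY 0)) s :=
    (h.cf'.differentiable t _).hasFDerivAt.comp_hasDerivAt s h1
  refine h2.congr_deriv ?_
  rw [one_smul]
  have h3 : (fderiv ℝ (Ψ t) (Φ t z)).comp (fderiv ℝ (Φ t) z) = ContinuousLinearMap.id ℝ _ := by
    have h4 : HasFDerivAt (fun p => Ψ t (Φ t p)) _ z :=
      HasFDerivAt.comp _ (h.cf'.differentiable t _).hasFDerivAt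
        (h.cf.differentiable t _).hasFDerivAt
    simp only [h.inv_left] at h4
    exact h4.unique (hasFDerivAt_id _)
  have h5 : Φ t z = q + s • eY 0 := by rw [hz, h.inv_right]
  rw [h5] at h3
  have h6 := congrArg (fun L : Phase (n + 1) →L[ℝ] Phase (n + 1) => L (hamV (f t) z)) h3
  simp only [ContinuousLinearMap.comp_apply, ContinuousLinearMap.id_apply] at h6
  rw [h.map_hamV] at h6
  exact h6

/-- The scattering family obtained from the straightening. -/
noncomputable def scatE (h : StraightFam 0 R f Φ Ψ)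
    (hstd : ∀ t p, R < ‖p‖ → f t p = p (Sum.inl 0)) (ρ : ℝ) : C(T × I, SympCt n) :=
  ⟨fun q => endSymp h hstd q.1 (lev ρ q.2), (continuous_endSymp h hstd).comp
    (continuous_fst.prodMk (continuous_const.mul ((continuous_const.mul
      (continuous_subtype_val.comp continuous_snd)).sub continuous_const)))⟩

lemma scatE_apply (h : StraightFam 0 R f Φ Ψ)
    (hstd : ∀ t p, R < ‖p‖ → f t p = p (Sum.inl 0)) (ρ : ℝ) (t : T) (τ : I) (w : Phase n) :
    (scatE h hstd ρ (t, τ) : Equiv.Perm (Phase n)) w = endW Φ R t (lev ρ τ, w) := rfl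

lemma isScat_scatE (h : StraightFam 0 R f Φ Ψ) (hR : 0 ≤ R)
    (hstd : ∀ t p, R < ‖p‖ → f t p = p (Sum.inl 0)) {ρ : ℝ} (hρ : R < ρ) :
    IsScat f (scatE h hstd ρ) := by
  refine ⟨ρ, by linarith, fun t p hp => hstd t p (by linarith), ?_⟩
  intro t c hc a b τ ha hb hx
  rw [scatE_apply]
  have h1 := h.orbit hc a b
  rw [h.left t (c a) (by linarith)] at h1
  have h2 := h.right_eq hstd t (x := (c b) (Sum.inl 0)) (y := (c b) (Sum.inr 0)) (wL n (c b))
    (by linarith)
  rw [mkP_eta, h1] at h2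
  have h3 := congrArg (fun p : Phase (n + 1) => p (Sum.inl 0)) h2
  have h4 := congrArg (wL n) h2
  simp only [mkP_x, PiLp.add_apply, PiLp.smul_apply, eY_inl, smul_zero, add_zero] at h3
  rw [wL_mkP, map_add, map_smul, wL_eY, smul_zero, add_zero] at h4
  rw [h4, ← h3, hx]

/-- Every scattering family is given by the straightening. -/
lemma IsScat.eq_end [CompactSpace T] {e : T × I → SympCt n} (he : IsScat f e)
    (h : StraightFam 0 R f Φ Ψ) (hR : 0 ≤ R)
    (hstd : ∀ t p, R < ‖p‖ → f t p = p (Sum.inl 0)) :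
    ∃ ρ : ℝ, 0 < ρ ∧ (∀ t p, ρ ≤ ‖p‖ → f t p = p (Sum.inl 0)) ∧
      ∀ t τ w, (e (t, τ) : Equiv.Perm (Phase n)) w = endW Φ R t (lev ρ τ, w) := by
  obtain ⟨ρ, hρ, hρs, hs⟩ := he
  refine ⟨ρ, hρ, hρs, fun t τ w => ?_⟩
  obtain ⟨C, hC0, hC, hC'⟩ := h.exists_disp hR
  set x := lev ρ τ with hx
  set w₀ := endW Φ R t (x, w) with hw₀
  set q : Phase (n + 1) := mkP x 0 w₀ with hq
  set c : ℝ → Phase (n + 1) := fun s => Ψ t (q + s • eY 0) with hc
  have hcs : ∀ s, q + s • eY 0 = mkP x s w₀ := by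
    intro s
    rw [hq, mkP_add_eY, zero_add]
  set a : ℝ := -(R + ρ + 1) with ha
  set b : ℝ := R + ρ + C + 1 with hb
  have ha1 : c a = mkP x a w₀ := by
    simp only [hc]
    rw [hcs, h.left']
    rw [mkP_y]; linarith
  have hb1 : R + ρ + 1 ≤ (c b) (Sum.inr 0) := by
    have h1 := y_disp_le (i := (0 : Fin (n + 1))) (hC' t (q + b • eY 0))
    rw [hcs, mkP_y, abs_le] at h1
    have h2 : c b = Ψ t (mkP x b w₀) := by simp only [hc]; rw [hcs]
    rw [h2]
    linarith [h1.1]
  have h1 := hs t c (fun s => h.orbit_line t q s) a b τ (by rw [ha1, mkP_y]; linarith)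
    (by linarith) (by rw [ha1, mkP_x])
  rw [ha1, wL_mkP] at h1
  -- the endpoint
  have h2 : Φ t (c b) = mkP x b w₀ := by
    simp only [hc]
    rw [h.inv_right, hcs]
  have h3 := h.right_eq hstd t (x := (c b) (Sum.inl 0)) (y := (c b) (Sum.inr 0)) (wL n (c b))
    (by linarith)
  rw [mkP_eta, h2] at h3
  have h4 := congrArg (fun p : Phase (n + 1) => p (Sum.inl 0)) h3
  have h5 := congrArg (wL n) h3
  simp only [mkP_x] at h4
  rw [wL_mkP, wL_mkP, ← h4] at h5
  have h6 : wL n (c b) = w := by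
    have h7 : (endSymp h hstd t x : Equiv.Perm (Phase n)) (wL n (c b)) =
        (endSymp h hstd t x : Equiv.Perm (Phase n)) w := by
      rw [endSymp_apply, endSymp_apply, ← h5]
    exact (endSymp h hstd t x : Equiv.Perm (Phase n)).injective h7
  rw [h6] at h1
  exact h1.symm

/-- The derivative of a function which is a coordinate outside an open ball. -/
lemma fderiv_of_std' {N : ℕ} {f : Phase N → ℝ} {ρ : ℝ} (hρ : 0 < ρ) {k : Fin N ⊕ Fin N}
    (hf : ContDiff ℝ ∞ f) (h : ∀ p, ρ ≤ ‖p‖ → f p = p k) {p : Phase N} (hp : ρ ≤ ‖p‖) :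
    fderiv ℝ f p = coordL k := by
  have hcont : Continuous (fderiv ℝ f) := hf.continuous_fderiv (by simp)
  have h1 : EqOn (fderiv ℝ f) (fun _ => coordL k) (Metric.closedBall (0 : Phase N) ρ)ᶜ := by
    intro q hq
    exact fderiv_of_std (R := ρ) (fun p hp => h p hp.le) (by simpa using hq)
  have h2 := h1.closure hcont continuous_const
  apply h2
  rw [closure_compl, interior_closedBall _ hρ.ne']
  simpa using hp

lemma StraightFam.contDiff_f (h : StraightFam 0 R f Φ Ψ) (t : T) : ContDiff ℝ ∞ (f t) := by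
  have h2 : f t = fun p => coordL (Sum.inl 0) (Φ t p) := funext fun p => (h.energy t p).symm
  rw [h2]
  exact (coordL (Sum.inl 0)).contDiff.comp (h.cf.contDiff t)

/-- Levels which do not meet the support are trivial. -/
lemma StraightFam.end_eq' (h : StraightFam 0 R f Φ Ψ) {ρ : ℝ} (hρ : 0 < ρ)
    (hs : ∀ t p, ρ ≤ ‖p‖ → f t p = p (Sum.inl 0)) (t : T) {x : ℝ} {w : Phase n}
    (hxw : ρ ≤ |x| ∨ ρ ≤ ‖w‖) : endW Φ R t (x, w) = w := by
  set c : ℝ → Phase (n + 1) := fun s => mkP x s w with hc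
  have hnorm : ∀ s, ρ ≤ ‖c s‖ := by
    intro s
    rcases hxw with hx | hw
    · have := abs_coord_le (mkP x s w : Phase (n + 1)) (Sum.inl 0)
      rw [mkP_x] at this
      exact hx.trans this
    · have := norm_wL_le (mkP x s w : Phase (n + 1))
      rw [wL_mkP] at this
      exact hw.trans this
  have hcd : ∀ s, HasDerivAt c (hamV (f t) (c s)) s := by
    intro s
    have h1 : hamV (f t) (c s) = eY 0 := by
      rw [hamV, fderiv_of_std' hρ (h.contDiff_f t) (hs t) (hnorm s), sharp_coordL, neg_neg]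
    rw [h1]
    have h2 : c = fun s : ℝ => mkP x 0 w + s • (eY 0 : Phase (n + 1)) := by
      funext s
      rw [mkP_add_eY, zero_add]
    rw [h2]
    have h3 : HasDerivAt (fun s : ℝ => mkP x 0 w + s • (eY 0 : Phase (n + 1)))
        ((1 : ℝ) • eY 0) s := ((hasDerivAt_id s).smul_const (eY 0)).const_add _
    rwa [one_smul] at h3
  have h1 := h.orbit hcd (-(R + 1)) (R + 1)
  rw [h.left t (c (-(R + 1))) (by simp only [hc, mkP_y]; linarith)] at h1
  have h2 := congrArg (wL n) h1
  simp only [hc, map_add, map_smul, wL_eY, smul_zero, add_zero, wL_mkP] at h2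
  exact h2

lemma StraightFam.base {S : Type} [TopologicalSpace S] (h : StraightFam 0 R f Φ Ψ) {c : S → T}
    (hc : Continuous c) : StraightFam 0 R (fun s => f (c s)) (fun s => Φ (c s))
      (fun s => Ψ (c s)) where
  cf := h.cf.base hc
  cf' := h.cf'.base hc
  inv_left _ p := h.inv_left _ p
  inv_right _ p := h.inv_right _ p
  symp _ p u v := h.symp _ p u v
  left _ p hp := h.left _ p hp
  side _ p hp := h.side _ p hp
  shift _ p a hp ha := h.shift _ p a hp ha
  energy _ p := h.energy _ p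
  eq_of _ φ hφ p := h.eq_of _ φ hφ p

lemma lev_zero (ρ : ℝ) : lev ρ 0 = -ρ := by simp [lev]

lemma lev_one (ρ : ℝ) : lev ρ 1 = ρ := by simp [lev]; ring

lemma abs_lev {ρ : ℝ} (hρ : 0 ≤ ρ) {τ : I} (hτ : τ = 0 ∨ τ = 1) : |lev ρ τ| = ρ := by
  rcases hτ with h | h
  · rw [h, lev_zero, abs_neg, abs_of_nonneg hρ]
  · rw [h, lev_one, abs_of_nonneg hρ]

/-- Scattering families of the same straightening with different levels. -/
lemma scatE_homotopic (h : StraightFam 0 R f Φ Ψ)
    (hstd : ∀ t p, R < ‖p‖ → f t p = p (Sum.inl 0)) {ρ ρ' : ℝ} (hρ : 0 < ρ) (hρ' : 0 < ρ')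
    (hs : ∀ t p, ρ ≤ ‖p‖ → f t p = p (Sum.inl 0)) (hs' : ∀ t p, ρ' ≤ ‖p‖ → f t p = p (Sum.inl 0))
    {T1 : Set T} (hT1 : ∀ t ∈ T1, ∀ q, endW Φ R t q = q.2) :
    (scatE h hstd ρ).HomotopicRel (scatE h hstd ρ') {q | q.1 ∈ T1 ∨ q.2 = 0 ∨ q.2 = 1} := by
  set l : I → ℝ := fun s => (1 - (s : ℝ)) * ρ + s * ρ' with hl
  have hlc : Continuous l := ((continuous_const.sub continuous_subtype_val).mul
    continuous_const).add (continuous_subtype_val.mul continuous_const)
  set m := min ρ ρ' with hm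
  have hm0 : 0 < m := lt_min hρ hρ'
  have hms : ∀ t p, m ≤ ‖p‖ → f t p = p (Sum.inl 0) := by
    intro t p hp
    rcases min_choice ρ ρ' with h1 | h1
    · exact hs t p (by rw [← h1]; exact hp)
    · exact hs' t p (by rw [← h1]; exact hp)
  have hlm : ∀ s, m ≤ l s := by
    intro s
    have h1 : (1 - (s : ℝ)) * m ≤ (1 - (s : ℝ)) * ρ :=
      mul_le_mul_of_nonneg_left (min_le_left _ _) (sub_nonneg.2 s.2.2)
    have h2 : (s : ℝ) * m ≤ s * ρ' := mul_le_mul_of_nonneg_left (min_le_right _ _) s.2.1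
    simp only [hl]
    linarith
  have hbd : ∀ (s : I) (q : T × I), (q.1 ∈ T1 ∨ q.2 = 0 ∨ q.2 = 1) →
      endSymp h hstd q.1 (lev (l s) q.2) = 1 := by
    intro s q hq
    apply SympCt.ext'
    intro w
    rw [endSymp_apply]
    rcases hq with hq | hq
    · exact hT1 q.1 hq _
    · exact h.end_eq' hm0 hms q.1 (Or.inl (by
        rw [abs_lev ((hm0.le).trans (hlm s)) hq]
        exact hlm s))
  refine ⟨{ toFun := fun r => endSymp h hstd r.2.1 (lev (l r.1) r.2.2)
            continuous_toFun := ?_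
            map_zero_left := fun q => ?_
            map_one_left := fun q => ?_
            prop' := ?_ }⟩
  · exact (continuous_endSymp h hstd).comp ((continuous_fst.comp continuous_snd).prodMk
      ((hlc.comp continuous_fst).mul ((continuous_const.mul (continuous_subtype_val.comp
        (continuous_snd.comp continuous_snd))).sub continuous_const)))
  · simp only [hl, Icc.coe_zero, sub_zero, one_mul, zero_mul, add_zero]
    rfl
  · simp only [hl, Icc.coe_one, sub_self, one_mul, zero_mul, zero_add]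
    rfl
  · intro s q hq
    change endSymp h hstd q.1 (lev (l s) q.2) = endSymp h hstd q.1 (lev ρ q.2)
    rw [hbd s q hq]
    have h1 := hbd 0 q hq
    simp only [hl, Icc.coe_zero, sub_zero, one_mul, zero_mul, add_zero] at h1
    exact h1.symm

lemma PairHomotopic.left_of_T0 {T0 : Set T} {f g f' g' : T → Phase (n + 1) → ℝ}
    (h : PairHomotopic 0 T0 f g f' g') : ∀ t ∈ T0, ∀ p, f' t p = f t p ∧ g' t p = g t p := by
  obtain ⟨R, F, G, -, -, -, h1, hT⟩ := h
  intro t ht p
  exact ⟨(h1 t p).1.symm.trans (hT t ht 1 p).1, (h1 t p).2.symm.trans (hT t ht 1 p).2⟩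

/-- Homotopy invariance of the scattering. -/
theorem IsScat.homotopic [CompactSpace T] {T0 : Set T} {f g f' g' : T → Phase (n + 1) → ℝ}
    (hT0 : ∀ t ∈ T0, ∀ p, f t p = p (Sum.inl 0)) (h : PairHomotopic 0 T0 f g f' g')
    {e e' : C(T × I, SympCt n)} (he : IsScat f e) (he' : IsScat f' e') :
    e.HomotopicRel e' {q | q.1 ∈ T0 ∨ q.2 = 0 ∨ q.2 = 1} := by
  obtain ⟨R, F, G, hR, hFG, h0, h1, hT⟩ := h
  obtain ⟨Φ, Ψ, hS⟩ := exists_straightFam hR hFG
  have hstd := hFG.fstd
  have c0 : Continuous (fun t : T => (t, (0 : I))) := continuous_id.prodMk continuous_const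
  have c1 : Continuous (fun t : T => (t, (1 : I))) := continuous_id.prodMk continuous_const
  have hS0 : StraightFam 0 R (fun t => F (t, 0)) (fun t => Φ (t, 0)) (fun t => Ψ (t, 0)) :=
    hS.base c0
  have hS1 : StraightFam 0 R (fun t => F (t, 1)) (fun t => Φ (t, 1)) (fun t => Ψ (t, 1)) :=
    hS.base c1
  have ef : (fun t => F (t, 0)) = f := by funext t p; exact (h0 t p).1
  have ef' : (fun t => F (t, 1)) = f' := by funext t p; exact (h1 t p).1
  have he0 : IsScat (fun t => F (t, 0)) e := by rw [ef]; exact he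
  have he1 : IsScat (fun t => F (t, 1)) e' := by rw [ef']; exact he'
  have hstd0 : ∀ t p, R < ‖p‖ → F (t, 0) p = p (Sum.inl 0) := fun t p hp => hstd _ p hp
  have hstd1 : ∀ t p, R < ‖p‖ → F (t, 1) p = p (Sum.inl 0) := fun t p hp => hstd _ p hp
  obtain ⟨ρ, hρ, hρs, hee⟩ := he0.eq_end hS0 hR hstd0
  obtain ⟨ρ', hρ', hρs', hee'⟩ := he1.eq_end hS1 hR hstd1
  have hTid : ∀ t ∈ T0, ∀ s q, endW Φ R (t, s) q = q.2 := by
    intro t ht s q
    have h2 : ∀ p, Φ (t, s) p = p := fun p => hS.eq_id (t, s) (fun p => by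
      rw [(hT t ht s p).1, hT0 t ht p]) p
    rw [endW, h2, wL_mkP]
  have hT0' : ∀ t ∈ T0, ∀ q, endW (fun t => Φ (t, 0)) R t q = q.2 := fun t ht q => hTid t ht 0 q
  have hT1' : ∀ t ∈ T0, ∀ q, endW (fun t => Φ (t, 1)) R t q = q.2 := fun t ht q => hTid t ht 1 q
  have ee : e = scatE hS0 hstd0 ρ := by
    ext1 q
    apply SympCt.ext'
    intro w
    exact hee q.1 q.2 w
  have ee' : e' = scatE hS1 hstd1 ρ' := by
    ext1 q
    apply SympCt.ext'
    intro w
    exact hee' q.1 q.2 w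
  have s1 := scatE_homotopic hS0 hstd0 hρ (by linarith : 0 < R + 1) hρs
    (fun t p hp => hstd0 t p (by linarith)) hT0'
  have s3 := scatE_homotopic hS1 hstd1 (by linarith : 0 < R + 1) hρ'
    (fun t p hp => hstd1 t p (by linarith)) hρs' hT1'
  have s2 : (scatE hS0 hstd0 (R + 1)).HomotopicRel (scatE hS1 hstd1 (R + 1))
      {q | q.1 ∈ T0 ∨ q.2 = 0 ∨ q.2 = 1} := by
    have hbd : ∀ (s : I) (q : T × I), (q.1 ∈ T0 ∨ q.2 = 0 ∨ q.2 = 1) →
        endSymp hS hstd (q.1, s) (lev (R + 1) q.2) = 1 := by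
      intro s q hq
      apply SympCt.ext'
      intro w
      rw [endSymp_apply]
      rcases hq with hq | hq
      · exact hTid q.1 hq s _
      · exact (hS.end_eq (q.1, s) (Or.inl (by
          rw [abs_lev (by linarith) hq]; linarith))).1
    refine ⟨{ toFun := fun r => endSymp hS hstd (r.2.1, r.1) (lev (R + 1) r.2.2)
              continuous_toFun := ?_
              map_zero_left := fun q => ?_
              map_one_left := fun q => ?_
              prop' := ?_ }⟩
    · exact (continuous_endSymp hS hstd).comp (((continuous_fst.comp continuous_snd).prodMk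
        continuous_fst).prodMk (continuous_const.mul ((continuous_const.mul
          (continuous_subtype_val.comp (continuous_snd.comp continuous_snd))).sub
            continuous_const)))
    · rfl
    · rfl
    · intro s q hq
      change endSymp hS hstd (q.1, s) (lev (R + 1) q.2) = endSymp hS hstd (q.1, 0) (lev (R + 1) q.2)
      rw [hbd s q hq, hbd 0 q hq]
  rw [ee, ee']
  exact (s1.trans s2).trans s3

/-- Existence of scattering families. -/
theorem exists_isScat [CompactSpace T] {g : T → Phase (n + 1) → ℝ} (hR : 0 ≤ R)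
    (hfg : PosPair 0 R f g) : ∃ e : C(T × I, SympCt n), IsScat f e := by
  obtain ⟨Φ, Ψ, h⟩ := exists_straightFam hR hfg
  exact ⟨scatE h hfg.fstd (R + 1), isScat_scatE h hR hfg.fstd (by linarith)⟩

/-- The scattering of a symplectomorphism is trivial. -/
theorem isScat_symp {φ : T → SympCt (n + 1)} {ρ : ℝ} (hρ : 0 < ρ)
    (hφ : ∀ t (p : Phase (n + 1)), ρ ≤ ‖p‖ → (φ t : Equiv.Perm (Phase (n + 1))) p = p) :
    IsScat (fun t p => ((φ t : Equiv.Perm (Phase (n + 1))) p) (Sum.inl 0))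
      (fun _ => (1 : SympCt n)) := by
  refine ⟨ρ, hρ, fun t p hp => by
    change ((φ t : Equiv.Perm (Phase (n + 1))) p) (Sum.inl 0) = _
    rw [hφ t p hp], ?_⟩
  intro t c hc a b τ ha hb _
  have hd : ∀ s, HasDerivAt (fun s => (φ t : Equiv.Perm (Phase (n + 1))) (c s) -
      s • (eY 0 : Phase (n + 1))) 0 s := by
    intro s
    have h1 := (SympCt.differentiable (φ t) (c s)).hasFDerivAt.comp_hasDerivAt s (hc s)
    rw [hamV_symp (φ t) (fun p => rfl)] at h1
    have h4 : (fderiv ℝ (φ t : Equiv.Perm (Phase (n + 1))) (c s)).comp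
        (fderiv ℝ (φ t : Equiv.Perm (Phase (n + 1))).symm
          ((φ t : Equiv.Perm (Phase (n + 1))) (c s))) = ContinuousLinearMap.id ℝ _ := by
      have h5 : HasFDerivAt (fun p => (φ t : Equiv.Perm (Phase (n + 1)))
          ((φ t : Equiv.Perm (Phase (n + 1))).symm p)) _
          ((φ t : Equiv.Perm (Phase (n + 1))) (c s)) :=
        HasFDerivAt.comp _ (SympCt.differentiable (φ t) _).hasFDerivAt
          (((SympCt.contDiff_symm (φ t)).differentiable (by simp) _).hasFDerivAt)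
      simp only [Equiv.apply_symm_apply, Equiv.symm_apply_apply] at h5
      exact h5.unique (hasFDerivAt_id _)
    have h5 := congrArg (fun L : Phase (n + 1) →L[ℝ] Phase (n + 1) => L (eY 0)) h4
    simp only [ContinuousLinearMap.comp_apply, ContinuousLinearMap.id_apply] at h5
    rw [h5] at h1
    have h2 : HasDerivAt (fun s : ℝ => s • (eY 0 : Phase (n + 1))) ((1 : ℝ) • eY 0) s :=
      (hasDerivAt_id s).smul_const _
    have h3 := h1.sub h2
    rwa [one_smul, sub_self] at h3
  have h1 : (φ t : Equiv.Perm (Phase (n + 1))) (c b) - b • (eY 0 : Phase (n + 1)) =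
      (φ t : Equiv.Perm (Phase (n + 1))) (c a) - a • (eY 0 : Phase (n + 1)) :=
    is_const_of_deriv_eq_zero (f := fun s => (φ t : Equiv.Perm (Phase (n + 1))) (c s) -
      s • (eY 0 : Phase (n + 1))) (fun s => (hd s).differentiableAt) (fun s => (hd s).deriv) b a
  have na : ρ ≤ ‖c a‖ := by
    have h2 := abs_coord_le (c a) (Sum.inr 0)
    have h3 := neg_abs_le ((c a) (Sum.inr 0))
    linarith
  have nb : ρ ≤ ‖c b‖ := by
    have h2 := abs_coord_le (c b) (Sum.inr 0)
    have h3 := le_abs_self ((c b) (Sum.inr 0))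
    linarith
  rw [hφ t _ na, hφ t _ nb] at h1
  have h2 := congrArg (wL n) h1
  simp only [map_sub, map_smul, wL_eY, smul_zero, sub_zero] at h2
  exact h2.symm

end Pool.Agent.H50.Susp
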