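import Mathlib
import Pool.Agent.H50.Susp.Scaling
import Pool.Agent.H50.Susp.Moll
import Pool.Agent.H50.Susp.Scat

set_option maxSynthPendingDepth 3

open scoped ContDiff Topology NNReal unitInterval
open Set Function Filter MeasureTheory

namespace Pool.Agent.H50.Susp

open Pool.Agent.Helper17

variable {n : ℕ} {T : Type} [TopologicalSpace T]

/-- Families of symplectomorphisms of `ℝ^{2n}` joining the right end to the identity. -/
structure CapData (Φ : T → Phase (n + 1) → Phase (n + 1)) (R : ℝ) (T0 : Set T) (ρ A C : ℝ)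
    (k : T × (ℝ × ℝ) → Phase n → Phase n) : Prop where
  cf : CF k
  symp : ∀ q w u v, omegaStd (fderiv ℝ (k q) w u) (fderiv ℝ (k q) w v) = omegaStd u v
  supp : ∀ q w, ρ < ‖w‖ → k q w = w
  triv : ∀ t s ξ w, (1 ≤ s ∨ A < |ξ|) → k (t, (s, ξ)) w = w
  start : ∀ t s ξ w, s ≤ 0 → k (t, (s, ξ)) w = endW Φ R t (ξ, w)
  const : ∀ t ∈ T0, ∀ b w, k (t, b) w = w
  bound : ∀ q w, ‖fderiv ℝ (k q) w‖ ≤ C

theorem exists_capData [CompactSpace T] {R : ℝ} (hR : 0 ≤ R) {f : T → Phase (n + 1) → ℝ}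
    {Φ Ψ : T → Phase (n + 1) → Phase (n + 1)} (h : StraightFam 0 R f Φ Ψ)
    (hstd : ∀ t p, R < ‖p‖ → f t p = p (Sum.inl 0)) {T1 : Set T}
    (hT1 : ∀ t ∈ T1, ∀ q, endW Φ R t q = q.2)
    (hnull : (scatE h hstd (R + 1)).HomotopicRel (ContinuousMap.const _ 1)
      {q | q.1 ∈ T1 ∨ q.2 = 0 ∨ q.2 = 1}) :
    ∃ (ρ C : ℝ) (k : T × (ℝ × ℝ) → Phase n → Phase n), 0 ≤ C ∧ CapData Φ R T1 ρ (R + 1) C k := by
  have hR1 : 0 < R + 1 := by linarith
  set e := scatE h hstd (R + 1) with he
  have he1 : ∀ t ∈ T1, ∀ s, e (t, s) = 1 := by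
    intro t ht s
    apply SympCt.ext'
    intro w
    exact hT1 t ht _
  have he2 : ∀ t, e (t, 0) = 1 ∧ e (t, 1) = 1 := by
    intro t
    constructor
    · apply SympCt.ext'
      intro w
      exact (h.end_eq t (Or.inl (by rw [abs_lev hR1.le (Or.inl rfl)]; linarith))).1
    · apply SympCt.ext'
      intro w
      exact (h.end_eq t (Or.inl (by rw [abs_lev hR1.le (Or.inr rfl)]; linarith))).1
  obtain ⟨H⟩ := hnull
  have hHT : ∀ (s : I) (q : T × I), (q.1 ∈ T1 ∨ q.2 = 0 ∨ q.2 = 1) → H (s, q) = 1 := by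
    intro s q hq
    have h1 : H (s, q) = e q := H.prop' s q hq
    rw [h1]
    rcases hq with hq | hq | hq
    · exact he1 q.1 hq q.2
    · have := (he2 q.1).1
      rwa [← hq] at this
    · have := (he2 q.1).2
      rwa [← hq] at this
  obtain ⟨hHCF, K, hK⟩ := CF_of_continuous (f := fun r : I × (T × I) => H r) H.continuous
  obtain ⟨ρ, hρ⟩ := K.isCompact.isBounded.subset_closedBall (0 : Phase n)
  have hρ' : ∀ r (w : Phase n), ρ < ‖w‖ → (H r : Equiv.Perm (Phase n)) w = w := by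
    intro r w hw
    apply hK r w
    intro hmem
    have := hρ hmem
    rw [mem_closedBall_zero_iff] at this
    linarith
  set pr : ℝ → I := fun s => projIcc 0 1 zero_le_one s with hpr
  set sg : ℝ → I := fun ξ => projIcc 0 1 zero_le_one ((ξ / (R + 1) + 1) / 2) with hsg
  have hprc : Continuous pr := continuous_projIcc
  have hsgc : Continuous sg := continuous_projIcc.comp
    (((continuous_id.div_const _).add continuous_const).div_const _)
  set c : T × (ℝ × ℝ) → I × (T × I) := fun q => (pr q.2.1, (q.1, sg q.2.2)) with hc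
  have hcc : Continuous c := (hprc.comp (continuous_fst.comp continuous_snd)).prodMk
    (continuous_fst.prodMk (hsgc.comp (continuous_snd.comp continuous_snd)))
  set k : T × (ℝ × ℝ) → Phase n → Phase n := fun q w => (H (c q) : Equiv.Perm (Phase n)) w with hk
  have hsg1 : ∀ ξ, R + 1 ≤ ξ → sg ξ = 1 := by
    intro ξ hξ
    apply projIcc_of_right_le (h := (zero_le_one : (0 : ℝ) ≤ 1))
    have : 1 ≤ ξ / (R + 1) := by rwa [le_div_iff₀ hR1, one_mul]
    linarith
  have hsg0 : ∀ ξ, ξ ≤ -(R + 1) → sg ξ = 0 := by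
    intro ξ hξ
    apply projIcc_of_le_left (h := (zero_le_one : (0 : ℝ) ≤ 1))
    have : ξ / (R + 1) ≤ -1 := by
      rw [div_le_iff₀ hR1]; linarith
    linarith
  have hsgm : ∀ ξ, |ξ| ≤ R + 1 → lev (R + 1) (sg ξ) = ξ := by
    intro ξ hξ
    rw [abs_le] at hξ
    have h1 : (ξ / (R + 1) + 1) / 2 ∈ Icc (0 : ℝ) 1 := by
      have a1 : -1 ≤ ξ / (R + 1) := by rw [le_div_iff₀ hR1]; linarith [hξ.1]
      have a2 : ξ / (R + 1) ≤ 1 := by rw [div_le_iff₀ hR1]; linarith [hξ.2]
      constructor <;> linarith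
    have h2 : ((sg ξ : I) : ℝ) = (ξ / (R + 1) + 1) / 2 := by
      simp only [hsg]
      rw [projIcc_of_mem _ h1]
    simp only [lev, h2]
    field_simp
    ring
  obtain ⟨C, hC0, hC⟩ := exists_bound_of_support (G := fun (r : I × (T × I)) (w : Phase n) =>
    fderiv ℝ (fun w => (H r : Equiv.Perm (Phase n)) w - w) w) (R := ρ)
    (hHCF.sub (CF.const contDiff_id)).fderiv.continuous (by
      intro r w hw
      have h1 : (fun w => (H r : Equiv.Perm (Phase n)) w - w) =ᶠ[𝓝 w] fun _ => 0 := by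
        filter_upwards [(isOpen_outside ρ).mem_nhds hw] with z hz
        rw [hρ' r z hz, sub_self]
      rw [h1.fderiv_eq]
      exact fderiv_const_apply _)
  refine ⟨ρ, C + 1, k, by linarith, ?_⟩
  constructor
  · exact hHCF.base hcc
  · intro q w u v
    exact (H (c q)).2.2.2.1 w u v
  · intro q w hw
    exact hρ' _ w hw
  · intro t s ξ w hsx
    have h1 : H (c (t, (s, ξ))) = 1 := by
      rcases hsx with hs | hξ
      · have h2 : pr s = 1 := projIcc_of_right_le (h := (zero_le_one : (0 : ℝ) ≤ 1)) hs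
        simp only [hc, h2]
        exact H.map_one_left _
      · apply hHT
        rw [lt_abs] at hξ
        rcases hξ with hξ | hξ
        · exact Or.inr (Or.inr (hsg1 ξ hξ.le))
        · exact Or.inr (Or.inl (hsg0 ξ (by linarith)))
    simp only [hk, h1]
    rfl
  · intro t s ξ w hs
    have h2 : pr s = 0 := projIcc_of_le_left (h := (zero_le_one : (0 : ℝ) ≤ 1)) hs
    have h3 : H (c (t, (s, ξ))) = e (t, sg ξ) := by
      simp only [hc, h2]
      exact H.map_zero_left _
    simp only [hk, h3]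
    change endW Φ R t (lev (R + 1) (sg ξ), w) = endW Φ R t (ξ, w)
    by_cases hξ : |ξ| ≤ R + 1
    · rw [hsgm ξ hξ]
    · push Not at hξ
      rw [(h.end_eq t (Or.inl (by linarith : R < |ξ|))).1]
      rw [lt_abs] at hξ
      rcases hξ with hξ | hξ
      · rw [hsg1 ξ hξ.le]
        exact (h.end_eq t (Or.inl (by rw [abs_lev hR1.le (Or.inr rfl)]; linarith))).1
      · rw [hsg0 ξ (by linarith)]
        exact (h.end_eq t (Or.inl (by rw [abs_lev hR1.le (Or.inl rfl)]; linarith))).1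
  · intro t ht b w
    have h1 : H (c (t, b)) = 1 := hHT _ _ (Or.inl ht)
    simp only [hk, h1]
    rfl
  · intro q w
    have h1 := hC (c q) w
    have h2 : fderiv ℝ (fun w => (H (c q) : Equiv.Perm (Phase n)) w - w) w = fderiv ℝ (k q) w -
        ContinuousLinearMap.id ℝ (Phase n) :=
      ((hHCF.differentiable (c q) w).hasFDerivAt.sub (hasFDerivAt_id w)).fderiv
    rw [h2] at h1
    calc ‖fderiv ℝ (k q) w‖ = ‖(fderiv ℝ (k q) w - ContinuousLinearMap.id ℝ (Phase n)) +
          ContinuousLinearMap.id ℝ (Phase n)‖ := by rw [sub_add_cancel]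
      _ ≤ ‖fderiv ℝ (k q) w - ContinuousLinearMap.id ℝ (Phase n)‖ +
          ‖ContinuousLinearMap.id ℝ (Phase n)‖ := norm_add_le _ _
      _ ≤ C + 1 := add_le_add h1 ContinuousLinearMap.norm_id_le

end Pool.Agent.H50.Susp
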