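import Mathlib
import Pool.Agent.H50.Susp.CapData

set_option maxSynthPendingDepth 3

open scoped ContDiff Topology NNReal unitInterval
open Set Function Filter MeasureTheory

namespace Pool.Agent.H50.Susp

open Pool.Agent.Helper17

/-- A cutoff function: `0` for `s ≤ -4`, `1` for `s ≥ -3`. -/
noncomputable def chi (s : ℝ) : ℝ := Real.smoothTransition (s + 4)

/-- A bump function: `1` on `[-3, -2]`, `0` outside `[-4, -1]`. -/
noncomputable def bet (s : ℝ) : ℝ := Real.smoothTransition (s + 4) * Real.smoothTransition (-1 - s)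

lemma contDiff_chi : ContDiff ℝ ∞ chi :=
  Real.smoothTransition.contDiff.comp (contDiff_id.add contDiff_const)

lemma contDiff_bet : ContDiff ℝ ∞ bet :=
  contDiff_chi.mul (Real.smoothTransition.contDiff.comp (contDiff_const.sub contDiff_id))

lemma chi_zero {s : ℝ} (h : s ≤ -4) : chi s = 0 :=
  Real.smoothTransition.zero_of_nonpos (by linarith)

lemma chi_one {s : ℝ} (h : -3 ≤ s) : chi s = 1 :=
  Real.smoothTransition.one_of_one_le (by linarith)

lemma bet_zero_left {s : ℝ} (h : s ≤ -4) : bet s = 0 := by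
  rw [bet, Real.smoothTransition.zero_of_nonpos (by linarith), zero_mul]

lemma bet_zero_right {s : ℝ} (h : -1 ≤ s) : bet s = 0 := by
  rw [bet, Real.smoothTransition.zero_of_nonpos (x := -1 - s) (by linarith), mul_zero]

lemma bet_one {s : ℝ} (h : -3 ≤ s) (h' : s ≤ -2) : bet s = 1 := by
  rw [bet, Real.smoothTransition.one_of_one_le (by linarith),
    Real.smoothTransition.one_of_one_le (by linarith), one_mul]

lemma bet_nonneg (s : ℝ) : 0 ≤ bet s :=
  mul_nonneg (Real.smoothTransition.nonneg _) (Real.smoothTransition.nonneg _)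

lemma bet_le_one (s : ℝ) : bet s ≤ 1 :=
  mul_le_one₀ (Real.smoothTransition.le_one _) (Real.smoothTransition.nonneg _)
    (Real.smoothTransition.le_one _)

variable {n : ℕ} {T : Type} [TopologicalSpace T]

lemma norm_pair_fst_le (s ξ : ℝ) : |s| ≤ ‖((s, ξ) : ℝ × ℝ)‖ := by
  rw [← Real.norm_eq_abs]
  exact norm_fst_le ((s, ξ) : ℝ × ℝ)

lemma norm_pair_snd_le (s ξ : ℝ) : |ξ| ≤ ‖((s, ξ) : ℝ × ℝ)‖ := by
  rw [← Real.norm_eq_abs]
  exact norm_snd_le ((s, ξ) : ℝ × ℝ)

/-- Smoothing of the family in `CapData`. -/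
theorem CapData.exists_smooth [CompactSpace T] {Φ : T → Phase (n + 1) → Phase (n + 1)} {R : ℝ}
    {T0 : Set T} {ρ A C : ℝ} {k : T × (ℝ × ℝ) → Phase n → Phase n}
    (h : CapData Φ R T0 ρ A C k) {δ : ℝ} (hδ : 0 < δ) :
    ∃ (A' : ℝ) (m : T → (ℝ × ℝ) × Phase n → Phase n), CF m ∧
      (∀ t b w, A' < ‖b‖ → m t (b, w) = 0) ∧ (∀ t b w, ρ < ‖w‖ → m t (b, w) = 0) ∧
      (∀ t s ξ w, -2 ≤ s → ‖fderiv ℝ (fun w => m t ((s, ξ), w)) w -
        (fderiv ℝ (k (t, (s, ξ))) w - ContinuousLinearMap.id ℝ (Phase n))‖ ≤ δ) ∧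
      (∀ t ∈ T0, ∀ b w, m t (b, w) = 0) := by
  set u : T × (ℝ × ℝ) → Phase n → Phase n := fun q w => chi q.2.1 • (k q w - w) with hu
  have huCF : CF u := by
    have h1 : CF (fun (q : T × (ℝ × ℝ)) (_ : Phase n) => chi q.2.1) :=
      CF.param (contDiff_chi.continuous.comp (continuous_fst.comp continuous_snd))
    exact h1.smul (h.cf.sub (CF.const contDiff_id))
  obtain ⟨m, hm, hmb, hmw, hmd, hml⟩ := exists_moll huCF (A := max A 4) (ρ := ρ) (by
    intro t b w hb
    obtain ⟨s, ξ⟩ := b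
    rw [Prod.norm_mk, lt_max_iff] at hb
    simp only [Real.norm_eq_abs] at hb
    rcases hb with hb | hb
    · have h4 : 4 < |s| := (le_max_right _ _).trans_lt hb
      rw [lt_abs] at h4
      rcases h4 with h4 | h4
      · simp only [hu, h.triv t s ξ w (Or.inl (by linarith)), sub_self, smul_zero]
      · simp only [hu, chi_zero (show s ≤ -4 by linarith), zero_smul]
    · have h4 : A < |ξ| := (le_max_left _ _).trans_lt hb
      simp only [hu, h.triv t s ξ w (Or.inr h4), sub_self, smul_zero]) (by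
    intro t b w hw
    simp only [hu, h.supp _ w hw, sub_self, smul_zero]) hδ
  refine ⟨max A 4 + 1, m, hm, hmb, hmw, ?_, ?_⟩
  · intro t s ξ w hs
    have h1 := hmd t (s, ξ) w
    have h2 : fderiv ℝ (u (t, (s, ξ))) w = fderiv ℝ (k (t, (s, ξ))) w -
        ContinuousLinearMap.id ℝ (Phase n) := by
      have h3 : u (t, (s, ξ)) = fun w => k (t, (s, ξ)) w - w := by
        funext w
        simp only [hu, chi_one (show -3 ≤ s by linarith), one_smul]
      rw [h3]
      exact ((h.cf.differentiable _ w).hasFDerivAt.sub (hasFDerivAt_id w)).fderiv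
    rwa [h2] at h1
  · intro t ht b w
    apply hml
    intro b' _
    simp only [hu, h.const t ht b' w, sub_self, smul_zero]

/-- The `y`-displacement of the cap. -/
noncomputable def capP (Φ : T → Phase (n + 1) → Phase (n + 1)) (R : ℝ) (t : T)
    (q : (ℝ × ℝ) × Phase n) : ℝ := bet q.1.1 * endH Φ R t (q.1.2, q.2)

/-- The `w`-component of the cap. -/
noncomputable def capQ (Φ : T → Phase (n + 1) → Phase (n + 1)) (R : ℝ)
    (m : T → (ℝ × ℝ) × Phase n → Phase n) (t : T) (q : (ℝ × ℝ) × Phase n) : Phase n :=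
  q.2 + (bet q.1.1 • (endW Φ R t (q.1.2, q.2) - q.2) + (1 - bet q.1.1) • m t q)

lemma CF_capP {R : ℝ} {f : T → Phase (n + 1) → ℝ} {Φ Ψ : T → Phase (n + 1) → Phase (n + 1)}
    (h : StraightFam 0 R f Φ Ψ) : CF (capP Φ R) := by
  have h1 : CF (fun (_ : T) (q : (ℝ × ℝ) × Phase n) => bet q.1.1) :=
    CF.const (contDiff_bet.comp (contDiff_fst.comp contDiff_fst))
  have h2 : CF (fun (_ : T) (q : (ℝ × ℝ) × Phase n) => ((q.1.2, q.2) : ℝ × Phase n)) :=
    CF.const ((contDiff_snd.comp contDiff_fst).prodMk contDiff_snd)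
  exact h1.smul ((CF_endH h).comp h2)

lemma CF_capQ {R : ℝ} {f : T → Phase (n + 1) → ℝ} {Φ Ψ : T → Phase (n + 1) → Phase (n + 1)}
    (h : StraightFam 0 R f Φ Ψ) {m : T → (ℝ × ℝ) × Phase n → Phase n} (hm : CF m) :
    CF (capQ Φ R m) := by
  have h1 : CF (fun (_ : T) (q : (ℝ × ℝ) × Phase n) => bet q.1.1) :=
    CF.const (contDiff_bet.comp (contDiff_fst.comp contDiff_fst))
  have h1' : CF (fun (_ : T) (q : (ℝ × ℝ) × Phase n) => 1 - bet q.1.1) :=
    CF.const (contDiff_const.sub (contDiff_bet.comp (contDiff_fst.comp contDiff_fst)))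
  have h2 : CF (fun (_ : T) (q : (ℝ × ℝ) × Phase n) => ((q.1.2, q.2) : ℝ × Phase n)) :=
    CF.const ((contDiff_snd.comp contDiff_fst).prodMk contDiff_snd)
  have h3 : CF (fun (_ : T) (q : (ℝ × ℝ) × Phase n) => q.2) := CF.const contDiff_snd
  exact h3.add ((h1.smul (((CF_endW h).comp h2).sub h3)).add (h1'.smul hm))

section vals

variable {R : ℝ} {f : T → Phase (n + 1) → ℝ} {Φ Ψ : T → Phase (n + 1) → Phase (n + 1)}
  {m : T → (ℝ × ℝ) × Phase n → Phase n}

/-- Outside a ball the cap is trivial. -/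
lemma cap_outside (h : StraightFam 0 R f Φ Ψ) {A' ρ r : ℝ}
    (hmb : ∀ t b w, A' < ‖b‖ → m t (b, w) = 0) (hmw : ∀ t b w, ρ < ‖w‖ → m t (b, w) = 0)
    (hr4 : 4 ≤ r) (hrA : A' ≤ r) (hrρ : ρ ≤ r) (hrR : R ≤ r) (t : T) {q : (ℝ × ℝ) × Phase n}
    (hq : r < ‖q‖) : capP Φ R t q = 0 ∧ capQ Φ R m t q = q.2 := by
  obtain ⟨⟨s, ξ⟩, w⟩ := q
  have h1 : bet s = 0 ∨ (endW Φ R t (ξ, w) = w ∧ endH Φ R t (ξ, w) = 0) := by
    rw [Prod.norm_mk, lt_max_iff, Prod.norm_mk, lt_max_iff] at hq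
    simp only [Real.norm_eq_abs] at hq
    rcases hq with (hs | hξ) | hw
    · left
      rw [lt_abs] at hs
      rcases hs with hs | hs
      · exact bet_zero_right (by linarith)
      · exact bet_zero_left (by linarith)
    · right
      exact h.end_eq t (Or.inl (by linarith))
    · right
      exact h.end_eq t (Or.inr (by linarith))
  have h2 : m t ((s, ξ), w) = 0 := by
    rw [Prod.norm_mk, lt_max_iff] at hq
    rcases hq with hb | hw
    · exact hmb t _ w (by linarith)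
    · exact hmw t _ w (by linarith)
  constructor
  · rcases h1 with h1 | h1
    · simp only [capP, h1, zero_mul]
    · simp only [capP, h1.2, mul_zero]
  · rcases h1 with h1 | h1
    · simp only [capQ, h1, h2, zero_smul, smul_zero, add_zero]
    · simp only [capQ, h1.1, h2, sub_self, smul_zero, add_zero]

lemma cap_start {s : ℝ} (hs : -3 ≤ s) (hs' : s ≤ -2) (t : T) (ξ : ℝ) (w : Phase n) :
    capP Φ R t ((s, ξ), w) = endH Φ R t (ξ, w) ∧
      capQ Φ R m t ((s, ξ), w) = endW Φ R t (ξ, w) := by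
  constructor
  · simp only [capP, bet_one hs hs', one_mul]
  · simp only [capQ, bet_one hs hs', one_smul, sub_self, zero_smul, add_zero]
    abel

lemma capQ_fderiv {T0 : Set T} {ρ A C δ : ℝ} {k : T × (ℝ × ℝ) → Phase n → Phase n}
    (h : StraightFam 0 R f Φ Ψ) (hk : CapData Φ R T0 ρ A C k) (hm : CF m)
    (hmd : ∀ t s ξ w, -2 ≤ s → ‖fderiv ℝ (fun w => m t ((s, ξ), w)) w -
        (fderiv ℝ (k (t, (s, ξ))) w - ContinuousLinearMap.id ℝ (Phase n))‖ ≤ δ)
    (t : T) {s : ℝ} (hs : -2 ≤ s) (ξ : ℝ) (w : Phase n) :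
    ‖fderiv ℝ (fun w => capQ Φ R m t ((s, ξ), w)) w - fderiv ℝ (k (t, (s, ξ))) w‖ ≤ δ := by
  set S := fderiv ℝ (k (t, (s, ξ))) w with hS
  set W := fderiv ℝ (fun w => endW Φ R t (ξ, w)) w with hW
  set M := fderiv ℝ (fun w => m t ((s, ξ), w)) w with hM
  have d1 : HasFDerivAt (fun w => endW Φ R t (ξ, w)) W w :=
    ((CF_partial (CF_endW h)).differentiable (t, ξ) w).hasFDerivAt
  have d2 : HasFDerivAt (fun w => m t ((s, ξ), w)) M w :=
    ((CF_partial hm).differentiable (t, (s, ξ)) w).hasFDerivAt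
  have d4 : HasFDerivAt (fun w => endW Φ R t (ξ, w) - w)
      (W - ContinuousLinearMap.id ℝ (Phase n)) w := d1.sub (hasFDerivAt_id w)
  have d5 : HasFDerivAt (fun w => bet s • (endW Φ R t (ξ, w) - w))
      (bet s • (W - ContinuousLinearMap.id ℝ (Phase n))) w := d4.const_smul (bet s)
  have d6 : HasFDerivAt (fun w => (1 - bet s) • m t ((s, ξ), w)) ((1 - bet s) • M) w :=
    d2.const_smul (1 - bet s)
  have d7 : HasFDerivAt (fun w => bet s • (endW Φ R t (ξ, w) - w) +
      (1 - bet s) • m t ((s, ξ), w)) (bet s • (W - ContinuousLinearMap.id ℝ (Phase n)) +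
        (1 - bet s) • M) w := d5.add d6
  have d3 : HasFDerivAt (fun w => capQ Φ R m t ((s, ξ), w))
      (ContinuousLinearMap.id ℝ (Phase n) + (bet s • (W - ContinuousLinearMap.id ℝ (Phase n)) +
        (1 - bet s) • M)) w := (hasFDerivAt_id w).add d7
  rw [d3.fderiv]
  have e1 : bet s • W = bet s • S := by
    by_cases hs1 : -1 ≤ s
    · rw [bet_zero_right hs1, zero_smul, zero_smul]
    · have h1 : (fun w => endW Φ R t (ξ, w)) = k (t, (s, ξ)) := by
        funext w
        rw [hk.start t s ξ w (by linarith)]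
      rw [hW, hS, h1]
  have e2 : ContinuousLinearMap.id ℝ (Phase n) + (bet s • (W - ContinuousLinearMap.id ℝ (Phase n)) +
        (1 - bet s) • M) - S = (1 - bet s) • (M - (S - ContinuousLinearMap.id ℝ (Phase n))) := by
    rw [smul_sub (bet s), e1]
    simp only [smul_sub, sub_smul, one_smul]
    abel
  rw [e2, norm_smul]
  have b1 : ‖(1 - bet s : ℝ)‖ ≤ 1 := by
    rw [Real.norm_eq_abs, abs_le]
    constructor
    · linarith [bet_le_one s]
    · linarith [bet_nonneg s]
  calc ‖(1 - bet s : ℝ)‖ * ‖M - (S - ContinuousLinearMap.id ℝ (Phase n))‖ ≤ 1 * δ :=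
        mul_le_mul b1 (hmd t s ξ w hs) (norm_nonneg _) zero_le_one
    _ = δ := one_mul _

end vals

end Pool.Agent.H50.Susp
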