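import Mathlib
import Pool.Agent.H50.Susp.Cap

set_option maxSynthPendingDepth 3

open scoped ContDiff Topology NNReal unitInterval
open Set Function Filter MeasureTheory

namespace Pool.Agent.H50.Susp

open Pool.Agent.Helper17

variable {n : ℕ} {T : Type} [TopologicalSpace T]

/-- The linear map `(x, (y, w)) ↦ mkP x y w`. -/
noncomputable def mkPL (n : ℕ) : (ℝ × ℝ × Phase n) →L[ℝ] Phase (n + 1) :=
  (ContinuousLinearMap.fst ℝ ℝ (ℝ × Phase n)).smulRight (eX 0) +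
    ((ContinuousLinearMap.fst ℝ ℝ (Phase n)).comp
      (ContinuousLinearMap.snd ℝ ℝ (ℝ × Phase n))).smulRight (eY 0) +
    (emb n).comp ((ContinuousLinearMap.snd ℝ ℝ (Phase n)).comp
      (ContinuousLinearMap.snd ℝ ℝ (ℝ × Phase n)))

lemma mkPL_apply (q : ℝ × ℝ × Phase n) : mkPL n q = mkP q.1 q.2.1 q.2.2 := rfl

/-- The linear part of the slow coordinates. -/
noncomputable def slowL (n : ℕ) (Λ : ℝ) : Phase (n + 1) →L[ℝ] (ℝ × ℝ) × Phase n :=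
  ((Λ⁻¹ • coordL (Sum.inr 0)).prod (Λ⁻¹ • coordL (Sum.inl 0))).prod (wL n)

lemma slowL_apply (Λ : ℝ) (X : Phase (n + 1)) :
    slowL n Λ X = ((Λ⁻¹ * X (Sum.inr 0), Λ⁻¹ * X (Sum.inl 0)), wL n X) := rfl

/-- The slow coordinates. -/
noncomputable def slow (n : ℕ) (Λ c : ℝ) (p : Phase (n + 1)) : (ℝ × ℝ) × Phase n :=
  ((Λ⁻¹ * (p (Sum.inr 0) - c), Λ⁻¹ * p (Sum.inl 0)), wL n p)

lemma slow_eq (Λ c : ℝ) (p : Phase (n + 1)) :
    slow n Λ c p = slowL n Λ p - ((Λ⁻¹ * c, 0), 0) := by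
  rw [slow, slowL_apply]
  ext <;> simp [mul_sub]

lemma hasFDerivAt_slow (Λ c : ℝ) (p : Phase (n + 1)) :
    HasFDerivAt (slow n Λ c) (slowL n Λ) p := by
  have h1 : slow n Λ c = fun p => slowL n Λ p - ((Λ⁻¹ * c, 0), 0) := funext fun p => slow_eq Λ c p
  rw [h1]
  exact (slowL n Λ).hasFDerivAt.sub_const _

lemma contDiff_slow (Λ c : ℝ) : ContDiff ℝ ∞ (slow n Λ c) := by
  have h1 : slow n Λ c = fun p => slowL n Λ p - ((Λ⁻¹ * c, 0), 0) := funext fun p => slow_eq Λ c p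
  rw [h1]
  exact (slowL n Λ).contDiff.sub contDiff_const

lemma norm_slowL_le {Λ : ℝ} (hΛ : 1 ≤ Λ) (X : Phase (n + 1)) : ‖slowL n Λ X‖ ≤ ‖X‖ := by
  have h0 : (0 : ℝ) ≤ Λ⁻¹ := by positivity
  have h1 : Λ⁻¹ ≤ 1 := inv_le_one_of_one_le₀ hΛ
  rw [slowL_apply, Prod.norm_mk, Prod.norm_mk, max_le_iff, max_le_iff]
  refine ⟨⟨?_, ?_⟩, norm_wL_le X⟩
  · rw [norm_mul, Real.norm_of_nonneg h0]
    calc Λ⁻¹ * ‖X (Sum.inr 0)‖ ≤ 1 * ‖X‖ :=
          mul_le_mul h1 (by rw [Real.norm_eq_abs]; exact abs_coord_le _ _) (norm_nonneg _)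
            zero_le_one
      _ = ‖X‖ := one_mul _
  · rw [norm_mul, Real.norm_of_nonneg h0]
    calc Λ⁻¹ * ‖X (Sum.inl 0)‖ ≤ 1 * ‖X‖ :=
          mul_le_mul h1 (by rw [Real.norm_eq_abs]; exact abs_coord_le _ _) (norm_nonneg _)
            zero_le_one
      _ = ‖X‖ := one_mul _

/-- The cap. -/
noncomputable def capMap (P : T → (ℝ × ℝ) × Phase n → ℝ) (Q : T → (ℝ × ℝ) × Phase n → Phase n)
    (Λ c : ℝ) (t : T) (p : Phase (n + 1)) : Phase (n + 1) :=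
  mkP (p (Sum.inl 0)) (p (Sum.inr 0) + Λ⁻¹ * P t (slow n Λ c p)) (Q t (slow n Λ c p))

lemma CF_capMap {P : T → (ℝ × ℝ) × Phase n → ℝ} {Q : T → (ℝ × ℝ) × Phase n → Phase n}
    (hP : CF P) (hQ : CF Q) (Λ c : ℝ) : CF (capMap P Q Λ c) := by
  have h1 : CF (fun (_ : T) (p : Phase (n + 1)) => slow n Λ c p) := CF.const (contDiff_slow Λ c)
  apply CF.mkP (CF.const (coordL (Sum.inl 0)).contDiff)
  · exact (CF.const (coordL (Sum.inr 0)).contDiff).add ((CF.const contDiff_const).smul (hP.comp h1))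
  · exact hQ.comp h1

lemma capMap_estim {P : T → (ℝ × ℝ) × Phase n → ℝ} {Q : T → (ℝ × ℝ) × Phase n → Phase n}
    (hP : CF P) (hQ : CF Q) {Λ c CP CQ δ C : ℝ} (hΛ : 1 ≤ Λ)
    (hCP0 : 0 ≤ CP) (hCQ0 : 0 ≤ CQ) (hδ0 : 0 ≤ δ) (hC0 : 0 ≤ C)
    (hCP : ∀ t q, ‖fderiv ℝ (P t) q‖ ≤ CP)
    (hCQ : ∀ t q, ‖fderiv ℝ (fun q => Q t q - q.2) q‖ ≤ CQ)
    (hκ : (δ + Λ⁻¹ * (CP + CQ)) * (2 * C + 3) ≤ 1 / 4) {t : T} {p : Phase (n + 1)}
    {S : Phase n →L[ℝ] Phase n} (hS : ∀ u v, omegaStd (S u) (S v) = omegaStd u v) (hSC : ‖S‖ ≤ C)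
    (hδ : ‖fderiv ℝ (fun w => Q t ((slow n Λ c p).1, w)) (wL n p) - S‖ ≤ δ) :
    Admissible (fderiv ℝ (capMap P Q Λ c t) p) ∧ PosAdm 0 (fderiv ℝ (capMap P Q Λ c t) p) := by
  set q := slow n Λ c p with hq
  have hΛi : 0 ≤ Λ⁻¹ := by positivity
  set DP := fderiv ℝ (P t) q with hDP
  set DQ := fderiv ℝ (Q t) q with hDQ
  have d1 : HasFDerivAt (fun p => P t (slow n Λ c p)) (DP.comp (slowL n Λ)) p :=
    HasFDerivAt.comp p (hP.differentiable t _).hasFDerivAt (hasFDerivAt_slow Λ c p)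
  have d2 : HasFDerivAt (fun p => Q t (slow n Λ c p)) (DQ.comp (slowL n Λ)) p :=
    HasFDerivAt.comp p (hQ.differentiable t _).hasFDerivAt (hasFDerivAt_slow Λ c p)
  have d3 : HasFDerivAt (fun p : Phase (n + 1) => p (Sum.inr 0) + Λ⁻¹ * P t (slow n Λ c p))
      (coordL (Sum.inr 0) + Λ⁻¹ • DP.comp (slowL n Λ)) p :=
    (coordL (Sum.inr 0)).hasFDerivAt.add (d1.const_mul Λ⁻¹)
  have d4 : HasFDerivAt (fun p : Phase (n + 1) => ((p (Sum.inl 0), p (Sum.inr 0) +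
      Λ⁻¹ * P t (slow n Λ c p), Q t (slow n Λ c p)) : ℝ × ℝ × Phase n))
      ((coordL (Sum.inl 0)).prod ((coordL (Sum.inr 0) + Λ⁻¹ • DP.comp (slowL n Λ)).prod
        (DQ.comp (slowL n Λ)))) p :=
    (coordL (Sum.inl 0)).hasFDerivAt.prodMk (d3.prodMk d2)
  have d5 : HasFDerivAt (capMap P Q Λ c t) ((mkPL n).comp
      ((coordL (Sum.inl 0)).prod ((coordL (Sum.inr 0) + Λ⁻¹ • DP.comp (slowL n Λ)).prod
        (DQ.comp (slowL n Λ))))) p := (mkPL n).hasFDerivAt.comp p d4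
  set A := fderiv ℝ (capMap P Q Λ c t) p with hA
  have hAX : ∀ X, A X = mkP (X (Sum.inl 0)) (X (Sum.inr 0) + Λ⁻¹ * DP (slowL n Λ X))
      (DQ (slowL n Λ X)) := by
    intro X
    rw [hA, d5.fderiv]
    rfl
  have hκle : ∀ (a : ℝ), 0 ≤ a → a ≤ CP + CQ → Λ⁻¹ * a ≤ δ + Λ⁻¹ * (CP + CQ) := by
    intro a _ ha
    have := mul_le_mul_of_nonneg_left ha hΛi
    linarith
  set κ := δ + Λ⁻¹ * (CP + CQ) with hκd
  have hκ0 : 0 ≤ κ := by positivity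
  have hκ1 : κ ≤ 1 := by
    have h1 : κ * 3 ≤ κ * (2 * C + 3) := mul_le_mul_of_nonneg_left (by linarith) hκ0
    linarith
  apply near_susp hκ0 hκ1 hC0 hκ hS hSC
  · intro X
    rw [hAX, mkP_x]
  · intro X
    rw [hAX, mkP_y, add_sub_cancel_left, abs_mul, abs_of_nonneg hΛi]
    have h1 : |DP (slowL n Λ X)| ≤ CP * ‖X‖ :=
      (DP.le_opNorm _).trans (mul_le_mul (hCP t q) (norm_slowL_le hΛ X) (norm_nonneg _) hCP0)
    calc Λ⁻¹ * |DP (slowL n Λ X)| ≤ Λ⁻¹ * (CP * ‖X‖) := mul_le_mul_of_nonneg_left h1 hΛi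
      _ = (Λ⁻¹ * CP) * ‖X‖ := by ring
      _ ≤ κ * ‖X‖ := mul_le_mul_of_nonneg_right (hκle CP hCP0 (by linarith)) (norm_nonneg _)
  · intro X
    rw [hAX, wL_mkP]
    -- decomposition of the derivative of `Q`
    set b' : ℝ × ℝ := (Λ⁻¹ * X (Sum.inr 0), Λ⁻¹ * X (Sum.inl 0)) with hb'
    have e1 : slowL n Λ X = (b', 0) + (0, wL n X) := by
      rw [slowL_apply]; simp [hb']
    have e2 : DQ (0, wL n X) = fderiv ℝ (fun w => Q t ((slow n Λ c p).1, w)) (wL n p) (wL n X) := by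
      have h1 : HasFDerivAt (fun w : Phase n => (((slow n Λ c p).1, w) : (ℝ × ℝ) × Phase n))
          (ContinuousLinearMap.inr ℝ (ℝ × ℝ) (Phase n)) (wL n p) := hasFDerivAt_prodMk_right _ _
      have h2 : HasFDerivAt (fun w => Q t ((slow n Λ c p).1, w))
          (DQ.comp (ContinuousLinearMap.inr ℝ (ℝ × ℝ) (Phase n))) (wL n p) :=
        HasFDerivAt.comp (wL n p) (g := Q t) (hQ.differentiable t _).hasFDerivAt h1
      rw [h2.fderiv]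
      rfl
    have e3 : DQ (b', 0) = fderiv ℝ (fun q => Q t q - q.2) q (b', 0) := by
      have h1 : HasFDerivAt (fun q : (ℝ × ℝ) × Phase n => Q t q - q.2)
          (DQ - ContinuousLinearMap.snd ℝ (ℝ × ℝ) (Phase n)) q :=
        (hQ.differentiable t q).hasFDerivAt.sub hasFDerivAt_snd
      rw [h1.fderiv]
      simp
    have e4 : ‖((b', 0) : (ℝ × ℝ) × Phase n)‖ ≤ Λ⁻¹ * ‖X‖ := by
      rw [Prod.norm_mk, norm_zero, max_eq_left (norm_nonneg _), hb', Prod.norm_mk, max_le_iff,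
        norm_mul, norm_mul, Real.norm_of_nonneg hΛi]
      exact ⟨mul_le_mul_of_nonneg_left (by rw [Real.norm_eq_abs]; exact abs_coord_le _ _) hΛi,
        mul_le_mul_of_nonneg_left (by rw [Real.norm_eq_abs]; exact abs_coord_le _ _) hΛi⟩
    have e5 : ‖DQ (b', 0)‖ ≤ Λ⁻¹ * CQ * ‖X‖ := by
      rw [e3]
      calc ‖fderiv ℝ (fun q => Q t q - q.2) q (b', 0)‖
          ≤ ‖fderiv ℝ (fun q => Q t q - q.2) q‖ * ‖((b', 0) : (ℝ × ℝ) × Phase n)‖ :=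
            ContinuousLinearMap.le_opNorm _ _
        _ ≤ CQ * (Λ⁻¹ * ‖X‖) := mul_le_mul (hCQ t q) e4 (norm_nonneg _) hCQ0
        _ = Λ⁻¹ * CQ * ‖X‖ := by ring
    have e6 : ‖DQ (0, wL n X) - S (wL n X)‖ ≤ δ * ‖X‖ := by
      rw [e2]
      calc ‖fderiv ℝ (fun w => Q t ((slow n Λ c p).1, w)) (wL n p) (wL n X) - S (wL n X)‖
          = ‖(fderiv ℝ (fun w => Q t ((slow n Λ c p).1, w)) (wL n p) - S) (wL n X)‖ := rfl
        _ ≤ ‖fderiv ℝ (fun w => Q t ((slow n Λ c p).1, w)) (wL n p) - S‖ * ‖wL n X‖ :=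
            ContinuousLinearMap.le_opNorm _ _
        _ ≤ δ * ‖X‖ := mul_le_mul hδ (norm_wL_le X) (norm_nonneg _) hδ0
    have e7 : DQ (slowL n Λ X) - S (wL n X) = DQ (b', 0) + (DQ (0, wL n X) - S (wL n X)) := by
      rw [e1, map_add]; abel
    rw [e7]
    calc ‖DQ (b', 0) + (DQ (0, wL n X) - S (wL n X))‖ ≤ Λ⁻¹ * CQ * ‖X‖ + δ * ‖X‖ :=
          (norm_add_le _ _).trans (add_le_add e5 e6)
      _ ≤ κ * ‖X‖ := by
          rw [← add_mul]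
          apply mul_le_mul_of_nonneg_right _ (norm_nonneg _)
          have := mul_nonneg hΛi hCP0
          rw [hκd, mul_add]
          linarith

end Pool.Agent.H50.Susp
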