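import Mathlib
import Pool.Agent.H50.Susp.Surj

set_option maxSynthPendingDepth 3

open scoped ContDiff Topology NNReal unitInterval
open Set Function Filter MeasureTheory

namespace Pool.Agent.H50.Susp

open Pool.Agent.Helper17

variable {n : ℕ} {T : Type} [TopologicalSpace T] [CompactSpace T]

/-- A straightened family can be closed up on the right. -/
theorem StraightFam.exists_cap {R : ℝ} (hR : 0 ≤ R) {f : T → Phase (n + 1) → ℝ}
    {Φ Ψ : T → Phase (n + 1) → Phase (n + 1)} (h : StraightFam 0 R f Φ Ψ)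
    (hstd : ∀ t p, R < ‖p‖ → f t p = p (Sum.inl 0)) {T1 : Set T}
    (hT1 : ∀ t ∈ T1, ∀ q, endW Φ R t q = q.2 ∧ endH Φ R t q = 0)
    (hnull : (scatE h hstd (R + 1)).HomotopicRel (ContinuousMap.const _ 1)
      {q | q.1 ∈ T1 ∨ q.2 = 0 ∨ q.2 = 1}) :
    ∃ (Λ R' : ℝ) (F : T → Phase (n + 1) → Phase (n + 1)), 1 ≤ Λ ∧ 0 ≤ R' ∧ CF F ∧
      (∀ t p, R' < ‖p‖ → F t p = p) ∧ (∀ t ∈ T1, ∀ p, F t p = sclPhi Φ Λ t p) ∧
      (∀ t p, (F t p) (Sum.inl 0) = Λ * f t (sclL n Λ p)) ∧
      (∀ t p, Admissible (fderiv ℝ (F t) p)) ∧ (∀ t p, PosAdm 0 (fderiv ℝ (F t) p)) := by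
  obtain ⟨ρ, C, k, hC0, hk⟩ := exists_capData hR h hstd (fun t ht q => (hT1 t ht q).1) hnull
  set δ : ℝ := 1 / (8 * (2 * C + 3)) with hδ
  have hδ0 : 0 < δ := by positivity
  obtain ⟨A', m, hm, hmb, hmw, hmd, hmT⟩ := hk.exists_smooth hδ0
  set P := capP Φ R with hPdef
  set Q := capQ Φ R m with hQdef
  have hP : CF P := CF_capP h
  have hQ : CF Q := CF_capQ h hm
  set r : ℝ := max (max 4 A') (max ρ R) with hr
  have hr4 : 4 ≤ r := (le_max_left _ _).trans (le_max_left _ _)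
  have hrA : A' ≤ r := (le_max_right _ _).trans (le_max_left _ _)
  have hrρ : ρ ≤ r := (le_max_left _ _).trans (le_max_right _ _)
  have hrR : R ≤ r := (le_max_right _ _).trans (le_max_right _ _)
  have hout : ∀ t (q : (ℝ × ℝ) × Phase n), r < ‖q‖ → P t q = 0 ∧ Q t q = q.2 := fun t q hq =>
    cap_outside h hmb hmw hr4 hrA hrρ hrR t hq
  have hopen : IsOpen {q : (ℝ × ℝ) × Phase n | r < ‖q‖} := isOpen_lt continuous_const continuous_norm
  obtain ⟨CP, hCP0, hCP⟩ := exists_bound_of_support (G := fun t q => fderiv ℝ (P t) q) (R := r)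
    hP.fderiv.continuous (by
      intro t q hq
      have h1 : P t =ᶠ[𝓝 q] fun _ => 0 := by
        filter_upwards [hopen.mem_nhds hq] with z hz
        exact (hout t z hz).1
      rw [h1.fderiv_eq]
      exact fderiv_const_apply _)
  have hQ' : CF (fun t (q : (ℝ × ℝ) × Phase n) => Q t q - q.2) := hQ.sub (CF.const contDiff_snd)
  obtain ⟨CQ, hCQ0, hCQ⟩ := exists_bound_of_support
    (G := fun t q => fderiv ℝ (fun q : (ℝ × ℝ) × Phase n => Q t q - q.2) q) (R := r)
    hQ'.fderiv.continuous (by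
      intro t q hq
      have h1 : (fun q : (ℝ × ℝ) × Phase n => Q t q - q.2) =ᶠ[𝓝 q] fun _ => 0 := by
        filter_upwards [hopen.mem_nhds hq] with z hz
        rw [(hout t z hz).2, sub_self]
      rw [h1.fderiv_eq]
      exact fderiv_const_apply _)
  -- the slowness parameter
  set Λ : ℝ := max 1 ((CP + CQ) * (8 * (2 * C + 3))) with hΛ
  have hΛ1 : 1 ≤ Λ := le_max_left _ _
  have hΛ0 : 0 < Λ := by linarith
  have hΛi : 0 ≤ Λ⁻¹ := by positivity
  have hκ : (δ + Λ⁻¹ * (CP + CQ)) * (2 * C + 3) ≤ 1 / 4 := by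
    have e1 : δ * (2 * C + 3) = 1 / 8 := by rw [hδ]; field_simp
    have e2 : Λ⁻¹ * (CP + CQ) * (2 * C + 3) ≤ 1 / 8 := by
      have h1 : (CP + CQ) * (8 * (2 * C + 3)) ≤ Λ := le_max_right _ _
      have h2 : Λ⁻¹ * ((CP + CQ) * (8 * (2 * C + 3))) ≤ Λ⁻¹ * Λ :=
        mul_le_mul_of_nonneg_left h1 hΛi
      rw [inv_mul_cancel₀ hΛ0.ne'] at h2
      linarith
    rw [add_mul, e1]
    linarith
  set c : ℝ := R + 2 + 2 * Λ with hc
  set Θ := capMap P Q Λ c with hΘ
  set F : T → Phase (n + 1) → Phase (n + 1) := fun t p =>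
    if p (Sum.inr 0) < R + 2 then sclPhi Φ Λ t p else Θ t p with hF
  have hs : ∀ p : Phase (n + 1), (slow n Λ c p).1.1 = Λ⁻¹ * (p (Sum.inr 0) - R - 2) - 2 := by
    intro p
    rw [slow]
    simp only [hc]
    rw [show p (Sum.inr 0) - (R + 2 + 2 * Λ) = (p (Sum.inr 0) - R - 2) - 2 * Λ by ring, mul_sub]
    rw [show Λ⁻¹ * (2 * Λ) = 2 * (Λ⁻¹ * Λ) by ring, inv_mul_cancel₀ hΛ0.ne']
    ring
  -- the two definitions agree on the overlap
  have hagree : ∀ t (p : Phase (n + 1)), R + 1 < p (Sum.inr 0) → p (Sum.inr 0) < R + 2 →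
      sclPhi Φ Λ t p = Θ t p := by
    intro t p h1 h2
    have h3 : (slow n Λ c p).1.1 ≤ -2 := by
      rw [hs]
      have : Λ⁻¹ * (p (Sum.inr 0) - R - 2) ≤ 0 :=
        mul_nonpos_of_nonneg_of_nonpos hΛi (by linarith)
      linarith
    have h4 : -3 ≤ (slow n Λ c p).1.1 := by
      rw [hs]
      have h5 : Λ⁻¹ ≤ 1 := inv_le_one_of_one_le₀ hΛ1
      have h6 : Λ⁻¹ * (-1) ≤ Λ⁻¹ * (p (Sum.inr 0) - R - 2) :=
        mul_le_mul_of_nonneg_left (by linarith) hΛi
      linarith
    have h5 := cap_start (Φ := Φ) (R := R) (m := m) h4 h3 t (slow n Λ c p).1.2 (slow n Λ c p).2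
    rw [sclPhi_right h hR hstd hΛ1 t (by linarith)]
    have h6 : P t (slow n Λ c p) = endH Φ R t (Λ⁻¹ * p (Sum.inl 0), wL n p) := h5.1
    have h7 : Q t (slow n Λ c p) = endW Φ R t (Λ⁻¹ * p (Sum.inl 0), wL n p) := h5.2
    simp only [hΘ, capMap, h6, h7]
  have hU1 : IsOpen {p : Phase (n + 1) | p (Sum.inr 0) < R + 2} :=
    isOpen_lt (coordL (Sum.inr 0)).continuous continuous_const
  have hU2 : IsOpen {p : Phase (n + 1) | R + 1 < p (Sum.inr 0)} :=
    isOpen_lt continuous_const (coordL (Sum.inr 0)).continuous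
  have hF1 : ∀ t, EqOn (F t) (sclPhi Φ Λ t) {p | p (Sum.inr 0) < R + 2} := by
    intro t p hp
    exact if_pos hp
  have hF2 : ∀ t, EqOn (F t) (Θ t) {p | R + 1 < p (Sum.inr 0)} := by
    intro t p hp
    by_cases h1 : p (Sum.inr 0) < R + 2
    · rw [hF1 t h1]
      exact hagree t p hp h1
    · exact if_neg h1
  have hΘCF : CF Θ := CF_capMap hP hQ Λ c
  have hSCF : CF (sclPhi Φ Λ) := CF_sclPhi h Λ
  have hFCF : CF F := by
    apply CF.of_local
    intro x
    by_cases hx : x (Sum.inr 0) < R + 2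
    · exact ⟨_, sclPhi Φ Λ, hU1, hx, hSCF, hF1⟩
    · refine ⟨_, Θ, hU2, ?_, hΘCF, hF2⟩
      push Not at hx
      change R + 1 < x (Sum.inr 0)
      linarith
  -- the support
  set r' : ℝ := c + Λ * r with hr'
  have hr0 : 0 ≤ r := by linarith
  have hΛr : r ≤ Λ * r := by nlinarith
  have hc0 : R + 2 ≤ c := by rw [hc]; linarith
  have hFout : ∀ t p, 3 * r' < ‖p‖ → F t p = p := by
    intro t p hp
    have h1 : r' < |p (Sum.inl 0)| ∨ r' < |p (Sum.inr 0)| ∨ r' < ‖wL n p‖ := by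
      by_contra hcon
      push Not at hcon
      have := norm_le_xyw p
      linarith [hcon.1, hcon.2.1, hcon.2.2]
    by_cases hy : p (Sum.inr 0) < R + 2
    · rw [hF1 t hy]
      rcases h1 with h1 | h1 | h1
      · apply sclPhi_side h hΛ1 t hR
        left
        have : Λ * R ≤ Λ * r := mul_le_mul_of_nonneg_left hrR hΛ0.le
        linarith
      · apply sclPhi_left h hΛ1 t hR
        rw [lt_abs] at h1
        rcases h1 with h1 | h1
        · exfalso
          have : 0 ≤ Λ * r := by positivity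
          linarith
        · linarith
      · apply sclPhi_side h hΛ1 t hR
        right
        linarith
    · push Not at hy
      have hy' : R + 1 < p (Sum.inr 0) := by linarith
      rw [hF2 t hy']
      have h2 : r < ‖slow n Λ c p‖ := by
        rw [slow, Prod.norm_mk, lt_max_iff, Prod.norm_mk, lt_max_iff, norm_mul, norm_mul,
          Real.norm_of_nonneg hΛi, Real.norm_eq_abs, Real.norm_eq_abs]
        rcases h1 with h1 | h1 | h1
        · left; right
          rw [lt_inv_mul_iff₀ hΛ0]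
          linarith
        · left; left
          rw [lt_inv_mul_iff₀ hΛ0]
          rw [lt_abs] at h1
          rcases h1 with h1 | h1
          · refine lt_of_lt_of_le ?_ (le_abs_self _)
            linarith
          · exfalso
            have : 0 ≤ Λ * r := by positivity
            linarith
        · right
          linarith
      have h3 := hout t _ h2
      simp only [hΘ, capMap, h3.1, h3.2, mul_zero, add_zero]
      exact mkP_eta p
  refine ⟨Λ, 3 * r', F, hΛ1, ?_, hFCF, hFout, ?_, ?_, ?_⟩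
  · have : 0 ≤ Λ * r := by positivity
    have : 0 ≤ r' := by rw [hr']; linarith
    linarith
  · intro t ht p
    by_cases hy : p (Sum.inr 0) < R + 2
    · exact hF1 t hy
    · push Not at hy
      have hy' : R + 1 < p (Sum.inr 0) := by linarith
      rw [hF2 t hy', sclPhi_right h hR hstd hΛ1 t (by linarith)]
      have e1 : ∀ q : ℝ × Phase n, endH Φ R t q = 0 := fun q => (hT1 t ht q).2
      have e2 : ∀ q : ℝ × Phase n, endW Φ R t q = q.2 := fun q => (hT1 t ht q).1
      have e3 : ∀ q, P t q = 0 := fun q => by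
        simp only [hPdef, capP, e1, mul_zero]
      have e4 : ∀ q, Q t q = q.2 := fun q => by
        obtain ⟨b, w⟩ := q
        simp only [hQdef, capQ, e2, hmT t ht b w, sub_self, smul_zero, add_zero]
      simp only [hΘ, capMap, e1, e2, e3, e4, mul_zero, add_zero]
      rfl
  · intro t p
    by_cases hy : p (Sum.inr 0) < R + 2
    · rw [hF1 t hy, sclPhi_x h]
    · push Not at hy
      have hy' : R + 1 < p (Sum.inr 0) := by linarith
      rw [hF2 t hy']
      simp only [hΘ, capMap, mkP_x]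
      have h1 : R < ‖sclL n Λ p‖ := by
        have h2 := abs_coord_le (sclL n Λ p) (Sum.inr 0)
        rw [sclL_apply, mkP_y] at h2
        have h3 := le_abs_self (Λ * p (Sum.inr 0))
        have h4 : p (Sum.inr 0) ≤ Λ * p (Sum.inr 0) := by nlinarith
        rw [← sclL_apply] at h2
        linarith
      rw [hstd t _ h1, sclL_apply, mkP_x, ← mul_assoc, mul_inv_cancel₀ hΛ0.ne', one_mul]
  · rw [← forall_and]
    intro t
    rw [← forall_and]
    intro p
    by_cases hy : p (Sum.inr 0) < R + 2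
    · have h1 : F t =ᶠ[𝓝 p] sclPhi Φ Λ t := (hF1 t).eventuallyEq_of_mem (hU1.mem_nhds hy)
      rw [h1.fderiv_eq]
      exact ⟨symp_admissible (sclPhi_symp h hΛ0.ne' t p), symp_posAdm 0 (sclPhi_symp h hΛ0.ne' t p)⟩
    · push Not at hy
      have hy' : R + 1 < p (Sum.inr 0) := by linarith
      have h1 : F t =ᶠ[𝓝 p] Θ t := (hF2 t).eventuallyEq_of_mem (hU2.mem_nhds hy')
      rw [h1.fderiv_eq]
      have h2 : -2 ≤ (slow n Λ c p).1.1 := by
        rw [hs]
        have : 0 ≤ Λ⁻¹ * (p (Sum.inr 0) - R - 2) := mul_nonneg hΛi (by linarith)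
        linarith
      exact capMap_estim hP hQ hΛ1 hCP0 hCQ0 hδ0.le hC0 hCP hCQ hκ
        (S := fderiv ℝ (k (t, ((slow n Λ c p).1.1, (slow n Λ c p).1.2))) (wL n p))
        (hk.symp _ _) (hk.bound _ _) (capQ_fderiv h hk hm hmd t h2 _ _)

/-- A family of pairs whose scattering is null-homotopic comes from a family of
symplectomorphisms. -/
theorem exists_pairHomotopic_of_scat {T0 : Set T} {R : ℝ} (hR : 0 ≤ R)
    {f g : T → Phase (n + 1) → ℝ} (hfg : PosPair 0 R f g)
    (hT0 : ∀ t ∈ T0, ∀ p, f t p = p (Sum.inl 0) ∧ g t p = p (Sum.inr 0))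
    {e : C(T × I, SympCt n)} (he : IsScat f e)
    (hnull : e.HomotopicRel (ContinuousMap.const _ 1) {q | q.1 ∈ T0 ∨ q.2 = 0 ∨ q.2 = 1}) :
    ∃ φ : C(T, SympCt (n + 1)), (∀ t ∈ T0, φ t = 1) ∧
      PairHomotopic 0 T0 f g (fun t p => ((φ t : Equiv.Perm (Phase (n + 1))) p) (Sum.inl 0))
        (fun t p => ((φ t : Equiv.Perm (Phase (n + 1))) p) (Sum.inr 0)) := by
  obtain ⟨Φ, Ψ, h⟩ := exists_straightFam hR hfg
  have hid : ∀ t ∈ T0, ∀ p, Φ t p = p := fun t ht p => h.eq_id t (fun p => (hT0 t ht p).1) p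
  have hsc := isScat_scatE h hR hfg.fstd (show R < R + 1 by linarith)
  have hhom := IsScat.homotopic (fun t ht p => (hT0 t ht p).1)
    (PairHomotopic.refl (T0 := T0) hR hfg) hsc he
  obtain ⟨Λ, R', F, hΛ1, hR', hFCF, hFout, hFT, hFx, hadm, hpos⟩ :=
    h.exists_cap hR hfg.fstd (T1 := T0) (fun t ht q => ⟨by rw [endW, hid t ht, wL_mkP],
      by rw [endH, hid t ht, mkP_y, sub_self]⟩) (hhom.trans hnull)
  have hΛ0 : Λ ≠ 0 := by linarith
  have hFT' : ∀ t ∈ T0, ∀ p, F t p = p := by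
    intro t ht p
    rw [hFT t ht, sclPhi, hid t ht, sclL_inv hΛ0]
  obtain ⟨φ, hφ1, hφ⟩ := moser_pair (T0 := T0) hFCF hR' hFout hadm hpos hFT'
  refine ⟨φ, hφ1, ?_⟩
  have h1 := pairHomotopic_scale hR hfg hT0 hΛ1
  have e1 : (fun t p => (F t p) (Sum.inl 0)) = fun t p => Λ * f t (sclL n Λ p) := by
    funext t p
    exact hFx t p
  rw [e1] at hφ
  obtain ⟨R₁, hR₁, h2⟩ := h1.symm.left_posPair
  obtain ⟨R₂, hR₂, h3⟩ := hφ.left_posPair
  have h4 : PairHomotopic 0 T0 (fun t p => Λ * f t (sclL n Λ p))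
      (fun t p => Λ⁻¹ * g t (sclL n Λ p)) (fun t p => Λ * f t (sclL n Λ p))
      (fun t p => (F t p) (Sum.inr 0)) := by
    apply pairHomotopic_of_left (R := max R₁ R₂) (hR₁.trans (le_max_left _ _))
      (h2.mono (le_max_left _ _)) (h3.mono (le_max_right _ _))
    intro t ht p
    rw [(hT0 t ht _).2, hFT' t ht, sclL_apply, mkP_y, ← mul_assoc,
      inv_mul_cancel₀ hΛ0, one_mul]
  exact (h1.trans h4).trans hφ

/-- Surjectivity: families of pairs with positive Poisson bracket come from families of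
symplectomorphisms, provided that families of loops in the symplectomorphism group of the fibre
are null-homotopic. -/
theorem exists_pairHomotopic_symp {T0 : Set T} {R : ℝ} (hR : 0 ≤ R)
    {f g : T → Phase (n + 1) → ℝ} (hfg : PosPair 0 R f g)
    (hT0 : ∀ t ∈ T0, ∀ p, f t p = p (Sum.inl 0) ∧ g t p = p (Sum.inr 0))
    (hnull : ∀ e : C(T × I, SympCt n), (∀ t ∈ T0, ∀ s, e (t, s) = 1) →
      (∀ t, e (t, 0) = 1 ∧ e (t, 1) = 1) →
      e.HomotopicRel (ContinuousMap.const _ 1) {q | q.1 ∈ T0 ∨ q.2 = 0 ∨ q.2 = 1}) :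
    ∃ φ : C(T, SympCt (n + 1)), (∀ t ∈ T0, φ t = 1) ∧
      PairHomotopic 0 T0 f g (fun t p => ((φ t : Equiv.Perm (Phase (n + 1))) p) (Sum.inl 0))
        (fun t p => ((φ t : Equiv.Perm (Phase (n + 1))) p) (Sum.inr 0)) := by
  obtain ⟨Φ, Ψ, h⟩ := exists_straightFam hR hfg
  have hid : ∀ t ∈ T0, ∀ p, Φ t p = p := fun t ht p => h.eq_id t (fun p => (hT0 t ht p).1) p
  refine exists_pairHomotopic_of_scat hR hfg hT0
    (isScat_scatE h hR hfg.fstd (show R < R + 1 by linarith)) (hnull _ ?_ ?_)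
  · intro t ht s
    apply SympCt.ext'
    intro w
    rw [scatE_apply, endW, hid t ht, wL_mkP]
    rfl
  · intro t
    constructor
    · apply SympCt.ext'
      intro w
      exact (h.end_eq t (Or.inl (by rw [abs_lev (by linarith) (Or.inl rfl)]; linarith))).1
    · apply SympCt.ext'
      intro w
      exact (h.end_eq t (Or.inl (by rw [abs_lev (by linarith) (Or.inr rfl)]; linarith))).1

end Pool.Agent.H50.Susp
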