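import Mathlib
import Pool.Agent.H50.Susp.SurjMain

set_option maxSynthPendingDepth 3

open scoped ContDiff Topology NNReal unitInterval
open Set Function Filter MeasureTheory

namespace Pool.Agent.H50.Susp

open Pool.Agent.Helper17

variable {n : ℕ} {T : Type} [TopologicalSpace T] [CompactSpace T]

/-- Conjugation by the scalings is an isotopy. -/
lemma exists_scl_conj (f : C(T, SympCt (n + 1))) {Λ : ℝ} (hΛ : 1 ≤ Λ) {T0 : Set T}
    (hf : ∀ t ∈ T0, f t = 1) :
    ∃ g : C(T, SympCt (n + 1)), (∀ t p, (g t : Equiv.Perm (Phase (n + 1))) p =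
      sclL n Λ⁻¹ ((f t : Equiv.Perm (Phase (n + 1))) (sclL n Λ p))) ∧ f.HomotopicRel g T0 := by
  obtain ⟨hfCF, K, hK⟩ := CF_of_continuous f.continuous
  obtain ⟨ρ, hρ⟩ := K.isCompact.isBounded.subset_closedBall (0 : Phase (n + 1))
  have hρ' : ∀ t (p : Phase (n + 1)), |ρ| < ‖p‖ → (f t : Equiv.Perm (Phase (n + 1))) p = p := by
    intro t p hp
    apply hK t p
    intro hmem
    have := hρ hmem
    rw [mem_closedBall_zero_iff] at this
    linarith [le_abs_self ρ]
  set l : I × T → ℝ := fun q => 1 + (q.1 : ℝ) * (Λ - 1) with hl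
  have hl1 : ∀ q, 1 ≤ l q := fun q => by
    have := mul_nonneg q.1.2.1 (sub_nonneg.2 hΛ)
    simp only [hl]; linarith
  have hl0 : ∀ q, l q ≠ 0 := fun q => by have := hl1 q; linarith
  have hlΛ : ∀ q, l q ≤ Λ := fun q => by
    have := mul_le_mul_of_nonneg_right q.1.2.2 (sub_nonneg.2 hΛ)
    simp only [hl]; linarith
  have hlc : Continuous l := by
    exact continuous_const.add ((continuous_subtype_val.comp continuous_fst).mul continuous_const)
  have hlCF : CF (fun (q : I × T) (_ : Phase (n + 1)) => l q) := CF.param hlc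
  have hliCF : CF (fun (q : I × T) (_ : Phase (n + 1)) => (l q)⁻¹) := CF.param (hlc.inv₀ hl0)
  have hsc : CF (fun (q : I × T) (p : Phase (n + 1)) => sclL n (l q) p) := by
    simp only [sclL_apply]
    exact CF.mkP (hliCF.smul (CF.const (coordL (Sum.inl 0)).contDiff))
      (hlCF.smul (CF.const (coordL (Sum.inr 0)).contDiff)) (CF.const (wL n).contDiff)
  have hsci : CF (fun (q : I × T) (p : Phase (n + 1)) => sclL n (l q)⁻¹ p) := by
    simp only [sclL_apply, inv_inv]
    exact CF.mkP (hlCF.smul (CF.const (coordL (Sum.inl 0)).contDiff))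
      (hliCF.smul (CF.const (coordL (Sum.inr 0)).contDiff)) (CF.const (wL n).contDiff)
  set G : I × T → Phase (n + 1) → Phase (n + 1) := fun q p =>
    sclL n (l q)⁻¹ ((f q.2 : Equiv.Perm (Phase (n + 1))) (sclL n (l q) p)) with hG
  have hGCF : CF G := hsci.comp ((hfCF.base continuous_snd).comp hsc)
  have hGout : ∀ q p, Λ * |ρ| < ‖p‖ → G q p = p := by
    intro q p hp
    have h1 := norm_le_sclL (hl1 q) p
    have h2 : l q * ‖sclL n (l q) p‖ ≤ Λ * ‖sclL n (l q) p‖ :=
      mul_le_mul_of_nonneg_right (hlΛ q) (norm_nonneg _)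
    have h3 : Λ * |ρ| < Λ * ‖sclL n (l q) p‖ := by linarith
    have h4 : |ρ| < ‖sclL n (l q) p‖ := lt_of_mul_lt_mul_left h3 (by linarith)
    simp only [hG]
    rw [hρ' _ _ h4, sclL_inv (hl0 q)]
  have hGs : ∀ q p u v, omegaStd (fderiv ℝ (G q) p u) (fderiv ℝ (G q) p v) = omegaStd u v := by
    intro q p u v
    have h1 : HasFDerivAt (G q) ((sclL n (l q)⁻¹).comp
        ((fderiv ℝ (f q.2 : Equiv.Perm (Phase (n + 1))) (sclL n (l q) p)).comp (sclL n (l q)))) p :=
      (sclL n (l q)⁻¹).hasFDerivAt.comp p ((SympCt.differentiable (f q.2) _).hasFDerivAt.comp p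
        (sclL n (l q)).hasFDerivAt)
    rw [h1.fderiv]
    simp only [ContinuousLinearMap.comp_apply]
    rw [omegaStd_sclL (inv_ne_zero (hl0 q)), (f q.2).2.2.2.1, omegaStd_sclL (hl0 q)]
  set H : I × T → SympCt (n + 1) := fun q => mkSymp (G q) (hGCF.contDiff q)
    ⟨Metric.closedBall 0 (Λ * |ρ|), isCompact_closedBall 0 _,
      fun x hx => hGout q x (by simpa using hx)⟩ (hGs q) with hH
  have hHa : ∀ q p, (H q : Equiv.Perm (Phase (n + 1))) p = G q p := fun q p => rfl
  have hHc : Continuous H := continuous_of_CF hGCF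
    ⟨Metric.closedBall 0 (Λ * |ρ|), isCompact_closedBall 0 _⟩ (fun q x hx => hGout q x (by
      have hx' : x ∉ Metric.closedBall (0 : Phase (n + 1)) (Λ * |ρ|) := hx
      simpa using hx')) hHa
  have hH0 : ∀ t, H (0, t) = f t := by
    intro t
    apply SympCt.ext'
    intro p
    rw [hHa]
    simp only [hG, hl, Icc.coe_zero, zero_mul, add_zero, inv_one, sclL_one]
  have hHT : ∀ s, ∀ t ∈ T0, H (s, t) = 1 := by
    intro s t ht
    apply SympCt.ext'
    intro p
    rw [hHa]
    simp only [hG, hf t ht]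
    exact sclL_inv (hl0 _) p
  refine ⟨⟨fun t => H (1, t), hHc.comp (continuous_const.prodMk continuous_id)⟩, ?_, ?_⟩
  · intro t p
    change G (1, t) p = _
    simp only [hG, hl, Icc.coe_one, one_mul, add_sub_cancel]
  · exact ⟨{
      toFun := H
      continuous_toFun := hHc
      map_zero_left := hH0
      map_one_left := fun t => rfl
      prop' := fun s t ht => by
        change H (s, t) = f t
        rw [hHT s t ht, hf t ht] }⟩

/-- Moser's method, with the isotopy. -/
theorem moser_iso {N : ℕ} {T : Type} [TopologicalSpace T] [CompactSpace T]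
    {Ψ : T → Phase N → Phase N} (hΨ : CF Ψ) {R : ℝ} (hΨK : ∀ t x, R < ‖x‖ → Ψ t x = x)
    (hadm : ∀ t x, Admissible (fderiv ℝ (Ψ t) x)) :
    ∃ (φ : C(T, SympCt N)), (∀ t, (∀ x, Ψ t x = x) → φ t = 1) ∧
      ∀ (S : Type) [TopologicalSpace S] (c : C(S, T)) (g : C(S, SympCt N)) (S0 : Set S),
        (∀ s x, (g s : Equiv.Perm (Phase N)) x = Ψ (c s) x) → (∀ s ∈ S0, g s = 1) →
        g.HomotopicRel (φ.comp c) S0 := by
  have hKout : ∀ t, ∀ x ∉ Metric.closedBall (0 : Phase N) R, Ψ t x = x := fun t x hx =>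
    hΨK t x (by simpa using hx)
  obtain ⟨ρ, hρ, hcons, hρK, hρ0, hρid⟩ :=
    moser_family hΨ (isCompact_closedBall (0 : Phase N) R) hKout hadm
  have hHCF : CF (fun (q : T × I) x => Ψ q.1 (ρ q x)) := (hΨ.base continuous_fst).comp hρ
  have hHK : ∀ (q : T × I) x, R < ‖x‖ → Ψ q.1 (ρ q x) = x := by
    intro q x hx
    rw [hρK x (by simpa using hx), hΨK q.1 x hx]
  have hs1 : ∀ (t : T) (x u v : Phase N),
      omegaStd (fderiv ℝ (fun x => Ψ t (ρ (t, 1) x)) x u)
        (fderiv ℝ (fun x => Ψ t (ρ (t, 1) x)) x v) = omegaStd u v := by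
    intro t x u v
    rw [fderiv_comp_family hΨ hρ t 1 x]
    have := hcons t 1 x u v
    simp only [Icc.coe_one, sub_self, zero_mul, one_mul, zero_add] at this
    exact this
  set φ : T → SympCt N := fun t => mkSymp (fun x => Ψ t (ρ (t, 1) x)) (hHCF.contDiff (t, 1))
    ⟨Metric.closedBall 0 R, isCompact_closedBall 0 R, fun x hx => hHK (t, 1) x (by simpa using hx)⟩
    (hs1 t) with hφ
  have hφc : Continuous φ := continuous_of_CF (hHCF.base (h := fun t : T => (t, (1 : I)))
    (continuous_id.prodMk continuous_const)) ⟨Metric.closedBall 0 R, isCompact_closedBall 0 R⟩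
    (fun t x hx => hHK (t, 1) x (by
      have hx' : x ∉ Metric.closedBall (0 : Phase N) R := hx
      simpa using hx')) (fun t x => rfl)
  refine ⟨⟨φ, hφc⟩, ?_, ?_⟩
  · intro t ht
    apply SympCt.ext'
    intro x
    change Ψ t (ρ (t, 1) x) = x
    rw [hρid t ht 1 x, ht]
  · intro S _ c g S0 hg hS0
    have hsym : ∀ (r : I × S) (x u v : Phase N),
        omegaStd (fderiv ℝ (fun x => Ψ (c r.2) (ρ (c r.2, r.1) x)) x u)
          (fderiv ℝ (fun x => Ψ (c r.2) (ρ (c r.2, r.1) x)) x v) = omegaStd u v := by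
      intro r x u v
      have e1 : Ψ (c r.2) = (g r.2 : Equiv.Perm (Phase N)) := funext fun y => (hg r.2 y).symm
      have hΨs : ∀ y a b, omegaStd (fderiv ℝ (Ψ (c r.2)) y a) (fderiv ℝ (Ψ (c r.2)) y b) =
          omegaStd a b := by
        intro y a b
        rw [e1]
        exact (g r.2).2.2.2.1 y a b
      rw [fderiv_comp_family hΨ hρ (c r.2) r.1 x]
      have h2 := hcons (c r.2) r.1 x u v
      rw [hΨs] at h2
      simp only [ContinuousLinearMap.comp_apply]
      rw [hΨs]
      linear_combination h2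
    have hbase : Continuous (fun r : I × S => (c r.2, r.1)) :=
      (c.continuous.comp continuous_snd).prodMk continuous_fst
    have hCF2 : CF (fun (r : I × S) x => Ψ (c r.2) (ρ (c r.2, r.1) x)) := hHCF.base hbase
    have hout2 : ∀ (r : I × S) x, R < ‖x‖ → Ψ (c r.2) (ρ (c r.2, r.1) x) = x := fun r x hx =>
      hHK (c r.2, r.1) x hx
    set H : I × S → SympCt N := fun r => mkSymp (fun x => Ψ (c r.2) (ρ (c r.2, r.1) x))
      (hCF2.contDiff r) ⟨Metric.closedBall 0 R, isCompact_closedBall 0 R,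
        fun x hx => hout2 r x (by simpa using hx)⟩ (hsym r) with hH
    have hHa : ∀ r x, (H r : Equiv.Perm (Phase N)) x = Ψ (c r.2) (ρ (c r.2, r.1) x) :=
      fun r x => rfl
    have hHc : Continuous H := continuous_of_CF hCF2
      ⟨Metric.closedBall 0 R, isCompact_closedBall 0 R⟩ (fun r x hx => hout2 r x (by
        have hx' : x ∉ Metric.closedBall (0 : Phase N) R := hx
        simpa using hx')) hHa
    exact ⟨{
      toFun := H
      continuous_toFun := hHc
      map_zero_left := fun s => by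
        apply SympCt.ext'
        intro x
        rw [hHa]
        have h1 : ρ (c s, 0) x = x := hρ0 (c s) x
        simp only [h1]
        exact (hg s x).symm
      map_one_left := fun s => by
        apply SympCt.ext'
        intro x
        rfl
      prop' := fun r s hs => by
        apply SympCt.ext'
        intro x
        change Ψ (c s) (ρ (c s, r) x) = _
        have h1 : ∀ y, Ψ (c s) y = y := fun y => by
          rw [← hg s y, hS0 s hs]; rfl
        rw [hρid (c s) h1 r x, hg s x] }⟩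

/-- A family of symplectomorphisms whose pair of first coordinate functions is joined to the
standard one by a path of pairs with null-homotopic scattering is null-homotopic. -/
theorem nullhomotopic_of_scat {T0 : Set T} (f : C(T, SympCt (n + 1))) (hf : ∀ t ∈ T0, f t = 1)
    {R : ℝ} (hR : 0 ≤ R) {F G : T × I → Phase (n + 1) → ℝ} (hFG : PosPair 0 R F G)
    (h0 : ∀ t p, F (t, 0) p = p (Sum.inl 0))
    (h1 : ∀ t p, F (t, 1) p = ((f t : Equiv.Perm (Phase (n + 1))) p) (Sum.inl 0))
    (hT0 : ∀ t ∈ T0, ∀ s p, F (t, s) p = p (Sum.inl 0))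
    {e : C((T × I) × I, SympCt n)} (he : IsScat F e)
    (hnull : e.HomotopicRel (ContinuousMap.const _ 1)
      {q | (q.1.1 ∈ T0 ∨ q.1.2 = 0 ∨ q.1.2 = 1) ∨ q.2 = 0 ∨ q.2 = 1}) :
    f.HomotopicRel (ContinuousMap.const _ 1) T0 := by
  obtain ⟨-, K, hK⟩ := CF_of_continuous f.continuous
  obtain ⟨ρf, hρf⟩ := K.isCompact.isBounded.subset_closedBall (0 : Phase (n + 1))
  set R₁ := max R |ρf| with hR₁
  have hR₁0 : 0 ≤ R₁ := hR.trans (le_max_left _ _)
  have hFG1 : PosPair 0 R₁ F G := hFG.mono (le_max_left _ _)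
  obtain ⟨Φ, Ψ, h⟩ := exists_straightFam hR₁0 hFG1
  have hfout : ∀ t (p : Phase (n + 1)), R₁ < ‖p‖ → (f t : Equiv.Perm (Phase (n + 1))) p = p := by
    intro t p hp
    apply hK t p
    intro hmem
    have h2 := hρf hmem
    rw [mem_closedBall_zero_iff] at h2
    have h3 : |ρf| ≤ R₁ := le_max_right _ _
    linarith [le_abs_self ρf]
  set T1 : Set (T × I) := {q | q.1 ∈ T0 ∨ q.2 = 0 ∨ q.2 = 1} with hT1
  have hid0 : ∀ q : T × I, (q.1 ∈ T0 ∨ q.2 = 0) → ∀ p, Φ q p = p := by
    intro q hq p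
    apply h.eq_id q
    intro p
    obtain ⟨t, s⟩ := q
    rcases hq with hq | hq
    · exact hT0 t hq s p
    · have hq' : s = 0 := hq
      rw [hq']
      exact h0 t p
  have hid1 : ∀ t p, Φ (t, 1) p = (f t : Equiv.Perm (Phase (n + 1))) p := fun t p =>
    h.eq_of (t, 1) (f t) (h1 t) p
  have hmk : ∀ (q : ℝ × Phase n), R₁ < ‖(mkP q.1 (R₁ + 1) q.2 : Phase (n + 1))‖ := by
    intro q
    have h2 := abs_coord_le (mkP q.1 (R₁ + 1) q.2 : Phase (n + 1)) (Sum.inr 0)
    rw [mkP_y] at h2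
    linarith [le_abs_self (R₁ + 1)]
  have htriv : ∀ q ∈ T1, ∀ r : ℝ × Phase n, Φ q (mkP r.1 (R₁ + 1) r.2) =
      mkP r.1 (R₁ + 1) r.2 := by
    rintro ⟨t, s⟩ hq r
    rcases hq with hq | hq | hq
    · exact hid0 _ (Or.inl hq) _
    · exact hid0 _ (Or.inr hq) _
    · have hq' : s = 1 := hq
      rw [hq', hid1]
      exact hfout t _ (hmk r)
  have hT1' : ∀ q ∈ T1, ∀ r, endW Φ R₁ q r = r.2 ∧ endH Φ R₁ q r = 0 := by
    intro q hq r
    constructor
    · rw [endW, htriv q hq, wL_mkP]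
    · rw [endH, htriv q hq, mkP_y, sub_self]
  obtain ⟨ρ, hρ, hρs, hee⟩ := he.eq_end h hR₁0 hFG1.fstd
  have ee : e = scatE h hFG1.fstd ρ := by
    ext1 q
    apply SympCt.ext'
    intro w
    exact hee q.1 q.2 w
  have hsc := scatE_homotopic h hFG1.fstd (by linarith : 0 < R₁ + 1) hρ
    (fun t p hp => hFG1.fstd t p (by linarith)) hρs (T1 := T1) (fun q hq r => (hT1' q hq r).1)
  rw [ee] at hnull
  obtain ⟨Λ, R', Fm, hΛ1, hR', hFCF, hFout, hFT, hFx, hadm, hpos⟩ :=
    h.exists_cap hR₁0 hFG1.fstd hT1' (hsc.trans hnull)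
  have hΛ0 : Λ ≠ 0 := by linarith
  obtain ⟨φ, hφ1, hφ⟩ := moser_iso hFCF hFout hadm
  obtain ⟨g, hg, hfg⟩ := exists_scl_conj f hΛ1 hf
  have hFid : ∀ q : T × I, (q.1 ∈ T0 ∨ q.2 = 0) → ∀ p, Fm q p = p := by
    intro q hq p
    have hq1 : q ∈ T1 := by
      rcases hq with hq | hq
      · exact Or.inl hq
      · exact Or.inr (Or.inl hq)
    rw [hFT q hq1, sclPhi, hid0 q hq, sclL_inv hΛ0]
  have hgF : ∀ t p, (g t : Equiv.Perm (Phase (n + 1))) p = Fm (t, 1) p := by
    intro t p
    rw [hg, hFT (t, 1) (Or.inr (Or.inr rfl)), sclPhi, hid1]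
  have hg1 : ∀ t ∈ T0, g t = 1 := by
    intro t ht
    apply SympCt.ext'
    intro p
    rw [hgF, hFid (t, 1) (Or.inl ht)]
    rfl
  set c1 : C(T, T × I) := ⟨fun t => (t, 1), continuous_id.prodMk continuous_const⟩ with hc1
  have hhom2 : g.HomotopicRel (φ.comp c1) T0 := hφ T c1 g T0 hgF hg1
  have hhom3 : (φ.comp c1).HomotopicRel (ContinuousMap.const _ 1) T0 := by
    refine ⟨{
      toFun := fun r => φ (r.2, σ r.1)
      continuous_toFun := φ.continuous.comp (continuous_snd.prodMk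
        (unitInterval.continuous_symm.comp continuous_fst))
      map_zero_left := fun t => by
        simp only [unitInterval.symm_zero]
        rfl
      map_one_left := fun t => by
        simp only [unitInterval.symm_one]
        exact hφ1 (t, 0) (hFid (t, 0) (Or.inr rfl))
      prop' := fun r t ht => by
        change φ (t, σ r) = φ (t, 1)
        rw [hφ1 (t, σ r) (hFid _ (Or.inl ht)), hφ1 (t, 1) (hFid _ (Or.inl ht))] }⟩
  exact (hfg.trans hhom2).trans hhom3

end Pool.Agent.H50.Susp
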