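import Mathlib
import Pool.Agent.H50.Susp.Exact1
import Pool.Agent.Helper42.Susp.CFInverse
import Pool.Agent.Helper42.Susp.Red

set_option maxSynthPendingDepth 3

open scoped ContDiff Topology NNReal unitInterval
open Set Function Filter MeasureTheory

namespace Pool.Agent.H50.Susp

open Pool.Agent.Helper17 Pool.Agent.Helper42

lemma homotopicRel_precomp {X Y Z : Type} [TopologicalSpace X] [TopologicalSpace Y]
    [TopologicalSpace Z] {f g : C(Y, Z)} {S : Set Y} (h : f.HomotopicRel g S) (c : C(X, Y)) :
    (f.comp c).HomotopicRel (g.comp c) (c ⁻¹' S) := by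
  obtain ⟨H⟩ := h
  exact ⟨{
    toFun := fun r => H (r.1, c r.2)
    continuous_toFun := H.continuous.comp (continuous_fst.prodMk (c.continuous.comp continuous_snd))
    map_zero_left := fun x => H.map_zero_left _
    map_one_left := fun x => H.map_one_left _
    prop' := fun r x hx => H.prop' r (c x) hx }⟩

variable {n : ℕ} {T : Type} [TopologicalSpace T] [CompactSpace T]

/-- The segment from the coordinate `x` to the first coordinate function of a family. -/
noncomputable def segF (f : C(T, SympCt (n + 1))) (q : T × I) (p : Phase (n + 1)) : ℝ :=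
  p (Sum.inl 0) + (q.2 : ℝ) * (((f q.1 : Equiv.Perm (Phase (n + 1))) p) (Sum.inl 0) -
    p (Sum.inl 0))

/-- The interchange of the two coordinates of the square. -/
def swp (T : Type) [TopologicalSpace T] : C(T × (I × I), (T × I) × I) :=
  ⟨fun q => ((q.1, q.2.2), q.2.1), by fun_prop⟩

lemma exists_radius (f : C(T, SympCt (n + 1))) : ∃ ρ : ℝ, 0 ≤ ρ ∧ ∀ t (p : Phase (n + 1)),
    ρ < ‖p‖ → (f t : Equiv.Perm (Phase (n + 1))) p = p := by
  obtain ⟨-, K, hK⟩ := CF_of_continuous f.continuous
  obtain ⟨ρ, hρ⟩ := K.isCompact.isBounded.subset_closedBall (0 : Phase (n + 1))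
  refine ⟨|ρ|, abs_nonneg _, fun t p hp => hK t p fun hmem => ?_⟩
  have := hρ hmem
  rw [mem_closedBall_zero_iff] at this
  linarith [le_abs_self ρ]

lemma segF_deriv (f : C(T, SympCt (n + 1)))
    (hpos : ∀ t p, 0 < fderiv ℝ (fun q => ((f t : Equiv.Perm (Phase (n + 1))) q) (Sum.inl 0)) p
      (eX 0)) (q : T × I) (p : Phase (n + 1)) : 0 < fderiv ℝ (segF f q) p (eX 0) := by
  have hd : DifferentiableAt ℝ (fun p => ((f q.1 : Equiv.Perm (Phase (n + 1))) p) (Sum.inl 0)) p :=
    (coordL (Sum.inl 0)).differentiableAt.comp p (SympCt.differentiable (f q.1) p)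
  have h1 : HasFDerivAt (segF f q) (coordL (Sum.inl 0) + (q.2 : ℝ) •
      (fderiv ℝ (fun p => ((f q.1 : Equiv.Perm (Phase (n + 1))) p) (Sum.inl 0)) p -
        coordL (Sum.inl 0))) p :=
    (coordL (Sum.inl 0)).hasFDerivAt.add
      ((hd.hasFDerivAt.sub (coordL (Sum.inl 0)).hasFDerivAt).const_mul (q.2 : ℝ))
  rw [h1.fderiv]
  have h2 := hpos q.1 p
  have h3 : coordL (Sum.inl 0) (eX 0 : Phase (n + 1)) = 1 := by simp [coordL_apply, eX]
  simp only [add_apply, smul_apply, sub_apply, smul_eq_mul, h3]
  set d := fderiv ℝ (fun p => ((f q.1 : Equiv.Perm (Phase (n + 1))) p) (Sum.inl 0)) p (eX 0)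
  have q0 := q.2.2.1
  have q1 := q.2.2.2
  rcases q0.eq_or_lt with hc | hc
  · rw [← hc]; simp
  · have := mul_pos hc h2
    nlinarith

lemma CF_segF (f : C(T, SympCt (n + 1))) : CF (segF f) := by
  obtain ⟨hf, -⟩ := CF_of_continuous f.continuous
  have h1 : CF (fun (_ : T × I) (p : Phase (n + 1)) => p (Sum.inl 0)) :=
    CF.const (coordL (Sum.inl 0)).contDiff
  have h2 : CF (fun (q : T × I) (p : Phase (n + 1)) =>
      ((f q.1 : Equiv.Perm (Phase (n + 1))) p) (Sum.inl 0)) :=
    (hf.base continuous_fst).clm (coordL (Sum.inl 0))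
  have h3 : CF (fun (q : T × I) (_ : Phase (n + 1)) => (q.2 : ℝ)) :=
    CF.param (continuous_subtype_val.comp continuous_snd)
  exact h1.add (h3.smul (h2.sub h1))

/-- The segment is a path of pairs. -/
lemma posPair_segF (f : C(T, SympCt (n + 1)))
    (hpos : ∀ t p, 0 < fderiv ℝ (fun q => ((f t : Equiv.Perm (Phase (n + 1))) q) (Sum.inl 0)) p
      (eX 0)) {R : ℝ} (hR : ∀ t (p : Phase (n + 1)), R < ‖p‖ →
        (f t : Equiv.Perm (Phase (n + 1))) p = p) :
    PosPair 0 R (segF f) (fun _ p => p (Sum.inr 0)) where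
  cf := CF_segF f
  cg := CF.const (coordL (Sum.inr 0)).contDiff
  fstd q p hp := by
    simp only [segF, hR q.1 p hp, sub_self, mul_zero, add_zero]
  gstd _ p _ := rfl
  pos q p := by
    have h1 : fderiv ℝ (fun p : Phase (n + 1) => p (Sum.inr 0)) p = coordL (Sum.inr 0) :=
      (coordL (Sum.inr 0)).fderiv
    rw [h1, coordL_apply, hamV_inr]
    exact segF_deriv f hpos q p

/-- The scattering of the segment from `x` to `x ∘ f` is homotopic to the reduction of `f`. -/
theorem scat_of_pos {T0 : Set T} (f : C(T, SympCt (n + 1))) (hf : ∀ t ∈ T0, f t = 1)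
    (hpos : ∀ t p, 0 < fderiv ℝ (fun q => ((f t : Equiv.Perm (Phase (n + 1))) q) (Sum.inl 0)) p
      (eX 0)) {Rh : ℝ} {h : C(T × (I × I), SympCt n)} (hred : IsRed Rh (fun t => f t) h)
    {e : C((T × I) × I, SympCt n)} (he : IsScat (segF f) e) :
    (e.comp (swp T)).HomotopicRel h {q | q.1 ∈ T0 ∨ q.2 ∈ sqBd} := by
  obtain ⟨R, hR, hfR⟩ := exists_radius f
  have hPP := posPair_segF f hpos hfR
  obtain ⟨Φ, Ψ, hS⟩ := exists_straightFam hR hPP
  have hstd := hPP.fstd
  -- trivial members
  have hFid : ∀ q : T × I, (q.1 ∈ T0 ∨ q.2 = 0) → ∀ p, segF f q p = p (Sum.inl 0) := by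
    intro q hq p
    rcases hq with hq | hq
    · simp only [segF, hf q.1 hq]
      change p (Sum.inl 0) + (q.2 : ℝ) * (p (Sum.inl 0) - p (Sum.inl 0)) = _
      rw [sub_self, mul_zero, add_zero]
    · simp only [segF, hq, Icc.coe_zero, zero_mul, add_zero]
  have hid0 : ∀ q : T × I, (q.1 ∈ T0 ∨ q.2 = 0) → ∀ p, Φ q p = p := fun q hq p =>
    hS.eq_id q (hFid q hq) p
  have hF1 : ∀ t p, segF f (t, 1) p = ((f t : Equiv.Perm (Phase (n + 1))) p) (Sum.inl 0) := by
    intro t p
    simp only [segF, Icc.coe_one, one_mul, add_sub_cancel]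
  have hid1 : ∀ t p, Φ (t, 1) p = (f t : Equiv.Perm (Phase (n + 1))) p := fun t p =>
    hS.eq_of (t, 1) (f t) (hF1 t) p
  -- the mixed coordinates
  set Qm : T × I → Phase (n + 1) → Phase (n + 1) := fun q p =>
    mkP (segF f q p) (p (Sum.inr 0)) (wL n p) with hQm
  have hQmCF : CF Qm := CF.mkP (CF_segF f) (CF.const (coordL (Sum.inr 0)).contDiff)
    (CF.const (wL n).contDiff)
  have hQmout : ∀ q, ∀ p ∉ Metric.closedBall (0 : Phase (n + 1)) R, Qm q p = p := by
    intro q p hp
    have hp' : R < ‖p‖ := by simpa using hp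
    simp only [hQm, hstd q p hp']
    exact mkP_eta p
  have hQminj : ∀ q p, Injective (fderiv ℝ (Qm q) p) := by
    intro q p
    have d1 : HasFDerivAt (segF f q) (fderiv ℝ (segF f q) p) p :=
      ((CF_segF f).differentiable q p).hasFDerivAt
    have d4 : HasFDerivAt (fun p : Phase (n + 1) => ((segF f q p, p (Sum.inr 0), wL n p) :
        ℝ × ℝ × Phase n)) ((fderiv ℝ (segF f q) p).prod ((coordL (Sum.inr 0)).prod (wL n))) p :=
      d1.prodMk ((coordL (Sum.inr 0)).hasFDerivAt.prodMk (wL n).hasFDerivAt)
    have d5 : HasFDerivAt (Qm q) ((mkPL n).comp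
        ((fderiv ℝ (segF f q) p).prod ((coordL (Sum.inr 0)).prod (wL n)))) p :=
      (mkPL n).hasFDerivAt.comp p d4
    rw [injective_iff_map_eq_zero]
    intro X hX
    have hX' : mkP (fderiv ℝ (segF f q) p X) (X (Sum.inr 0)) (wL n X) = 0 := by
      rw [d5.fderiv] at hX
      exact hX
    have hy : X (Sum.inr 0) = 0 := by
      have := congrArg (fun v : Phase (n + 1) => v (Sum.inr 0)) hX'
      simpa using this
    have hw : wL n X = 0 := by
      have := congrArg (wL n) hX'
      simpa using this
    have hx : fderiv ℝ (segF f q) p X = 0 := by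
      have := congrArg (fun v : Phase (n + 1) => v (Sum.inl 0)) hX'
      simpa using this
    have hXe : X = X (Sum.inl 0) • eX 0 := by
      apply ext_xyw
      · simp [eX]
      · rw [hy]; simp [eX]
      · rw [hw, map_smul, wL_eX, smul_zero]
    rw [hXe, map_smul, smul_eq_mul] at hx
    have hx0 : X (Sum.inl 0) = 0 := by
      rcases mul_eq_zero.1 hx with h | h
      · exact h
      · exact absurd h (segF_deriv f hpos q p).ne'
    rw [hXe, hx0, zero_smul]
  obtain ⟨Q, hQCF, hQQ, hQQ', hQout⟩ :=
    exists_CF_inverse hQmCF (isCompact_closedBall (0 : Phase (n + 1)) R) hQmout hQminj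
  have hQout' : ∀ q p, R < ‖p‖ → Q q p = p := fun q p hp => hQout q p (by simpa using hp)
  -- the family of reductions
  set r : (T × I) × (ℝ × ℝ) → Phase n → Phase n := fun s w =>
    wL n (Φ s.1 (Q s.1 (mkP s.2.1 s.2.2 w))) with hr
  have hmkCF : CF (fun (s : (T × I) × (ℝ × ℝ)) (w : Phase n) =>
      (mkP s.2.1 s.2.2 w : Phase (n + 1))) :=
    CF.mkP (CF.param (continuous_fst.comp continuous_snd))
      (CF.param (continuous_snd.comp continuous_snd)) (CF.const contDiff_id)
  have hrCF : CF r := ((hS.cf.base continuous_fst).comp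
    ((hQCF.base continuous_fst).comp hmkCF)).clm (wL n)
  have hnw : ∀ (c y : ℝ) (w : Phase n), ‖w‖ ≤ ‖(mkP c y w : Phase (n + 1))‖ := by
    intro c y w
    have := norm_wL_le (mkP c y w)
    rwa [wL_mkP] at this
  have hnc : ∀ (c y : ℝ) (w : Phase n), |c| ≤ ‖(mkP c y w : Phase (n + 1))‖ := by
    intro c y w
    have := abs_coord_le (mkP c y w) (Sum.inl 0)
    rwa [mkP_x] at this
  have hny : ∀ (c y : ℝ) (w : Phase n), |y| ≤ ‖(mkP c y w : Phase (n + 1))‖ := by
    intro c y w
    have := abs_coord_le (mkP c y w) (Sum.inr 0)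
    rwa [mkP_y] at this
  have hrw : ∀ s w, R < ‖w‖ → r s w = w := by
    intro s w hw
    simp only [hr]
    rw [hQout' _ _ (hw.trans_le (hnw _ _ _)), hS.side, wL_mkP]
    exact hw.trans_le (norm_side_mkP_w _ _ _)
  have hrc : ∀ q (c y : ℝ) w, R < |c| → r (q, (c, y)) w = w := by
    intro q c y w hc
    simp only [hr]
    rw [hQout' _ _ (hc.trans_le (hnc _ _ _)), hS.side, wL_mkP]
    exact hc.trans_le (norm_side_mkP_x _ _ _)
  have hry : ∀ q (c y : ℝ) w, y < -R → r (q, (c, y)) w = w := by
    intro q c y w hy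
    simp only [hr]
    have hy' : R < |y| := by
      rw [lt_abs]; right; linarith
    rw [hQout' _ _ (hy'.trans_le (hny _ _ _)), hS.left, wL_mkP]
    rwa [mkP_y]
  have hrend : ∀ q (c y : ℝ) w, R < y → r (q, (c, y)) w = endW Φ R q (c, w) := by
    intro q c y w hy
    simp only [hr]
    have hy' : R < |y| := hy.trans_le (le_abs_self y)
    rw [hQout' _ _ (hy'.trans_le (hny _ _ _)), hS.right_eq hstd q _ hy, wL_mkP]
  have hr0 : ∀ q : T × I, (q.1 ∈ T0 ∨ q.2 = 0) → ∀ (c y : ℝ) w, r (q, (c, y)) w = w := by
    intro q hq c y w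
    simp only [hr]
    have h1 : Qm q (mkP c y w) = mkP c y w := by
      simp only [hQm, hFid q hq, mkP_x, mkP_y, wL_mkP]
    have h2 : Q q (mkP c y w) = mkP c y w := by
      conv_lhs => rw [← h1]
      exact hQQ' q _
    rw [h2, hid0 q hq, wL_mkP]
  have hr1 : ∀ t (c y : ℝ) w, ∃ p : Phase (n + 1),
      ((f t : Equiv.Perm (Phase (n + 1))) p) (Sum.inl 0) = c ∧ p (Sum.inr 0) = y ∧
      wL n p = w ∧ r ((t, 1), (c, y)) w = wL n ((f t : Equiv.Perm (Phase (n + 1))) p) := by
    intro t c y w
    set p := Q (t, 1) (mkP c y w) with hp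
    have h1 : Qm (t, 1) p = mkP c y w := hQQ _ _
    refine ⟨p, ?_, ?_, ?_, ?_⟩
    · have := congrArg (fun v : Phase (n + 1) => v (Sum.inl 0)) h1
      simp only [hQm, mkP_x] at this
      rw [← hF1]; exact this
    · have := congrArg (fun v : Phase (n + 1) => v (Sum.inr 0)) h1
      simpa only [hQm, mkP_y] using this
    · have := congrArg (wL n) h1
      simpa only [hQm, wL_mkP] using this
    · simp only [hr, ← hp, hid1]
  have hr1' : ∀ t (c y : ℝ) w, (f t : Equiv.Perm (Phase (n + 1))) (mkP c y w) = mkP c y w →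
      r ((t, 1), (c, y)) w = w := by
    intro t c y w hcy
    have h1 : Qm (t, 1) (mkP c y w) = mkP c y w := by
      simp only [hQm, hF1, hcy, mkP_x, mkP_y, wL_mkP]
    have h2 : Q (t, 1) (mkP c y w) = mkP c y w := by
      conv_lhs => rw [← h1]
      exact hQQ' (t, 1) _
    simp only [hr, h2, hid1, hcy, wL_mkP]
  have hrsymp : ∀ s w u v, omegaStd (fderiv ℝ (r s) w u) (fderiv ℝ (r s) w v) = omegaStd u v := by
    intro s w u v
    set q := s.1 with hq
    set z := (mkP s.2.1 s.2.2 w : Phase (n + 1)) with hz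
    set B := fderiv ℝ (Q q) z with hB
    set A := fderiv ℝ (Φ q) (Q q z) with hA
    have d1 : HasFDerivAt (fun w : Phase n => Q q (mkP s.2.1 s.2.2 w)) (B.comp (emb n)) w :=
      HasFDerivAt.comp w (hQCF.differentiable q z).hasFDerivAt (hasFDerivAt_mkP_w _ _ w)
    have d2 : HasFDerivAt (fun w : Phase n => Φ q (Q q (mkP s.2.1 s.2.2 w)))
        (A.comp (B.comp (emb n))) w :=
      HasFDerivAt.comp w (hS.cf.differentiable q (Q q z)).hasFDerivAt d1
    have d3 : HasFDerivAt (r s) ((wL n).comp (A.comp (B.comp (emb n)))) w :=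
      (wL n).hasFDerivAt.comp w d2
    -- coordinates of `B (emb u)`
    have hQmB : ∀ w' : Phase n, Qm q (Q q (mkP s.2.1 s.2.2 w')) = mkP s.2.1 s.2.2 w' :=
      fun w' => hQQ q _
    have hx : ∀ u, (A (B (emb n u))) (Sum.inl 0) = 0 := by
      intro u
      have e1 : (fun w' : Phase n => (Φ q (Q q (mkP s.2.1 s.2.2 w'))) (Sum.inl 0)) =
          fun _ => s.2.1 := by
        funext w'
        rw [hS.energy]
        have := congrArg (fun v : Phase (n + 1) => v (Sum.inl 0)) (hQmB w')
        simpa only [hQm, mkP_x] using this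
      have e2 : HasFDerivAt (fun w' : Phase n => (Φ q (Q q (mkP s.2.1 s.2.2 w'))) (Sum.inl 0))
          ((coordL (Sum.inl 0)).comp (A.comp (B.comp (emb n)))) w :=
        (coordL (Sum.inl 0)).hasFDerivAt.comp w d2
      rw [e1] at e2
      have e3 := e2.unique (hasFDerivAt_const s.2.1 w)
      exact congrArg (fun L : Phase n →L[ℝ] ℝ => L u) e3
    have hy : ∀ u, (B (emb n u)) (Sum.inr 0) = 0 := by
      intro u
      have e1 : (fun w' : Phase n => (Q q (mkP s.2.1 s.2.2 w')) (Sum.inr 0)) = fun _ => s.2.2 := by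
        funext w'
        have := congrArg (fun v : Phase (n + 1) => v (Sum.inr 0)) (hQmB w')
        simpa only [hQm, mkP_y] using this
      have e2 : HasFDerivAt (fun w' : Phase n => (Q q (mkP s.2.1 s.2.2 w')) (Sum.inr 0))
          ((coordL (Sum.inr 0)).comp (B.comp (emb n))) w :=
        (coordL (Sum.inr 0)).hasFDerivAt.comp w d1
      rw [e1] at e2
      have e3 := e2.unique (hasFDerivAt_const s.2.2 w)
      exact congrArg (fun L : Phase n →L[ℝ] ℝ => L u) e3
    have hw : ∀ u, wL n (B (emb n u)) = u := by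
      intro u
      have e1 : (fun w' : Phase n => wL n (Q q (mkP s.2.1 s.2.2 w'))) = fun w' => w' := by
        funext w'
        have := congrArg (wL n) (hQmB w')
        simpa only [hQm, wL_mkP] using this
      have e2 : HasFDerivAt (fun w' : Phase n => wL n (Q q (mkP s.2.1 s.2.2 w')))
          ((wL n).comp (B.comp (emb n))) w := (wL n).hasFDerivAt.comp w d1
      rw [e1] at e2
      have e3 := e2.unique (hasFDerivAt_id w)
      exact congrArg (fun L : Phase n →L[ℝ] Phase n => L u) e3
    rw [d3.fderiv]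
    simp only [ContinuousLinearMap.comp_apply]
    have e1 := hS.symp q (Q q z) (B (emb n u)) (B (emb n v))
    rw [← hA, omegaStd_succ (A _), omegaStd_succ (B _), hx, hx, hy, hy, hw, hw] at e1
    linarith
  -- the family in the group
  set rS : (T × I) × (ℝ × ℝ) → SympCt n := fun s => mkSymp (r s) (hrCF.contDiff s)
    ⟨Metric.closedBall 0 R, isCompact_closedBall 0 R, fun w hw => hrw s w (by simpa using hw)⟩
    (hrsymp s) with hrS
  have hrSa : ∀ s w, (rS s : Equiv.Perm (Phase n)) w = r s w := fun s w => rfl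
  have hrSc : Continuous rS := continuous_of_CF hrCF
    ⟨Metric.closedBall 0 R, isCompact_closedBall 0 R⟩ (fun s w hw => hrw s w (by
      have hw' : w ∉ Metric.closedBall (0 : Phase n) R := hw
      simpa using hw')) hrSa
  have hone : ∀ s, (∀ w, r s w = w) → rS s = 1 := fun s hs => by
    apply SympCt.ext'
    intro w
    rw [hrSa, hs w]; rfl
  set ρb : ℝ := R + 1 with hρb
  have hρb0 : 0 < ρb := by linarith
  -- step 1
  set T1 : Set (T × I) := {q | q.1 ∈ T0 ∨ q.2 = 0 ∨ q.2 = 1} with hT1
  have hT1' : ∀ q ∈ T1, ∀ s : ℝ × Phase n, endW Φ R q s = s.2 := by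
    rintro ⟨t, s⟩ hq ⟨c, w⟩
    rcases hq with hq | hq | hq
    · rw [endW, hid0 _ (Or.inl hq), wL_mkP]
    · rw [endW, hid0 _ (Or.inr hq), wL_mkP]
    · have hq' : s = 1 := hq
      rw [hq', endW, hid1, hfR t, wL_mkP]
      refine lt_of_lt_of_le ?_ (hny _ _ _)
      rw [lt_abs]; left; linarith
  obtain ⟨ρ, hρ, hρs, hee⟩ := he.eq_end hS hR hstd
  have ee : e = scatE hS hstd ρ := by
    ext1 q
    apply SympCt.ext'
    intro w
    exact hee q.1 q.2 w
  have s1 := scatE_homotopic hS hstd hρ hρb0 hρs
    (fun t p hp => hstd t p (by linarith)) hT1'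
  rw [← ee] at s1
  have s1' := homotopicRel_precomp s1 (swp T)
  have hset : {q : T × (I × I) | q.1 ∈ T0 ∨ q.2 ∈ sqBd} =
      (swp T) ⁻¹' {q | q.1 ∈ T1 ∨ q.2 = 0 ∨ q.2 = 1} := by
    ext ⟨t, a, b⟩
    simp only [swp, sqBd, hT1, mem_ofPred_eq, mem_preimage, ContinuousMap.coe_mk]
    tauto
  -- step 2
  have s2 : ((scatE hS hstd ρb).comp (swp T)).HomotopicRel
      ⟨fun q : T × (I × I) => rS ((q.1, 1), (lev ρb q.2.1, lev ρb q.2.2)), by
        refine hrSc.comp ((continuous_fst.prodMk continuous_const).prodMk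
          (Continuous.prodMk ?_ ?_))
        · exact continuous_const.mul ((continuous_const.mul (continuous_subtype_val.comp
            (continuous_fst.comp continuous_snd))).sub continuous_const)
        · exact continuous_const.mul ((continuous_const.mul (continuous_subtype_val.comp
            (continuous_snd.comp continuous_snd))).sub continuous_const)⟩
      {q | q.1 ∈ T0 ∨ q.2 ∈ sqBd} := by
    set H : I × (T × (I × I)) → SympCt n := fun u =>
      rS ((u.2.1, σ (σ (hf2 u.1) * σ u.2.2.2)), (lev ρb u.2.2.1,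
        ρb * (1 - 2 * (hf1 u.1 : ℝ) * (1 - (u.2.2.2 : ℝ))))) with hH
    have hHc : Continuous H := by
      refine hrSc.comp (Continuous.prodMk (Continuous.prodMk ?_ ?_) (Continuous.prodMk ?_ ?_))
      · exact continuous_fst.comp continuous_snd
      · refine unitInterval.continuous_symm.comp (Continuous.mul ?_ ?_)
        · exact unitInterval.continuous_symm.comp (continuous_hf2.comp continuous_fst)
        · exact unitInterval.continuous_symm.comp
            (continuous_snd.comp (continuous_snd.comp continuous_snd))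
      · exact continuous_const.mul ((continuous_const.mul (continuous_subtype_val.comp
          (continuous_fst.comp (continuous_snd.comp continuous_snd)))).sub continuous_const)
      · refine continuous_const.mul (continuous_const.sub ((continuous_const.mul ?_).mul
          (continuous_const.sub ?_)))
        · exact continuous_subtype_val.comp (continuous_hf1.comp continuous_fst)
        · exact continuous_subtype_val.comp
            (continuous_snd.comp (continuous_snd.comp continuous_snd))
    have hHbd : ∀ (s : I) (q : T × (I × I)), (q.1 ∈ T0 ∨ q.2 ∈ sqBd) → H (s, q) = 1 := by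
      rintro s ⟨t, a, b⟩ hq
      apply hone
      intro w
      rcases hq with hq | hq | hq | hq | hq
      · exact hr0 _ (Or.inl hq) _ _ w
      · apply hrc
        change R < |lev ρb a|
        rw [abs_lev hρb0.le (Or.inl hq)]; linarith
      · apply hrc
        change R < |lev ρb a|
        rw [abs_lev hρb0.le (Or.inr hq)]; linarith
      · have hb : b = 0 := hq
        rcases hf_cases s with h1 | h1
        · apply hr0
          right
          change σ (σ (hf2 s) * σ b) = 0
          rw [h1, hb]; simp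
        · apply hry
          change ρb * (1 - 2 * (hf1 s : ℝ) * (1 - (b : ℝ))) < -R
          rw [h1, hb]
          simp only [Icc.coe_one, Icc.coe_zero, mul_one, sub_zero]
          linarith
      · have hb : b = 1 := hq
        have e1 : σ (σ (hf2 s) * σ b) = 1 := by rw [hb]; simp
        have e2 : ρb * (1 - 2 * (hf1 s : ℝ) * (1 - (b : ℝ))) = ρb := by
          rw [hb]; simp
        simp only [e1, e2]
        apply hr1'
        apply hfR
        refine lt_of_lt_of_le ?_ (hny _ _ _)
        rw [lt_abs]; left; linarith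
    refine ⟨{
      toFun := H
      continuous_toFun := hHc
      map_zero_left := fun q => ?_
      map_one_left := fun q => ?_
      prop' := fun s q hq => ?_ }⟩
    · apply SympCt.ext'
      intro w
      simp only [hH, hf1_zero, hf2_zero, unitInterval.symm_zero, one_mul, unitInterval.symm_symm,
        Icc.coe_zero, mul_zero, zero_mul, sub_zero, mul_one]
      rw [hrSa, hrend _ _ _ _ (by linarith)]
      rfl
    · simp only [hH, hf1_one, hf2_one, unitInterval.symm_one, zero_mul, unitInterval.symm_zero,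
        Icc.coe_one, mul_one, ContinuousMap.coe_mk]
      congr 3
      rw [lev]; ring
    · change H (s, q) = _
      rw [hHbd s q hq]
      apply SympCt.ext'
      intro w
      change w = endW Φ R (q.1, q.2.2) (lev ρb q.2.1, w)
      have h1 := hHbd 0 q hq
      have h2 := congrArg (fun g : SympCt n => (g : Equiv.Perm (Phase n)) w) h1
      simp only [hH, hf1_zero, hf2_zero, unitInterval.symm_zero, one_mul, unitInterval.symm_symm,
        Icc.coe_zero, mul_zero, zero_mul, sub_zero, mul_one] at h2
      rw [hrSa, hrend _ _ _ _ (by linarith)] at h2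
      exact h2.symm
  -- step 3
  have hRh := hred.pos
  have htriv : ∀ t (c y : ℝ) w, (R < |c| ∨ R < |y| ∨ Rh ≤ |c| ∨ Rh ≤ |y|) →
      r ((t, 1), (c, y)) w = w := by
    intro t c y w hcy
    apply hr1'
    rcases hcy with h1 | h1 | h1 | h1
    · exact hfR t _ (h1.trans_le (hnc _ _ _))
    · exact hfR t _ (h1.trans_le (hny _ _ _))
    · apply hred.supp
      left
      change Rh ≤ |(mkP c y w : Phase (n + 1)) (Sum.inl 0)|
      rwa [mkP_x]
    · apply hred.supp
      right
      change Rh ≤ |(mkP c y w : Phase (n + 1)) (Sum.inr 0)|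
      rwa [mkP_y]
  have hh : ∀ t (z : I × I), h (t, z) = rS ((t, 1), (lev Rh z.1, lev Rh z.2)) := by
    intro t z
    apply SympCt.ext'
    intro w
    obtain ⟨p, p1, p2, p3, p4⟩ := hr1 t (lev Rh z.1) (lev Rh z.2) w
    rw [hrSa, p4]
    have := hred.red t z p p1 p2
    change wL n ((f t : Equiv.Perm (Phase (n + 1))) p) = (h (t, z) : Equiv.Perm (Phase n)) (wL n p)
      at this
    rw [this, p3]
  have s3 : (⟨fun q : T × (I × I) => rS ((q.1, 1), (lev ρb q.2.1, lev ρb q.2.2)), by
        refine hrSc.comp ((continuous_fst.prodMk continuous_const).prodMk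
          (Continuous.prodMk ?_ ?_))
        · exact continuous_const.mul ((continuous_const.mul (continuous_subtype_val.comp
            (continuous_fst.comp continuous_snd))).sub continuous_const)
        · exact continuous_const.mul ((continuous_const.mul (continuous_subtype_val.comp
            (continuous_snd.comp continuous_snd))).sub continuous_const)⟩ :
      C(T × (I × I), SympCt n)).HomotopicRel h {q | q.1 ∈ T0 ∨ q.2 ∈ sqBd} := by
    set l : I → ℝ := fun s => (1 - (s : ℝ)) * ρb + s * Rh with hl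
    have hlc : Continuous l := ((continuous_const.sub continuous_subtype_val).mul
      continuous_const).add (continuous_subtype_val.mul continuous_const)
    have hl0 : ∀ s, 0 ≤ l s := fun s =>
      add_nonneg (mul_nonneg (sub_nonneg.2 s.2.2) hρb0.le) (mul_nonneg s.2.1 hRh.le)
    have hlm : ∀ s, R < l s ∨ Rh ≤ l s := by
      intro s
      rcases le_total ρb Rh with h1 | h1
      · left
        have h2 : (s : ℝ) * ρb ≤ s * Rh := mul_le_mul_of_nonneg_left h1 s.2.1
        simp only [hl]
        linarith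
      · right
        have h2 : (1 - (s : ℝ)) * Rh ≤ (1 - (s : ℝ)) * ρb :=
          mul_le_mul_of_nonneg_left h1 (sub_nonneg.2 s.2.2)
        simp only [hl]
        linarith
    set H : I × (T × (I × I)) → SympCt n := fun u =>
      rS ((u.2.1, 1), (lev (l u.1) u.2.2.1, lev (l u.1) u.2.2.2)) with hH
    have hHc : Continuous H := by
      refine hrSc.comp (Continuous.prodMk (Continuous.prodMk ?_ ?_) (Continuous.prodMk ?_ ?_))
      · exact continuous_fst.comp continuous_snd
      · exact continuous_const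
      · exact (hlc.comp continuous_fst).mul ((continuous_const.mul (continuous_subtype_val.comp
          (continuous_fst.comp (continuous_snd.comp continuous_snd)))).sub continuous_const)
      · exact (hlc.comp continuous_fst).mul ((continuous_const.mul (continuous_subtype_val.comp
          (continuous_snd.comp (continuous_snd.comp continuous_snd)))).sub continuous_const)
    have hHbd : ∀ (s : I) (q : T × (I × I)), (q.1 ∈ T0 ∨ q.2 ∈ sqBd) → H (s, q) = 1 := by
      rintro s ⟨t, a, b⟩ hq
      apply hone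
      intro w
      rcases hq with hq | hq | hq | hq | hq
      · exact hr0 _ (Or.inl hq) _ _ w
      · apply htriv
        rw [show |lev (l s) a| = l s from abs_lev (hl0 s) (Or.inl hq)]
        rcases hlm s with h1 | h1
        · exact Or.inl h1
        · exact Or.inr (Or.inr (Or.inl h1))
      · apply htriv
        rw [show |lev (l s) a| = l s from abs_lev (hl0 s) (Or.inr hq)]
        rcases hlm s with h1 | h1
        · exact Or.inl h1
        · exact Or.inr (Or.inr (Or.inl h1))
      · apply htriv
        rw [show |lev (l s) b| = l s from abs_lev (hl0 s) (Or.inl hq)]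
        rcases hlm s with h1 | h1
        · exact Or.inr (Or.inl h1)
        · exact Or.inr (Or.inr (Or.inr h1))
      · apply htriv
        rw [show |lev (l s) b| = l s from abs_lev (hl0 s) (Or.inr hq)]
        rcases hlm s with h1 | h1
        · exact Or.inr (Or.inl h1)
        · exact Or.inr (Or.inr (Or.inr h1))
    have e0 : ∀ q : T × (I × I), H (0, q) = rS ((q.1, 1), (lev ρb q.2.1, lev ρb q.2.2)) := by
      intro q
      simp only [hH, hl, Icc.coe_zero, sub_zero, one_mul, zero_mul, add_zero]
    refine ⟨{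
      toFun := H
      continuous_toFun := hHc
      map_zero_left := e0
      map_one_left := fun q => ?_
      prop' := fun s q hq => ?_ }⟩
    · obtain ⟨t, z⟩ := q
      rw [hh]
      simp only [hH, hl, Icc.coe_one, sub_self, zero_mul, one_mul, zero_add]
    · change H (s, q) = rS ((q.1, 1), (lev ρb q.2.1, lev ρb q.2.2))
      rw [hHbd s q hq, ← e0, hHbd 0 q hq]
  rw [← hset] at s1'
  exact (s1'.trans s2).trans s3

end Pool.Agent.H50.Susp
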