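import Mathlib
import Pool.Agent.H50.Susp.Corner

set_option maxSynthPendingDepth 3

open scoped ContDiff Topology NNReal unitInterval
open Set Function Filter MeasureTheory

namespace Pool.Agent.H50.Susp

open Pool.Agent.Helper17 Pool.Agent.Helper42

variable {n : ℕ} {T : Type} [TopologicalSpace T] {R : ℝ} {f : T → Phase (n + 1) → ℝ}
  {Φ Ψ : T → Phase (n + 1) → Phase (n + 1)}

/-- The scattering of a single function, with a given radius. -/
def ScatAt (ρ : ℝ) (f : Phase (n + 1) → ℝ) (e : I → SympCt n) : Prop :=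
  (∀ p, ρ ≤ ‖p‖ → f p = p (Sum.inl 0)) ∧
    ∀ c : ℝ → Phase (n + 1), (∀ s, HasDerivAt c (hamV f (c s)) s) →
      ∀ (a b : ℝ) (τ : I), (c a) (Sum.inr 0) ≤ -ρ → ρ ≤ (c b) (Sum.inr 0) →
        (c a) (Sum.inl 0) = lev ρ τ →
          wL n (c a) = (e τ : Equiv.Perm (Phase n)) (wL n (c b))

lemma isScat_iff {f : T → Phase (n + 1) → ℝ} {e : T × I → SympCt n} :
    IsScat f e ↔ ∃ ρ : ℝ, 0 < ρ ∧ ∀ t, ScatAt ρ (f t) (fun τ => e (t, τ)) := by
  constructor
  · rintro ⟨ρ, hρ, h1, h2⟩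
    exact ⟨ρ, hρ, fun t => ⟨h1 t, h2 t⟩⟩
  · rintro ⟨ρ, hρ, h⟩
    exact ⟨ρ, hρ, fun t => (h t).1, fun t => (h t).2⟩

lemma scatAt_scatE (h : StraightFam 0 R f Φ Ψ)
    (hstd : ∀ t p, R < ‖p‖ → f t p = p (Sum.inl 0)) {ρ : ℝ} (hρ : R < ρ) (t : T) :
    ScatAt ρ (f t) (fun τ => scatE h hstd ρ (t, τ)) := by
  refine ⟨fun p hp => hstd t p (by linarith), ?_⟩
  intro c hc a b τ ha hb hx
  rw [scatE_apply]
  have h1 := h.orbit hc a b
  rw [h.left t (c a) (by linarith)] at h1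
  have h2 := h.right_eq hstd t (x := (c b) (Sum.inl 0)) (y := (c b) (Sum.inr 0)) (wL n (c b))
    (by linarith)
  rw [mkP_eta, h1] at h2
  have h3 := congrArg (fun p : Phase (n + 1) => p (Sum.inl 0)) h2
  have h4 := congrArg (wL n) h2
  simp only [mkP_x, PiLp.add_apply, PiLp.smul_apply, eY_inl, smul_zero, add_zero] at h3
  rw [wL_mkP, map_add, map_smul, wL_eY, smul_zero, add_zero] at h4
  rw [h4, ← h3, hx]

lemma scatAt_symp (φ : SympCt (n + 1)) {ρ : ℝ}
    (hφ : ∀ p : Phase (n + 1), ρ ≤ ‖p‖ → (φ : Equiv.Perm (Phase (n + 1))) p = p) :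
    ScatAt ρ (fun p => ((φ : Equiv.Perm (Phase (n + 1))) p) (Sum.inl 0))
      (fun _ => (1 : SympCt n)) := by
  refine ⟨fun p hp => by
    change ((φ : Equiv.Perm (Phase (n + 1))) p) (Sum.inl 0) = _
    rw [hφ p hp], ?_⟩
  intro c hc a b τ ha hb _
  have hd : ∀ s, HasDerivAt (fun s => (φ : Equiv.Perm (Phase (n + 1))) (c s) -
      s • (eY 0 : Phase (n + 1))) 0 s := by
    intro s
    have h1 := (SympCt.differentiable φ (c s)).hasFDerivAt.comp_hasDerivAt s (hc s)
    rw [hamV_symp φ (fun p => rfl)] at h1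
    have h4 : (fderiv ℝ (φ : Equiv.Perm (Phase (n + 1))) (c s)).comp
        (fderiv ℝ (φ : Equiv.Perm (Phase (n + 1))).symm
          ((φ : Equiv.Perm (Phase (n + 1))) (c s))) = ContinuousLinearMap.id ℝ _ := by
      have h5 : HasFDerivAt (fun p => (φ : Equiv.Perm (Phase (n + 1)))
          ((φ : Equiv.Perm (Phase (n + 1))).symm p)) _
          ((φ : Equiv.Perm (Phase (n + 1))) (c s)) :=
        HasFDerivAt.comp _ (SympCt.differentiable φ _).hasFDerivAt
          (((SympCt.contDiff_symm φ).differentiable (by simp) _).hasFDerivAt)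
      simp only [Equiv.apply_symm_apply, Equiv.symm_apply_apply] at h5
      exact h5.unique (hasFDerivAt_id _)
    have h5 := congrArg (fun L : Phase (n + 1) →L[ℝ] Phase (n + 1) => L (eY 0)) h4
    simp only [ContinuousLinearMap.comp_apply, ContinuousLinearMap.id_apply] at h5
    rw [h5] at h1
    have h2 : HasDerivAt (fun s : ℝ => s • (eY 0 : Phase (n + 1))) ((1 : ℝ) • eY 0) s :=
      (hasDerivAt_id s).smul_const _
    have h3 := h1.sub h2
    rwa [one_smul, sub_self] at h3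
  have h1 : (φ : Equiv.Perm (Phase (n + 1))) (c b) - b • (eY 0 : Phase (n + 1)) =
      (φ : Equiv.Perm (Phase (n + 1))) (c a) - a • (eY 0 : Phase (n + 1)) :=
    is_const_of_deriv_eq_zero (f := fun s => (φ : Equiv.Perm (Phase (n + 1))) (c s) -
      s • (eY 0 : Phase (n + 1))) (fun s => (hd s).differentiableAt) (fun s => (hd s).deriv) b a
  have na : ρ ≤ ‖c a‖ := by
    have h2 := abs_coord_le (c a) (Sum.inr 0)
    have h3 := neg_abs_le ((c a) (Sum.inr 0))
    linarith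
  have nb : ρ ≤ ‖c b‖ := by
    have h2 := abs_coord_le (c b) (Sum.inr 0)
    have h3 := le_abs_self ((c b) (Sum.inr 0))
    linarith
  rw [hφ _ na, hφ _ nb] at h1
  have h2 := congrArg (wL n) h1
  simp only [map_sub, map_smul, wL_eY, smul_zero, sub_zero] at h2
  exact h2.symm

end Pool.Agent.H50.Susp
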