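import Mathlib
import Pool.Agent.H50.Susp.ScatAt

set_option maxSynthPendingDepth 3

open scoped ContDiff Topology NNReal unitInterval
open Set Function Filter MeasureTheory

namespace Pool.Agent.H50.Susp

open Pool.Agent.Helper17 Pool.Agent.Helper42

variable {n : ℕ} {T : Type} [TopologicalSpace T] [CompactSpace T]

/-- The loop of pairs: along the segment to `(x ∘ f, y)`, then to `(x ∘ f, y ∘ f)`, then back
through symplectomorphisms. -/
theorem exists_loop {T0 : Set T} (f : C(T, SympCt (n + 1))) (hf : ∀ t ∈ T0, f t = 1)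
    (hpos : ∀ t p, 0 < fderiv ℝ (fun q => ((f t : Equiv.Perm (Phase (n + 1))) q) (Sum.inl 0)) p
      (eX 0)) {Rh : ℝ} {h : C(T × (I × I), SympCt n)} (hred : IsRed Rh (fun t => f t) h)
    (hnull : f.HomotopicRel (ContinuousMap.const _ 1) T0) :
    ∃ (R : ℝ) (F G : T × I → Phase (n + 1) → ℝ) (e : C((T × I) × I, SympCt n)), 0 ≤ R ∧
      PosPair 0 R F G ∧
      (∀ t s, (t ∈ T0 ∨ s = 0 ∨ s = 1) → ∀ p, F (t, s) p = p (Sum.inl 0) ∧
        G (t, s) p = p (Sum.inr 0)) ∧
      IsScat F e ∧ (e.comp (swp T)).HomotopicRel h {q | q.1 ∈ T0 ∨ q.2 ∈ sqBd} := by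
  obtain ⟨H⟩ := hnull
  obtain ⟨hHCF, K, hK⟩ := CF_of_continuous (f := fun r : I × T => H r) H.continuous
  obtain ⟨RH, hRH⟩ := K.isCompact.isBounded.subset_closedBall (0 : Phase (n + 1))
  obtain ⟨Rf, hRf0, hRf⟩ := exists_radius f
  set R := max |RH| Rf with hR
  have hR0 : 0 ≤ R := (abs_nonneg _).trans (le_max_left _ _)
  have hHR : ∀ r (p : Phase (n + 1)), R < ‖p‖ → (H r : Equiv.Perm (Phase (n + 1))) p = p := by
    intro r p hp
    apply hK r p
    intro hmem
    have h1 := hRH hmem
    rw [mem_closedBall_zero_iff] at h1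
    have h2 : |RH| ≤ R := le_max_left _ _
    linarith [le_abs_self RH]
  have hfR : ∀ t (p : Phase (n + 1)), R < ‖p‖ → (f t : Equiv.Perm (Phase (n + 1))) p = p :=
    fun t p hp => hRf t p ((le_max_right _ _).trans_lt hp)
  have hH0 : ∀ t, H (0, t) = f t := fun t => H.map_zero_left t
  have hH1 : ∀ t, H (1, t) = 1 := fun t => H.map_one_left t
  have hHT : ∀ r, ∀ t ∈ T0, H (r, t) = 1 := fun r t ht => (H.prop' r t ht).trans (hf t ht)
  have hPP := posPair_segF f hpos hfR
  obtain ⟨Φ, Ψ, hS⟩ := exists_straightFam hR0 hPP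
  set ρ := R + 1 with hρ
  set e₁ := scatE hS hPP.fstd ρ with he₁
  have hsc1 : ∀ q, ScatAt ρ (segF f q) (fun τ => e₁ (q, τ)) := fun q =>
    scatAt_scatE hS hPP.fstd (by linarith) q
  have hScat1 : IsScat (segF f) e₁ := isScat_iff.2 ⟨ρ, by linarith, hsc1⟩
  have hend := scat_of_pos f hf hpos hred hScat1
  -- the parameters
  set α : I → I := hf1 with hα
  set γ : I → I := fun s => hf1 (hf2 s) with hγ
  set β : I → I := fun s => hf2 (hf2 s) with hβ
  have hαc : Continuous α := continuous_hf1
  have hγc : Continuous γ := continuous_hf1.comp continuous_hf2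
  have hβc : Continuous β := continuous_hf2.comp continuous_hf2
  have hcase : ∀ s, (γ s = 0 ∧ β s = 0) ∨ α s = 1 := by
    intro s
    rcases hf_cases s with h1 | h1
    · left
      simp only [hγ, hβ, h1, hf1_zero, hf2_zero, and_self]
    · exact Or.inr h1
  have hcase2 : ∀ s, β s = 0 ∨ γ s = 1 := fun s => hf_cases (hf2 s)
  set Hs : T × I → SympCt (n + 1) := fun q => H (β q.2, q.1) with hHs
  have hHsCF : CF (fun (q : T × I) p => (Hs q : Equiv.Perm (Phase (n + 1))) p) :=
    hHCF.base (h := fun q : T × I => (β q.2, q.1))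
      ((hβc.comp continuous_snd).prodMk continuous_fst)
  set F : T × I → Phase (n + 1) → ℝ := fun q p => p (Sum.inl 0) + (α q.2 : ℝ) *
    (((Hs q : Equiv.Perm (Phase (n + 1))) p) (Sum.inl 0) - p (Sum.inl 0)) with hF
  set G : T × I → Phase (n + 1) → ℝ := fun q p => p (Sum.inr 0) + (γ q.2 : ℝ) *
    (((Hs q : Equiv.Perm (Phase (n + 1))) p) (Sum.inr 0) - p (Sum.inr 0)) with hG
  have hx : CF (fun (_ : T × I) (p : Phase (n + 1)) => p (Sum.inl 0)) :=
    CF.const (coordL (Sum.inl 0)).contDiff
  have hy : CF (fun (_ : T × I) (p : Phase (n + 1)) => p (Sum.inr 0)) :=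
    CF.const (coordL (Sum.inr 0)).contDiff
  have hFCF : CF F := hx.add ((CF.param (continuous_subtype_val.comp
    (hαc.comp continuous_snd))).smul ((hHsCF.clm (coordL (Sum.inl 0))).sub hx))
  have hGCF : CF G := hy.add ((CF.param (continuous_subtype_val.comp
    (hγc.comp continuous_snd))).smul ((hHsCF.clm (coordL (Sum.inr 0))).sub hy))
  -- the two cases
  have hF1 : ∀ q : T × I, γ q.2 = 0 → β q.2 = 0 → F q = segF f (q.1, α q.2) ∧
      G q = fun p => p (Sum.inr 0) := by
    intro q h1 h2
    constructor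
    · funext p
      simp only [hF, hHs, h2, hH0, segF]
    · funext p
      simp only [hG, h1, Icc.coe_zero, zero_mul, add_zero]
  have hF2 : ∀ q : T × I, α q.2 = 1 → F q =
      fun p => ((Hs q : Equiv.Perm (Phase (n + 1))) p) (Sum.inl 0) := by
    intro q h1
    funext p
    simp only [hF, h1, Icc.coe_one, one_mul, add_sub_cancel]
  have hpair : PosPair 0 R F G := by
    refine ⟨hFCF, hGCF, ?_, ?_, ?_⟩
    · intro q p hp
      simp only [hF, hHs, hHR _ p hp, sub_self, mul_zero, add_zero]
    · intro q p hp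
      simp only [hG, hHs, hHR _ p hp, sub_self, mul_zero, add_zero]
    · intro q p
      rcases hcase q.2 with ⟨h1, h2⟩ | h1
      · rw [(hF1 q h1 h2).1, (hF1 q h1 h2).2]
        exact hPP.pos _ p
      · rw [hF2 q h1]
        set ψ := Hs q with hψ
        have dψ : HasFDerivAt (ψ : Equiv.Perm (Phase (n + 1)))
            (fderiv ℝ (ψ : Equiv.Perm (Phase (n + 1))) p) p :=
          (SympCt.differentiable ψ p).hasFDerivAt
        set A := fderiv ℝ (ψ : Equiv.Perm (Phase (n + 1))) p with hA
        set V := hamV (fun p => ((ψ : Equiv.Perm (Phase (n + 1))) p) (Sum.inl 0)) p with hV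
        have dG : HasFDerivAt (G q) (coordL (Sum.inr 0) + (γ q.2 : ℝ) •
            ((coordL (Sum.inr 0)).comp A - coordL (Sum.inr 0))) p :=
          (coordL (Sum.inr 0)).hasFDerivAt.add
            ((((coordL (Sum.inr 0)).hasFDerivAt.comp p dψ).sub
              (coordL (Sum.inr 0)).hasFDerivAt).const_mul _)
        have hAV : A V = eY 0 := by
          rw [← sub_eq_zero]
          apply eq_zero_of_omegaStd
          intro w'
          obtain ⟨w, rfl⟩ := symp_surjective (A := A) (fun u v => ψ.2.2.2.1 p u v) w'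
          have dx : fderiv ℝ (fun p => ((ψ : Equiv.Perm (Phase (n + 1))) p) (Sum.inl 0)) p =
              (coordL (Sum.inl 0)).comp A := ((coordL (Sum.inl 0)).hasFDerivAt.comp p dψ).fderiv
          have hAs : omegaStd (A V) (A w) = omegaStd V w := ψ.2.2.2.1 p V w
          rw [omegaStd_sub_left, hAs, omegaStd_hamV, omegaStd_eY, dx]
          simp [coordL_apply]
        rw [dG.fderiv]
        simp only [add_apply, smul_apply, sub_apply, ContinuousLinearMap.comp_apply, smul_eq_mul,
          hAV]
        have e1 : coordL (Sum.inr 0) (eY 0 : Phase (n + 1)) = 1 := by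
          rw [coordL_apply]; exact eY_inr 0
        rw [e1]
        have e2 : γ q.2 = 1 ∨ 0 < coordL (Sum.inr 0) V := by
          rcases hcase2 q.2 with h2 | h2
          · right
            have h3 : ψ = f q.1 := by simp only [hψ, hHs, h2, hH0]
            rw [coordL_apply, hV, hamV_inr, h3]
            exact hpos q.1 p
          · exact Or.inl h2
        have g0 := (γ q.2).2.1
        have g1 := (γ q.2).2.2
        rcases e2 with h2 | h2
        · rw [h2]
          simp
        · rcases g0.eq_or_lt with h3 | h3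
          · rw [← h3]; simpa using h2
          · nlinarith
  have hstdF : ∀ t s, (t ∈ T0 ∨ s = 0 ∨ s = 1) → ∀ p, F (t, s) p = p (Sum.inl 0) ∧
      G (t, s) p = p (Sum.inr 0) := by
    intro t s hts p
    rcases hts with ht | hs | hs
    · simp only [hF, hG, hHs, hHT _ t ht]
      constructor
      · change p (Sum.inl 0) + _ * (p (Sum.inl 0) - p (Sum.inl 0)) = _
        rw [sub_self, mul_zero, add_zero]
      · change p (Sum.inr 0) + _ * (p (Sum.inr 0) - p (Sum.inr 0)) = _
        rw [sub_self, mul_zero, add_zero]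
    · simp only [hF, hG, hs, hα, hγ, hf1_zero, hf2_zero, Icc.coe_zero, zero_mul, add_zero,
        and_self]
    · simp only [hF, hG, hHs, hβ, hs, hf2_one, hH1]
      constructor
      · change p (Sum.inl 0) + _ * (p (Sum.inl 0) - p (Sum.inl 0)) = _
        rw [sub_self, mul_zero, add_zero]
      · change p (Sum.inr 0) + _ * (p (Sum.inr 0) - p (Sum.inr 0)) = _
        rw [sub_self, mul_zero, add_zero]
  -- the scattering
  have he11 : ∀ t τ, e₁ ((t, 1), τ) = 1 := by
    intro t τ
    apply SympCt.ext'
    intro w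
    rw [he₁, scatE_apply, endW, hS.eq_of (t, 1) (f t) (fun p => by
      simp only [segF, Icc.coe_one, one_mul, add_sub_cancel]), hfR, wL_mkP]
    · rfl
    · have h1 := abs_coord_le (mkP (lev ρ τ) (R + 1) w : Phase (n + 1)) (Sum.inr 0)
      rw [mkP_y] at h1
      linarith [le_abs_self (R + 1)]
  set c : C((T × I) × I, (T × I) × I) := ⟨fun q => ((q.1.1, α q.1.2), q.2), by
    exact ((continuous_fst.comp continuous_fst).prodMk
      (hαc.comp (continuous_snd.comp continuous_fst))).prodMk continuous_snd⟩ with hc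
  refine ⟨R, F, G, e₁.comp c, hR0, hpair, hstdF, ?_, ?_⟩
  · refine isScat_iff.2 ⟨ρ, by linarith, fun q => ?_⟩
    rcases hcase q.2 with ⟨h1, h2⟩ | h1
    · rw [(hF1 q h1 h2).1]
      exact hsc1 (q.1, α q.2)
    · rw [hF2 q h1]
      have h2 : (fun τ => (e₁.comp c) (q, τ)) = fun _ => (1 : SympCt n) := by
        funext τ
        change e₁ ((q.1, α q.2), τ) = 1
        rw [h1, he11]
      rw [h2]
      exact scatAt_symp (Hs q) (fun p hp => hHR _ p (by linarith))
  · refine ContinuousMap.HomotopicRel.trans ?_ hend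
    -- reparametrisation
    have hbd : ∀ (t : T) (s τ : I), (t ∈ T0 ∨ τ = 0 ∨ τ = 1 ∨ s = 0 ∨ s = 1) →
        e₁ ((t, s), τ) = 1 := by
      intro t s τ hq
      rcases hq with hq | hq | hq | hq | hq
      · have h1 := (hend.fst_eq_snd (x := (t, (τ, s))) (Or.inl hq))
        have h2 : h (t, (τ, s)) = 1 := hred.eq_one_of_eq_one (hf t hq) _
        rw [h2] at h1
        exact h1
      · have h1 := (hend.fst_eq_snd (x := (t, (τ, s))) (Or.inr (Or.inl hq)))
        have h2 : h (t, (τ, s)) = 1 := hred.eq_one_of_bd t (Or.inl hq)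
        rw [h2] at h1
        exact h1
      · have h1 := (hend.fst_eq_snd (x := (t, (τ, s))) (Or.inr (Or.inr (Or.inl hq))))
        have h2 : h (t, (τ, s)) = 1 := hred.eq_one_of_bd t (Or.inr (Or.inl hq))
        rw [h2] at h1
        exact h1
      · have h1 := (hend.fst_eq_snd (x := (t, (τ, s))) (Or.inr (Or.inr (Or.inr (Or.inl hq)))))
        have h2 : h (t, (τ, s)) = 1 := hred.eq_one_of_bd t (Or.inr (Or.inr (Or.inl hq)))
        rw [h2] at h1
        exact h1
      · rw [hq, he11]
    set m : I → I → I := fun r s => ⟨(1 - (r : ℝ)) * (α s : ℝ) + r * s, by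
      have a0 := (α s).2.1
      have a1 := (α s).2.2
      have r0 := r.2.1
      have r1 := r.2.2
      have s0 := s.2.1
      have s1 := s.2.2
      constructor
      · exact add_nonneg (mul_nonneg (sub_nonneg.2 r1) a0) (mul_nonneg r0 s0)
      · nlinarith⟩ with hm
    have hmc : Continuous (fun q : I × I => m q.1 q.2) := by
      apply Continuous.subtype_mk
      exact ((continuous_const.sub (continuous_subtype_val.comp continuous_fst)).mul
        (continuous_subtype_val.comp (hαc.comp continuous_snd))).add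
        ((continuous_subtype_val.comp continuous_fst).mul
          (continuous_subtype_val.comp continuous_snd))
    refine ⟨{
      toFun := fun u => e₁ ((u.2.1, m u.1 u.2.2.2), u.2.2.1)
      continuous_toFun := ?_
      map_zero_left := fun q => ?_
      map_one_left := fun q => ?_
      prop' := fun r q hq => ?_ }⟩
    · refine e₁.continuous.comp (Continuous.prodMk (Continuous.prodMk ?_ ?_) ?_)
      · exact continuous_fst.comp continuous_snd
      · exact hmc.comp (continuous_fst.prodMk
          (continuous_snd.comp (continuous_snd.comp continuous_snd)))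
      · exact continuous_fst.comp (continuous_snd.comp continuous_snd)
    · have h1 : m 0 q.2.2 = α q.2.2 := by
        apply Subtype.ext
        simp [hm]
      simp only [h1]
      rfl
    · have h1 : m 1 q.2.2 = q.2.2 := by
        apply Subtype.ext
        simp [hm]
      simp only [h1]
      rfl
    · obtain ⟨t, a, b⟩ := q
      change e₁ ((t, m r b), a) = e₁ ((t, α b), a)
      have hm0 : b = 0 → m r b = 0 ∧ α b = 0 := by
        intro hb
        subst hb
        have h1 : α 0 = 0 := by rw [hα]; exact hf1_zero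
        refine ⟨?_, h1⟩
        apply Subtype.ext
        simp only [hm, h1, Icc.coe_zero, mul_zero, add_zero]
      have hm1 : b = 1 → m r b = 1 ∧ α b = 1 := by
        intro hb
        subst hb
        have h1 : α 1 = 1 := by rw [hα]; exact hf1_one
        refine ⟨?_, h1⟩
        apply Subtype.ext
        simp only [hm, h1, Icc.coe_one, mul_one, sub_add_cancel]
      rcases hq with hq | hq | hq | hq | hq
      · rw [hbd _ _ _ (Or.inl hq), hbd _ _ _ (Or.inl hq)]
      · rw [hbd _ _ _ (Or.inr (Or.inl hq)), hbd _ _ _ (Or.inr (Or.inl hq))]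
      · rw [hbd _ _ _ (Or.inr (Or.inr (Or.inl hq))), hbd _ _ _ (Or.inr (Or.inr (Or.inl hq)))]
      · obtain ⟨h1, h2⟩ := hm0 hq
        rw [h1, h2]
      · obtain ⟨h1, h2⟩ := hm1 hq
        rw [h1, h2]

end Pool.Agent.H50.Susp
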