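import Mathlib
import Pool.Agent.H50.Susp.Loop
import Pool.Agent.Helper42.Susp.GroupOps

set_option maxSynthPendingDepth 3

open scoped ContDiff Topology NNReal unitInterval
open Set Function Filter MeasureTheory

namespace Pool.Agent.H50.Susp

open Pool.Agent.Helper17 Pool.Agent.Helper42

variable {n : ℕ} {T : Type} [TopologicalSpace T] [CompactSpace T]

/-- The interchange of the two coordinates of the square, in the other direction. -/
def swp' (T : Type) [TopologicalSpace T] : C((T × I) × I, T × (I × I)) :=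
  ⟨fun q => (q.1.1, (q.2, q.1.2)), by fun_prop⟩

/-- If the scattering of a loop of pairs is homotopic to the reduction of `f`, then `f` is
null-homotopic. -/
theorem nullhomotopic_of_loop {T0 : Set T} (f : C(T, SympCt (n + 1))) (hf : ∀ t ∈ T0, f t = 1)
    (hpos : ∀ t p, 0 < fderiv ℝ (fun q => ((f t : Equiv.Perm (Phase (n + 1))) q) (Sum.inl 0)) p
      (eX 0)) {Rh : ℝ} {h : C(T × (I × I), SympCt n)} (hred : IsRed Rh (fun t => f t) h)
    {R₀ : ℝ} (hR₀ : 0 ≤ R₀) {F G : T × I → Phase (n + 1) → ℝ} (hFG : PosPair 0 R₀ F G)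
    (hstd : ∀ t s, (t ∈ T0 ∨ s = 0 ∨ s = 1) → ∀ p, F (t, s) p = p (Sum.inl 0) ∧
        G (t, s) p = p (Sum.inr 0))
    {e : C((T × I) × I, SympCt n)} (he : IsScat F e)
    (heh : (e.comp (swp T)).HomotopicRel h {q | q.1 ∈ T0 ∨ q.2 ∈ sqBd}) :
    f.HomotopicRel (ContinuousMap.const _ 1) T0 := by
  obtain ⟨Rf, hRf0, hRf⟩ := exists_radius f
  set R := max R₀ Rf with hR
  have hR0 : 0 ≤ R := hR₀.trans (le_max_left _ _)
  have hfR : ∀ t (p : Phase (n + 1)), R < ‖p‖ → (f t : Equiv.Perm (Phase (n + 1))) p = p :=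
    fun t p hp => hRf t p ((le_max_right _ _).trans_lt hp)
  have hPP := posPair_segF f hpos hfR
  have hFG' : PosPair 0 R F G := hFG.mono (le_max_left _ _)
  obtain ⟨Φ₁, Ψ₁, hS₁⟩ := exists_straightFam hR0 hPP
  obtain ⟨Φ₂, Ψ₂, hS₂⟩ := exists_straightFam hR0 hFG'
  set ρ := R + 1 with hρ
  set e₁ := scatE hS₁ hPP.fstd ρ with he₁
  set e₂ := scatE hS₂ hFG'.fstd ρ with he₂
  have hsc1 : ∀ q, ScatAt ρ (segF f q) (fun τ => e₁ (q, τ)) := fun q =>
    scatAt_scatE hS₁ hPP.fstd (by linarith) q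
  have hsc2 : ∀ q, ScatAt ρ (F q) (fun τ => e₂ (q, τ)) := fun q =>
    scatAt_scatE hS₂ hFG'.fstd (by linarith) q
  have hScat1 : IsScat (segF f) e₁ := isScat_iff.2 ⟨ρ, by linarith, hsc1⟩
  have hScat2 : IsScat F e₂ := isScat_iff.2 ⟨ρ, by linarith, hsc2⟩
  have hend := scat_of_pos f hf hpos hred hScat1
  -- boundary values of `e₂`
  set T1 : Set (T × I) := {q | q.1 ∈ T0 ∨ q.2 = 0 ∨ q.2 = 1} with hT1
  set bd : Set ((T × I) × I) := {q | q.1 ∈ T1 ∨ q.2 = 0 ∨ q.2 = 1} with hbd
  have hhom2 : e₂.HomotopicRel e bd := IsScat.homotopic (T0 := T1)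
    (fun q hq p => (hstd q.1 q.2 hq p).1) (PairHomotopic.refl (T0 := T1) hR0 hFG') hScat2 he
  have hsw : (swp T).comp (swp' T) = ContinuousMap.id _ := by
    ext1 q; rfl
  have hset : (swp' T) ⁻¹' {q : T × (I × I) | q.1 ∈ T0 ∨ q.2 ∈ sqBd} = bd := by
    ext ⟨⟨t, a⟩, b⟩
    simp only [swp', sqBd, hT1, hbd, mem_ofPred_eq, mem_preimage, ContinuousMap.coe_mk]
    tauto
  have hce : ∀ g : C((T × I) × I, SympCt n), (g.comp (swp T)).comp (swp' T) = g := by
    intro g
    ext1 q
    rfl
  have h21 : e₂.HomotopicRel e₁ bd := by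
    have a1 := homotopicRel_precomp heh (swp' T)
    have a2 := homotopicRel_precomp hend (swp' T)
    rw [hce, hset] at a1 a2
    exact hhom2.trans (a1.trans a2.symm)
  have he2bd : ∀ q ∈ bd, e₂ q = 1 := by
    rintro ⟨⟨t, s⟩, τ⟩ hq
    rcases hq with hq | hq
    · apply SympCt.ext'
      intro w
      rw [he₂, scatE_apply, endW, hS₂.eq_id (t, s) (fun p => (hstd t s hq p).1), wL_mkP]
      rfl
    · apply SympCt.ext'
      intro w
      rw [he₂, scatE_apply]
      exact (hS₂.end_eq (t, s) (Or.inl (by rw [abs_lev (by linarith) hq]; linarith))).1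
  have he1bd : ∀ q ∈ bd, e₁ q = 1 := fun q hq => (h21.fst_eq_snd hq).symm.trans (he2bd q hq)
  obtain ⟨K⟩ := h21
  have hKbd : ∀ r, ∀ q ∈ bd, K (r, q) = 1 := fun r q hq => (K.prop' r q hq).trans (he2bd q hq)
  -- the path of pairs: first the reversed loop, then the segment
  set V : T × I → Phase (n + 1) → ℝ := fun q p =>
    F (q.1, σ (hf1 q.2)) p + segF f (q.1, hf2 q.2) p - p (Sum.inl 0) with hV
  set W : T × I → Phase (n + 1) → ℝ := fun q p => G (q.1, σ (hf1 q.2)) p with hW
  have c1 : Continuous (fun q : T × I => (q.1, σ (hf1 q.2))) :=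
    continuous_fst.prodMk (unitInterval.continuous_symm.comp (continuous_hf1.comp continuous_snd))
  have c2 : Continuous (fun q : T × I => (q.1, hf2 q.2)) :=
    continuous_fst.prodMk (continuous_hf2.comp continuous_snd)
  have hV1 : ∀ q : T × I, hf2 q.2 = 0 → V q = F (q.1, σ (hf1 q.2)) := by
    intro q h1
    funext p
    simp only [hV, h1, segF, Icc.coe_zero, zero_mul, add_zero, add_sub_cancel_right]
  have hV2 : ∀ q : T × I, hf1 q.2 = 1 → V q = segF f (q.1, hf2 q.2) ∧
      W q = fun p => p (Sum.inr 0) := by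
    intro q h1
    constructor
    · funext p
      simp only [hV, h1, unitInterval.symm_one, (hstd q.1 0 (Or.inr (Or.inl rfl)) p).1,
        add_sub_cancel_left]
    · funext p
      simp only [hW, h1, unitInterval.symm_one, (hstd q.1 0 (Or.inr (Or.inl rfl)) p).2]
  have hVW : PosPair 0 R V W := by
    refine ⟨?_, hFG'.cg.base c1, ?_, ?_, ?_⟩
    · exact ((hFG'.cf.base c1).add (hPP.cf.base c2)).sub (CF.const (coordL (Sum.inl 0)).contDiff)
    · intro q p hp
      simp only [hV, hFG'.fstd _ p hp, hPP.fstd _ p hp]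
      ring
    · intro q p hp
      exact hFG'.gstd _ p hp
    · intro q p
      rcases hf_cases q.2 with h1 | h1
      · rw [hV1 q h1]
        exact hFG'.pos _ p
      · rw [(hV2 q h1).1, (hV2 q h1).2]
        exact hPP.pos _ p
  -- its scattering
  set E : C((T × I) × I, SympCt n) := ⟨fun q => e₂ ((q.1.1, σ (hf1 q.1.2)), q.2) *
    e₁ ((q.1.1, hf2 q.1.2), q.2), by
      apply continuous_mul_family
      · exact e₂.continuous.comp ((c1.comp continuous_fst).prodMk continuous_snd)
      · exact e₁.continuous.comp ((c2.comp continuous_fst).prodMk continuous_snd)⟩ with hE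
  have hE1 : ∀ q : T × I, hf2 q.2 = 0 → ∀ τ, E (q, τ) = e₂ ((q.1, σ (hf1 q.2)), τ) := by
    intro q h1 τ
    change e₂ ((q.1, σ (hf1 q.2)), τ) * e₁ ((q.1, hf2 q.2), τ) = _
    rw [h1, he1bd _ (Or.inl (Or.inr (Or.inl rfl))), mul_one]
  have hE2 : ∀ q : T × I, hf1 q.2 = 1 → ∀ τ, E (q, τ) = e₁ ((q.1, hf2 q.2), τ) := by
    intro q h1 τ
    change e₂ ((q.1, σ (hf1 q.2)), τ) * e₁ ((q.1, hf2 q.2), τ) = _
    rw [h1, unitInterval.symm_one, he2bd _ (Or.inl (Or.inr (Or.inl rfl))), one_mul]
  have hEscat : IsScat V E := by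
    refine isScat_iff.2 ⟨ρ, by linarith, fun q => ?_⟩
    rcases hf_cases q.2 with h1 | h1
    · rw [hV1 q h1]
      have h2 : (fun τ => E (q, τ)) = fun τ => e₂ ((q.1, σ (hf1 q.2)), τ) := funext (hE1 q h1)
      rw [h2]
      exact hsc2 _
    · rw [(hV2 q h1).1]
      have h2 : (fun τ => E (q, τ)) = fun τ => e₁ ((q.1, hf2 q.2), τ) := funext (hE2 q h1)
      rw [h2]
      exact hsc1 _
  -- the null-homotopy, first part
  set E' : C((T × I) × I, SympCt n) := ⟨fun q => e₂ ((q.1.1, σ (hf1 q.1.2)), q.2) *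
    e₂ ((q.1.1, hf2 q.1.2), q.2), by
      apply continuous_mul_family
      · exact e₂.continuous.comp ((c1.comp continuous_fst).prodMk continuous_snd)
      · exact e₂.continuous.comp ((c2.comp continuous_fst).prodMk continuous_snd)⟩ with hE'
  have hbd1 : ∀ q ∈ bd, (((q.1.1, σ (hf1 q.1.2)), q.2) : (T × I) × I) ∈ bd ∧
      (((q.1.1, hf2 q.1.2), q.2) : (T × I) × I) ∈ bd := by
    rintro ⟨⟨t, s⟩, τ⟩ hq
    rcases hq with (hq | hq | hq) | hq | hq
    · exact ⟨Or.inl (Or.inl hq), Or.inl (Or.inl hq)⟩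
    · have hq' : s = 0 := hq
      subst hq'
      refine ⟨Or.inl (Or.inr (Or.inr ?_)), Or.inl (Or.inr (Or.inl ?_))⟩
      · change σ (hf1 0) = 1
        rw [hf1_zero, unitInterval.symm_zero]
      · exact hf2_zero
    · have hq' : s = 1 := hq
      subst hq'
      refine ⟨Or.inl (Or.inr (Or.inl ?_)), Or.inl (Or.inr (Or.inr ?_))⟩
      · change σ (hf1 1) = 0
        rw [hf1_one, unitInterval.symm_one]
      · exact hf2_one
    · exact ⟨Or.inr (Or.inl hq), Or.inr (Or.inl hq)⟩
    · exact ⟨Or.inr (Or.inr hq), Or.inr (Or.inr hq)⟩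
  have hEE' : E'.HomotopicRel E bd := by
    have hHc : Continuous (fun u : I × ((T × I) × I) =>
        e₂ ((u.2.1.1, σ (hf1 u.2.1.2)), u.2.2) * K (u.1, ((u.2.1.1, hf2 u.2.1.2), u.2.2))) := by
      apply continuous_mul_family
      · exact e₂.continuous.comp (((c1.comp continuous_fst).prodMk continuous_snd).comp
          continuous_snd)
      · exact K.continuous.comp (continuous_fst.prodMk (((c2.comp continuous_fst).prodMk
          continuous_snd).comp continuous_snd))
    refine ⟨{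
      toFun := fun u => e₂ ((u.2.1.1, σ (hf1 u.2.1.2)), u.2.2) *
        K (u.1, ((u.2.1.1, hf2 u.2.1.2), u.2.2))
      continuous_toFun := hHc
      map_zero_left := fun q => ?_
      map_one_left := fun q => ?_
      prop' := fun r q hq => ?_ }⟩
    · have h1 : K (0, ((q.1.1, hf2 q.1.2), q.2)) = e₂ ((q.1.1, hf2 q.1.2), q.2) :=
        K.map_zero_left _
      rw [h1]
      rfl
    · have h1 : K (1, ((q.1.1, hf2 q.1.2), q.2)) = e₁ ((q.1.1, hf2 q.1.2), q.2) :=
        K.map_one_left _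
      rw [h1]
      rfl
    · change e₂ ((q.1.1, σ (hf1 q.1.2)), q.2) * K (r, ((q.1.1, hf2 q.1.2), q.2)) =
        e₂ ((q.1.1, σ (hf1 q.1.2)), q.2) * e₂ ((q.1.1, hf2 q.1.2), q.2)
      obtain ⟨h1, h2⟩ := hbd1 q hq
      rw [hKbd r _ h2, he2bd _ h2]
  -- second part
  set ab : I → I := fun s => ⟨|1 - 2 * (s : ℝ)|, abs_nonneg _, by
    rw [abs_le]
    constructor <;> linarith [s.2.1, s.2.2]⟩ with hab
  have habc : Continuous ab := by
    apply Continuous.subtype_mk
    exact (continuous_const.sub (continuous_const.mul continuous_subtype_val)).abs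
  have hE'ab : ∀ q : (T × I) × I, E' q = e₂ ((q.1.1, ab q.1.2), q.2) := by
    rintro ⟨⟨t, s⟩, τ⟩
    change e₂ ((t, σ (hf1 s)), τ) * e₂ ((t, hf2 s), τ) = e₂ ((t, ab s), τ)
    rcases le_total (s : ℝ) (1 / 2) with hs | hs
    · have h2 : hf2 s = 0 := projIcc_of_le_left (h := (zero_le_one : (0 : ℝ) ≤ 1)) (by linarith)
      have h1 : σ (hf1 s) = ab s := by
        apply Subtype.ext
        have h3 : (hf1 s : ℝ) = 2 * s := by
          unfold hf1
          rw [projIcc_of_mem _ ⟨by linarith [s.2.1], by linarith⟩]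
        rw [unitInterval.coe_symm_eq, h3]
        simp only [hab]
        rw [abs_of_nonneg (by linarith)]
      rw [h2, h1, he2bd ((t, 0), τ) (Or.inl (Or.inr (Or.inl rfl))), mul_one]
    · have h2 : hf1 s = 1 := projIcc_of_right_le (h := (zero_le_one : (0 : ℝ) ≤ 1)) (by linarith)
      have h1 : hf2 s = ab s := by
        apply Subtype.ext
        have h3 : (hf2 s : ℝ) = 2 * s - 1 := by
          unfold hf2
          rw [projIcc_of_mem _ ⟨by linarith, by linarith [s.2.2]⟩]
        rw [h3]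
        simp only [hab]
        rw [abs_of_nonpos (by linarith)]
        ring
      rw [h2, unitInterval.symm_one, h1, he2bd ((t, 0), τ) (Or.inl (Or.inr (Or.inl rfl))), one_mul]
  have hE'1 : E'.HomotopicRel (ContinuousMap.const _ 1) bd := by
    refine ⟨{
      toFun := fun u => e₂ ((u.2.1.1, max (ab u.2.1.2) u.1), u.2.2)
      continuous_toFun := ?_
      map_zero_left := fun q => ?_
      map_one_left := fun q => ?_
      prop' := fun r q hq => ?_ }⟩
    · refine e₂.continuous.comp (Continuous.prodMk (Continuous.prodMk ?_ ?_) ?_)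
      · exact continuous_fst.comp (continuous_fst.comp continuous_snd)
      · exact (habc.comp (continuous_snd.comp (continuous_fst.comp continuous_snd))).max
          continuous_fst
      · exact continuous_snd.comp continuous_snd
    · have h1 : max (ab q.1.2) 0 = ab q.1.2 := max_eq_left (ab q.1.2).2.1
      simp only [h1]
      exact (hE'ab q).symm
    · have h1 : max (ab q.1.2) 1 = 1 := max_eq_right (ab q.1.2).2.2
      simp only [h1]
      exact he2bd _ (Or.inl (Or.inr (Or.inr rfl)))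
    · change e₂ ((q.1.1, max (ab q.1.2) r), q.2) = E' q
      rw [hE'ab]
      have hmem : ∀ s : I, (q ∈ bd → ((q.1.2 = 0 ∨ q.1.2 = 1) → s = 1) →
          (((q.1.1, s), q.2) : (T × I) × I) ∈ bd) := by
        intro s hq hs
        rcases hq with (hq | hq) | hq
        · exact Or.inl (Or.inl hq)
        · exact Or.inl (Or.inr (Or.inr (hs hq)))
        · exact Or.inr hq
      have hab1 : (q.1.2 = 0 ∨ q.1.2 = 1) → ab q.1.2 = 1 := by
        intro h1
        apply Subtype.ext
        rcases h1 with h1 | h1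
        · simp [hab, h1]
        · simp only [hab, h1, Icc.coe_one]; norm_num
      rw [he2bd _ (hmem _ hq hab1), he2bd _ (hmem _ hq (fun h1 => by
        rw [hab1 h1]; exact max_eq_left r.2.2))]
  have hnull : E.HomotopicRel (ContinuousMap.const _ 1) bd := hEE'.symm.trans hE'1
  -- conclusion
  refine nullhomotopic_of_scat f hf hR0 hVW ?_ ?_ ?_ hEscat hnull
  · intro t p
    rw [hV1 (t, 0) hf2_zero, hf1_zero, unitInterval.symm_zero]
    exact (hstd t 1 (Or.inr (Or.inr rfl)) p).1
  · intro t p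
    rw [(hV2 (t, 1) hf1_one).1, hf2_one]
    simp only [segF, Icc.coe_one, one_mul, add_sub_cancel]
  · intro t ht s p
    simp only [hV, (hstd t _ (Or.inl ht) p).1, segF, hf t ht]
    change p (Sum.inl 0) + (p (Sum.inl 0) + _ * (p (Sum.inl 0) - p (Sum.inl 0))) - _ = _
    ring

end Pool.Agent.H50.Susp
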