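import Mathlib
import Pool.Agent.H50.Susp.Loop2

set_option maxSynthPendingDepth 3

open scoped ContDiff Topology NNReal unitInterval
open Set Function Filter MeasureTheory

namespace Pool.Agent.H50.Susp

open Pool.Agent.Helper17 Pool.Agent.Helper42

variable {n : ℕ} {T : Type} [TopologicalSpace T] {R : ℝ} {f g : T → Phase (n + 1) → ℝ}

omit [TopologicalSpace T] in
/-- Scattering families are compatible with reparametrisations. -/
lemma IsScat.precomp {T' : Type} [TopologicalSpace T'] {e : T × I → SympCt n} (h : IsScat f e)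
    (u : T' → T) : IsScat (fun t' => f (u t')) (fun q : T' × I => e (u q.1, q.2)) := by
  obtain ⟨ρ, hρ, hs, hh⟩ := h
  exact ⟨ρ, hρ, fun t p hp => hs (u t) p hp, fun t c hc a b τ ha hb hx =>
    hh (u t) c hc a b τ ha hb hx⟩

/-- The scattering of the standard function is trivial. -/
lemma IsScat.eq_one [CompactSpace T] {e : T × I → SympCt n} (he : IsScat f e) (hR : 0 ≤ R)
    (hfg : PosPair 0 R f g) {t : T} (ht : ∀ p, f t p = p (Sum.inl 0)) (τ : I) :
    e (t, τ) = 1 := by
  obtain ⟨Φ, Ψ, h⟩ := exists_straightFam hR hfg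
  obtain ⟨ρ, hρ, hρs, hee⟩ := he.eq_end h hR hfg.fstd
  apply SympCt.ext'
  intro w
  rw [hee t τ w, endW, h.eq_id t ht, wL_mkP]
  rfl

/-- The scattering is trivial at the extreme levels. -/
lemma IsScat.eq_one' [CompactSpace T] {e : T × I → SympCt n} (he : IsScat f e) (hR : 0 ≤ R)
    (hfg : PosPair 0 R f g) (t : T) {τ : I} (hτ : τ = 0 ∨ τ = 1) :
    e (t, τ) = 1 := by
  obtain ⟨Φ, Ψ, h⟩ := exists_straightFam hR hfg
  obtain ⟨ρ, hρ, hρs, hee⟩ := he.eq_end h hR hfg.fstd
  apply SympCt.ext'
  intro w
  rw [hee t τ w, h.end_eq' hρ hρs t (Or.inl (by rw [abs_lev hρ.le hτ]))]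
  rfl

/-- The second function of a positive pair can be made standard where the first one is. -/
lemma exists_std_of_pos {F G : T → Phase (n + 1) → ℝ} (hR : 0 ≤ R) (h : PosPair 0 R F G) :
    ∃ G' : T → Phase (n + 1) → ℝ, PosPair 0 R F G' ∧
      ∀ q, (∀ p, F q p = p (Sum.inl 0)) → ∀ p, G' q p = p (Sum.inr 0) := by
  set D : T → Phase (n + 1) → ℝ := fun q p => fderiv ℝ (F q) p (eX 0) with hD
  have hDc : Continuous (fun r : T × Phase (n + 1) => D r.1 r.2) :=
    h.cf.fderiv.continuous.clm_apply continuous_const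
  set K : Set (Phase (n + 1)) := Metric.closedBall 0 R with hK
  have hKc : IsCompact K := isCompact_closedBall 0 R
  have hKn : K.Nonempty := ⟨0, by simpa [hK] using hR⟩
  set m : T → ℝ := fun q => sInf (D q '' K) with hm
  have hmc : Continuous m := hKc.continuous_sInf (f := D) hDc
  have hmle : ∀ q, ∀ p ∈ K, m q ≤ D q p := by
    intro q p hp
    apply csInf_le
    · exact (hKc.image (hDc.comp (continuous_const.prodMk continuous_id))).bddBelow
    · exact mem_image_of_mem _ hp
  set c : T → ℝ := fun q => max 0 (min 1 (2 * m q - 1)) with hc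
  have hcc : Continuous c := continuous_const.max (continuous_const.min
    ((continuous_const.mul hmc).sub continuous_const))
  have hc0 : ∀ q, 0 ≤ c q := fun q => le_max_left _ _
  have hc1 : ∀ q, c q ≤ 1 := fun q => max_le zero_le_one (min_le_left _ _)
  set G' : T → Phase (n + 1) → ℝ := fun q p => (1 - c q) * G q p + c q * p (Sum.inr 0) with hG'
  refine ⟨G', ⟨h.cf, ?_, h.fstd, ?_, ?_⟩, ?_⟩
  · have e1 : CF (fun (q : T) (_ : Phase (n + 1)) => 1 - c q) :=
      CF.param (continuous_const.sub hcc)
    have e2 : CF (fun (q : T) (_ : Phase (n + 1)) => c q) := CF.param hcc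
    exact (e1.smul h.cg).add (e2.smul (CF.const (coordL (Sum.inr 0)).contDiff))
  · intro q p hp
    simp only [hG', h.gstd q p hp]
    ring
  · intro q p
    have h1 : HasFDerivAt (G' q) ((1 - c q) • fderiv ℝ (G q) p +
        c q • coordL (Sum.inr 0)) p :=
      ((h.cg.differentiable q p).hasFDerivAt.const_smul (1 - c q)).add
        ((coordL (Sum.inr 0)).hasFDerivAt.const_smul (c q))
    have h2 : coordL (Sum.inr 0) (hamV (F q) p) = D q p := by
      rw [coordL_apply]
      have h3 := omegaStd_hamV (F q) p (eX 0)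
      have h4 : omegaStd (wL n (hamV (F q) p)) (0 : Phase n) = 0 := by simp [omegaStd]
      rw [omegaStd_succ, wL_eX, h4, eX_inl_zero, eX_inr] at h3
      simp only [hD]
      linarith
    rw [h1.fderiv]
    change 0 < (1 - c q) * fderiv ℝ (G q) p (hamV (F q) p) +
      c q * coordL (Sum.inr 0) (hamV (F q) p)
    rw [h2]
    rcases (hc0 q).eq_or_lt with h3 | h3
    · rw [← h3, zero_mul, add_zero, sub_zero, one_mul]
      exact h.pos q p
    · have h4 : 0 < D q p := by
        by_cases hp : p ∈ K
        · have h5 : 0 < 2 * m q - 1 := by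
            by_contra h6
            have h7 : c q = 0 := max_eq_left ((min_le_right _ _).trans (not_lt.1 h6))
            rw [h7] at h3
            exact lt_irrefl _ h3
          linarith [hmle q p hp]
        · have h5 : R < ‖p‖ := by simpa [hK] using hp
          simp only [hD]
          rw [fderiv_of_std (h.fstd q) h5, coordL_apply, eX_inl_zero]
          exact one_pos
      rcases (hc1 q).eq_or_lt with h5 | h5
      · rw [h5, sub_self, zero_mul, zero_add, one_mul]
        exact h4
      · exact add_pos (mul_pos (sub_pos.2 h5) (h.pos q p)) (mul_pos h3 h4)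
  · intro q hq p
    have h1 : ∀ p, D q p = 1 := by
      intro p
      have h2 : F q = fun p => coordL (Sum.inl 0) p := funext fun p => hq p
      simp only [hD, h2]
      rw [(coordL (Sum.inl 0)).fderiv, coordL_apply, eX_inl_zero]
    have h2 : D q '' K = {1} := by
      ext y
      constructor
      · rintro ⟨p, -, rfl⟩
        exact h1 p
      · rintro rfl
        obtain ⟨p, hp⟩ := hKn
        exact ⟨p, hp, h1 p⟩
    have h3 : m q = 1 := by
      simp only [hm, h2]
      exact csInf_singleton 1
    have h4 : c q = 1 := by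
      simp only [hc, h3]
      norm_num
    simp only [hG', h4]
    ring

/-- A loop of functions which extend to positive pairs, standard in the first component at its
ends, whose scattering is homotopic to the reduction of `f`: then `f` is null-homotopic. -/
theorem nullhomotopic_of_loop' [CompactSpace T] {T0 : Set T} (f : C(T, SympCt (n + 1)))
    (hf : ∀ t ∈ T0, f t = 1)
    (hpos : ∀ t p, 0 < fderiv ℝ (fun q => ((f t : Equiv.Perm (Phase (n + 1))) q) (Sum.inl 0)) p
      (eX 0)) {Rh : ℝ} {h : C(T × (I × I), SympCt n)} (hred : IsRed Rh (fun t => f t) h)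
    {R₀ : ℝ} (hR₀ : 0 ≤ R₀) {F G : T × I → Phase (n + 1) → ℝ} (hFG : PosPair 0 R₀ F G)
    (hstd : ∀ t s, (t ∈ T0 ∨ s = 0 ∨ s = 1) → ∀ p, F (t, s) p = p (Sum.inl 0))
    {e : C((T × I) × I, SympCt n)} (he : IsScat F e)
    (heh : (e.comp (swp T)).HomotopicRel h {q | q.1 ∈ T0 ∨ q.2 ∈ sqBd}) :
    f.HomotopicRel (ContinuousMap.const _ 1) T0 := by
  obtain ⟨G', hG', hG1⟩ := exists_std_of_pos hR₀ hFG
  exact nullhomotopic_of_loop f hf hpos hred hR₀ hG' (fun t s hts p =>
    ⟨hstd t s hts p, hG1 (t, s) (hstd t s hts) p⟩) he heh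

end Pool.Agent.H50.Susp
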