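import Mathlib

open scoped Topology unitInterval
open Set Function Topology.Homotopy

namespace Pool.Agent.H50.Susp

variable {N X : Type} [DecidableEq N] [TopologicalSpace X] {x : X}

/-- The first half of the cube in the direction `i`. -/
noncomputable def loC (i : N) : C(N → I, N → I) :=
  ⟨fun t => update t i (projIcc 0 1 zero_le_one ((t i : ℝ) / 2)),
    continuous_id.update i (continuous_projIcc.comp
      ((continuous_subtype_val.comp (continuous_apply i)).div_const 2))⟩

/-- The second half of the cube in the direction `i`. -/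
noncomputable def hiC (i : N) : C(N → I, N → I) :=
  ⟨fun t => update t i (projIcc 0 1 zero_le_one (((t i : ℝ) + 1) / 2)),
    continuous_id.update i (continuous_projIcc.comp
      (((continuous_subtype_val.comp (continuous_apply i)).add continuous_const).div_const 2))⟩

lemma loC_apply (i : N) (t : N → I) :
    loC i t = update t i (projIcc 0 1 zero_le_one ((t i : ℝ) / 2)) := rfl

lemma hiC_apply (i : N) (t : N → I) :
    hiC i t = update t i (projIcc 0 1 zero_le_one (((t i : ℝ) + 1) / 2)) := rfl

lemma transAt_apply' (i : N) (f g : Ω^ N X x) (t : N → I) :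
    GenLoop.transAt i f g t = if (t i : ℝ) ≤ 1 / 2
      then f (update t i <| projIcc 0 1 zero_le_one (2 * t i))
      else g (update t i <| projIcc 0 1 zero_le_one (2 * t i - 1)) := rfl

lemma transAt_loC (i : N) (f g : Ω^ N X x) (t : N → I) :
    GenLoop.transAt i f g (loC i t) = f t := by
  have h1 : ((loC i t) i : ℝ) = (t i : ℝ) / 2 := by
    rw [loC_apply, update_self, projIcc_of_mem _ ⟨by linarith [(t i).2.1], by linarith [(t i).2.2]⟩]
  rw [transAt_apply', h1, if_pos (by linarith [(t i).2.2])]
  congr 1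
  rw [loC_apply, update_idem]
  have h2 : projIcc 0 1 zero_le_one (2 * ((t i : ℝ) / 2)) = t i := by
    rw [mul_div_cancel₀ _ two_ne_zero]
    exact projIcc_val _ _
  rw [h2, update_eq_self]

lemma transAt_hiC (i : N) (f g : Ω^ N X x) (t : N → I) :
    GenLoop.transAt i f g (hiC i t) = g t := by
  have h1 : ((hiC i t) i : ℝ) = ((t i : ℝ) + 1) / 2 := by
    rw [hiC_apply, update_self, projIcc_of_mem _ ⟨by linarith [(t i).2.1], by linarith [(t i).2.2]⟩]
  rw [transAt_apply', h1]
  split_ifs with h2
  · have h3 : t i = 0 := by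
      apply Subtype.ext
      have := (t i).2.1
      change (t i : ℝ) = 0
      linarith
    have h4 : g t = x := g.2 t ⟨i, Or.inl h3⟩
    rw [h4]
    apply f.2
    refine ⟨i, Or.inr ?_⟩
    rw [update_self, h3]
    apply projIcc_of_right_le
    norm_num
  · congr 1
    rw [hiC_apply, update_idem]
    have h3 : projIcc 0 1 zero_le_one (2 * (((t i : ℝ) + 1) / 2) - 1) = t i := by
      have h4 : 2 * (((t i : ℝ) + 1) / 2) - 1 = t i := by ring
      rw [h4]
      exact projIcc_val _ _
    rw [h3, update_eq_self]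

lemma exists_halves (i : N) (t : N → I) : (∃ s, loC i s = t) ∨ (∃ s, hiC i s = t) := by
  rcases le_total (t i : ℝ) (1 / 2) with h | h
  · left
    refine ⟨update t i (projIcc 0 1 zero_le_one (2 * (t i : ℝ))), ?_⟩
    rw [loC_apply, update_idem, update_self,
      projIcc_of_mem _ (show 2 * (t i : ℝ) ∈ Icc (0 : ℝ) 1 from ⟨by linarith [(t i).2.1], by linarith⟩)]
    have h3 : projIcc 0 1 zero_le_one (2 * (t i : ℝ) / 2) = t i := by
      rw [mul_div_cancel_left₀ _ two_ne_zero]
      exact projIcc_val _ _
    rw [h3, update_eq_self]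
  · right
    refine ⟨update t i (projIcc 0 1 zero_le_one (2 * (t i : ℝ) - 1)), ?_⟩
    rw [hiC_apply, update_idem, update_self,
      projIcc_of_mem _ (show 2 * (t i : ℝ) - 1 ∈ Icc (0 : ℝ) 1 from
        ⟨by linarith, by linarith [(t i).2.2]⟩)]
    have h3 : projIcc 0 1 zero_le_one ((2 * (t i : ℝ) - 1 + 1) / 2) = t i := by
      have h4 : (2 * (t i : ℝ) - 1 + 1) / 2 = t i := by ring
      rw [h4]
      exact projIcc_val _ _
    rw [h3, update_eq_self]

/-- The class of a generalized loop. -/
def cls (a : Ω^ N X x) : HomotopyGroup N X x := Quotient.mk _ a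

omit [DecidableEq N] in
lemma cls_eq {a b : Ω^ N X x} (h : a.1.HomotopicRel b.1 (Cube.boundary N)) : cls a = cls b :=
  Quotient.sound h

omit [DecidableEq N] in
lemma cls_exact {a b : Ω^ N X x} (h : cls a = cls b) :
    a.1.HomotopicRel b.1 (Cube.boundary N) :=
  Quotient.exact h

omit [DecidableEq N] in
lemma cls_surj (a : HomotopyGroup N X x) : ∃ b : Ω^ N X x, cls b = a :=
  Quotient.exists_rep a

/-- A loop is the concatenation of its halves. -/
lemma mul_of_halves [Nonempty N] (a b c : Ω^ N X x) (i : N)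
    (h1 : (a.1.comp (loC i)).HomotopicRel b.1 (Cube.boundary N))
    (h2 : (a.1.comp (hiC i)).HomotopicRel c.1 (Cube.boundary N)) :
    cls a = cls c * cls b := by
  set b' : Ω^ N X x := ⟨a.1.comp (loC i), fun y hy => by
    rw [h1.fst_eq_snd hy]; exact b.2 y hy⟩ with hb'
  set c' : Ω^ N X x := ⟨a.1.comp (hiC i), fun y hy => by
    rw [h2.fst_eq_snd hy]; exact c.2 y hy⟩ with hc'
  have e1 : cls b = cls b' := cls_eq h1.symm
  have e2 : cls c = cls c' := cls_eq h2.symm
  have e3 : a = GenLoop.transAt i b' c' := by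
    ext t
    rcases exists_halves i t with ⟨s, rfl⟩ | ⟨s, rfl⟩
    · rw [transAt_loC]; rfl
    · rw [transAt_hiC]; rfl
  rw [e1, e2]
  have h3 : cls c' * cls b' = cls (GenLoop.transAt i b' c') :=
    HomotopyGroup.mul_spec (N := N) (X := X) (x := x) (i := i) (p := c') (q := b')
  rw [h3, ← e3]

end Pool.Agent.H50.Susp
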