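import Mathlib
import Pool.Agent.H50.Susp.ScatMore
import Pool.Agent.H50.Susp.Halves
import Pool.Agent.Helper42.Susp.Final

set_option maxSynthPendingDepth 3

open scoped ContDiff Topology NNReal unitInterval
open Set Function Filter Topology.Homotopy

namespace Pool.Agent.H50.Susp

open Pool.Agent.Helper17 Pool.Agent.Helper42

variable {n k : ℕ}

lemma toCube1_fromCube1 (y : Fin (k + 1) → I) : toCube1 (fromCube1 y) = y :=
  Fin.snoc_init_self y

/-- Adding a coordinate, as a continuous map. -/
def tc1 (k : ℕ) : C((Fin k → I) × I, Fin (k + 1) → I) := ⟨toCube1, continuous_toCube1⟩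

/-- Splitting off the last coordinate, as a continuous map. -/
def fc1 (k : ℕ) : C(Fin (k + 1) → I, (Fin k → I) × I) := ⟨fromCube1, continuous_fromCube1⟩

/-- A homotopy of families of pairs is a smooth homotopy of pairs. -/
lemma pairHomotopic_of_homotopicRel {T : Type} [TopologicalSpace T] [CompactSpace T] {T0 : Set T}
    {u v : C(T, PairSp n)} (h : u.HomotopicRel v T0) :
    PairHomotopic (0 : Fin (n + 1)) T0 (fun t p => ((u t).1 p).1) (fun t p => ((u t).1 p).2)
      (fun t p => ((v t).1 p).1) (fun t p => ((v t).1 p).2) := by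
  obtain ⟨H⟩ := h
  obtain ⟨R, hR, hP⟩ := posPair_of_continuous (V := fun q : T × I => H (q.2, q.1))
    (H.continuous.comp (continuous_snd.prodMk continuous_fst))
  refine ⟨R, _, _, hR, hP, fun t p => ?_, fun t p => ?_, fun t ht s p => ?_⟩
  · constructor
    · change ((H (0, t)).1 p).1 = _
      rw [H.apply_zero]
    · change ((H (0, t)).1 p).2 = _
      rw [H.apply_zero]
  · constructor
    · change ((H (1, t)).1 p).1 = _
      rw [H.apply_one]
    · change ((H (1, t)).1 p).2 = _
      rw [H.apply_one]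
  · constructor
    · change ((H (s, t)).1 p).1 = _
      rw [H.eq_fst s ht]
    · change ((H (s, t)).1 p).2 = _
      rw [H.eq_fst s ht]

/-- The family of symplectomorphisms `e` is the scattering of the family of pairs `γ`. -/
def ScatRel (γ : Ω^ (Fin k) (PairSp n) PairSp.std) (e : Ω^ (Fin (k + 1)) (SympCt n) 1) : Prop :=
  IsScat (fun t p => ((γ t).1 p).1) (fun q => e (toCube1 q))

lemma genLoop_std (γ : Ω^ (Fin k) (PairSp n) PairSp.std) {t : Fin k → I}
    (ht : t ∈ Cube.boundary (Fin k)) (p : Phase (n + 1)) :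
    ((γ t).1 p).1 = p (Sum.inl 0) ∧ ((γ t).1 p).2 = p (Sum.inr 0) := by
  have h1 : γ t = PairSp.std := γ.2 t ht
  rw [h1]
  exact ⟨rfl, rfl⟩

/-- A family of pairs has a scattering. -/
lemma exists_scatRel (γ : Ω^ (Fin k) (PairSp n) PairSp.std) :
    ∃ e : Ω^ (Fin (k + 1)) (SympCt n) 1, ScatRel γ e := by
  obtain ⟨R, hR, hP⟩ := posPair_of_continuous γ.1.continuous
  obtain ⟨e, he⟩ := exists_isScat hR hP
  refine ⟨⟨e.comp (fc1 k), fun y hy => ?_⟩, ?_⟩
  · change e (fromCube1 y) = 1
    have h1 := fromCube1_bd hy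
    rcases h2 : fromCube1 y with ⟨t, τ⟩
    rw [h2] at h1
    rcases h1 with h1 | h1
    · exact he.eq_one hR hP (fun p => (genLoop_std γ h1 p).1) τ
    · exact he.eq_one' hR hP t h1
  · have h1 : (fun q : (Fin k → I) × I => e (fromCube1 (toCube1 q))) = e := by
      funext q
      rw [fromCube1_toCube1]
    change IsScat _ (fun q : (Fin k → I) × I => e (fromCube1 (toCube1 q)))
    rw [h1]
    exact he

/-- Transfer of homotopies from the product to the cube. -/
lemma homotopicRel_of_tc1 {X : Type} [TopologicalSpace X] {a b : C(Fin (k + 1) → I, X)}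
    (h : (a.comp (tc1 k)).HomotopicRel (b.comp (tc1 k))
      {q | q.1 ∈ Cube.boundary (Fin k) ∨ q.2 = 0 ∨ q.2 = 1}) :
    a.HomotopicRel b (Cube.boundary (Fin (k + 1))) := by
  obtain ⟨H⟩ := h
  refine ⟨{ toFun := fun q => H (q.1, fromCube1 q.2)
            continuous_toFun := H.continuous.comp (continuous_fst.prodMk
              (continuous_fromCube1.comp continuous_snd))
            map_zero_left := fun q => ?_
            map_one_left := fun q => ?_
            prop' := fun s q hq => ?_ }⟩
  · rw [H.apply_zero]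
    change a (toCube1 (fromCube1 q)) = a q
    rw [toCube1_fromCube1]
  · rw [H.apply_one]
    change b (toCube1 (fromCube1 q)) = b q
    rw [toCube1_fromCube1]
  · change H (s, fromCube1 q) = a q
    rw [H.eq_fst s (fromCube1_bd hq)]
    change a (toCube1 (fromCube1 q)) = a q
    rw [toCube1_fromCube1]

/-- The class of the scattering is an invariant of the class of the family of pairs. -/
lemma ScatRel.cls_eq {γ γ' : Ω^ (Fin k) (PairSp n) PairSp.std}
    {e e' : Ω^ (Fin (k + 1)) (SympCt n) 1} (he : ScatRel γ e) (he' : ScatRel γ' e')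
    (h : cls γ = cls γ') : cls e = cls e' := by
  apply Pool.Agent.H50.Susp.cls_eq
  apply homotopicRel_of_tc1
  exact IsScat.homotopic (T0 := Cube.boundary (Fin k)) (fun t ht p => (genLoop_std γ ht p).1)
    (pairHomotopic_of_homotopicRel (cls_exact h)) (e := e.1.comp (tc1 k))
    (e' := e'.1.comp (tc1 k)) he he'

/-- The connecting map: the class of the scattering. -/
noncomputable def deltaMap (k n : ℕ) (a : HomotopyGroup (Fin k) (PairSp n) PairSp.std) :
    HomotopyGroup (Fin (k + 1)) (SympCt n) 1 :=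
  cls (exists_scatRel (cls_surj a).choose).choose

/-- The characterisation of the connecting map. -/
theorem deltaMap_cls {γ : Ω^ (Fin k) (PairSp n) PairSp.std} {e : Ω^ (Fin (k + 1)) (SympCt n) 1}
    (h : ScatRel γ e) : deltaMap k n (cls γ) = cls e :=
  ScatRel.cls_eq (exists_scatRel (cls_surj (cls γ)).choose).choose_spec h
    (cls_surj (cls γ)).choose_spec

lemma piPair_cls (γ : Ω^ (Fin k) (SympCt (n + 1)) 1) (γ' : Ω^ (Fin k) (PairSp n) PairSp.std)
    (h : ∀ t, γ' t = pairMap (γ t)) : piPair k n (cls γ) = cls γ' := by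
  have h1 : γ' = ⟨(⟨pairMap, continuous_pairMap⟩ : C(SympCt (n + 1), PairSp n)).comp γ.1,
    fun y hy => by
      change pairMap (γ.1 y) = PairSp.std
      rw [γ.2 y hy, pairMap_one]⟩ := by
    ext t
    exact h t
  rw [h1]
  rfl

/-- Exactness at the homotopy groups of the space of pairs. -/
theorem deltaMap_eq_one_iff (a : HomotopyGroup (Fin k) (PairSp n) PairSp.std) :
    deltaMap k n a = 1 ↔ ∃ b, piPair k n b = a := by
  constructor
  · intro h
    obtain ⟨γ, rfl⟩ := cls_surj a
    obtain ⟨e, he⟩ := exists_scatRel γ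
    rw [deltaMap_cls he] at h
    obtain ⟨H⟩ : e.1.HomotopicRel (ContinuousMap.const _ 1) (Cube.boundary (Fin (k + 1))) :=
      cls_exact (b := GenLoop.const) h
    obtain ⟨R, hR, hP⟩ := posPair_of_continuous γ.1.continuous
    have hnull : (e.1.comp (tc1 k)).HomotopicRel (ContinuousMap.const _ 1)
        {q | q.1 ∈ Cube.boundary (Fin k) ∨ q.2 = 0 ∨ q.2 = 1} := by
      refine ⟨{ toFun := fun q => H (q.1, toCube1 q.2)
                continuous_toFun := H.continuous.comp (continuous_fst.prodMk
                  (continuous_toCube1.comp continuous_snd))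
                map_zero_left := fun q => ?_
                map_one_left := fun q => ?_
                prop' := fun s q hq => ?_ }⟩
      · rw [H.apply_zero]
        rfl
      · rw [H.apply_one]
        rfl
      · exact H.eq_fst s (toCube1_bd hq)
    obtain ⟨φ, hφ1, hφ⟩ := exists_pairHomotopic_of_scat (T0 := Cube.boundary (Fin k)) hR hP
      (fun t ht p => genLoop_std γ ht p) (e := e.1.comp (tc1 k)) he hnull
    refine ⟨cls ⟨φ, hφ1⟩, ?_⟩
    have h2 : γ.1.HomotopicRel ((⟨pairMap, continuous_pairMap⟩ :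
        C(SympCt (n + 1), PairSp n)).comp φ) (Cube.boundary (Fin k)) :=
      homotopicRel_of_pairHomotopic hφ
    apply Quotient.sound
    exact h2.symm
  · rintro ⟨b, rfl⟩
    obtain ⟨γ, rfl⟩ := cls_surj b
    set γ' : Ω^ (Fin k) (PairSp n) PairSp.std :=
      ⟨(⟨pairMap, continuous_pairMap⟩ : C(SympCt (n + 1), PairSp n)).comp γ.1,
      fun y hy => by
        change pairMap (γ.1 y) = PairSp.std
        rw [γ.2 y hy, pairMap_one]⟩ with hγ'
    rw [piPair_cls γ γ' (fun t => rfl)]
    obtain ⟨R, hR, hRo⟩ := exists_radius γ.1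
    have h1 : ScatRel γ' (GenLoop.const : Ω^ (Fin (k + 1)) (SympCt n) 1) :=
      isScat_symp (φ := fun t => γ t) (ρ := R + 1) (by linarith)
        (fun t p hp => hRo t p (by linarith))
    rw [deltaMap_cls h1]
    rfl

lemma toCube1_update (i : Fin k) (t : Fin k → I) (τ v : I) :
    toCube1 (update t i v, τ) = update (toCube1 (t, τ)) i.castSucc v :=
  Fin.snoc_update (α := fun _ => I) τ t i v

lemma toCube1_castSucc (i : Fin k) (t : Fin k → I) (τ : I) :
    toCube1 (t, τ) i.castSucc = t i :=
  Fin.snoc_castSucc (α := fun _ => I) τ t i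

lemma toCube1_loC (i : Fin k) (t : Fin k → I) (τ : I) :
    toCube1 (loC i t, τ) = loC i.castSucc (toCube1 (t, τ)) := by
  simp only [loC_apply]
  rw [toCube1_update, toCube1_castSucc]

lemma toCube1_hiC (i : Fin k) (t : Fin k → I) (τ : I) :
    toCube1 (hiC i t, τ) = hiC i.castSucc (toCube1 (t, τ)) := by
  simp only [hiC_apply]
  rw [toCube1_update, toCube1_castSucc]

/-- The connecting map is a homomorphism. -/
theorem deltaMap_mul (a b : HomotopyGroup (Fin (k + 1)) (PairSp n) PairSp.std) :
    deltaMap (k + 1) n (a * b) = deltaMap (k + 1) n a * deltaMap (k + 1) n b := by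
  obtain ⟨γa, rfl⟩ := cls_surj a
  obtain ⟨γb, rfl⟩ := cls_surj b
  obtain ⟨ea, hea⟩ := exists_scatRel γa
  obtain ⟨eb, heb⟩ := exists_scatRel γb
  have h1 : cls γa * cls γb = cls (GenLoop.transAt 0 γb γa) :=
    HomotopyGroup.mul_spec (i := 0) (p := γa) (q := γb)
  set γ := GenLoop.transAt 0 γb γa with hγ
  obtain ⟨e, he⟩ := exists_scatRel γ
  rw [h1, deltaMap_cls he, deltaMap_cls hea, deltaMap_cls heb]
  have key : ∀ (c : C(Fin (k + 1) → I, Fin (k + 1) → I))
      (c' : C(Fin (k + 1 + 1) → I, Fin (k + 1 + 1) → I))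
      (hc : ∀ t τ, toCube1 (c t, τ) = c' (toCube1 (t, τ)))
      (γ₁ : Ω^ (Fin (k + 1)) (PairSp n) PairSp.std) (hcγ : ∀ t, γ (c t) = γ₁ t)
      (e₁ : Ω^ (Fin (k + 1 + 1)) (SympCt n) 1) (he₁ : ScatRel γ₁ e₁),
      (e.1.comp c').HomotopicRel e₁.1 (Cube.boundary (Fin (k + 1 + 1))) := by
    intro c c' hc γ₁ hcγ e₁ he₁
    apply homotopicRel_of_tc1
    obtain ⟨R, hR, hP⟩ := posPair_of_continuous γ₁.1.continuous
    refine IsScat.homotopic (T0 := Cube.boundary (Fin (k + 1)))
      (fun t ht p => (genLoop_std γ₁ ht p).1) (PairHomotopic.refl hR hP)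
      (e := (e.1.comp c').comp (tc1 (k + 1))) (e' := e₁.1.comp (tc1 (k + 1))) ?_ he₁
    have h2 := IsScat.precomp he c
    have h3 : (fun t => (fun p => ((γ (c t)).1 p).1)) = fun t p => ((γ₁ t).1 p).1 := by
      funext t p
      rw [hcγ]
    rw [h3] at h2
    have h4 : (fun q : (Fin (k + 1) → I) × I => e (toCube1 (c q.1, q.2))) =
        (e.1.comp c').comp (tc1 (k + 1)) := by
      funext q
      rw [hc]
      rfl
    rw [h4] at h2
    exact h2
  exact mul_of_halves e eb ea (Fin.castSucc 0)
    (key (loC 0) _ (toCube1_loC 0) γb (transAt_loC 0 γb γa) eb heb)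
    (key (hiC 0) _ (toCube1_hiC 0) γa (transAt_hiC 0 γb γa) ea hea)

end Pool.Agent.H50.Susp
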