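import Mathlib
import Pool.Agent.H50.Susp.Delta
import Pool.Agent.Helper42.Susp.CubeSnoc

set_option maxSynthPendingDepth 3

open scoped ContDiff Topology NNReal unitInterval
open Set Function Filter Topology.Homotopy

namespace Pool.Agent.H50.Susp

open Pool.Agent.Helper17 Pool.Agent.Helper42

variable {n k : ℕ}

lemma cls_eq_of_unloop2 {X : Type} [TopologicalSpace X] {x : X} {a b : Ω^ (Fin (k + 2)) X x}
    (h : (unloop2 a).HomotopicRel (unloop2 b) (bd2 k)) : cls a = cls b := by
  have h1 := (hmk_loop2_eq_iff (unloop2_bd a) (unloop2_bd b)).2 h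
  rw [loop2_unloop2, loop2_unloop2] at h1
  exact h1

/-- The connecting map and the suspension: a class is in the image of the connecting map if and
only if its suspension is trivial. -/
theorem range_delta_iff (g : Ω^ (Fin (k + 2)) (SympCt n) 1) (f : C(Fin k → I, SympCt (n + 1)))
    (hf : ∀ t ∈ Cube.boundary (Fin k), f t = 1)
    (hpos : ∀ t p, 0 < fderiv ℝ (fun q => ((f t : Equiv.Perm (Phase (n + 1))) q) (Sum.inl 0)) p
      (eX 0)) {Rh : ℝ} {h : C((Fin k → I) × (I × I), SympCt n)} (hred : IsRed Rh (fun t => f t) h)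
    (hg : (unloop2 g).HomotopicRel h (bd2 k)) :
    (∃ b, deltaMap (k + 1) n b = cls g) ↔
      f.HomotopicRel (ContinuousMap.const _ 1) (Cube.boundary (Fin k)) := by
  constructor
  · rintro ⟨b, hb⟩
    obtain ⟨γ, rfl⟩ := cls_surj b
    obtain ⟨e', he'⟩ := exists_scatRel γ
    rw [deltaMap_cls he'] at hb
    have h1 : (unloop2 e').HomotopicRel h (bd2 k) := (unloop2_homotopic (cls_exact hb)).trans hg
    obtain ⟨R, hR, hP⟩ := posPair_of_continuous (V := fun q : (Fin k → I) × I => γ (toCube1 q))
      (γ.1.continuous.comp continuous_toCube1)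
    set e : C(((Fin k → I) × I) × I, SympCt n) :=
      ⟨fun q => e' (toCube1 (toCube1 q.1, q.2)), e'.1.continuous.comp
        (continuous_toCube1.comp ((continuous_toCube1.comp continuous_fst).prodMk
          continuous_snd))⟩ with he
    have hs : IsScat (fun (q : (Fin k → I) × I) p => ((γ (toCube1 q)).1 p).1) e :=
      IsScat.precomp he' toCube1
    refine nullhomotopic_of_loop' f hf hpos hred hR hP ?_ hs h1
    intro t s hts p
    exact (genLoop_std γ (toCube1_bd hts) p).1
  · intro hnull
    obtain ⟨R, F, G, e, hR, hP, hstd, hs, heh⟩ := exists_loop f hf hpos hred hnull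
    set γ : Ω^ (Fin (k + 1)) (PairSp n) PairSp.std :=
      ⟨⟨fun y => pairOf hP (fromCube1 y), (continuous_pairOf hP).comp continuous_fromCube1⟩,
        fun y hy => by
          apply Subtype.ext
          funext p
          have h1 := hstd (fromCube1 y).1 (fromCube1 y).2 (fromCube1_bd hy) p
          exact Prod.ext h1.1 h1.2⟩ with hγ
    have hbd : ∀ q : ((Fin k → I) × I) × I, ((q.1.1 ∈ Cube.boundary (Fin k) ∨ q.1.2 = 0 ∨
        q.1.2 = 1) ∨ q.2 = 0 ∨ q.2 = 1) → e q = 1 := by
      rintro ⟨q, τ⟩ (hq | hq)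
      · exact hs.eq_one hR hP (fun p => (hstd q.1 q.2 hq p).1) τ
      · exact hs.eq_one' hR hP q hq
    set e' : Ω^ (Fin (k + 2)) (SympCt n) 1 :=
      ⟨⟨fun y => e (fromCube1 (fromCube1 y).1, (fromCube1 y).2),
        e.continuous.comp ((continuous_fromCube1.comp (continuous_fst.comp
          continuous_fromCube1)).prodMk (continuous_snd.comp continuous_fromCube1))⟩,
        fun y hy => hbd _ (by
          rcases fromCube1_bd hy with h1 | h1
          · exact Or.inl (fromCube1_bd h1)
          · exact Or.inr h1)⟩ with he'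
    have hse : ScatRel γ e' := by
      have h1 := IsScat.precomp hs (fromCube1 : (Fin (k + 1) → I) → _)
      have h2 : (fun q : (Fin (k + 1) → I) × I => e (fromCube1 q.1, q.2)) =
          fun q => e' (toCube1 q) := by
        funext q
        change _ = e (fromCube1 (fromCube1 (toCube1 q)).1, (fromCube1 (toCube1 q)).2)
        rw [fromCube1_toCube1]
      rw [h2] at h1
      exact h1
    refine ⟨cls γ, ?_⟩
    rw [deltaMap_cls hse]
    apply cls_eq_of_unloop2
    have h3 : unloop2 e' = e.comp (swp (Fin k → I)) := by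
      ext1 q
      change e (fromCube1 (fromCube1 (toCube1 (toCube1 (q.1, q.2.2), q.2.1))).1,
        (fromCube1 (toCube1 (toCube1 (q.1, q.2.2), q.2.1))).2) = e ((q.1, q.2.2), q.2.1)
      rw [fromCube1_toCube1, fromCube1_toCube1]
    rw [h3]
    exact heh.trans hg.symm

end Pool.Agent.H50.Susp
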