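import Mathlib
import Pool.Agent.H50.Susp.CapStrong

set_option maxSynthPendingDepth 3

open scoped ContDiff Topology NNReal unitInterval
open Set Function Filter MeasureTheory

namespace Pool.Agent.H50.Susp

open Pool.Agent.Helper17

variable {N : ℕ} {i : Fin N}

/-- The covectors `a` and `b` have positive bracket for all the forms
`(1 - s) ω + s ω` pulled back, `0 ≤ s ≤ 1`, when pulled back by `A`. -/
def PosAdmG (a b : Phase N →L[ℝ] ℝ) (A : Phase N →L[ℝ] Phase N) : Prop :=
  ∀ s ∈ Icc (0 : ℝ) 1, ∀ X : Phase N,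
    (∀ w, (1 - s) * omegaStd X w + s * omegaStd (A X) (A w) = -a (A w)) → 0 < b (A X)

/-- Moser's method for pairs composed with a map. -/
theorem moser_pair_gen {T : Type} [TopologicalSpace T] [CompactSpace T] {T0 : Set T}
    {Ψ : T → Phase N → Phase N} (hΨ : CF Ψ) {R : ℝ} (hR : 0 ≤ R)
    (hΨK : ∀ t x, R < ‖x‖ → Ψ t x = x)
    (hadm : ∀ t x, Admissible (fderiv ℝ (Ψ t) x)) {f g : T → Phase N → ℝ} (hf : CF f) (hg : CF g)
    (hfR : ∀ t p, R < ‖p‖ → f t p = p (Sum.inl i)) (hgR : ∀ t p, R < ‖p‖ → g t p = p (Sum.inr i))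
    (hpos : ∀ t x, PosAdmG (fderiv ℝ (f t) (Ψ t x)) (fderiv ℝ (g t) (Ψ t x))
      (fderiv ℝ (Ψ t) x))
    (hT0 : ∀ t ∈ T0, ∀ x, Ψ t x = x) :
    ∃ φ : C(T, SympCt N), (∀ t ∈ T0, φ t = 1) ∧
      PairHomotopic i T0 (fun t p => f t (Ψ t p)) (fun t p => g t (Ψ t p))
        (fun t p => f t ((φ t : Equiv.Perm (Phase N)) p))
        (fun t p => g t ((φ t : Equiv.Perm (Phase N)) p)) := by
  have hKout : ∀ t, ∀ x ∉ Metric.closedBall (0 : Phase N) R, Ψ t x = x := fun t x hx =>
    hΨK t x (by simpa using hx)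
  obtain ⟨ρ, hρ, hcons, hρK, hρ0, hρid⟩ :=
    moser_family hΨ (isCompact_closedBall (0 : Phase N) R) hKout hadm
  have hHCF : CF (fun (q : T × I) x => Ψ q.1 (ρ q x)) := (hΨ.base continuous_fst).comp hρ
  have hHK : ∀ (q : T × I) x, R < ‖x‖ → Ψ q.1 (ρ q x) = x := by
    intro q x hx
    rw [hρK x (by simpa using hx), hΨK q.1 x hx]
  have hs1 : ∀ (t : T) (x u v : Phase N),
      omegaStd (fderiv ℝ (fun x => Ψ t (ρ (t, 1) x)) x u)
        (fderiv ℝ (fun x => Ψ t (ρ (t, 1) x)) x v) = omegaStd u v := by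
    intro t x u v
    rw [fderiv_comp_family hΨ hρ t 1 x]
    have := hcons t 1 x u v
    simp only [Icc.coe_one, sub_self, zero_mul, one_mul, zero_add] at this
    exact this
  set φ : T → SympCt N := fun t => mkSymp (fun x => Ψ t (ρ (t, 1) x)) (hHCF.contDiff (t, 1))
    ⟨Metric.closedBall 0 R, isCompact_closedBall 0 R, fun x hx => hHK (t, 1) x (by simpa using hx)⟩
    (hs1 t) with hφ
  have hφc : Continuous φ := continuous_of_CF (hHCF.base (h := fun t : T => (t, (1 : I)))
    (continuous_id.prodMk continuous_const)) ⟨Metric.closedBall 0 R, isCompact_closedBall 0 R⟩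
    (fun t x hx => hHK (t, 1) x (by
      have hx' : x ∉ Metric.closedBall (0 : Phase N) R := hx
      simpa using hx')) (fun t x => rfl)
  have hid : ∀ t ∈ T0, ∀ s x, Ψ t (ρ (t, s) x) = x := by
    intro t ht s x
    rw [hρid t (hT0 t ht) s x, hT0 t ht]
  refine ⟨⟨φ, hφc⟩, ?_, R, fun q p => f q.1 (Ψ q.1 (ρ q p)),
    fun q p => g q.1 (Ψ q.1 (ρ q p)), hR, ⟨?_, ?_, ?_, ?_, ?_⟩, ?_, ?_, ?_⟩
  · intro t ht
    apply SympCt.ext'
    intro x
    exact hid t ht 1 x
  · exact (hf.base continuous_fst).comp hHCF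
  · exact (hg.base continuous_fst).comp hHCF
  · intro q p hp
    simp only [hHK q p hp]
    exact hfR _ _ hp
  · intro q p hp
    simp only [hHK q p hp]
    exact hgR _ _ hp
  · rintro ⟨t, s⟩ p
    set B := fderiv ℝ (ρ (t, s)) p with hB
    set A := fderiv ℝ (Ψ t) (ρ (t, s) p) with hA
    have hF : ∀ u : T → Phase N → ℝ, CF u → fderiv ℝ (fun p => u t (Ψ t (ρ (t, s) p))) p =
        (fderiv ℝ (u t) (Ψ t (ρ (t, s) p))).comp (A.comp B) := by
      intro u hu
      have h1 : HasFDerivAt (fun x => Ψ t (ρ (t, s) x)) (A.comp B) p :=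
        HasFDerivAt.comp p (hΨ.differentiable t _).hasFDerivAt (hρ.differentiable (t, s) p).hasFDerivAt
      exact ((hu.differentiable t _).hasFDerivAt.comp p h1).fderiv
    have hBinj : Injective B := by
      rw [injective_iff_map_eq_zero]
      intro v hv
      apply eq_zero_of_omegaStd
      intro w
      rw [← hcons t s p v w, ← hB, hv]
      simp [omegaStd_zero_left]
    have hBsurj : Surjective B := (LinearMap.injective_iff_surjective (f := (B : Phase N →ₗ[ℝ] Phase N))).1 hBinj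
    set V := hamV (fun p => f t (Ψ t (ρ (t, s) p))) p with hV
    have h1 := hpos t (ρ (t, s) p) s s.2 (B V) (by
      intro w'
      obtain ⟨w, rfl⟩ := hBsurj w'
      rw [← hA]
      have h2 := hcons t s p V w
      rw [← hA, ← hB] at h2
      rw [h2, hV, omegaStd_hamV, hF f hf]
      rfl)
    change 0 < fderiv ℝ (fun p => g t (Ψ t (ρ (t, s) p))) p V
    rw [hF g hg]
    exact h1
  · intro t p
    have h1 : ρ (t, 0) p = p := hρ0 t p
    simp only [h1]
    exact ⟨trivial, trivial⟩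
  · intro t p
    exact ⟨rfl, rfl⟩
  · intro t ht s p
    simp only [hid t ht s p, hT0 t ht p]
    exact ⟨trivial, trivial⟩

/-- Symplectic maps preserve the positivity. -/
lemma posAdmG_symp {f g : Phase N → ℝ} {A : Phase N →L[ℝ] Phase N} {q : Phase N}
    (hA : ∀ u v, omegaStd (A u) (A v) = omegaStd u v)
    (hpos : 0 < fderiv ℝ g q (hamV f q)) :
    PosAdmG (fderiv ℝ f q) (fderiv ℝ g q) A := by
  intro s hs X hX
  have h1 : A X = hamV f q := by
    rw [← sub_eq_zero]
    apply eq_zero_of_omegaStd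
    intro w'
    obtain ⟨w, rfl⟩ := symp_surjective hA w'
    have h2 := hX w
    rw [hA] at h2
    rw [omegaStd_sub_left, hA, omegaStd_hamV]
    linarith
  rw [h1]
  exact hpos

end Pool.Agent.H50.Susp
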