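import Mathlib
import Pool.Agent.H50.Susp.MoserGen

set_option maxSynthPendingDepth 3

open scoped ContDiff Topology NNReal unitInterval
open Set Function Filter MeasureTheory

namespace Pool.Agent.H50.Susp

open Pool.Agent.Helper17

/-- A symplectic map preserving `x_i` and equal to the identity on the left is the identity. -/
lemma eq_id_of_energy {N : ℕ} {i : Fin N} {η : Phase N → Phase N} (hη : ContDiff ℝ ∞ η)
    (hs : ∀ p u v, omegaStd (fderiv ℝ η p u) (fderiv ℝ η p v) = omegaStd u v)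
    (hx : ∀ p, (η p) (Sum.inl i) = p (Sum.inl i)) {r : ℝ}
    (hl : ∀ p, p (Sum.inr i) < -r → η p = p) (p : Phase N) : η p = p := by
  have hd : Differentiable ℝ η := hη.differentiable (by simp)
  have h1 : ∀ p, fderiv ℝ η p (eY i) = eY i := by
    intro p
    rw [← sub_eq_zero]
    apply eq_zero_of_omegaStd
    intro w'
    obtain ⟨w, rfl⟩ := symp_surjective (hs p) w'
    have h2 : (coordL (Sum.inl i)).comp (fderiv ℝ η p) = coordL (Sum.inl i) := by
      have h3 : HasFDerivAt (fun p => coordL (Sum.inl i) (η p))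
          ((coordL (Sum.inl i)).comp (fderiv ℝ η p)) p :=
        (coordL (Sum.inl i)).hasFDerivAt.comp p (hd p).hasFDerivAt
      have h4 : (fun p => coordL (Sum.inl i) (η p)) = fun p => coordL (Sum.inl i) p :=
        funext fun p => hx p
      rw [h4] at h3
      exact h3.unique (coordL (Sum.inl i)).hasFDerivAt
    have h3 : (fderiv ℝ η p w) (Sum.inl i) = w (Sum.inl i) :=
      congrArg (fun L : Phase N →L[ℝ] ℝ => L w) h2
    rw [omegaStd_sub_left, hs, omegaStd_eY, omegaStd_eY, h3, sub_self]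
  have hc : ∀ s : ℝ, HasDerivAt (fun s : ℝ => η (p + s • eY i) - s • (eY i : Phase N)) 0 s := by
    intro s
    have h2 : HasDerivAt (fun s : ℝ => p + s • (eY i : Phase N)) ((1 : ℝ) • eY i) s :=
      ((hasDerivAt_id s).smul_const (eY i)).const_add p
    have h3 : HasDerivAt (fun s : ℝ => η (p + s • eY i))
        (fderiv ℝ η (p + s • eY i) ((1 : ℝ) • eY i)) s :=
      (hd _).hasFDerivAt.comp_hasDerivAt s h2
    have h4 : HasDerivAt (fun s : ℝ => s • (eY i : Phase N)) ((1 : ℝ) • eY i) s :=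
      (hasDerivAt_id s).smul_const _
    have h5 := h3.sub h4
    rwa [one_smul, h1, sub_self] at h5
  set s : ℝ := -(r + 1 + p (Sum.inr i)) with hsdef
  have h2 : η (p + s • eY i) - s • (eY i : Phase N) = η (p + (0 : ℝ) • eY i) - (0 : ℝ) • eY i :=
    is_const_of_deriv_eq_zero (f := fun s : ℝ => η (p + s • eY i) - s • (eY i : Phase N))
      (fun s => (hc s).differentiableAt) (fun s => (hc s).deriv) s 0
  have h3 : η (p + s • eY i) = p + s • eY i := by
    apply hl
    rw [PiLp.add_apply, PiLp.smul_apply, eY_inr, smul_eq_mul, mul_one, hsdef]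
    linarith
  rw [h3, zero_smul, add_zero, sub_zero, add_sub_cancel_right] at h2
  exact h2.symm

variable {n : ℕ} {T : Type} [TopologicalSpace T] [CompactSpace T]

/-- The quotient of two straightenings is a straightening. -/
theorem StraightFam.quot {R : ℝ} (hR : 0 ≤ R) {f f' : T → Phase (n + 1) → ℝ}
    {Φ Ψ Φ' Ψ' : T → Phase (n + 1) → Phase (n + 1)} (h : StraightFam 0 R f Φ Ψ)
    (hstd : ∀ t p, R < ‖p‖ → f t p = p (Sum.inl 0)) (h' : StraightFam 0 R f' Φ' Ψ')
    (hstd' : ∀ t p, R < ‖p‖ → f' t p = p (Sum.inl 0)) :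
    ∃ R₁, R ≤ R₁ ∧ StraightFam 0 R₁ (fun t p => (Ψ t (Φ' t p)) (Sum.inl 0))
      (fun t p => Ψ t (Φ' t p)) (fun t p => Ψ' t (Φ t p)) ∧
      (∀ t (p : Phase (n + 1)), R₁ < ‖p‖ → (Ψ t (Φ' t p)) (Sum.inl 0) = p (Sum.inl 0)) ∧
      (∀ t (p : Phase (n + 1)), R₁ < p (Sum.inr 0) → R < (Φ' t p) (Sum.inr 0) ∧
        R < (Ψ t (Φ' t p)) (Sum.inr 0)) := by
  obtain ⟨C, hC0, hC, hC'⟩ := h.exists_disp hR
  obtain ⟨D, hD0, hD, -⟩ := h'.exists_disp hR
  have hleft : ∀ t (p : Phase (n + 1)), p (Sum.inr 0) < -R → Ψ t (Φ' t p) = p := by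
    intro t p hp
    rw [h'.left t p hp, h.left' t p hp]
  have hside : ∀ t (p : Phase (n + 1)), R < ‖Susp.side 0 p‖ → Ψ t (Φ' t p) = p := by
    intro t p hp
    rw [h'.side t p hp, h.side' t p hp]
  have hright : ∀ t (p : Phase (n + 1)), R + C + D < p (Sum.inr 0) →
      R + C < (Φ' t p) (Sum.inr 0) ∧ R < (Ψ t (Φ' t p)) (Sum.inr 0) := by
    intro t p hp
    have h1 := y_disp_le (i := (0 : Fin (n + 1))) (hD t p)
    have h2 := y_disp_le (i := (0 : Fin (n + 1))) (hC' t (Φ' t p))
    rw [abs_le] at h1 h2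
    constructor
    · linarith [h1.1]
    · linarith [h1.1, h2.1]
  have hxr : ∀ t (p : Phase (n + 1)), R + C + D < p (Sum.inr 0) →
      (Ψ t (Φ' t p)) (Sum.inl 0) = p (Sum.inl 0) := by
    intro t p hp
    obtain ⟨h1, h2⟩ := hright t p hp
    have h3 : R < ‖Ψ t (Φ' t p)‖ := by
      have := abs_coord_le (Ψ t (Φ' t p)) (Sum.inr 0)
      linarith [le_abs_self ((Ψ t (Φ' t p)) (Sum.inr 0))]
    have h4 : R < ‖p‖ := by
      have := abs_coord_le p (Sum.inr 0)
      linarith [le_abs_self (p (Sum.inr 0))]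
    rw [← hstd t _ h3, ← h.energy, h.inv_right, h'.energy, hstd' t p h4]
  have hcf : CF (fun t p => Ψ t (Φ' t p)) := h.cf'.comp h'.cf
  have hcf' : CF (fun t p => Ψ' t (Φ t p)) := h'.cf'.comp h.cf
  have hsymp : ∀ t p u v, omegaStd (fderiv ℝ (fun p => Ψ t (Φ' t p)) p u)
      (fderiv ℝ (fun p => Ψ t (Φ' t p)) p v) = omegaStd u v := by
    intro t p u v
    have h1 : HasFDerivAt (fun p => Ψ t (Φ' t p))
        ((fderiv ℝ (Ψ t) (Φ' t p)).comp (fderiv ℝ (Φ' t) p)) p :=
      (h.cf'.differentiable t _).hasFDerivAt.comp p (h'.cf.differentiable t p).hasFDerivAt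
    rw [h1.fderiv]
    simp only [ContinuousLinearMap.comp_apply]
    rw [h.symp', h'.symp]
  refine ⟨R + (R + C + D), by linarith, ⟨hcf, hcf', ?_, ?_, hsymp, ?_, ?_, ?_, fun t p => rfl, ?_⟩,
    ?_, ?_⟩
  · intro t p
    simp only [h.inv_right, h'.inv_left]
  · intro t p
    simp only [h'.inv_right, h.inv_left]
  · intro t p hp
    exact hleft t p (by linarith)
  · intro t p hp
    exact hside t p (by linarith)
  · intro t p a hp ha
    rw [h'.shift t p a (by linarith) ha]
    have h1 : Ψ t (Φ' t p + a • eY 0) - (Φ' t p + a • eY 0) = Ψ t (Φ' t p) - Φ' t p :=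
      (h.endInv' hC0 hC').shift t (Φ' t p) a (hright t p (by linarith)).1 ha
    rw [sub_eq_iff_eq_add] at h1
    rw [h1]
    abel
  · intro t φ hφ p
    obtain ⟨-, -, -, K, hK, hφK⟩ := φ.2
    obtain ⟨r, hr⟩ := hK.isBounded.subset_closedBall (0 : Phase (n + 1))
    set η : Phase (n + 1) → Phase (n + 1) := fun q =>
      (φ : Equiv.Perm (Phase (n + 1))) (Ψ' t (Φ t q)) with hη
    have h1 : ∀ q, η q = q := by
      apply eq_id_of_energy (i := 0) (r := max R |r|)
      · exact (SympCt.contDiff φ).comp (hcf'.contDiff t)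
      · intro q u v
        have h2 : HasFDerivAt η ((fderiv ℝ (φ : Equiv.Perm (Phase (n + 1))) (Ψ' t (Φ t q))).comp
            ((fderiv ℝ (Ψ' t) (Φ t q)).comp (fderiv ℝ (Φ t) q))) q :=
          (SympCt.differentiable φ _).hasFDerivAt.comp q
            ((h'.cf'.differentiable t _).hasFDerivAt.comp q (h.cf.differentiable t q).hasFDerivAt)
        rw [h2.fderiv]
        simp only [ContinuousLinearMap.comp_apply]
        rw [φ.2.2.2.1, h'.symp', h.symp]
      · intro q
        rw [hη]
        simp only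
        rw [← hφ]
        simp only
        rw [h'.inv_right, h.inv_left]
      · intro q hq
        have h2 : q (Sum.inr 0) < -R := by
          have := le_max_left R |r|
          linarith
        have h3 : q ∉ K := by
          intro hmem
          have h4 := hr hmem
          rw [mem_closedBall_zero_iff] at h4
          have h5 := abs_coord_le q (Sum.inr 0)
          have h6 := neg_abs_le (q (Sum.inr 0))
          have h7 := le_max_right R |r|
          linarith [le_abs_self r]
        rw [hη]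
        simp only
        rw [h.left t q h2, h'.left' t q h2, hφK q h3]
    have h2 := h1 (Ψ t (Φ' t p))
    rw [hη] at h2
    simp only [h.inv_right, h'.inv_left] at h2
    exact h2.symm
  · intro t p hp
    by_cases h1 : R < ‖Susp.side 0 p‖
    · rw [hside t p h1]
    by_cases h2 : p (Sum.inr 0) < -R
    · rw [hleft t p h2]
    push Not at h1 h2
    apply hxr
    have h3 : ‖p‖ ≤ ‖Susp.side 0 p‖ + |p (Sum.inr 0)| := by
      calc ‖p‖ = ‖Susp.side 0 p + p (Sum.inr 0) • (eY 0 : Phase (n + 1))‖ := by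
            rw [← side_eq_self_sub]
        _ ≤ ‖Susp.side 0 p‖ + ‖p (Sum.inr 0) • (eY 0 : Phase (n + 1))‖ := norm_add_le _ _
        _ = ‖Susp.side 0 p‖ + |p (Sum.inr 0)| := by
            rw [norm_smul, norm_eY, mul_one, Real.norm_eq_abs]
    have h4 : R + C + D < |p (Sum.inr 0)| := by linarith
    rw [lt_abs] at h4
    rcases h4 with h4 | h4
    · exact h4
    · linarith
  · intro t p hp
    obtain ⟨h1, h2⟩ := hright t p (by linarith)
    exact ⟨by linarith, h2⟩

end Pool.Agent.H50.Susp
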