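import Mathlib
import Pool.Agent.H50.Susp.StraightQuot
import Pool.Agent.H50.Susp.Joint

set_option maxSynthPendingDepth 3

open scoped ContDiff Topology NNReal unitInterval
open Set Function Filter MeasureTheory

namespace Pool.Agent.H50.Susp

open Pool.Agent.Helper17 Pool.Agent.Helper42

variable {n : ℕ} {T : Type} [TopologicalSpace T] [CompactSpace T]

lemma sclL_norm_le {l : ℝ} (hl : 1 ≤ l) (p : Phase (n + 1)) : ‖sclL n l p‖ ≤ l * ‖p‖ := by
  have hl0 : 0 < l := by linarith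
  apply le_of_sq_le_sq _ (by positivity)
  rw [mul_pow, norm_sq_succ (sclL n l p), norm_sq_succ p, sclL_apply]
  simp only [mkP_x, mkP_y, wL_mkP, mul_pow, inv_pow]
  have h2 : 1 ≤ l ^ 2 := one_le_pow₀ hl
  have h3 : (l ^ 2)⁻¹ ≤ 1 := inv_le_one_of_one_le₀ h2
  have h4 : (l ^ 2)⁻¹ * p (Sum.inl 0) ^ 2 ≤ l ^ 2 * p (Sum.inl 0) ^ 2 :=
    mul_le_mul_of_nonneg_right (h3.trans h2) (sq_nonneg _)
  have h5 : ‖wL n p‖ ^ 2 ≤ l ^ 2 * ‖wL n p‖ ^ 2 := by
    have a1 : 1 * ‖wL n p‖ ^ 2 ≤ l ^ 2 * ‖wL n p‖ ^ 2 :=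
      mul_le_mul_of_nonneg_right h2 (sq_nonneg _)
    linarith
  rw [mul_add, mul_add]
  linarith

/-- Conjugation by the inverse scaling. -/
lemma exists_scl_conj_inv (f : C(T, SympCt (n + 1))) {Λ : ℝ} (hΛ : 1 ≤ Λ) :
    ∃ g : C(T, SympCt (n + 1)), ∀ t p, (g t : Equiv.Perm (Phase (n + 1))) p =
      sclL n Λ ((f t : Equiv.Perm (Phase (n + 1))) (sclL n Λ⁻¹ p)) := by
  obtain ⟨hfCF, -, -⟩ := CF_of_continuous f.continuous
  obtain ⟨ρ, hρ0, hρ⟩ := exists_radius f
  have hΛ0 : Λ ≠ 0 := by linarith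
  set G : T → Phase (n + 1) → Phase (n + 1) := fun t p =>
    sclL n Λ ((f t : Equiv.Perm (Phase (n + 1))) (sclL n Λ⁻¹ p)) with hG
  have hGCF : CF G := (hfCF.comp (CF.const (sclL n Λ⁻¹).contDiff)).clm (sclL n Λ)
  have hGout : ∀ t p, Λ * ρ < ‖p‖ → G t p = p := by
    intro t p hp
    have h1 := sclL_norm_le hΛ (sclL n Λ⁻¹ p)
    rw [sclL_inv' hΛ0] at h1
    have h2 : Λ * ρ < Λ * ‖sclL n Λ⁻¹ p‖ := by linarith
    have h3 : ρ < ‖sclL n Λ⁻¹ p‖ := lt_of_mul_lt_mul_left h2 (by linarith)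
    simp only [hG]
    rw [hρ t _ h3, sclL_inv' hΛ0]
  have hGs : ∀ t p u v, omegaStd (fderiv ℝ (G t) p u) (fderiv ℝ (G t) p v) = omegaStd u v := by
    intro t p u v
    have h1 : HasFDerivAt (G t) ((sclL n Λ).comp
        ((fderiv ℝ (f t : Equiv.Perm (Phase (n + 1))) (sclL n Λ⁻¹ p)).comp (sclL n Λ⁻¹))) p :=
      (sclL n Λ).hasFDerivAt.comp p ((SympCt.differentiable (f t) _).hasFDerivAt.comp p
        (sclL n Λ⁻¹).hasFDerivAt)
    rw [h1.fderiv]
    simp only [ContinuousLinearMap.comp_apply]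
    rw [omegaStd_sclL hΛ0, (f t).2.2.2.1, omegaStd_sclL (inv_ne_zero hΛ0)]
  set H : T → SympCt (n + 1) := fun t => mkSymp (G t) (hGCF.contDiff t)
    ⟨Metric.closedBall 0 (Λ * ρ), isCompact_closedBall 0 _,
      fun x hx => hGout t x (by simpa using hx)⟩ (hGs t) with hH
  have hHc : Continuous H := continuous_of_CF hGCF
    ⟨Metric.closedBall 0 (Λ * ρ), isCompact_closedBall 0 _⟩ (fun t x hx => hGout t x (by
      have hx' : x ∉ Metric.closedBall (0 : Phase (n + 1)) (Λ * ρ) := hx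
      simpa using hx')) (fun t x => rfl)
  exact ⟨⟨H, hHc⟩, fun t p => rfl⟩

/-- The derivative of a symplectomorphism maps Hamiltonian vector fields to such. -/
lemma map_hamV_comp {N : ℕ} {f : Phase N → ℝ} (hf : Differentiable ℝ f) (φ : SympCt N)
    (p : Phase N) :
    fderiv ℝ (φ : Equiv.Perm (Phase N)) p (hamV (fun p => f ((φ : Equiv.Perm (Phase N)) p)) p) =
      hamV f ((φ : Equiv.Perm (Phase N)) p) := by
  set A := fderiv ℝ (φ : Equiv.Perm (Phase N)) p with hA
  have hAs : ∀ u v, omegaStd (A u) (A v) = omegaStd u v := fun u v => φ.2.2.2.1 p u v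
  rw [← sub_eq_zero]
  apply eq_zero_of_omegaStd
  intro w'
  obtain ⟨w, rfl⟩ := symp_surjective hAs w'
  have h1 : HasFDerivAt (fun p => f ((φ : Equiv.Perm (Phase N)) p))
      ((fderiv ℝ f ((φ : Equiv.Perm (Phase N)) p)).comp A) p :=
    (hf _).hasFDerivAt.comp p (SympCt.differentiable φ p).hasFDerivAt
  rw [omegaStd_sub_left, hAs, omegaStd_hamV, omegaStd_hamV, h1.fderiv]
  simp

/-- Families of symplectomorphisms act on families of pairs. -/
lemma PosPair.act {N : ℕ} {i : Fin N} {T : Type} [TopologicalSpace T] {R ρ : ℝ}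
    {f g : T → Phase N → ℝ} (h : PosPair i R f g) {φ : T → SympCt N}
    (hφ : CF (fun t x => (φ t : Equiv.Perm (Phase N)) x))
    (hρ : ∀ t (p : Phase N), ρ < ‖p‖ → (φ t : Equiv.Perm (Phase N)) p = p) :
    PosPair i (max R ρ) (fun t p => f t ((φ t : Equiv.Perm (Phase N)) p))
      (fun t p => g t ((φ t : Equiv.Perm (Phase N)) p)) := by
  refine ⟨h.cf.comp hφ, h.cg.comp hφ, ?_, ?_, ?_⟩
  · intro t p hp
    rw [max_lt_iff] at hp
    beta_reduce
    rw [hρ t p hp.2, h.fstd t p hp.1]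
  · intro t p hp
    rw [max_lt_iff] at hp
    beta_reduce
    rw [hρ t p hp.2, h.gstd t p hp.1]
  · intro t p
    have h1 : HasFDerivAt (fun p => g t ((φ t : Equiv.Perm (Phase N)) p))
        ((fderiv ℝ (g t) ((φ t : Equiv.Perm (Phase N)) p)).comp
          (fderiv ℝ (φ t : Equiv.Perm (Phase N)) p)) p :=
      (h.cg.differentiable t _).hasFDerivAt.comp p (SympCt.differentiable (φ t) p).hasFDerivAt
    rw [h1.fderiv]
    simp only [ContinuousLinearMap.comp_apply]
    rw [map_hamV_comp (h.cf.differentiable t)]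
    exact h.pos t _

/-- The scattering is invariant under the action. -/
theorem exists_isScat_act {R : ℝ} (hR : 0 ≤ R) {f g : T → Phase (n + 1) → ℝ}
    (hfg : PosPair 0 R f g) (φ : C(T, SympCt (n + 1))) :
    ∃ e : C(T × I, SympCt n), IsScat f e ∧
      IsScat (fun t p => f t ((φ t : Equiv.Perm (Phase (n + 1))) p)) e := by
  obtain ⟨Φ, Ψ, h⟩ := exists_straightFam hR hfg
  obtain ⟨r, hr0, hr⟩ := exists_radius φ
  set ρ := max R r + 1 with hρ
  have hρR : R < ρ := by have := le_max_left R r; linarith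
  have hρr : r < ρ := by have := le_max_right R r; linarith
  have h1 : ∀ t, ScatAt ρ (f t) (fun τ => scatE h hfg.fstd ρ (t, τ)) := fun t =>
    scatAt_scatE h hfg.fstd hρR t
  refine ⟨scatE h hfg.fstd ρ, isScat_iff.2 ⟨ρ, by linarith, h1⟩,
    isScat_iff.2 ⟨ρ, by linarith, fun t => ⟨fun p hp => ?_, ?_⟩⟩⟩
  · beta_reduce
    rw [hr t p (by linarith)]
    exact (h1 t).1 p hp
  · intro c hc a b τ ha hb hx
    have hcs : ∀ s, HasDerivAt (fun s => (φ t : Equiv.Perm (Phase (n + 1))) (c s))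
        (hamV (f t) ((φ t : Equiv.Perm (Phase (n + 1))) (c s))) s := by
      intro s
      have h2 := (SympCt.differentiable (φ t) (c s)).hasFDerivAt.comp_hasDerivAt s (hc s)
      rwa [map_hamV_comp (hfg.cf.differentiable t)] at h2
    have na : r < ‖c a‖ := by
      have h2 := abs_coord_le (c a) (Sum.inr 0)
      have h3 := neg_abs_le ((c a) (Sum.inr 0))
      linarith
    have nb : r < ‖c b‖ := by
      have h2 := abs_coord_le (c b) (Sum.inr 0)
      have h3 := le_abs_self ((c b) (Sum.inr 0))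
      linarith
    have h2 := (h1 t).2 _ hcs a b τ
    simp only [hr t _ na, hr t _ nb] at h2
    exact h2 ha hb hx

/-- Two families of pairs with homotopic scatterings differ by a family of symplectomorphisms. -/
theorem exists_pairHomotopic_act {T0 : Set T} {R : ℝ} (hR : 0 ≤ R)
    {f g f' g' : T → Phase (n + 1) → ℝ} (hfg : PosPair 0 R f g) (hfg' : PosPair 0 R f' g')
    (hT0 : ∀ t ∈ T0, ∀ p, f t p = p (Sum.inl 0) ∧ g t p = p (Sum.inr 0))
    (hT0' : ∀ t ∈ T0, ∀ p, f' t p = p (Sum.inl 0) ∧ g' t p = p (Sum.inr 0))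
    {e e' : C(T × I, SympCt n)} (he : IsScat f e) (he' : IsScat f' e')
    (hee : e.HomotopicRel e' {q | q.1 ∈ T0 ∨ q.2 = 0 ∨ q.2 = 1}) :
    ∃ φ : C(T, SympCt (n + 1)), (∀ t ∈ T0, φ t = 1) ∧
      PairHomotopic 0 T0 f' g' (fun t p => f t ((φ t : Equiv.Perm (Phase (n + 1))) p))
        (fun t p => g t ((φ t : Equiv.Perm (Phase (n + 1))) p)) := by
  obtain ⟨Φ, Ψ, h⟩ := exists_straightFam hR hfg
  obtain ⟨Φ', Ψ', h'⟩ := exists_straightFam hR hfg'
  have hid : ∀ t ∈ T0, ∀ p, Φ t p = p := fun t ht p => h.eq_id t (fun p => (hT0 t ht p).1) p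
  have hid' : ∀ t ∈ T0, ∀ p, Φ' t p = p := fun t ht p =>
    h'.eq_id t (fun p => (hT0' t ht p).1) p
  have hidi : ∀ t ∈ T0, ∀ p, Ψ t p = p := fun t ht p =>
    h.eq_id' t (fun p => (hT0 t ht p).1) p
  obtain ⟨R₁, hRR₁, hq, hq1, hq2⟩ := h.quot hR hfg.fstd h' hfg'.fstd
  have hR₁ : 0 ≤ R₁ := hR.trans hRR₁
  set Ξ : T → Phase (n + 1) → Phase (n + 1) := fun t p => Ψ t (Φ' t p) with hΞ
  have hΞid : ∀ t ∈ T0, ∀ p, Ξ t p = p := by
    intro t ht p
    simp only [hΞ]
    rw [hid' t ht, hidi t ht]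
  -- the scattering of the quotient
  set ρ := R₁ + 1 with hρ
  set E := scatE h hfg.fstd ρ with hE
  set E' := scatE h' hfg'.fstd ρ with hE'
  have hEE : E.HomotopicRel E' {q | q.1 ∈ T0 ∨ q.2 = 0 ∨ q.2 = 1} := by
    have a1 := IsScat.homotopic (fun t ht p => (hT0 t ht p).1)
      (PairHomotopic.refl (T0 := T0) hR hfg)
      (isScat_scatE h hR hfg.fstd (show R < ρ by linarith)) he
    have a2 := IsScat.homotopic (fun t ht p => (hT0' t ht p).1)
      (PairHomotopic.refl (T0 := T0) hR hfg')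
      (isScat_scatE h' hR hfg'.fstd (show R < ρ by linarith)) he'
    exact (a1.trans hee).trans a2.symm
  have hEbd : ∀ q : T × I, (q.1 ∈ T0 ∨ q.2 = 0 ∨ q.2 = 1) → E q = 1 := by
    rintro ⟨t, τ⟩ hq
    apply SympCt.ext'
    intro w
    rw [hE, scatE_apply]
    rcases hq with hq | hq
    · rw [endW, hid t hq, wL_mkP]
      rfl
    · exact (h.end_eq t (Or.inl (by rw [abs_lev (by linarith) hq]; linarith))).1
  set e₀ := scatE hq hq1 ρ with he₀
  have hE0 : ∀ q, E q * e₀ q = E' q := by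
    rintro ⟨t, τ⟩
    apply SympCt.ext'
    intro w
    set x := lev ρ τ with hx
    have h1 := h'.right_eq hfg'.fstd t (x := x) (y := ρ) w (by linarith)
    obtain ⟨h2, h3⟩ := hq2 t (mkP x ρ w) (by rw [mkP_y]; linarith)
    set p' := Ξ t (mkP x ρ w) with hp'
    have h4 : Φ t p' = Φ' t (mkP x ρ w) := h.inv_right t _
    have h5 := h.right_eq hfg.fstd t (x := p' (Sum.inl 0)) (y := p' (Sum.inr 0)) (wL n p') h3
    rw [mkP_eta, h4, h1] at h5
    have h6 := congrArg (fun p : Phase (n + 1) => p (Sum.inl 0)) h5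
    have h7 := congrArg (wL n) h5
    simp only [mkP_x] at h6
    rw [wL_mkP, wL_mkP, ← h6] at h7
    change endW Φ R t (lev ρ τ, endW Ξ R₁ t (lev ρ τ, w)) = endW Φ' R t (lev ρ τ, w)
    rw [← hx]
    have h8 : endW Ξ R₁ t (x, w) = wL n p' := rfl
    rw [h8]
    exact h7.symm
  have hnull : e₀.HomotopicRel (ContinuousMap.const _ 1) {q | q.1 ∈ T0 ∨ q.2 = 0 ∨ q.2 = 1} := by
    obtain ⟨K⟩ := hEE
    have hKc : Continuous (fun r : I × (T × I) => (E r.2)⁻¹ * K r) :=
      continuous_mul_family (continuous_inv_family (E.continuous.comp continuous_snd))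
        K.continuous
    apply ContinuousMap.HomotopicRel.symm
    refine ⟨{ toFun := fun r => (E r.2)⁻¹ * K r
              continuous_toFun := hKc
              map_zero_left := fun q => ?_
              map_one_left := fun q => ?_
              prop' := fun s q hq => ?_ }⟩
    · have h1 : K (0, q) = E q := K.map_zero_left q
      simp only [h1, inv_mul_cancel]
      rfl
    · have h1 : K (1, q) = E' q := K.map_one_left q
      simp only [h1, ← hE0 q, inv_mul_cancel_left]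
    · change (E q)⁻¹ * K (s, q) = 1
      have h1 : K (s, q) = E q := K.prop' s q hq
      rw [h1, inv_mul_cancel]
  obtain ⟨Λ, R', F, hΛ1, hR', hFCF, hFout, hFT, -, hadm, hpos, hF1, hF2⟩ :=
    hq.exists_cap' hR₁ hq1 (T1 := T0) (fun t ht q => ⟨by rw [endW, hΞid t ht, wL_mkP],
      by rw [endH, hΞid t ht, mkP_y, sub_self]⟩) hnull
  have hΛ0 : Λ ≠ 0 := by linarith
  have hΛp : 0 < Λ := by linarith
  have hFid : ∀ t ∈ T0, ∀ p, F t p = p := by
    intro t ht p
    rw [hFT t ht, sclPhi, hΞid t ht, sclL_inv hΛ0]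
  -- the scaled pairs
  have hs := pairHomotopic_scale hR hfg hT0 hΛ1
  have hs' := pairHomotopic_scale hR hfg' hT0' hΛ1
  obtain ⟨Ra, hRa, hPa⟩ := hs.symm.left_posPair
  obtain ⟨Rb, hRb, hPb⟩ := hs'.symm.left_posPair
  have hbig : ∀ p : Phase (n + 1), R₁ + 1 ≤ p (Sum.inr 0) → R < ‖sclL n Λ p‖ := by
    intro p hp
    have h2 := abs_coord_le (sclL n Λ p) (Sum.inr 0)
    rw [sclL_apply, mkP_y] at h2
    have h3 := le_abs_self (Λ * p (Sum.inr 0))
    have h4 : p (Sum.inr 0) ≤ Λ * p (Sum.inr 0) := by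
      have := mul_le_mul_of_nonneg_right hΛ1 (show 0 ≤ p (Sum.inr 0) by linarith)
      linarith
    rw [← sclL_apply] at h2
    linarith
  have hfx : ∀ (u : T → Phase (n + 1) → ℝ), (∀ t p, R < ‖p‖ → u t p = p (Sum.inl 0)) →
      ∀ t (p : Phase (n + 1)), R₁ + 1 ≤ p (Sum.inr 0) → Λ * u t (sclL n Λ p) = p (Sum.inl 0) := by
    intro u hu t p hp
    rw [hu t _ (hbig p hp), sclL_apply, mkP_x, ← mul_assoc, mul_inv_cancel₀ hΛ0, one_mul]
  have hgx : ∀ t (p : Phase (n + 1)), R₁ + 1 ≤ p (Sum.inr 0) →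
      Λ⁻¹ * g t (sclL n Λ p) = p (Sum.inr 0) := by
    intro t p hp
    rw [hfg.gstd t _ (hbig p hp), sclL_apply, mkP_y, ← mul_assoc, inv_mul_cancel₀ hΛ0, one_mul]
  have hFf : ∀ t p, Λ * f t (sclL n Λ (F t p)) = Λ * f' t (sclL n Λ p) := by
    intro t p
    by_cases hy : p (Sum.inr 0) < R₁ + 2
    · rw [hF1 t p hy, sclPhi, sclL_inv' hΛ0]
      simp only [hΞ]
      rw [← h.energy, h.inv_right, h'.energy]
    · push Not at hy
      obtain ⟨h1, h2⟩ := hF2 t p hy
      rw [hfx f hfg.fstd t _ h2, hfx f' hfg'.fstd t p (by linarith), h1]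
  set Rm := max R' Ra with hRm
  obtain ⟨φ, hφ1, hφ⟩ := moser_pair_gen (i := 0) (T0 := T0) hFCF (hR'.trans (le_max_left R' Ra))
    (fun t x hx => hFout t x ((le_max_left _ _).trans_lt hx)) hadm hPa.cf hPa.cg
    (fun t p hp => hPa.fstd t p ((le_max_right _ _).trans_lt hp))
    (fun t p hp => hPa.gstd t p ((le_max_right _ _).trans_lt hp)) (by
      intro t x
      by_cases hy : x (Sum.inr 0) < R₁ + 2
      · have hU : IsOpen {p : Phase (n + 1) | p (Sum.inr 0) < R₁ + 2} :=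
          isOpen_lt (coordL (Sum.inr 0)).continuous continuous_const
        have h1 : F t =ᶠ[𝓝 x] sclPhi Ξ Λ t := by
          filter_upwards [hU.mem_nhds hy] with z hz
          exact hF1 t z hz
        apply posAdmG_symp
        · intro u v
          rw [h1.fderiv_eq]
          exact sclPhi_symp hq hΛ0 t x u v
        · exact hPa.pos t _
      · push Not at hy
        obtain ⟨-, h2⟩ := hF2 t x hy
        have hU : IsOpen {p : Phase (n + 1) | R < Λ * p (Sum.inr 0)} :=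
          isOpen_lt continuous_const (continuous_const.mul (coordL (Sum.inr 0)).continuous)
        have hmem : R < Λ * (F t x) (Sum.inr 0) := by
          have := mul_le_mul_of_nonneg_right hΛ1 (show 0 ≤ (F t x) (Sum.inr 0) by linarith)
          linarith
        have hbig' : ∀ p : Phase (n + 1), R < Λ * p (Sum.inr 0) → R < ‖sclL n Λ p‖ := by
          intro p hp
          have h3 := abs_coord_le (sclL n Λ p) (Sum.inr 0)
          rw [sclL_apply, mkP_y, ← sclL_apply] at h3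
          linarith [le_abs_self (Λ * p (Sum.inr 0))]
        have e1 : (fun p => Λ * f t (sclL n Λ p)) =ᶠ[𝓝 (F t x)] fun p => coordL (Sum.inl 0) p := by
          filter_upwards [hU.mem_nhds hmem] with z hz
          rw [hfg.fstd t _ (hbig' z hz), sclL_apply, mkP_x, ← mul_assoc, mul_inv_cancel₀ hΛ0,
            one_mul]
          rfl
        have e2 : (fun p => Λ⁻¹ * g t (sclL n Λ p)) =ᶠ[𝓝 (F t x)]
            fun p => coordL (Sum.inr 0) p := by
          filter_upwards [hU.mem_nhds hmem] with z hz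
          rw [hfg.gstd t _ (hbig' z hz), sclL_apply, mkP_y, ← mul_assoc, inv_mul_cancel₀ hΛ0,
            one_mul]
          rfl
        rw [e1.fderiv_eq, e2.fderiv_eq, (coordL (Sum.inl 0)).fderiv, (coordL (Sum.inr 0)).fderiv]
        exact hpos t x) hFid
  -- unscaling
  obtain ⟨ψ, hψ⟩ := exists_scl_conj_inv φ hΛ1
  have hψ1 : ∀ t ∈ T0, ψ t = 1 := by
    intro t ht
    apply SympCt.ext'
    intro p
    rw [hψ, hφ1 t ht]
    exact sclL_inv' hΛ0 p
  refine ⟨ψ, hψ1, ?_⟩
  obtain ⟨hψCF, -, -⟩ := CF_of_continuous ψ.continuous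
  obtain ⟨rψ, hrψ0, hrψ⟩ := exists_radius ψ
  have hPψ := hfg.act hψCF hrψ
  have hψT : ∀ t ∈ T0, ∀ p : Phase (n + 1), f t ((ψ t : Equiv.Perm (Phase (n + 1))) p) =
      p (Sum.inl 0) ∧ g t ((ψ t : Equiv.Perm (Phase (n + 1))) p) = p (Sum.inr 0) := by
    intro t ht p
    rw [hψ1 t ht]
    exact hT0 t ht p
  have hsψ := pairHomotopic_scale (hR.trans (le_max_left R rψ)) hPψ hψT hΛ1
  have e1 : (fun t p => Λ * f t (sclL n Λ ((φ t : Equiv.Perm (Phase (n + 1))) p))) =
      fun t p => Λ * f t ((ψ t : Equiv.Perm (Phase (n + 1))) (sclL n Λ p)) := by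
    funext t p
    rw [hψ, sclL_inv hΛ0]
  have e2 : (fun t p => Λ⁻¹ * g t (sclL n Λ ((φ t : Equiv.Perm (Phase (n + 1))) p))) =
      fun t p => Λ⁻¹ * g t ((ψ t : Equiv.Perm (Phase (n + 1))) (sclL n Λ p)) := by
    funext t p
    rw [hψ, sclL_inv hΛ0]
  have e3 : (fun t p => Λ * f t (sclL n Λ (F t p))) = fun t p => Λ * f' t (sclL n Λ p) := by
    funext t p
    exact hFf t p
  rw [e1, e2, e3] at hφ
  obtain ⟨Rc, hRc, hPc⟩ := hφ.left_posPair
  have hmid : PairHomotopic 0 T0 (fun t p => Λ * f' t (sclL n Λ p))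
      (fun t p => Λ⁻¹ * g' t (sclL n Λ p)) (fun t p => Λ * f' t (sclL n Λ p))
      (fun t p => Λ⁻¹ * g t (sclL n Λ (F t p))) := by
    apply pairHomotopic_of_left (R := max Rb Rc) (hRb.trans (le_max_left _ _))
      (hPb.mono (le_max_left _ _)) (hPc.mono (le_max_right _ _))
    intro t ht p
    rw [(hT0' t ht _).2, hFid t ht, (hT0 t ht _).2]
  exact ((hs'.trans hmid).trans hφ).trans hsψ.symm

open Topology.Homotopy in
/-- The fibres of the connecting map are the orbits of the group of families of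
symplectomorphisms. -/
theorem deltaMap_eq_iff {k : ℕ} (γ γ' : Ω^ (Fin k) (PairSp n) PairSp.std) :
    deltaMap k n (cls γ) = deltaMap k n (cls γ') ↔
      ∃ (φ : Ω^ (Fin k) (SympCt (n + 1)) 1) (γ'' : Ω^ (Fin k) (PairSp n) PairSp.std),
        (∀ t, γ'' t = (γ t).act (φ t)) ∧ cls γ' = cls γ'' := by
  obtain ⟨R₀, hR₀, hP₀⟩ := posPair_of_continuous γ.1.continuous
  obtain ⟨R₁, hR₁, hP₁⟩ := posPair_of_continuous γ'.1.continuous
  constructor
  · intro hδ
    obtain ⟨e, he⟩ := exists_scatRel γ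
    obtain ⟨e', he'⟩ := exists_scatRel γ'
    rw [deltaMap_cls he, deltaMap_cls he'] at hδ
    have h1 := unloop1_homotopic (cls_exact hδ)
    obtain ⟨φ, hφ1, hφ⟩ := exists_pairHomotopic_act (T0 := Cube.boundary (Fin k))
      (hR₀.trans (le_max_left R₀ R₁)) (hP₀.mono (le_max_left _ _)) (hP₁.mono (le_max_right _ _))
      (fun t ht p => genLoop_std γ ht p) (fun t ht p => genLoop_std γ' ht p)
      (e := unloop1 e) (e' := unloop1 e') he he' h1
    set γ'' : Ω^ (Fin k) (PairSp n) PairSp.std :=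
      ⟨⟨fun t => (γ t).act (φ t), continuous_act_family γ.1.continuous φ.continuous⟩,
        fun t ht => by
          change (γ.1 t).act (φ t) = PairSp.std
          rw [hφ1 t ht, PairSp.act_one]
          exact γ.2 t ht⟩ with hγ''
    refine ⟨⟨φ, hφ1⟩, γ'', fun t => rfl, ?_⟩
    apply Pool.Agent.H50.Susp.cls_eq
    exact homotopicRel_of_pairHomotopic (u := γ'.1) (v := γ''.1) hφ
  · rintro ⟨φ, γ'', hγ'', hcls⟩
    rw [hcls]
    obtain ⟨e, he, heφ⟩ := exists_isScat_act hR₀ hP₀ φ.1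
    have hbd : ∀ q ∈ bd1 k, e q = 1 := by
      rintro ⟨t, τ⟩ (hq | hq)
      · exact he.eq_one hR₀ hP₀ (fun p => (genLoop_std γ hq p).1) τ
      · exact he.eq_one' hR₀ hP₀ t hq
    have hun : (fun q => loop1 e hbd (toCube1 q)) = e := by
      funext q
      exact congrArg (fun g : C((Fin k → I) × I, SympCt n) => g q) (unloop1_loop1 e hbd)
    have h1 : ScatRel γ (loop1 e hbd) := by
      unfold ScatRel
      rw [hun]
      exact he
    have h2 : ScatRel γ'' (loop1 e hbd) := by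
      unfold ScatRel
      rw [hun]
      have h3 : (fun t p => ((γ'' t).1 p).1) = fun t p => ((γ.1 t).1
          ((φ.1 t : Equiv.Perm (Phase (n + 1))) p)).1 := by
        funext t p
        rw [hγ'']
        rfl
      rw [h3]
      exact heφ
    rw [deltaMap_cls h1, deltaMap_cls h2]

end Pool.Agent.H50.Susp
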