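import Mathlib
import Pool.Agent.Helper42.NT.Les

set_option maxSynthPendingDepth 3

open scoped ContDiff Distributions Topology unitInterval
open Set Function TopologicalSpace Filter Topology

namespace Pool.Agent.Helper42

open Pool.Agent.Helper17 Pool.Agent.H50.Susp

variable {n k : ℕ}

/-- Every family of symplectomorphisms has a family of first coordinates. -/
theorem exists_isCoord (φ : LoopG k (n + 1)) : ∃ f : LoopA k n, IsCoord φ f := by
  let g : GenLoop (Fin k) (SympCt (n + 1)) 1 := φ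
  refine ⟨⟨(⟨fun t => pr (pairMap (g.1 t)), continuous_pr.comp
    (continuous_pairMap.comp g.1.continuous)⟩ : C(Fin k → unitInterval, NonTrap n)),
    fun y hy => ?_⟩, fun t p => rfl⟩
  change pr (pairMap (g.1 y)) = NonTrap.std
  rw [g.2 y hy, pairMap_one, pr_std]

/-- Every family of non-trapping Hamiltonians has a scattering. -/
theorem exists_isScattering (f : LoopA k n) : ∃ e : LoopG (k + 1) n, IsScattering f e := by
  let f₀ : GenLoop (Fin k) (NonTrap n) NonTrap.std := f
  obtain ⟨γ, hγ, -⟩ := exists_lift_loop f₀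
  obtain ⟨e, ρ, hρ, hstd, he⟩ := exists_scatRel γ
  have hfun : ∀ t p, ((γ t).1 p).1 = (f₀.1 t).1 p := fun t p =>
    congrArg (fun F : NonTrap n => F.1 p) (hγ t)
  refine ⟨e, ρ, hρ, fun t p hp => ?_, fun t c hc a b τ ha hb hx => ?_⟩
  · change (f₀.1 t).1 p = p (Sum.inl 0)
    rw [← hfun]
    exact hstd t p hp
  · rw [restPt_eq', restPt_eq']
    refine he t c (fun s => ?_) a b τ ha hb hx
    have h1 := hc s
    rw [hamField_eq] at h1
    have h2 : (fun p => ((γ t).1 p).1) = LoopA.at f t := funext (hfun t)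
    exact (congrArg (fun F => HasDerivAt c (hamV F (c s)) s) h2).mpr h1

/-- Every class of `π_{k+2}` has a representative which has a suspension. -/
theorem exists_isSuspension (c : PiG (k + 2) n) :
    ∃ (g : LoopG (k + 2) n) (φ : LoopG k (n + 1)), g.cls = c ∧ IsSuspension g φ := by
  obtain ⟨g₀, rfl⟩ := hmk_surj c
  obtain ⟨γ, hpos, R, h, hr, hh⟩ := exists_isSusp g₀
  have hbd : ∀ q ∈ bd2 k, h q = 1 := by
    rintro ⟨t, z⟩ (ht | hz)
    · exact hr.eq_one_of_eq_one (γ.2 t ht) z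
    · exact hr.eq_one_of_bd t hz
  refine ⟨loop2 h hbd, γ, ?_, fun t p => ?_, R, hr.pos, hr.supp, fun t a b p hx hy => ?_⟩
  · change hmk (loop2 h hbd) = hmk g₀
    have h1 : hmk (loop2 h hbd) = hmk (loop2 (unloop2 g₀) (unloop2_bd g₀)) :=
      (hmk_loop2_eq_iff hbd (unloop2_bd g₀)).2 hh
    rw [h1, loop2_unloop2]
  · exact pos_conv _ _ (hpos t p)
  · have h1 := hr.red t (a, b) p hx hy
    have h2 : (loop2 h hbd : GenLoop (Fin (k + 2)) (SympCt n) 1)
        (Fin.snoc (α := fun _ => unitInterval) (Fin.snoc (α := fun _ => unitInterval) t b) a) =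
        h (t, (a, b)) := by
      change h (fromCube2s (toCube2s (t, (a, b)))) = _
      rw [fromCube2s_toCube2s]
    refine h1.trans ?_
    exact congrArg (fun ψ : SympCt n => (ψ : Equiv.Perm (Phase n)) (wL p)) h2.symm

/-- The pointwise quotient of two families. -/
theorem exists_quot_loop (φ ψ : LoopG k n) : ∃ χ : LoopG k n,
    ∀ t p, φ.at t p = χ.at t (ψ.at t p) := by
  let a : GenLoop (Fin k) (SympCt n) 1 := φ
  let b : GenLoop (Fin k) (SympCt n) 1 := ψ
  refine ⟨divLoop a b, fun t p => ?_⟩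
  change ((a.1 t : SympCt n) : Equiv.Perm (Phase n)) p =
    ((a.1 t * (b.1 t)⁻¹ : SympCt n) : Equiv.Perm (Phase n))
      ((b.1 t : Equiv.Perm (Phase n)) p)
  change _ = ((a.1 t : SympCt n) : Equiv.Perm (Phase n))
    ((((b.1 t)⁻¹ : SympCt n) : Equiv.Perm (Phase n)) ((b.1 t : Equiv.Perm (Phase n)) p))
  rw [SympCt.inv_apply_self]

/-- The action of families of symplectomorphisms on families of non-trapping Hamiltonians. -/
theorem exists_comp_loop (f : LoopA k n) (φ : LoopG k (n + 1)) : ∃ g : LoopA k n,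
    ∀ t p, g.at t p = f.at t (φ.at t p) := by
  let f₀ : GenLoop (Fin k) (NonTrap n) NonTrap.std := f
  let φ₀ : GenLoop (Fin k) (SympCt (n + 1)) 1 := φ
  obtain ⟨γ, hγ, -⟩ := exists_lift_loop f₀
  refine ⟨⟨⟨fun t => pr ((γ.1 t).act (φ₀.1 t)), continuous_pr.comp
    (continuous_act_family γ.1.continuous φ₀.1.continuous)⟩, fun t ht => ?_⟩, fun t p => ?_⟩
  · change pr ((γ.1 t).act (φ₀.1 t)) = NonTrap.std
    rw [γ.2 t ht, φ₀.2 t ht]
    rfl
  · change ((γ.1 t).1 (((φ₀.1 t : SympCt (n + 1)) : Equiv.Perm (Phase (n + 1))) p)).1 =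
      (f₀.1 t).1 (((φ₀.1 t : SympCt (n + 1)) : Equiv.Perm (Phase (n + 1))) p)
    rw [← hγ t]
    rfl

end Pool.Agent.Helper42
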